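import Pool.Agent.Lib.MP_d9bc60_nt.AQ.QDefs

section
/-! Row H01 (about 110 lines): Bonferroni inequalities, pointwise. -/

set_option autoImplicit false

namespace Pool.Agent.Lib.MP_d9bc60_nt.AP

open Finset Pool.Agent.Lib.MP_d9bc60_nt.UV

theorem h01_prod_dvd (B : Finset ℕ) (hB : ∀ p ∈ B, p.Prime) (a : ℕ) (S : Finset ℕ) (hS : S ⊆ B) :
    (∏ p ∈ S, p) ∣ a ↔ ∀ p ∈ S, p ∣ a := by
  constructor
  · intro h p hp
    exact (Finset.dvd_prod_of_mem (fun p => p) hp).trans h
  · intro h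
    have h1 : ∀ p ∈ S, p.Prime := fun p hp => hB p (hS hp)
    have h2 := Finset.prod_primes_dvd (s := S) a (fun p hp => (h1 p hp).prime) h
    simpa using h2

/-- subsets of `B` of size `i` whose product divides `a` -/
theorem h01_cb (B : Finset ℕ) (hB : ∀ p ∈ B, p.Prime) (a m : ℕ) :
    cb m B a = (((B.filter (fun p => p ∣ a)).card.choose m : ℕ) : ℝ) := by
  unfold cb
  rw [← Finset.sum_filter, Finset.sum_const, nsmul_eq_mul, mul_one, ← Finset.card_powersetCard]
  congr 2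
  ext S
  simp only [Finset.mem_filter, Finset.mem_powersetCard]
  constructor
  · rintro ⟨⟨h1, h2⟩, h3⟩
    rw [h01_prod_dvd B hB a S h1] at h3
    exact ⟨fun p hp => Finset.mem_filter.mpr ⟨h1 hp, h3 p hp⟩, h2⟩
  · rintro ⟨h1, h2⟩
    have h4 : S ⊆ B := fun p hp => (Finset.mem_filter.mp (h1 hp)).1
    refine ⟨⟨h4, h2⟩, ?_⟩
    rw [h01_prod_dvd B hB a S h4]
    exact fun p hp => (Finset.mem_filter.mp (h1 hp)).2

theorem h01_sg (B : Finset ℕ) (a K : ℕ) :
    sg K B a = ∑ i ∈ range (K + 1), (-1) ^ i * cb i B a := by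
  unfold sg cb
  have h1 : B.powerset.filter (fun S => S.card ≤ K) =
      (range (K + 1)).biUnion (fun i => B.powersetCard i) := by
    ext S
    simp only [Finset.mem_filter, Finset.mem_powerset, Finset.mem_biUnion, Finset.mem_range,
      Finset.mem_powersetCard]
    constructor
    · rintro ⟨h1, h2⟩
      exact ⟨S.card, by omega, h1, rfl⟩
    · rintro ⟨i, hi, h1, h2⟩
      exact ⟨h1, by omega⟩
  rw [h1, Finset.sum_biUnion]
  · refine Finset.sum_congr rfl fun i _ => ?_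
    rw [Finset.mul_sum]
    refine Finset.sum_congr rfl fun S hS => ?_
    rw [(Finset.mem_powersetCard.mp hS).2]
    split_ifs <;> simp
  · intro i _ j _ hij
    rw [Function.onFun, Finset.disjoint_left]
    intro S hS hS'
    exact hij ((Finset.mem_powersetCard.mp hS).2.symm.trans (Finset.mem_powersetCard.mp hS').2)

/-- the alternating sum of the first binomial coefficients -/
theorem h01_alt (m K : ℕ) :
    ∑ i ∈ range (K + 1), (-1 : ℝ) ^ i * (((m + 1).choose i : ℕ) : ℝ) =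
      (-1) ^ K * ((m.choose K : ℕ) : ℝ) := by
  induction K with
  | zero => simp
  | succ K ih =>
    rw [Finset.sum_range_succ, ih, Nat.choose_succ_succ]
    push_cast
    ring

/-- Proof. Let `m = #{p ∈ B : p ∣ a}`; `∏_{p ∈ S} p ∣ a` iff all `p ∈ S` divide `a` (distinct primes). So
`sg (2k) B a = ∑_{i ≤ 2k} (-1)^i C(m, i)`, which is `1` if `m = 0` and `C(m-1, 2k)` if `m ≥ 1`
(`Int.alternating_sum_range_choose_of_ne`-type identity, induction on `k`), and
`cb (2k+1) B a = C(m, 2k+1) ≥ C(m-1, 2k)`. -/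
theorem sg_bounds (k : ℕ) (B : Finset ℕ) (hB : ∀ p ∈ B, p.Prime) (a : ℕ) :
    (if ∀ p ∈ B, ¬ p ∣ a then (1 : ℝ) else 0) ≤ sg (2 * k) B a ∧
    sg (2 * k) B a ≤ (if ∀ p ∈ B, ¬ p ∣ a then (1 : ℝ) else 0) + cb (2 * k + 1) B a := by
  rw [h01_sg]
  simp only [h01_cb B hB]
  set m := (B.filter (fun p => p ∣ a)).card with hm
  rcases Nat.eq_zero_or_pos m with h0 | h0
  · have h1 : ∀ p ∈ B, ¬ p ∣ a := by
      rw [h0] at hm
      intro p hp hpa
      have : p ∈ B.filter (fun p => p ∣ a) := Finset.mem_filter.mpr ⟨hp, hpa⟩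
      rw [Finset.card_eq_zero.mp hm.symm] at this
      exact absurd this (Finset.notMem_empty p)
    rw [if_pos h1, h0]
    have h2 : ∑ i ∈ range (2 * k + 1), (-1 : ℝ) ^ i * (((0 : ℕ).choose i : ℕ) : ℝ) = 1 := by
      rw [Finset.sum_range_succ']
      simp
    rw [h2]
    simp
  · have h1 : ¬ ∀ p ∈ B, ¬ p ∣ a := by
      intro h
      obtain ⟨p, hp⟩ := Finset.card_pos.mp h0
      exact h p (Finset.mem_filter.mp hp).1 (Finset.mem_filter.mp hp).2
    rw [if_neg h1]
    obtain ⟨m', hm'⟩ : ∃ m', m = m' + 1 := ⟨m - 1, by omega⟩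
    rw [hm', h01_alt, pow_mul]
    norm_num
    rw [Nat.choose_succ_succ]
    exact Nat.le_add_right _ _

end Pool.Agent.Lib.MP_d9bc60_nt.AP
end

section
/-! Row H02 (about 80 lines): the Brun-Hooley inequality, pointwise. -/

set_option autoImplicit false

namespace Pool.Agent.Lib.MP_d9bc60_nt.AP

open Finset Pool.Agent.Lib.MP_d9bc60_nt.UV

/-- Proof. If `0 ≤ δ_j ≤ σ_j ≤ δ_j + c_j` then
`∏ σ_j - ∏ δ_j ≤ ∑_j (σ_j - δ_j) ∏_{i ≠ j} σ_i ≤ ∑_j c_j ∏_{i ≠ j} σ_i` (induction on `t`). -/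
theorem hooley_ineq (t : ℕ) (δ σ c : ℕ → ℝ) (h0 : ∀ j < t, 0 ≤ δ j) (h1 : ∀ j < t, δ j ≤ σ j)
    (h2 : ∀ j < t, σ j ≤ δ j + c j) :
    ∏ j ∈ range t, σ j - ∑ j ∈ range t, c j * ∏ i ∈ (range t).erase j, σ i ≤ ∏ j ∈ range t, δ j := by
  induction t with
  | zero => simp
  | succ n ih =>
    have ih' := ih (fun j hj => h0 j (by omega)) (fun j hj => h1 j (by omega))
      (fun j hj => h2 j (by omega))
    have hs : ∑ j ∈ range (n + 1), c j * ∏ i ∈ (range (n + 1)).erase j, σ i =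
        (∑ j ∈ range n, c j * ∏ i ∈ (range n).erase j, σ i) * σ n + c n * ∏ i ∈ range n, σ i := by
      rw [sum_range_succ]
      congr 1
      · rw [Finset.sum_mul]
        refine Finset.sum_congr rfl fun j hj => ?_
        have hj' : j < n := mem_range.1 hj
        have e : (range (n + 1)).erase j = insert n ((range n).erase j) := by
          ext x
          simp only [mem_erase, mem_range, mem_insert]
          constructor
          · rintro ⟨a, b⟩
            by_cases hx : x = n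
            · left; exact hx
            · right; exact ⟨a, by omega⟩
          · rintro (a | ⟨a, b⟩)
            · subst a; exact ⟨by omega, by omega⟩
            · exact ⟨a, by omega⟩
        rw [e, Finset.prod_insert (by simp)]
        ring
      · have e : (range (n + 1)).erase n = range n := by
          ext x
          simp only [mem_erase, mem_range]
          omega
        rw [e]
    rw [hs, prod_range_succ, prod_range_succ]
    have hd : 0 ≤ ∏ j ∈ range n, δ j := Finset.prod_nonneg fun j hj => h0 j (by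
      have := mem_range.1 hj; omega)
    have hds : ∏ j ∈ range n, δ j ≤ ∏ j ∈ range n, σ j :=
      Finset.prod_le_prod (fun j hj => h0 j (by have := mem_range.1 hj; omega))
        (fun j hj => h1 j (by have := mem_range.1 hj; omega))
    have a0 := h0 n (by omega)
    have a1 := h1 n (by omega)
    have a2 := h2 n (by omega)
    have hσ : 0 ≤ σ n := a0.trans a1
    have hc : 0 ≤ c n := by linarith
    have k1 := mul_le_mul_of_nonneg_right ih' hσ
    have k2 := mul_le_mul_of_nonneg_left a2 hd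
    have k3 := mul_le_mul_of_nonneg_left hds hc
    nlinarith [k1, k2, k3]

theorem bh_point (t : ℕ) (B : ℕ → Finset ℕ) (hB : ∀ j, ∀ p ∈ B j, p.Prime) (k : ℕ → ℕ) (a : ℕ) :
    ∏ j ∈ range t, sg (2 * k j) (B j) a -
      ∑ j ∈ range t, cb (2 * k j + 1) (B j) a *
        ∏ i ∈ (range t).erase j, sg (2 * k i) (B i) a ≤
      if ∀ j < t, ∀ p ∈ B j, ¬ p ∣ a then (1 : ℝ) else 0 := by
  have h := hooley_ineq t (fun j => if ∀ p ∈ B j, ¬ p ∣ a then (1 : ℝ) else 0)
    (fun j => sg (2 * k j) (B j) a) (fun j => cb (2 * k j + 1) (B j) a)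
    (fun j _ => by split_ifs <;> norm_num)
    (fun j _ => (sg_bounds (k j) (B j) (hB j) a).1)
    (fun j _ => (sg_bounds (k j) (B j) (hB j) a).2)
  refine h.trans (le_of_eq ?_)
  by_cases hc : ∀ j < t, ∀ p ∈ B j, ¬ p ∣ a
  · rw [if_pos hc]
    refine Finset.prod_eq_one fun j hj => ?_
    rw [if_pos (hc j (mem_range.1 hj))]
  · rw [if_neg hc]
    push Not at hc
    obtain ⟨j, hj, p, hp, hpa⟩ := hc
    refine Finset.prod_eq_zero (mem_range.2 hj) ?_
    rw [if_neg]
    intro hh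
    exact hh p hp hpa

end Pool.Agent.Lib.MP_d9bc60_nt.AP
end

section
/-! Row H03 (about 170 lines): expansion of products of divisor sums. -/

set_option autoImplicit false

namespace Pool.Agent.Lib.MP_d9bc60_nt.AP

open Finset Pool.Agent.Lib.MP_d9bc60_nt.UV

/-- product of primes divides iff each divides -/
theorem h03_dvd_iff (U : Finset ℕ) (hU : ∀ p ∈ U, p.Prime) (a : ℕ) :
    (∏ p ∈ U, p) ∣ a ↔ ∀ p ∈ U, p ∣ a := by
  constructor
  · intro h p hp
    exact (Finset.dvd_prod_of_mem _ hp).trans h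
  · intro h
    exact Finset.prod_primes_dvd a (fun p hp => (hU p hp).prime) h

theorem h03_nu (ν : ℕ → ℝ) (hν : Dens ν) (U : Finset ℕ) (hU : ∀ p ∈ U, p.Prime) :
    ν (∏ p ∈ U, p) = ∏ p ∈ U, ν p := by
  classical
  induction U using Finset.induction_on with
  | empty => simp [hν.one]
  | insert q U hq ih =>
    rw [Finset.prod_insert hq, Finset.prod_insert hq, hν.mul, ih]
    · intro p hp; exact hU p (Finset.mem_insert_of_mem hp)
    · refine Nat.Coprime.prod_right fun p hp => ?_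
      refine (Nat.coprime_primes (hU q (Finset.mem_insert_self _ _))
        (hU p (Finset.mem_insert_of_mem hp))).2 ?_
      rintro rfl
      exact hq hp

theorem h03_sqf (U : Finset ℕ) (hU : ∀ p ∈ U, p.Prime) : Squarefree (∏ p ∈ U, p) := by
  classical
  induction U using Finset.induction_on with
  | empty => simp
  | insert q U hq ih =>
    rw [Finset.prod_insert hq, Nat.squarefree_mul]
    · exact ⟨(hU q (Finset.mem_insert_self _ _)).prime.squarefree,
        ih fun p hp => hU p (Finset.mem_insert_of_mem hp)⟩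
    · refine Nat.Coprime.prod_right fun p hp => ?_
      refine (Nat.coprime_primes (hU q (Finset.mem_insert_self _ _))
        (hU p (Finset.mem_insert_of_mem hp))).2 ?_
      rintro rfl
      exact hq hp

theorem h03_mem (U : Finset ℕ) (hU : ∀ p ∈ U, p.Prime) (q : ℕ) (hq : q.Prime) :
    q ∣ (∏ p ∈ U, p) ↔ q ∈ U := by
  constructor
  · intro h
    obtain ⟨p, hp, hqp⟩ := (Prime.dvd_finsetProd_iff hq.prime _).1 h
    rw [(Nat.prime_dvd_prime_iff_eq hq (hU p hp)).1 hqp]
    exact hp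
  · intro h; exact Finset.dvd_prod_of_mem _ h

/-- Proof. Expand the product over `J` (`Finset.prod_sum`, `Finset.pi`, or induction on `J` with a general
statement): a choice `(S_j)` gives `d = ∏_j ∏ S_j`, squarefree (disjoint sets of
primes), all divisibility conditions together say `d ∣ a_i` (pairwise coprime
numbers), `∏_j ν(∏ S_j) = ν(d)` (`Dens.mul`), and different choices give different `d`. So the
difference is `∑_choices c · (∑_{i: d ∣ a_i} w_i - ν(d) X)`, of absolute value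
`≤ ∑_{d ∈ Dset z Y} Rem d`. -/
theorem prod_expand {ι : Type*} (I : Finset ι) (w : ι → ℝ) (a : ι → ℕ) (X z Y : ℝ) (ν : ℕ → ℝ)
    (hν : Dens ν) (J : Finset ℕ) (B : ℕ → Finset ℕ)
    (hB : ∀ j ∈ J, ∀ p ∈ B j, p.Prime ∧ 3 ≤ p ∧ (p : ℝ) < z)
    (hdis : ∀ i ∈ J, ∀ j ∈ J, i ≠ j → Disjoint (B i) (B j))
    (F : ℕ → Finset (Finset ℕ)) (hF : ∀ j ∈ J, ∀ S ∈ F j, S ⊆ B j)
    (c : ℕ → Finset ℕ → ℝ) (hc : ∀ j S, |c j S| ≤ 1)
    (hY : ∀ S : ℕ → Finset ℕ, (∀ j ∈ J, S j ∈ F j) → ((∏ j ∈ J, ∏ p ∈ S j, p : ℕ) : ℝ) ≤ Y) :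
    |∑ i ∈ I, w i * ∏ j ∈ J, (∑ S ∈ F j, if (∏ p ∈ S, p) ∣ a i then c j S else 0) -
      X * ∏ j ∈ J, ∑ S ∈ F j, c j S * ν (∏ p ∈ S, p)| ≤
      ∑ d ∈ Dset z Y, Rem I w a X ν d := by
  classical
  -- the choices
  set PS : Finset (∀ _ : J, Finset ℕ) := Fintype.piFinset (fun j : J => F j) with hPS
  set U : (∀ _ : J, Finset ℕ) → Finset ℕ := fun x => Finset.univ.biUnion x with hUdef
  set Dx : (∀ _ : J, Finset ℕ) → ℕ := fun x => ∏ p ∈ U x, p with hDx
  set Cx : (∀ _ : J, Finset ℕ) → ℝ := fun x => ∏ j : J, c j (x j) with hCx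
  have hxF : ∀ x ∈ PS, ∀ j : J, x j ∈ F j := fun x hx j => (Fintype.mem_piFinset.1 hx) j
  have hxB : ∀ x ∈ PS, ∀ j : J, x j ⊆ B j := fun x hx j => hF j j.2 _ (hxF x hx j)
  have hxP : ∀ x ∈ PS, ∀ j : J, ∀ p ∈ x j, p.Prime := fun x hx j p hp =>
    (hB j j.2 p (hxB x hx j hp)).1
  have hUmem : ∀ x p, p ∈ U x ↔ ∃ j : J, p ∈ x j := by
    intro x p
    simp [hUdef]
  have hUP : ∀ x ∈ PS, ∀ p ∈ U x, p.Prime := by
    intro x hx p hp
    obtain ⟨j, hj⟩ := (hUmem x p).1 hp
    exact hxP x hx j p hj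
  have hdisj : ∀ x ∈ PS, (↑(Finset.univ : Finset J) : Set J).PairwiseDisjoint x := by
    intro x hx i _ j _ hij
    have h1 : (i : ℕ) ≠ j := fun h => hij (Subtype.ext h)
    exact Finset.disjoint_of_subset_left (hxB x hx i)
      (Finset.disjoint_of_subset_right (hxB x hx j) (hdis i i.2 j j.2 h1))
  have hDprod : ∀ x ∈ PS, Dx x = ∏ j : J, ∏ p ∈ x j, p := by
    intro x hx
    exact Finset.prod_biUnion (hdisj x hx)
  have hdvd : ∀ x ∈ PS, ∀ n : ℕ, Dx x ∣ n ↔ ∀ j : J, (∏ p ∈ x j, p) ∣ n := by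
    intro x hx n
    rw [hDx]
    simp only
    rw [h03_dvd_iff _ (hUP x hx)]
    constructor
    · intro h j
      rw [h03_dvd_iff _ (hxP x hx j)]
      intro p hp
      exact h p ((hUmem x p).2 ⟨j, hp⟩)
    · intro h p hp
      obtain ⟨j, hj⟩ := (hUmem x p).1 hp
      exact (h03_dvd_iff _ (hxP x hx j) n).1 (h j) p hj
  have hprodif : ∀ x ∈ PS, ∀ n : ℕ, (∏ j : J, if (∏ p ∈ x j, p) ∣ n then c j (x j) else 0) =
      if Dx x ∣ n then Cx x else 0 := by
    intro x hx n
    by_cases h : Dx x ∣ n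
    · rw [if_pos h]
      refine Finset.prod_congr rfl fun j _ => ?_
      rw [if_pos ((hdvd x hx n).1 h j)]
    · rw [if_neg h]
      have h2 : ∃ j : J, ¬ (∏ p ∈ x j, p) ∣ n := by
        by_contra h3
        push Not at h3
        exact h ((hdvd x hx n).2 h3)
      obtain ⟨j, hj⟩ := h2
      exact Finset.prod_eq_zero (Finset.mem_univ j) (by rw [if_neg hj])
  have hnu : ∀ x ∈ PS, (∏ j : J, c j (x j) * ν (∏ p ∈ x j, p)) = Cx x * ν (Dx x) := by
    intro x hx
    rw [Finset.prod_mul_distrib, hDx]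
    simp only
    rw [h03_nu ν hν _ (hUP x hx)]
    congr 1
    rw [hUdef]
    simp only
    rw [Finset.prod_biUnion (hdisj x hx)]
    exact Finset.prod_congr rfl fun j _ => h03_nu ν hν _ (hxP x hx j)
  -- expansion of both products
  have hexp : ∀ n : ℕ, ∏ j ∈ J, (∑ S ∈ F j, if (∏ p ∈ S, p) ∣ n then c j S else 0) =
      ∑ x ∈ PS, if Dx x ∣ n then Cx x else 0 := by
    intro n
    rw [← Finset.prod_coe_sort, Finset.prod_univ_sum]
    exact Finset.sum_congr rfl fun x hx => hprodif x hx n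
  have hexp2 : ∏ j ∈ J, ∑ S ∈ F j, c j S * ν (∏ p ∈ S, p) = ∑ x ∈ PS, Cx x * ν (Dx x) := by
    rw [← Finset.prod_coe_sort, Finset.prod_univ_sum]
    exact Finset.sum_congr rfl fun x hx => hnu x hx
  have hlhs : ∑ i ∈ I, w i * ∏ j ∈ J, (∑ S ∈ F j, if (∏ p ∈ S, p) ∣ a i then c j S else 0) -
      X * ∏ j ∈ J, ∑ S ∈ F j, c j S * ν (∏ p ∈ S, p) =
      ∑ x ∈ PS, Cx x * (∑ i ∈ I.filter (fun i => Dx x ∣ a i), w i - ν (Dx x) * X) := by
    rw [hexp2]
    have h1 : ∑ i ∈ I, w i * ∏ j ∈ J, (∑ S ∈ F j, if (∏ p ∈ S, p) ∣ a i then c j S else 0) =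
        ∑ x ∈ PS, Cx x * ∑ i ∈ I.filter (fun i => Dx x ∣ a i), w i := by
      rw [Finset.sum_congr rfl fun i _ => by rw [hexp (a i), Finset.mul_sum], Finset.sum_comm]
      refine Finset.sum_congr rfl fun x _ => ?_
      rw [Finset.sum_filter, Finset.mul_sum]
      refine Finset.sum_congr rfl fun i _ => ?_
      split_ifs <;> ring
    rw [h1, Finset.mul_sum, ← Finset.sum_sub_distrib]
    exact Finset.sum_congr rfl fun x _ => by ring
  rw [hlhs]
  have hCle : ∀ x, |Cx x| ≤ 1 := by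
    intro x
    rw [hCx]
    simp only
    rw [Finset.abs_prod]
    exact Finset.prod_le_one (fun j _ => abs_nonneg _) (fun j _ => hc _ _)
  have hRem0 : ∀ d, 0 ≤ Rem I w a X ν d := fun d => abs_nonneg _
  have h1 : |∑ x ∈ PS, Cx x * (∑ i ∈ I.filter (fun i => Dx x ∣ a i), w i - ν (Dx x) * X)| ≤
      ∑ x ∈ PS, Rem I w a X ν (Dx x) := by
    refine (Finset.abs_sum_le_sum_abs _ _).trans (Finset.sum_le_sum fun x _ => ?_)
    rw [abs_mul]
    exact mul_le_of_le_one_left (abs_nonneg _) (hCle x)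
  refine h1.trans ?_
  -- injectivity
  have hinj : ∀ x ∈ PS, ∀ y ∈ PS, Dx x = Dx y → x = y := by
    intro x hx y hy hxy
    have hsub : ∀ x ∈ PS, ∀ y ∈ PS, Dx x = Dx y → ∀ j : J, ∀ p ∈ x j, p ∈ y j := by
      intro x hx y hy hxy j p hp
      have hpp := hxP x hx j p hp
      have h2 : p ∈ U x := (hUmem x p).2 ⟨j, hp⟩
      have h3 : p ∣ Dx x := (h03_mem _ (hUP x hx) p hpp).2 h2
      rw [hxy] at h3
      have h4 : p ∈ U y := (h03_mem _ (hUP y hy) p hpp).1 h3
      obtain ⟨k, hk⟩ := (hUmem y p).1 h4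
      by_cases hjk : j = k
      · rw [hjk]; exact hk
      · exfalso
        have h5 : (j : ℕ) ≠ k := fun h => hjk (Subtype.ext h)
        exact Finset.disjoint_left.1 (hdis j j.2 k k.2 h5) (hxB x hx j hp) (hxB y hy k hk)
    funext j
    exact Finset.Subset.antisymm (hsub x hx y hy hxy j) (hsub y hy x hx hxy.symm j)
  rw [← Finset.sum_image (f := fun d => Rem I w a X ν d) (g := Dx)
    (fun x hx y hy h => hinj x hx y hy h)]
  refine Finset.sum_le_sum_of_subset_of_nonneg ?_ (fun d _ _ => hRem0 d)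
  intro d hd
  obtain ⟨x, hx, rfl⟩ := Finset.mem_image.1 hd
  unfold Dset
  rw [Finset.mem_filter, Finset.mem_Icc]
  refine ⟨⟨?_, ?_⟩, h03_sqf _ (hUP x hx), ?_⟩
  · exact Finset.prod_pos fun p hp => (hUP x hx p hp).pos
  · apply Nat.le_floor
    have h2 := hY (fun j => if h : j ∈ J then x ⟨j, h⟩ else ∅) (fun j hj => by
      simp only [hj, dite_true]
      exact hxF x hx ⟨j, hj⟩)
    refine le_trans (le_of_eq ?_) h2
    congr 1
    rw [hDprod x hx, ← Finset.prod_coe_sort J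
      (fun j => ∏ p ∈ (if h : j ∈ J then x ⟨j, h⟩ else ∅), p)]
    refine Finset.prod_congr rfl fun j _ => ?_
    simp
  · intro p hp hpd
    have h2 := (h03_mem _ (hUP x hx) p hp).1 hpd
    obtain ⟨j, hj⟩ := (hUmem x p).1 h2
    exact (hB j j.2 p (hxB x hx j hj)).2

end Pool.Agent.Lib.MP_d9bc60_nt.AP
end

section
/-! Row H04 (about 110 lines): the main terms of one block. -/

set_option autoImplicit false

namespace Pool.Agent.Lib.MP_d9bc60_nt.AP

open Finset Pool.Agent.Lib.MP_d9bc60_nt.UV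

/-- Proof. `ν(∏_{p ∈ S} p) = ∏_{p ∈ S} ν(p)` (`Dens.mul`, `Dens.one`). -/
theorem nu_prod (ν : ℕ → ℝ) (hν : Dens ν) (S : Finset ℕ) (hS : ∀ p ∈ S, p.Prime) :
    ν (∏ p ∈ S, p) = ∏ p ∈ S, ν p := by
  classical
  induction S using Finset.induction_on with
  | empty => simp [hν.one]
  | insert q S hq ih =>
    rw [Finset.prod_insert hq, Finset.prod_insert hq, hν.mul, ih fun p hp => hS p (mem_insert_of_mem hp)]
    refine Nat.Coprime.prod_right fun p hp => ?_
    exact (Nat.coprime_primes (hS q (mem_insert_self _ _)) (hS p (mem_insert_of_mem hp))).2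
      (fun e => hq (e ▸ hp))

/-- Proof. `ν 3 ≤ 1/2`, `ν p ≤ 2/(p-1) ≤ 1/2` for `p ≥ 5`. -/
theorem nu_le_half (ν : ℕ → ℝ) (hν : Dens ν) (p : ℕ) (hp : p.Prime) (h3 : 3 ≤ p) : ν p ≤ 1 / 2 := by
  by_cases h : p = 3
  · rw [h]; exact hν.three
  · have h5 : 5 ≤ p := by
      by_contra h5
      have h4 : p = 4 := by omega
      rw [h4] at hp
      revert hp; norm_num
    refine (hν.le p hp h5).trans ?_
    have : (5 : ℝ) ≤ p := by exact_mod_cast h5
    rw [div_le_div_iff₀ (by linarith) (by norm_num)]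
    linarith

/-- The truncated alternating sum. -/
private noncomputable def h04_M (x : ℕ → ℝ) (K : ℕ) (B : Finset ℕ) : ℝ :=
  ∑ S ∈ B.powerset.filter (fun S => S.card < K), (-1) ^ S.card * ∏ p ∈ S, x p

private lemma h04_zero (x : ℕ → ℝ) (B : Finset ℕ) : h04_M x 0 B = 0 := by
  simp [h04_M]

private lemma h04_insert (x : ℕ → ℝ) (K : ℕ) (B : Finset ℕ) (q : ℕ) (hq : q ∉ B) :
    h04_M x (K + 1) (insert q B) = h04_M x (K + 1) B - x q * h04_M x K B := by
  classical
  have key : ∀ K : ℕ, ∀ B : Finset ℕ, h04_M x K B =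
      ∑ S ∈ B.powerset, if S.card < K then (-1) ^ S.card * ∏ p ∈ S, x p else 0 := by
    intro K B
    rw [h04_M, Finset.sum_filter]
  rw [key, key, key, Finset.sum_powerset_insert hq, Finset.mul_sum, sub_eq_add_neg,
    ← Finset.sum_neg_distrib]
  congr 1
  refine Finset.sum_congr rfl fun S hS => ?_
  have hqS : q ∉ S := fun h => hq (Finset.mem_powerset.1 hS h)
  rw [Finset.card_insert_of_notMem hqS, Finset.prod_insert hqS]
  by_cases h : S.card < K
  · rw [if_pos h, if_pos (by omega)]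
    ring
  · rw [if_neg h, if_neg (by omega)]
    ring

private lemma h04_main (x : ℕ → ℝ) (B : Finset ℕ) (h0 : ∀ p ∈ B, 0 ≤ x p) (h1 : ∀ p ∈ B, x p ≤ 1) :
    ∀ k : ℕ, ∏ p ∈ B, (1 - x p) ≤ h04_M x (2 * k + 1) B ∧ h04_M x (2 * k) B ≤ ∏ p ∈ B, (1 - x p) := by
  classical
  induction B using Finset.induction_on with
  | empty =>
    intro k
    constructor
    · simp [h04_M, Finset.filter_singleton]
    · by_cases hk : k = 0
      · subst hk; simp [h04_M]
      · have : (0 : ℕ) < 2 * k := by omega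
        simp [h04_M, Finset.filter_singleton, this]
  | insert q B hq ih =>
    have ih' := ih (fun p hp => h0 p (mem_insert_of_mem hp)) (fun p hp => h1 p (mem_insert_of_mem hp))
    have q0 := h0 q (mem_insert_self _ _)
    have q1 := h1 q (mem_insert_self _ _)
    have hV : 0 ≤ ∏ p ∈ B, (1 - x p) := Finset.prod_nonneg fun p hp => by
      have := h1 p (mem_insert_of_mem hp); linarith
    intro k
    rw [Finset.prod_insert hq]
    constructor
    · rw [h04_insert x (2 * k) B q hq]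
      have a := (ih' k).1
      have b := mul_le_mul_of_nonneg_left (ih' k).2 q0
      linarith
    · rcases k with _ | k
      · rw [Nat.mul_zero, h04_zero]
        exact mul_nonneg (by linarith) hV
      · have e : 2 * (k + 1) = (2 * k + 1) + 1 := by ring
        rw [e, h04_insert x (2 * k + 1) B q hq, ← e]
        have a := (ih' (k + 1)).2
        have b := mul_le_mul_of_nonneg_left (ih' k).1 q0
        linarith

/-- Proof (Bonferroni with weights). Let `x_p = ν(p) ∈ [0,1]`. `M_K(B) = ∑_{|S| ≤ K} (-1)^|S| x_S` satisfies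
`M_K(B ∪ {q}) = M_K(B) - x_q M_{K-1}(B)`; induction on `B` (for all `K`, with `M_{-1} = 0`) shows
`M_{2k} ≥ V ≥ M_{2k+1}`, and `M_{2k} - T_{2k+1} = M_{2k+1} ≤ V`. -/
theorem block_bounds (ν : ℕ → ℝ) (hν : Dens ν) (B : Finset ℕ) (hB : ∀ p ∈ B, p.Prime ∧ 3 ≤ p) (k : ℕ) :
    ∏ p ∈ B, (1 - ν p) ≤
      ∑ S ∈ B.powerset.filter (fun S => S.card ≤ 2 * k), (-1) ^ S.card * ν (∏ p ∈ S, p) ∧
    ∑ S ∈ B.powerset.filter (fun S => S.card ≤ 2 * k), (-1) ^ S.card * ν (∏ p ∈ S, p) ≤
      ∏ p ∈ B, (1 - ν p) + ∑ S ∈ B.powersetCard (2 * k + 1), ν (∏ p ∈ S, p) := by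
  classical
  have hx0 : ∀ p ∈ B, 0 ≤ ν p := fun p _ => hν.nonneg p
  have hx1 : ∀ p ∈ B, ν p ≤ 1 := fun p hp =>
    (nu_le_half ν hν p (hB p hp).1 (hB p hp).2).trans (by norm_num)
  have hM : ∀ S ∈ B.powerset, ν (∏ p ∈ S, p) = ∏ p ∈ S, ν p := fun S hS =>
    nu_prod ν hν S fun p hp => (hB p (Finset.mem_powerset.1 hS hp)).1
  have e1 : ∑ S ∈ B.powerset.filter (fun S => S.card ≤ 2 * k), (-1) ^ S.card * ν (∏ p ∈ S, p) =
      h04_M ν (2 * k + 1) B := by
    rw [h04_M]
    have : B.powerset.filter (fun S => S.card ≤ 2 * k) =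
        B.powerset.filter (fun S => S.card < 2 * k + 1) := by
      refine Finset.filter_congr fun S _ => ?_
      omega
    rw [this]
    refine Finset.sum_congr rfl fun S hS => ?_
    rw [hM S (Finset.mem_filter.1 hS).1]
  have e2 : h04_M ν (2 * (k + 1)) B = h04_M ν (2 * k + 1) B -
      ∑ S ∈ B.powersetCard (2 * k + 1), ν (∏ p ∈ S, p) := by
    have hs : B.powerset.filter (fun S => S.card < 2 * (k + 1)) =
        B.powerset.filter (fun S => S.card < 2 * k + 1) ∪ B.powersetCard (2 * k + 1) := by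
      ext S
      simp only [Finset.mem_filter, Finset.mem_union, Finset.mem_powersetCard, Finset.mem_powerset]
      constructor
      · rintro ⟨a, b⟩
        by_cases h : S.card < 2 * k + 1
        · exact Or.inl ⟨a, h⟩
        · exact Or.inr ⟨a, by omega⟩
      · rintro (⟨a, b⟩ | ⟨a, b⟩)
        · exact ⟨a, by omega⟩
        · exact ⟨a, by omega⟩
    have hd : Disjoint (B.powerset.filter (fun S => S.card < 2 * k + 1)) (B.powersetCard (2 * k + 1)) := by
      rw [Finset.disjoint_left]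
      intro S h1 h2
      have a := (Finset.mem_filter.1 h1).2
      have b := (Finset.mem_powersetCard.1 h2).2
      omega
    rw [h04_M, hs, Finset.sum_union hd, h04_M, sub_eq_add_neg, ← Finset.sum_neg_distrib]
    congr 1
    refine Finset.sum_congr rfl fun S hS => ?_
    have hS' := Finset.mem_powersetCard.1 hS
    rw [hM S (Finset.mem_powerset.2 hS'.1), hS'.2, Odd.neg_one_pow ⟨k, rfl⟩]
    ring
  rw [e1]
  refine ⟨(h04_main ν B hx0 hx1 k).1, ?_⟩
  have := (h04_main ν B hx0 hx1 (k + 1)).2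
  rw [e2] at this
  linarith

end Pool.Agent.Lib.MP_d9bc60_nt.AP
end

section
/-! Row H05 (about 60 lines): elementary symmetric functions. -/

set_option autoImplicit false

namespace Pool.Agent.Lib.MP_d9bc60_nt.AP

open Finset Pool.Agent.Lib.MP_d9bc60_nt.UV

private lemma h05_pow (s x : ℝ) (hs : 0 ≤ s) (hx : 0 ≤ x) (m : ℕ) :
    s ^ (m + 1) + ((m : ℝ) + 1) * s ^ m * x ≤ (s + x) ^ (m + 1) := by
  induction m with
  | zero => simp
  | succ n ih =>
    have h := mul_le_mul_of_nonneg_left ih (add_nonneg hs hx)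
    have e : (s + x) * (s + x) ^ (n + 1) = (s + x) ^ (n + 1 + 1) := by ring
    rw [e] at h
    refine le_trans ?_ h
    push_cast
    have h2 : 0 ≤ ((n : ℝ) + 1) * s ^ n * x ^ 2 := by positivity
    have e3 : (s + x) * (s ^ (n + 1) + ((n : ℝ) + 1) * s ^ n * x) =
        s ^ (n + 1 + 1) + ((n : ℝ) + 1 + 1) * s ^ (n + 1) * x + ((n : ℝ) + 1) * s ^ n * x ^ 2 := by ring
    rw [e3]
    linarith

private lemma h05_main (x : ℕ → ℝ) (B : Finset ℕ) (h0 : ∀ p ∈ B, 0 ≤ x p) :
    ∀ m : ℕ, ∑ S ∈ B.powersetCard m, ∏ p ∈ S, x p ≤ (∑ p ∈ B, x p) ^ m / m.factorial := by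
  classical
  induction B using Finset.induction_on with
  | empty =>
    intro m
    rcases m with _ | m
    · simp
    · rw [Finset.powersetCard_eq_empty.2 (by simp)]
      simp
  | insert q B hq ih =>
    have ih' := ih (fun p hp => h0 p (mem_insert_of_mem hp))
    have q0 := h0 q (mem_insert_self _ _)
    have hs : 0 ≤ ∑ p ∈ B, x p := Finset.sum_nonneg fun p hp => h0 p (mem_insert_of_mem hp)
    intro m
    rcases m with _ | m
    · simp
    · rw [Finset.powersetCard_succ_insert hq, Finset.sum_union, Finset.sum_image]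
      · have e : ∑ S ∈ B.powersetCard m, ∏ p ∈ insert q S, x p =
            x q * ∑ S ∈ B.powersetCard m, ∏ p ∈ S, x p := by
          rw [Finset.mul_sum]
          refine Finset.sum_congr rfl fun S hS => ?_
          rw [Finset.prod_insert]
          exact fun h => hq ((Finset.mem_powersetCard.1 hS).1 h)
        rw [e, Finset.sum_insert hq]
        have a := ih' (m + 1)
        have b := mul_le_mul_of_nonneg_left (ih' m) q0
        have c := h05_pow (∑ p ∈ B, x p) (x q) hs q0 m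
        have hf : (0 : ℝ) < ((m + 1).factorial : ℝ) := by exact_mod_cast Nat.factorial_pos _
        have hf' : (0 : ℝ) < (m.factorial : ℝ) := by exact_mod_cast Nat.factorial_pos _
        refine (add_le_add a b).trans ?_
        rw [add_comm (x q)]
        refine le_trans (le_of_eq ?_) (div_le_div_of_nonneg_right c hf.le)
        rw [Nat.factorial_succ]
        push_cast
        have hm : (m : ℝ) + 1 ≠ 0 := by positivity
        field_simp
      · intro S hS T hT h
        have h1 : q ∉ S := fun h => hq ((Finset.mem_powersetCard.1 hS).1 h)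
        have h2 : q ∉ T := fun h => hq ((Finset.mem_powersetCard.1 hT).1 h)
        rw [← Finset.erase_insert h1, ← Finset.erase_insert h2, h]
      · rw [Finset.disjoint_left]
        intro S hS hT
        obtain ⟨T, _, rfl⟩ := Finset.mem_image.1 hT
        exact hq ((Finset.mem_powersetCard.1 hS).1 (mem_insert_self _ _))

/-- Proof. `m! e_m(x) ≤ (∑ x)^m` for nonnegative `x`: induction on `m`,
`(m+1) e_{m+1} ≤ e_m e_1` (or the multinomial theorem, `Finset.sum_pow_eq_sum_piAntidiag`; induction on `B`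
also works). -/
theorem esymm_le (ν : ℕ → ℝ) (hν : Dens ν) (B : Finset ℕ) (hB : ∀ p ∈ B, p.Prime) (m : ℕ) :
    ∑ S ∈ B.powersetCard m, ν (∏ p ∈ S, p) ≤ (∑ p ∈ B, ν p) ^ m / m.factorial := by
  refine le_trans (le_of_eq ?_) (h05_main ν B (fun p _ => hν.nonneg p) m)
  refine Finset.sum_congr rfl fun S hS => ?_
  exact nu_prod ν hν S fun p hp => hB p ((Finset.mem_powersetCard.1 hS).1 hp)

end Pool.Agent.Lib.MP_d9bc60_nt.AP
end

section
/-! Row H06 (about 60 lines): the main term of the Brun-Hooley sieve. -/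

set_option autoImplicit false

namespace Pool.Agent.Lib.MP_d9bc60_nt.AP

open Finset Pool.Agent.Lib.MP_d9bc60_nt.UV

/-- Proof. The left bracket is `∏ M_j (1 - ∑ T_j/M_j) ≥ ∏ M_j (1 - ∑ T_j/V_j) ≥ ∏ V_j (1 - ∑ T_j/V_j)`. -/
theorem bh_main (t : ℕ) (M V T : ℕ → ℝ) (hV : ∀ j < t, 0 < V j) (hM : ∀ j < t, V j ≤ M j)
    (hT : ∀ j < t, 0 ≤ T j) (hs : ∑ j ∈ range t, T j / V j ≤ 1) :
    (∏ j ∈ range t, V j) * (1 - ∑ j ∈ range t, T j / V j) ≤
      ∏ j ∈ range t, M j - ∑ j ∈ range t, T j * ∏ i ∈ (range t).erase j, M i := by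
  have hM0 : ∀ j < t, 0 < M j := fun j hj => (hV j hj).trans_le (hM j hj)
  have h1 : ∑ j ∈ range t, T j * ∏ i ∈ (range t).erase j, M i =
      (∏ j ∈ range t, M j) * ∑ j ∈ range t, T j / M j := by
    rw [Finset.mul_sum]
    refine Finset.sum_congr rfl fun j hj => ?_
    have h2 : M j * ∏ i ∈ (range t).erase j, M i = ∏ i ∈ range t, M i :=
      Finset.mul_prod_erase (range t) M hj
    have h3 : M j ≠ 0 := (hM0 j (Finset.mem_range.mp hj)).ne'
    rw [← h2]
    field_simp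
  have h4 : ∑ j ∈ range t, T j / M j ≤ ∑ j ∈ range t, T j / V j := by
    refine Finset.sum_le_sum fun j hj => ?_
    have hj' := Finset.mem_range.mp hj
    exact div_le_div_of_nonneg_left (hT j hj') (hV j hj') (hM j hj')
  have h5 : ∏ j ∈ range t, V j ≤ ∏ j ∈ range t, M j :=
    Finset.prod_le_prod (fun j hj => (hV j (Finset.mem_range.mp hj)).le)
      (fun j hj => hM j (Finset.mem_range.mp hj))
  have h6 : 0 ≤ ∏ j ∈ range t, M j :=
    Finset.prod_nonneg fun j hj => (hM0 j (Finset.mem_range.mp hj)).le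
  rw [h1]
  have h7 : 0 ≤ 1 - ∑ j ∈ range t, T j / V j := by linarith
  calc (∏ j ∈ range t, V j) * (1 - ∑ j ∈ range t, T j / V j)
      ≤ (∏ j ∈ range t, M j) * (1 - ∑ j ∈ range t, T j / V j) :=
        mul_le_mul_of_nonneg_right h5 h7
    _ ≤ (∏ j ∈ range t, M j) * (1 - ∑ j ∈ range t, T j / M j) :=
        mul_le_mul_of_nonneg_left (by linarith) h6
    _ = _ := by ring

end Pool.Agent.Lib.MP_d9bc60_nt.AP
end

section
/-! Row H07 (about 170 lines): the Brun-Hooley lower bound. -/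

set_option autoImplicit false

namespace Pool.Agent.Lib.MP_d9bc60_nt.AP

open Finset Pool.Agent.Lib.MP_d9bc60_nt.UV

/-- the families: `j₀` is the special block -/
noncomputable def h07_F (B : ℕ → Finset ℕ) (k : ℕ → ℕ) (j₀ j : ℕ) : Finset (Finset ℕ) :=
  if j = j₀ then (B j).powersetCard (2 * k j + 1)
  else (B j).powerset.filter (fun S => S.card ≤ 2 * k j)

/-- the coefficients -/
noncomputable def h07_c (j₀ j : ℕ) (S : Finset ℕ) : ℝ := if j = j₀ then 1 else (-1) ^ S.card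

theorem h07_sub (B : ℕ → Finset ℕ) (k : ℕ → ℕ) (j₀ j : ℕ) (S : Finset ℕ) (hS : S ∈ h07_F B k j₀ j) :
    S ⊆ B j ∧ S.card ≤ if j = j₀ then 2 * k j + 1 else 2 * k j := by
  unfold h07_F at hS
  by_cases h : j = j₀
  · rw [if_pos h] at hS
    rw [if_pos h]
    obtain ⟨h1, h2⟩ := Finset.mem_powersetCard.1 hS
    exact ⟨h1, h2.le⟩
  · rw [if_neg h] at hS
    rw [if_neg h]
    obtain ⟨h1, h2⟩ := Finset.mem_filter.1 hS
    exact ⟨Finset.mem_powerset.1 h1, h2⟩

theorem h07_abs (j₀ j : ℕ) (S : Finset ℕ) : |h07_c j₀ j S| ≤ 1 := by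
  unfold h07_c
  split_ifs
  · simp
  · rw [abs_pow, abs_neg, abs_one, one_pow]

/-- the value of one block -/
theorem h07_block (B : ℕ → Finset ℕ) (k : ℕ → ℕ) (j₀ j a : ℕ) :
    (∑ S ∈ h07_F B k j₀ j, if (∏ p ∈ S, p) ∣ a then h07_c j₀ j S else 0) =
      if j = j₀ then cb (2 * k j + 1) (B j) a else sg (2 * k j) (B j) a := by
  unfold h07_F h07_c
  by_cases h : j = j₀
  · simp only [if_pos h]
    rw [cb]
  · simp only [if_neg h]
    rw [sg]

theorem h07_mblock (ν : ℕ → ℝ) (B : ℕ → Finset ℕ) (k : ℕ → ℕ) (j₀ j : ℕ) :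
    (∑ S ∈ h07_F B k j₀ j, h07_c j₀ j S * ν (∏ p ∈ S, p)) =
      if j = j₀ then ∑ S ∈ (B j).powersetCard (2 * k j + 1), ν (∏ p ∈ S, p)
      else ∑ S ∈ (B j).powerset.filter (fun S => S.card ≤ 2 * k j), (-1) ^ S.card * ν (∏ p ∈ S, p) := by
  unfold h07_F h07_c
  by_cases h : j = j₀
  · simp only [if_pos h, one_mul]
  · simp only [if_neg h]

theorem h07_expand {ι : Type*} (I : Finset ι) (w : ι → ℝ) (a : ι → ℕ) (X z Y : ℝ)
    (ν : ℕ → ℝ) (hν : Dens ν) (t : ℕ) (B : ℕ → Finset ℕ)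
    (hB : ∀ j, ∀ p ∈ B j, p.Prime ∧ 3 ≤ p ∧ (p : ℝ) < z)
    (hdis : ∀ i j, i ≠ j → Disjoint (B i) (B j)) (k : ℕ → ℕ)
    (hY : ∀ (S : ℕ → Finset ℕ) (j₀ : ℕ), (∀ j, S j ⊆ B j) →
      (∀ j < t, (S j).card ≤ if j = j₀ then 2 * k j + 1 else 2 * k j) →
      ((∏ j ∈ range t, ∏ p ∈ S j, p : ℕ) : ℝ) ≤ Y) (j₀ : ℕ) :
    |∑ i ∈ I, w i * ∏ j ∈ range t,
        (if j = j₀ then cb (2 * k j + 1) (B j) (a i) else sg (2 * k j) (B j) (a i)) -
      X * ∏ j ∈ range t, (if j = j₀ then ∑ S ∈ (B j).powersetCard (2 * k j + 1), ν (∏ p ∈ S, p)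
        else ∑ S ∈ (B j).powerset.filter (fun S => S.card ≤ 2 * k j),
          (-1) ^ S.card * ν (∏ p ∈ S, p))| ≤
      ∑ d ∈ Dset z Y, Rem I w a X ν d := by
  have h := prod_expand I w a X z Y ν hν (range t) B (fun j _ => hB j) (fun i _ j _ => hdis i j)
    (h07_F B k j₀) (fun j _ S hS => (h07_sub B k j₀ j S hS).1) (h07_c j₀) (h07_abs j₀) (by
      intro S hS
      have h1 := hY (fun j => if j < t then S j else ∅) j₀ (by
        intro j
        by_cases hj : j < t
        · rw [if_pos hj]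
          exact (h07_sub B k j₀ j _ (hS j (Finset.mem_range.2 hj))).1
        · rw [if_neg hj]
          exact Finset.empty_subset _) (by
        intro j hj
        simp only [if_pos hj]
        exact (h07_sub B k j₀ j _ (hS j (Finset.mem_range.2 hj))).2)
      refine le_trans (le_of_eq ?_) h1
      congr 1
      refine Finset.prod_congr rfl fun j hj => ?_
      simp only [if_pos (Finset.mem_range.1 hj)])
  simp_rw [h07_block, h07_mblock] at h
  exact h

/-- Proof. Sum `bh_point` at `a_i` with weights `w_i ≥ 0`. The first product and each of the `t` others is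
evaluated by `prod_expand` (`J = range t`; `sg` is the sum over the subsets with at most `2k_j` elements with
`c = (-1)^|S|`; for the `j`-th term the family at `j` is `powersetCard (2k_j+1)` with `c = 1`), so
`S ≥ X [∏ M_j - ∑_j T_j ∏_{i≠j} M_i] - (t+1) ∑ Rem`; then `bh_main` with `block_bounds`, `nu_le_half`. -/
theorem bh_lower {ι : Type*} (I : Finset ι) (w : ι → ℝ) (hw : ∀ i, 0 ≤ w i) (a : ι → ℕ) (X z Y : ℝ)
    (hX : 0 ≤ X) (ν : ℕ → ℝ) (hν : Dens ν) (t : ℕ) (B : ℕ → Finset ℕ)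
    (hB : ∀ j, ∀ p ∈ B j, p.Prime ∧ 3 ≤ p ∧ (p : ℝ) < z)
    (hdis : ∀ i j, i ≠ j → Disjoint (B i) (B j)) (k : ℕ → ℕ)
    (hY : ∀ (S : ℕ → Finset ℕ) (j₀ : ℕ), (∀ j, S j ⊆ B j) →
      (∀ j < t, (S j).card ≤ if j = j₀ then 2 * k j + 1 else 2 * k j) →
      ((∏ j ∈ range t, ∏ p ∈ S j, p : ℕ) : ℝ) ≤ Y)
    (hsum : ∑ j ∈ range t, (∑ S ∈ (B j).powersetCard (2 * k j + 1), ν (∏ p ∈ S, p)) /
      ∏ p ∈ B j, (1 - ν p) ≤ 1) :
    X * (∏ j ∈ range t, ∏ p ∈ B j, (1 - ν p)) *
      (1 - ∑ j ∈ range t, (∑ S ∈ (B j).powersetCard (2 * k j + 1), ν (∏ p ∈ S, p)) /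
        ∏ p ∈ B j, (1 - ν p)) - (t + 1) * ∑ d ∈ Dset z Y, Rem I w a X ν d ≤
      ∑ i ∈ I.filter (fun i => ∀ j < t, ∀ p ∈ B j, ¬ p ∣ a i), w i := by
  classical
  set E : ℝ := ∑ d ∈ Dset z Y, Rem I w a X ν d with hE
  set M : ℕ → ℝ := fun j => ∑ S ∈ (B j).powerset.filter (fun S => S.card ≤ 2 * k j),
    (-1) ^ S.card * ν (∏ p ∈ S, p) with hM
  set T : ℕ → ℝ := fun j => ∑ S ∈ (B j).powersetCard (2 * k j + 1), ν (∏ p ∈ S, p) with hT
  set V : ℕ → ℝ := fun j => ∏ p ∈ B j, (1 - ν p) with hV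
  set s : ι → ℕ → ℝ := fun i j => sg (2 * k j) (B j) (a i) with hs
  set u : ι → ℕ → ℝ := fun i j => cb (2 * k j + 1) (B j) (a i) with hu
  have hexp := h07_expand I w a X z Y ν hν t B hB hdis k hY
  -- the main product
  have h1 : X * ∏ j ∈ range t, M j - E ≤ ∑ i ∈ I, w i * ∏ j ∈ range t, s i j := by
    have h := (abs_le.1 (hexp t)).1
    have h2 : ∑ i ∈ I, w i * ∏ j ∈ range t,
        (if j = t then cb (2 * k j + 1) (B j) (a i) else sg (2 * k j) (B j) (a i)) =
        ∑ i ∈ I, w i * ∏ j ∈ range t, s i j := by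
      refine Finset.sum_congr rfl fun i _ => ?_
      congr 1
      refine Finset.prod_congr rfl fun j hj => ?_
      rw [if_neg (Finset.mem_range.1 hj).ne]
    have h3 : ∏ j ∈ range t, (if j = t then ∑ S ∈ (B j).powersetCard (2 * k j + 1), ν (∏ p ∈ S, p)
        else ∑ S ∈ (B j).powerset.filter (fun S => S.card ≤ 2 * k j),
          (-1) ^ S.card * ν (∏ p ∈ S, p)) = ∏ j ∈ range t, M j := by
      refine Finset.prod_congr rfl fun j hj => ?_
      rw [if_neg (Finset.mem_range.1 hj).ne]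
    rw [h2, h3] at h
    linarith
  -- the other products
  have h4 : ∀ j₀ ∈ range t, ∑ i ∈ I, w i * (u i j₀ * ∏ j ∈ (range t).erase j₀, s i j) ≤
      X * (T j₀ * ∏ j ∈ (range t).erase j₀, M j) + E := by
    intro j₀ hj₀
    have h := (abs_le.1 (hexp j₀)).2
    have h2 : ∑ i ∈ I, w i * ∏ j ∈ range t,
        (if j = j₀ then cb (2 * k j + 1) (B j) (a i) else sg (2 * k j) (B j) (a i)) =
        ∑ i ∈ I, w i * (u i j₀ * ∏ j ∈ (range t).erase j₀, s i j) := by
      refine Finset.sum_congr rfl fun i _ => ?_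
      congr 1
      rw [← Finset.mul_prod_erase _ _ hj₀, if_pos rfl]
      congr 1
      refine Finset.prod_congr rfl fun j hj => ?_
      rw [if_neg (Finset.mem_erase.1 hj).1]
    have h3 : ∏ j ∈ range t, (if j = j₀ then ∑ S ∈ (B j).powersetCard (2 * k j + 1), ν (∏ p ∈ S, p)
        else ∑ S ∈ (B j).powerset.filter (fun S => S.card ≤ 2 * k j),
          (-1) ^ S.card * ν (∏ p ∈ S, p)) = T j₀ * ∏ j ∈ (range t).erase j₀, M j := by
      rw [← Finset.mul_prod_erase _ _ hj₀, if_pos rfl]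
      congr 1
      refine Finset.prod_congr rfl fun j hj => ?_
      rw [if_neg (Finset.mem_erase.1 hj).1]
    rw [h2, h3] at h
    linarith
  -- pointwise inequality
  have h5 : ∑ i ∈ I, w i * (∏ j ∈ range t, s i j -
      ∑ j ∈ range t, u i j * ∏ l ∈ (range t).erase j, s i l) ≤
      ∑ i ∈ I.filter (fun i => ∀ j < t, ∀ p ∈ B j, ¬ p ∣ a i), w i := by
    rw [Finset.sum_filter]
    refine Finset.sum_le_sum fun i _ => ?_
    have h6 := bh_point t B (fun j p hp => (hB j p hp).1) k (a i)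
    calc w i * (∏ j ∈ range t, s i j - ∑ j ∈ range t, u i j * ∏ l ∈ (range t).erase j, s i l) ≤
        w i * (if ∀ j < t, ∀ p ∈ B j, ¬ p ∣ a i then (1 : ℝ) else 0) :=
          mul_le_mul_of_nonneg_left h6 (hw i)
      _ = _ := by split_ifs <;> simp
  have h7 : ∑ i ∈ I, w i * (∏ j ∈ range t, s i j -
      ∑ j ∈ range t, u i j * ∏ l ∈ (range t).erase j, s i l) =
      ∑ i ∈ I, w i * ∏ j ∈ range t, s i j -
        ∑ j ∈ range t, ∑ i ∈ I, w i * (u i j * ∏ l ∈ (range t).erase j, s i l) := by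
    rw [Finset.sum_comm, ← Finset.sum_sub_distrib]
    refine Finset.sum_congr rfl fun i _ => ?_
    rw [mul_sub, Finset.mul_sum]
  have h8 : ∑ j ∈ range t, ∑ i ∈ I, w i * (u i j * ∏ l ∈ (range t).erase j, s i l) ≤
      X * ∑ j ∈ range t, T j * ∏ l ∈ (range t).erase j, M l + t * E := by
    refine (Finset.sum_le_sum h4).trans (le_of_eq ?_)
    rw [Finset.sum_add_distrib, Finset.mul_sum, Finset.sum_const, Finset.card_range, nsmul_eq_mul]
  -- the main term
  have hVpos : ∀ j < t, 0 < V j := by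
    intro j _
    refine Finset.prod_pos fun p hp => ?_
    have := nu_le_half ν hν p (hB j p hp).1 (hB j p hp).2.1
    linarith
  have hbb := fun j => block_bounds ν hν (B j) (fun p hp => ⟨(hB j p hp).1, (hB j p hp).2.1⟩) (k j)
  have h9 := bh_main t M V T hVpos (fun j _ => (hbb j).1)
    (fun j _ => Finset.sum_nonneg fun S _ => hν.nonneg _) hsum
  have h10 := mul_le_mul_of_nonneg_left h9 hX
  have h12 : X * ((∏ j ∈ range t, V j) * (1 - ∑ j ∈ range t, T j / V j)) =
      X * (∏ j ∈ range t, V j) * (1 - ∑ j ∈ range t, T j / V j) := by ring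
  rw [h12, mul_sub] at h10
  have h11 : X * (∏ j ∈ range t, V j) * (1 - ∑ j ∈ range t, T j / V j) - (t + 1) * E ≤
      ∑ i ∈ I.filter (fun i => ∀ j < t, ∀ p ∈ B j, ¬ p ∣ a i), w i := by
    rw [h7] at h5
    linarith
  exact h11

end Pool.Agent.Lib.MP_d9bc60_nt.AP
end
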