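import Pool.Agent.Lib.MP_d9bc60_nt.AQ.QDefs
import Pool.Agent.Lib.MP_d9bc60_nt.UV.PSW
import Pool.Agent.Lib.MP_d9bc60_nt.EN.M1
import Pool.Agent.Lib.MP_d9bc60_nt.AQ.QBH

section
/-! Row H08 (about 150 lines): Mertens' theorem on intervals. -/

set_option autoImplicit false

namespace Pool.Agent.Lib.MP_d9bc60_nt.AP

open Finset Pool.Agent.Lib.MP_d9bc60_nt.UV

/-- the part of the von Mangoldt function on the proper prime powers -/
noncomputable def h08_a (n : ℕ) : ℝ :=
  ArithmeticFunction.vonMangoldt n - (if n.Prime then Real.log n else 0)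

theorem h08_E (n : ℕ) :
    ∑ d ∈ Icc 1 n, h08_a d = Chebyshev.psi n - Chebyshev.theta n := by
  have hI : Icc 1 n = Ioc 0 n := by ext d; simp only [mem_Icc, mem_Ioc]; omega
  unfold h08_a Chebyshev.psi Chebyshev.theta
  rw [sum_sub_distrib, Nat.floor_natCast, hI, ← sum_filter]

/-- the proper prime powers contribute a bounded amount -/
theorem h08_pp : ∃ C : ℝ, 0 < C ∧ ∀ n : ℕ, 1 ≤ n → ∑ d ∈ Icc 1 n, h08_a d / d ≤ C := by
  obtain ⟨C₀, hC₀⟩ := Chebyshev.psi_sub_theta_le_mul_sqrt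
  set C : ℝ := |C₀| + 1 with hC
  have hCpos : 0 < C := by positivity
  have hE : ∀ n : ℕ, ∑ d ∈ Icc 1 n, h08_a d ≤ C * Real.sqrt n := by
    intro n
    rw [h08_E]
    refine (hC₀ n).trans ?_
    apply mul_le_mul_of_nonneg_right _ (Real.sqrt_nonneg _)
    linarith only [le_abs_self C₀]
  have main : ∀ n : ℕ, 1 ≤ n → ∑ d ∈ Icc 1 n, h08_a d / d ≤
      (∑ d ∈ Icc 1 n, h08_a d) / n + 2 * C * (1 - 1 / Real.sqrt n) := by
    intro n hn
    induction n, hn using Nat.le_induction with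
    | base => simp
    | succ n hn ih =>
      rw [sum_Icc_succ_top (by omega), sum_Icc_succ_top (by omega)]
      have hn0 : (0 : ℝ) < n := by exact_mod_cast hn
      set s : ℝ := Real.sqrt n with hs
      set t : ℝ := Real.sqrt ((n + 1 : ℕ) : ℝ) with ht
      have hs0 : 0 < s := Real.sqrt_pos.2 hn0
      have hst : s ≤ t := Real.sqrt_le_sqrt (by push_cast; linarith only [])
      have ht0 : 0 < t := lt_of_lt_of_le hs0 hst
      have hs2 : s * s = n := Real.mul_self_sqrt hn0.le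
      have ht2 : t * t = n + 1 := by
        rw [ht, Real.mul_self_sqrt (by positivity)]; push_cast; ring
      set E : ℝ := ∑ d ∈ Icc 1 n, h08_a d with hEdef
      have hEn : E ≤ C * s := hE n
      have hc : (((n + 1 : ℕ)) : ℝ) = (n : ℝ) + 1 := by push_cast; ring
      rw [hc]
      have h1 : E * (1 / n - 1 / (n + 1)) ≤ 2 * C * (1 / s - 1 / t) := by
        have e1 : (1 : ℝ) / n - 1 / (n + 1) = 1 / (s * s * (t * t)) := by
          rw [hs2, ht2]; field_simp; ring
        have e2 : 1 / s - 1 / t = 1 / (s * t * (s + t)) := by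
          have e3 : (t - s) * (s + t) = 1 := by
            have : (t - s) * (s + t) = t * t - s * s := by ring
            rw [this, hs2, ht2]; ring
          rw [div_sub_div _ _ hs0.ne' ht0.ne', div_eq_div_iff (by positivity) (by positivity)]
          linear_combination (s * t) * e3
        rw [e1, e2, mul_one_div, mul_one_div]
        calc E / (s * s * (t * t)) ≤ C * s / (s * s * (t * t)) :=
              div_le_div_of_nonneg_right hEn (by positivity)
          _ = 2 * C / (s * t * (2 * t)) := by field_simp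
          _ ≤ 2 * C / (s * t * (s + t)) := by
              apply div_le_div_of_nonneg_left (by positivity) (by positivity)
              apply mul_le_mul_of_nonneg_left _ (by positivity)
              linarith only [hst]
      have h2 : E / n + h08_a (n + 1) / (n + 1) =
          (E + h08_a (n + 1)) / (n + 1) + E * (1 / n - 1 / (n + 1)) := by
        field_simp
        ring
      have h3 : ∑ d ∈ Icc 1 n, h08_a d / (d : ℝ) + h08_a (n + 1) / ((n : ℝ) + 1) ≤
          E / n + h08_a (n + 1) / (n + 1) + 2 * C * (1 - 1 / s) := by linarith only [ih]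
      linarith only [ih, h1, h2]
  refine ⟨3 * C, by positivity, fun n hn => (main n hn).trans ?_⟩
  have hn0 : (0 : ℝ) < n := by exact_mod_cast hn
  have hs1 : 1 ≤ Real.sqrt n := by
    rw [Real.one_le_sqrt]; exact_mod_cast hn
  have h1 : (∑ d ∈ Icc 1 n, h08_a d) / n ≤ C := by
    rw [div_le_iff₀ hn0]
    refine (hE n).trans ?_
    apply mul_le_mul_of_nonneg_left _ hCpos.le
    nlinarith only [Real.mul_self_sqrt hn0.le, hs1, hn0]
  have h2 : 0 < 1 / Real.sqrt n := by positivity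
  nlinarith only [h1, hCpos, h2]

/-- Mertens' first theorem for primes -/
theorem h08_one : ∃ C : ℝ, 0 < C ∧ ∀ n : ℕ, 1 ≤ n →
    |∑ p ∈ (Icc 1 n).filter Nat.Prime, Real.log p / p - Real.log n| ≤ C := by
  obtain ⟨C, hC, h⟩ := EN.mertens_one
  obtain ⟨C', hC', h'⟩ := h08_pp
  refine ⟨C + C', by positivity, fun n hn => ?_⟩
  have h1 := abs_le.1 (h n hn)
  have h2 := h' n hn
  have h3 : ∑ d ∈ Icc 1 n, h08_a d / d =
      ∑ d ∈ Icc 1 n, ArithmeticFunction.vonMangoldt d / (d : ℝ) -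
        ∑ p ∈ (Icc 1 n).filter Nat.Prime, Real.log p / p := by
    rw [sum_filter, ← sum_sub_distrib]
    refine sum_congr rfl fun d _ => ?_
    unfold h08_a
    split_ifs <;> ring
  have h4 : 0 ≤ ∑ d ∈ Icc 1 n, h08_a d / (d : ℝ) := by
    refine sum_nonneg fun d _ => div_nonneg ?_ (Nat.cast_nonneg _)
    unfold h08_a
    split_ifs with hp
    · rw [ArithmeticFunction.vonMangoldt_apply_prime hp, sub_self]
    · rw [sub_zero]; exact ArithmeticFunction.vonMangoldt_nonneg
  rw [abs_le]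
  constructor <;> linarith only [h1.1, h1.2, h1, h2, h3, hC', h4]

/-- partial summation -/
theorem h08_step (C : ℝ) (hR : ∀ n : ℕ, 1 ≤ n →
    |∑ p ∈ (Icc 1 n).filter Nat.Prime, Real.log p / p - Real.log n| ≤ C) (c : ℕ) (hc : 2 ≤ c)
    (e : ℕ) (he : c ≤ e) :
    |(∑ p ∈ (Ioc c e).filter Nat.Prime, 1 / (p : ℝ) - Real.log (Real.log e) -
        (∑ p ∈ (Icc 1 e).filter Nat.Prime, Real.log p / p - Real.log e) / Real.log e) -
      (-Real.log (Real.log c) -
        (∑ p ∈ (Icc 1 c).filter Nat.Prime, Real.log p / p - Real.log c) / Real.log c)| ≤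
      (C + 1) * (1 / Real.log c - 1 / Real.log e) := by
  induction e, he using Nat.le_induction with
  | base => simp
  | succ e hce ih =>
    set S : ℝ := ∑ p ∈ (Icc 1 e).filter Nat.Prime, Real.log p / p with hS
    set T : ℝ := ∑ p ∈ (Ioc c e).filter Nat.Prime, 1 / (p : ℝ) with hT
    set B : ℝ := -Real.log (Real.log c) -
        (∑ p ∈ (Icc 1 c).filter Nat.Prime, Real.log p / p - Real.log c) / Real.log c with hB
    have he2 : (2 : ℝ) ≤ e := by exact_mod_cast hc.trans hce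
    have hl0 : 0 < Real.log e := Real.log_pos (by linarith only [he2])
    have hc' : (((e + 1 : ℕ)) : ℝ) = (e : ℝ) + 1 := by push_cast; ring
    have hll : Real.log e ≤ Real.log ((e + 1 : ℕ) : ℝ) := Real.log_le_log (by linarith only [he2]) (by rw [hc']; linarith only [])
    have hl'0 : 0 < Real.log ((e + 1 : ℕ) : ℝ) := lt_of_lt_of_le hl0 hll
    have hdiff : Real.log ((e + 1 : ℕ) : ℝ) - Real.log e ≤ 1 := by
      rw [← Real.log_div (by positivity) (by positivity)]
      refine (Real.log_le_sub_one_of_pos (by positivity)).trans ?_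
      rw [hc', add_div, div_self (by positivity)]
      have : 1 / (e : ℝ) ≤ 1 := by rw [div_le_one (by linarith only [he2])]; linarith only [he2]
      linarith only [this]
    have hS' : ∑ p ∈ (Icc 1 (e + 1)).filter Nat.Prime, Real.log p / (p : ℝ) =
        S + (if (e + 1).Prime then Real.log ((e + 1 : ℕ) : ℝ) / ((e + 1 : ℕ) : ℝ) else 0) := by
      rw [sum_filter, sum_Icc_succ_top (by omega), ← sum_filter]
    have hT' : ∑ p ∈ (Ioc c (e + 1)).filter Nat.Prime, 1 / (p : ℝ) =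
        T + (if (e + 1).Prime then 1 / ((e + 1 : ℕ) : ℝ) else 0) := by
      rw [sum_filter, ← insert_Ioc_right_eq_Ioc_add_one hce, sum_insert (by simp), ← sum_filter,
        add_comm]
    rw [hS', hT']
    set l : ℝ := Real.log e with hl
    set l' : ℝ := Real.log ((e + 1 : ℕ) : ℝ) with hl'
    set y : ℝ := (if (e + 1).Prime then 1 / ((e + 1 : ℕ) : ℝ) else 0) with hy
    have hy2 : (if (e + 1).Prime then l' / ((e + 1 : ℕ) : ℝ) else 0) = l' * y := by
      rw [hy]; split_ifs <;> ring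
    rw [hy2]
    have hRe : |S - l| ≤ C := hR e (by omega)
    have hinv : 0 ≤ 1 / l - 1 / l' := by
      rw [sub_nonneg]
      exact one_div_le_one_div_of_le hl0 hll
    have hlog1 : Real.log l' - Real.log l ≤ (l' - l) / l := by
      rw [← Real.log_div hl'0.ne' hl0.ne']
      refine (Real.log_le_sub_one_of_pos (by positivity)).trans (le_of_eq ?_)
      field_simp
    have hlog2 : (l' - l) / l' ≤ Real.log l' - Real.log l := by
      rw [← Real.log_div hl'0.ne' hl0.ne']
      refine le_trans (le_of_eq ?_) (Real.one_sub_inv_le_log_of_pos (by positivity))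
      field_simp
    have hid : (T + y - Real.log l' - (S + l' * y - l') / l') - B =
        ((T - Real.log l - (S - l) / l) - B) + ((S - l) * (1 / l - 1 / l') +
          ((l' - l) / l' - (Real.log l' - Real.log l))) := by
      field_simp
      ring
    rw [hid]
    have hA : |(S - l) * (1 / l - 1 / l')| ≤ C * (1 / l - 1 / l') := by
      rw [abs_mul, abs_of_nonneg hinv]
      exact mul_le_mul_of_nonneg_right hRe hinv
    have hBd : |(l' - l) / l' - (Real.log l' - Real.log l)| ≤ 1 / l - 1 / l' := by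
      rw [abs_le]
      have h1 : (l' - l) / l - (l' - l) / l' = (l' - l) * (1 / l - 1 / l') := by ring
      have h2 : (l' - l) * (1 / l - 1 / l') ≤ 1 * (1 / l - 1 / l') :=
        mul_le_mul_of_nonneg_right hdiff hinv
      constructor <;> linarith only [hlog1, h1, h2, hinv, hlog2]
    refine (abs_add_le _ _).trans ?_
    have h3 := abs_add_le ((S - l) * (1 / l - 1 / l')) ((l' - l) / l' - (Real.log l' - Real.log l))
    have h4 : (C + 1) * (1 / Real.log c - 1 / l') = (C + 1) * (1 / Real.log c - 1 / l) +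
        (C * (1 / l - 1 / l') + (1 / l - 1 / l')) := by ring
    rw [h4]
    linarith only [ih, hA, hBd, h3]

/-- Proof. `psi_one 2` gives `|ψ(x) - x| ≤ x/(log x)²`, hence for `Λ(n)/(n log n)` Abel summation
(prime powers contribute `∑_{p ≥ √u} 1/p² + ..`, small): `∑_{u ≤ p < v} 1/p = ∫_u^v dx/(x log x) + O(1/log u)`,
`∫_u^v dx/(x log x) = log(log v/log u)`. -/
theorem mertens (ε : ℝ) (hε : 0 < ε) : ∃ u₀ : ℝ, 2 ≤ u₀ ∧ ∀ u v : ℝ, u₀ ≤ u → u ≤ v →
    |∑ p ∈ prs u v, 1 / (p : ℝ) - Real.log (Real.log v / Real.log u)| ≤ ε := by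
  classical
  obtain ⟨C, hC, hR⟩ := h08_one
  have hexp0 := Real.exp_pos ((3 * C + 3) / ε)
  refine ⟨Real.exp ((3 * C + 3) / ε) + 4, by linarith only [hexp0], ?_⟩
  intro u v hu huv
  have hu0 : 0 < u := by linarith only [hexp0, hu]
  have hceil : ∀ x : ℝ, 4 ≤ x → ∃ k : ℕ, ⌈x⌉₊ = k + 1 ∧ (k : ℝ) < x ∧ x ≤ k + 1 ∧ 3 ≤ k := by
    intro x hx
    have h1 : 4 ≤ ⌈x⌉₊ := by
      have : ((4 : ℕ) : ℝ) ≤ (⌈x⌉₊ : ℝ) := (by exact_mod_cast hx : ((4 : ℕ) : ℝ) ≤ x).trans (Nat.le_ceil x)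
      exact_mod_cast this
    refine ⟨⌈x⌉₊ - 1, by omega, ?_, ?_, by omega⟩
    · have h2 := Nat.ceil_lt_add_one (by linarith only [hx] : (0 : ℝ) ≤ x)
      have h3 : ((⌈x⌉₊ - 1 : ℕ) : ℝ) = (⌈x⌉₊ : ℝ) - 1 := by
        rw [Nat.cast_sub (by omega)]; norm_num
      rw [h3]; linarith only [h2]
    · have h2 := Nat.le_ceil x
      have h3 : ((⌈x⌉₊ - 1 : ℕ) : ℝ) = (⌈x⌉₊ : ℝ) - 1 := by
        rw [Nat.cast_sub (by omega)]; norm_num
      rw [h3]; linarith only [h2]
  obtain ⟨c, hc1, hc2, hc3, hc4⟩ := hceil u (by linarith only [hexp0, hu])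
  obtain ⟨e, he1, he2, he3, he4⟩ := hceil v (by linarith only [hexp0, hu, huv])
  have hce : c ≤ e := by
    have h1 := Nat.ceil_le_ceil huv
    omega
  have hprs : prs u v = (Ioc c e).filter Nat.Prime := by
    ext p
    rw [prs, mem_filter, mem_filter, mem_range, mem_Ioc, he1]
    have h1 : u ≤ (p : ℝ) ↔ c + 1 ≤ p := by rw [← hc1, Nat.ceil_le]
    rw [h1]
    constructor
    · rintro ⟨h2, h3, h4⟩; exact ⟨⟨by omega, by omega⟩, h3⟩
    · rintro ⟨⟨h2, h3⟩, h4⟩; exact ⟨by omega, h4, by omega⟩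
  rw [hprs]
  have hst := h08_step C hR c (by omega) e hce
  have hcR : (3 : ℝ) ≤ c := by exact_mod_cast hc4
  have heR : (c : ℝ) ≤ e := by exact_mod_cast hce
  have hlc : 0 < Real.log c := Real.log_pos (by linarith only [hexp0, hu, hc3])
  have hlce : Real.log c ≤ Real.log e := Real.log_le_log (by linarith only [hexp0, hu, hc3]) heR
  have hle : 0 < Real.log e := lt_of_lt_of_le hlc hlce
  -- the comparison of `log log u` with `log log c`
  have hcmp : ∀ (k : ℕ) (x : ℝ), 3 ≤ k → (k : ℝ) < x → x ≤ k + 1 →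
      0 ≤ Real.log (Real.log x) - Real.log (Real.log k) ∧
      Real.log (Real.log x) - Real.log (Real.log k) ≤ 1 / Real.log k := by
    intro k x hk hkx hxk
    have hkR : (3 : ℝ) ≤ k := by exact_mod_cast hk
    have h1 : 0 < Real.log k := Real.log_pos (by linarith only [hkR])
    have h2 : Real.log k ≤ Real.log x := Real.log_le_log (by linarith only [hkR]) hkx.le
    have h3 : 0 < Real.log x := lt_of_lt_of_le h1 h2
    have h4 : Real.log x - Real.log k ≤ 1 := by
      rw [← Real.log_div (by linarith only [hkx, hkR]) (by linarith only [hkR])]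
      refine (Real.log_le_sub_one_of_pos (by apply div_pos <;> linarith only [hkx, hkR])).trans ?_
      have h5 : x / k ≤ 2 := by rw [div_le_iff₀ (by linarith only [hkR])]; linarith only [hxk, hkR]
      linarith only [h5]
    refine ⟨sub_nonneg.2 (Real.log_le_log h1 h2), ?_⟩
    rw [← Real.log_div h3.ne' h1.ne']
    refine (Real.log_le_sub_one_of_pos (by positivity)).trans ?_
    rw [div_sub_one h1.ne']
    exact div_le_div_of_nonneg_right h4 h1.le
  have hcu := hcmp c u hc4 hc2 hc3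
  have hev := hcmp e v he4 he2 he3
  have hlu : 0 < Real.log u := Real.log_pos (by linarith only [hexp0, hu])
  have hlv : 0 < Real.log v := Real.log_pos (by linarith only [hexp0, hu, huv])
  rw [Real.log_div hlv.ne' hlu.ne']
  have hie : 1 / Real.log e ≤ 1 / Real.log c := one_div_le_one_div_of_le hlc hlce
  have hie0 : 0 < 1 / Real.log e := by positivity
  have hRc : |(∑ p ∈ (Icc 1 c).filter Nat.Prime, Real.log p / (p : ℝ) - Real.log c) / Real.log c| ≤
      C * (1 / Real.log c) := by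
    rw [abs_div, abs_of_pos hlc, mul_one_div]
    exact div_le_div_of_nonneg_right (hR c (by omega)) hlc.le
  have hRe : |(∑ p ∈ (Icc 1 e).filter Nat.Prime, Real.log p / (p : ℝ) - Real.log e) / Real.log e| ≤
      C * (1 / Real.log c) := by
    rw [abs_div, abs_of_pos hle]
    refine (div_le_div_of_nonneg_right (hR e (by omega)) hle.le).trans ?_
    rw [← mul_one_div]
    exact mul_le_mul_of_nonneg_left hie hC.le
  have hmain : (3 * C + 3) * (1 / Real.log c) ≤ ε := by
    have h1 : (3 * C + 3) / ε ≤ Real.log c := by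
      rw [Real.le_log_iff_exp_le (by linarith only [hexp0, hu, hc3])]
      linarith only [hu, hc3]
    rw [mul_one_div, div_le_iff₀ hlc]
    rw [div_le_iff₀ hε] at h1
    linarith only [h1]
  have h5 : (C + 1) * (1 / Real.log c - 1 / Real.log e) ≤ (C + 1) * (1 / Real.log c) :=
    mul_le_mul_of_nonneg_left (by linarith only [hie0]) (by linarith only [hC])
  rw [abs_le] at hst hRc hRe ⊢
  have h6 : (3 * C + 3) * (1 / Real.log c) = 3 * (C * (1 / Real.log c)) + 3 * (1 / Real.log c) := by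
    ring
  have h7 : (C + 1) * (1 / Real.log c) = C * (1 / Real.log c) + 1 / Real.log c := by ring
  rw [h6] at hmain
  rw [h7] at h5
  constructor
  · linarith only [hst.1, hRc.1, hRe.1, hRc.2, hRe.2, hcu.1, hcu.2, hev.1, hev.2, hst, hcu, hev, hie, hie0, hRc, hRe, hmain, h5]
  · linarith only [hst.2, hRc.1, hRe.1, hRc.2, hRe.2, hcu.1, hcu.2, hev.1, hev.2, hst, hcu, hev, hie, hie0, hRc, hRe, hmain, h5]

end Pool.Agent.Lib.MP_d9bc60_nt.AP
end

section
/-! Row H09 (about 150 lines): sums over primes with a continuous weight. -/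

set_option autoImplicit false

namespace Pool.Agent.Lib.MP_d9bc60_nt.AP

open Finset Pool.Agent.Lib.MP_d9bc60_nt.UV

theorem h09_mem_prs {u v : ℝ} {p : ℕ} : p ∈ prs u v ↔ p.Prime ∧ u ≤ (p : ℝ) ∧ (p : ℝ) < v := by
  unfold prs
  rw [Finset.mem_filter, Finset.mem_range, Nat.lt_ceil]
  tauto

/-- approximation up to `η log(b/a)` -/
def h09_Q (Φ : ℝ → ℝ) (η a b : ℝ) : Prop :=
  ∀ ε : ℝ, 0 < ε → ∃ D₀ : ℝ, 2 ≤ D₀ ∧ ∀ D : ℝ, D₀ ≤ D →
    |∑ p ∈ prs (D ^ a) (D ^ b), Φ (Real.log p / Real.log D) / p - ∫ t in a..b, Φ t / t| ≤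
      ε + η * Real.log (b / a)

theorem h09_int {Φ : ℝ → ℝ} {a b : ℝ} (ha : 0 < a) (hab : a ≤ b)
    (hΦ : ContinuousOn Φ (Set.Icc a b)) :
    IntervalIntegrable (fun t => Φ t / t) MeasureTheory.volume a b := by
  apply ContinuousOn.intervalIntegrable
  rw [Set.uIcc_of_le hab]
  exact hΦ.div continuousOn_id fun x hx => (lt_of_lt_of_le ha hx.1).ne'

theorem h09_add {Φ : ℝ → ℝ} {η a b c : ℝ} (ha : 0 < a) (hab : a ≤ b) (hbc : b ≤ c)
    (hΦ : ContinuousOn Φ (Set.Icc a c)) (h1 : h09_Q Φ η a b) (h2 : h09_Q Φ η b c) :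
    h09_Q Φ η a c := by
  classical
  intro ε hε
  obtain ⟨D₁, hD₁, k1⟩ := h1 (ε / 2) (by linarith only [hε])
  obtain ⟨D₂, hD₂, k2⟩ := h2 (ε / 2) (by linarith only [hε])
  refine ⟨max D₁ D₂, hD₁.trans (le_max_left _ _), fun D hD => ?_⟩
  have hDD₁ : D₁ ≤ D := (le_max_left _ _).trans hD
  have hD1 : 1 ≤ D := by linarith only [hD₁, hDD₁]
  have e1 : D ^ a ≤ D ^ b := Real.rpow_le_rpow_of_exponent_le hD1 hab
  have e2 : D ^ b ≤ D ^ c := Real.rpow_le_rpow_of_exponent_le hD1 hbc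
  have hun : prs (D ^ a) (D ^ c) = prs (D ^ a) (D ^ b) ∪ prs (D ^ b) (D ^ c) := by
    ext p
    rw [Finset.mem_union, h09_mem_prs, h09_mem_prs, h09_mem_prs]
    constructor
    · rintro ⟨p1, p2, p3⟩
      rcases lt_or_ge (p : ℝ) (D ^ b) with h | h
      · exact Or.inl ⟨p1, p2, h⟩
      · exact Or.inr ⟨p1, h, p3⟩
    · rintro (⟨p1, p2, p3⟩ | ⟨p1, p2, p3⟩)
      · exact ⟨p1, p2, lt_of_lt_of_le p3 e2⟩
      · exact ⟨p1, e1.trans p2, p3⟩
  have hdis : Disjoint (prs (D ^ a) (D ^ b)) (prs (D ^ b) (D ^ c)) := by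
    rw [Finset.disjoint_left]
    intro p hp hp'
    exact absurd (h09_mem_prs.1 hp).2.2 (not_lt.2 (h09_mem_prs.1 hp').2.1)
  have hb : 0 < b := lt_of_lt_of_le ha hab
  have hint : ∫ t in a..c, Φ t / t = (∫ t in a..b, Φ t / t) + ∫ t in b..c, Φ t / t := by
    rw [intervalIntegral.integral_add_adjacent_intervals]
    · exact h09_int ha hab (hΦ.mono (Set.Icc_subset_Icc_right hbc))
    · exact h09_int hb hbc (hΦ.mono (Set.Icc_subset_Icc_left hab))
  have hlog : Real.log (c / a) = Real.log (b / a) + Real.log (c / b) := by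
    have hc : 0 < c := lt_of_lt_of_le hb hbc
    rw [← Real.log_mul (by positivity) (by positivity)]
    congr 1
    field_simp
  rw [hun, Finset.sum_union hdis, hint, hlog]
  have m1 := k1 D hDD₁
  have m2 := k2 D ((le_max_right _ _).trans hD)
  rw [abs_le] at m1 m2 ⊢
  constructor <;> linarith only [m1.1, m1.2, m2.1, m2.2, m1, m2]

theorem h09_piece {Φ : ℝ → ℝ} {η a b : ℝ} (ha : 0 < a) (hab : a ≤ b) (hη : 0 < η)
    (hΦ : ContinuousOn Φ (Set.Icc a b)) (hvar : ∀ s ∈ Set.Icc a b, |Φ s - Φ a| ≤ η / 2) :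
    h09_Q Φ η a b := by
  intro ε hε
  set ε' : ℝ := ε / (η / 2 + |Φ a| + 1) with hε'
  have hden : 0 < η / 2 + |Φ a| + 1 := by positivity
  have hε'0 : 0 < ε' := div_pos hε hden
  obtain ⟨u₀, hu₀, hm⟩ := mertens ε' hε'0
  have hb : 0 < b := lt_of_lt_of_le ha hab
  refine ⟨max 2 (u₀ ^ (1 / a)), le_max_left _ _, fun D hD => ?_⟩
  have hD2 : 2 ≤ D := (le_max_left _ _).trans hD
  have hD1 : 1 < D := by linarith only [hD2]
  have hD0 : 0 < D := by linarith only [hD2]
  have hlogD : 0 < Real.log D := Real.log_pos hD1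
  have hua : u₀ ≤ D ^ a := by
    have h1 : u₀ ^ (1 / a) ≤ D := (le_max_right _ _).trans hD
    have h2 := Real.rpow_le_rpow (by positivity) h1 ha.le
    rwa [← Real.rpow_mul (by linarith only [hu₀]), one_div_mul_cancel ha.ne', Real.rpow_one] at h2
  have hab' : D ^ a ≤ D ^ b := Real.rpow_le_rpow_of_exponent_le hD1.le hab
  have hS := hm (D ^ a) (D ^ b) hua hab'
  have hloglog : Real.log (Real.log (D ^ b) / Real.log (D ^ a)) = Real.log (b / a) := by
    rw [Real.log_rpow hD0, Real.log_rpow hD0, mul_div_mul_right _ _ hlogD.ne']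
  rw [hloglog] at hS
  set S : ℝ := ∑ p ∈ prs (D ^ a) (D ^ b), 1 / (p : ℝ) with hSdef
  have hlogba : 0 ≤ Real.log (b / a) := Real.log_nonneg (by rw [le_div_iff₀ ha]; linarith only [hab])
  -- first difference
  have d1 : |∑ p ∈ prs (D ^ a) (D ^ b), Φ (Real.log p / Real.log D) / p - Φ a * S| ≤ η / 2 * S := by
    rw [hSdef, Finset.mul_sum, Finset.mul_sum, ← Finset.sum_sub_distrib]
    refine (Finset.abs_sum_le_sum_abs _ _).trans (Finset.sum_le_sum fun p hp => ?_)
    obtain ⟨p1, p2, p3⟩ := h09_mem_prs.1 hp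
    have hp0 : (0 : ℝ) < p := by exact_mod_cast p1.pos
    have hmem : Real.log p / Real.log D ∈ Set.Icc a b := by
      constructor
      · rw [le_div_iff₀ hlogD, ← Real.log_rpow hD0]
        exact Real.log_le_log (Real.rpow_pos_of_pos hD0 _) p2
      · rw [div_le_iff₀ hlogD, ← Real.log_rpow hD0]
        exact Real.log_le_log hp0 p3.le
    have h3 := hvar _ hmem
    have h4 : Φ (Real.log p / Real.log D) / p - Φ a * (1 / p) =
        (Φ (Real.log p / Real.log D) - Φ a) * (1 / p) := by ring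
    rw [h4, abs_mul, abs_of_pos (by positivity : (0 : ℝ) < 1 / p)]
    exact mul_le_mul_of_nonneg_right h3 (by positivity)
  -- the integral
  have hcont1 : IntervalIntegrable (fun t : ℝ => Φ t / t) MeasureTheory.volume a b :=
    h09_int ha hab hΦ
  have hcont2 : IntervalIntegrable (fun t : ℝ => 1 / t) MeasureTheory.volume a b :=
    h09_int (Φ := fun _ => 1) ha hab continuousOn_const
  have hinv : ∫ t in a..b, 1 / t = Real.log (b / a) := integral_one_div_of_pos ha hb
  have d3 : |Φ a * Real.log (b / a) - ∫ t in a..b, Φ t / t| ≤ η / 2 * Real.log (b / a) := by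
    have h5 : Φ a * Real.log (b / a) - ∫ t in a..b, Φ t / t =
        ∫ t in a..b, (Φ a * (1 / t) - Φ t / t) := by
      rw [intervalIntegral.integral_sub (hcont2.const_mul _) hcont1,
        intervalIntegral.integral_const_mul, hinv]
    have h6 : η / 2 * Real.log (b / a) = ∫ t in a..b, η / 2 * (1 / t) := by
      rw [intervalIntegral.integral_const_mul, hinv]
    rw [h5, h6, ← Real.norm_eq_abs]
    refine intervalIntegral.norm_integral_le_of_norm_le hab ?_ (hcont2.const_mul _)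
    refine Filter.Eventually.of_forall fun t ht => ?_
    have ht0 : 0 < t := lt_trans ha ht.1
    have h7 : Φ a * (1 / t) - Φ t / t = -((Φ t - Φ a) * (1 / t)) := by ring
    rw [h7, Real.norm_eq_abs, abs_neg, abs_mul, abs_of_pos (by positivity : (0 : ℝ) < 1 / t)]
    exact mul_le_mul_of_nonneg_right (hvar t ⟨ht.1.le, ht.2⟩) (by positivity)
  -- the middle
  have d2 : |Φ a * (S - Real.log (b / a))| ≤ |Φ a| * ε' := by
    rw [abs_mul]
    exact mul_le_mul_of_nonneg_left hS (abs_nonneg _)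
  have hS2 : S ≤ Real.log (b / a) + ε' := by
    have := (abs_le.1 hS).2
    linarith only [this]
  have d1' : η / 2 * S ≤ η / 2 * (Real.log (b / a) + ε') :=
    mul_le_mul_of_nonneg_left hS2 (by linarith only [hη])
  have hfin : (η / 2 + |Φ a|) * ε' ≤ ε := by
    rw [hε', mul_div_assoc', div_le_iff₀ hden]
    linarith only [abs_nonneg (Φ a), hε]
  rw [abs_le] at d1 d2 d3 ⊢
  constructor <;> linarith only [d1.1, d1.2, d2.1, d2.2, d3.1, d3.2, d1, d3, d2, d1', hfin]

/-- Proof. Cut `[α, β]` into `n` pieces on which the continuous function `Φ` varies by at most `ε'`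
(uniform continuity); on each piece `mertens` with `ε/n²` (the end points `D^(t_i)` tend to infinity), and
`log(log D^(t_{i+1}) / log D^(t_i)) = log(t_{i+1}/t_i) = ∫ dt/t`. -/
theorem prime_integral (α β : ℝ) (hα : 0 < α) (hαβ : α ≤ β) (Φ : ℝ → ℝ)
    (hΦ : ContinuousOn Φ (Set.Icc α β)) (ε : ℝ) (hε : 0 < ε) : ∃ D₀ : ℝ, 2 ≤ D₀ ∧ ∀ D : ℝ, D₀ ≤ D →
    |∑ p ∈ prs (D ^ α) (D ^ β), Φ (Real.log p / Real.log D) / p - ∫ t in α..β, Φ t / t| ≤ ε := by
  have hlogba : 0 ≤ Real.log (β / α) := Real.log_nonneg (by rw [le_div_iff₀ hα]; linarith only [hαβ])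
  set η : ℝ := ε / (2 * (Real.log (β / α) + 1)) with hη
  have hη0 : 0 < η := by positivity
  have hunif := isCompact_Icc.uniformContinuousOn_of_continuous hΦ
  rw [Metric.uniformContinuousOn_iff] at hunif
  obtain ⟨δ, hδ, hunif⟩ := hunif (η / 2) (by linarith only [hη0])
  obtain ⟨n, hn⟩ := exists_nat_gt ((β - α) / δ)
  have hn0 : 0 < (n : ℝ) := lt_of_le_of_lt (div_nonneg (by linarith only [hαβ]) hδ.le) hn
  have hstep : (β - α) / n < δ := by
    rw [div_lt_iff₀ hδ] at hn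
    rw [div_lt_iff₀ hn0]
    linarith only [hn]
  have hstep0 : 0 ≤ (β - α) / n := div_nonneg (by linarith only [hαβ]) hn0.le
  have hle : ∀ i : ℕ, i ≤ n → α + i * ((β - α) / n) ≤ β := by
    intro i hi
    have h1 : (i : ℝ) ≤ n := by exact_mod_cast hi
    have h2 : (i : ℝ) * ((β - α) / n) ≤ n * ((β - α) / n) :=
      mul_le_mul_of_nonneg_right h1 hstep0
    have h3 : (n : ℝ) * ((β - α) / n) = β - α := by field_simp
    linarith only [h2, h3]
  have hge : ∀ i : ℕ, α ≤ α + i * ((β - α) / n) := by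
    intro i
    have : 0 ≤ (i : ℝ) * ((β - α) / n) := mul_nonneg (Nat.cast_nonneg _) hstep0
    linarith only [this]
  have hQ : ∀ i : ℕ, i ≤ n → h09_Q Φ η α (α + i * ((β - α) / n)) := by
    intro i
    induction i with
    | zero =>
      intro _ e he
      refine ⟨2, le_rfl, fun D _ => ?_⟩
      have hem : prs (D ^ α) (D ^ α) = ∅ := by
        apply Finset.eq_empty_of_forall_notMem
        intro p hp
        exact absurd (h09_mem_prs.1 hp).2.1 (not_le.2 (h09_mem_prs.1 hp).2.2)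
      rw [Nat.cast_zero, zero_mul, add_zero, hem, Finset.sum_empty,
        intervalIntegral.integral_same, sub_zero, abs_zero, div_self hα.ne', Real.log_one,
        mul_zero, add_zero]
      exact he.le
    | succ i ih =>
      intro hi
      have h1 := ih (by omega)
      have e1 : α + ((i + 1 : ℕ) : ℝ) * ((β - α) / n) =
          (α + i * ((β - α) / n)) + (β - α) / n := by
        push_cast
        ring
      have h2 := hle (i + 1) hi
      have h3 := hge i
      rw [e1] at h2 ⊢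
      have hposi : 0 < α + i * ((β - α) / n) := by linarith only [hα, h3]
      refine h09_add hα h3 (by linarith only [hstep0]) (hΦ.mono (Set.Icc_subset_Icc_right h2)) h1 ?_
      apply h09_piece hposi (by linarith only [hstep0]) hη0
      · exact hΦ.mono (Set.Icc_subset_Icc h3 h2)
      · intro s hs
        have h4 := hunif s ⟨by linarith only [hs.1, h3, hs], by linarith only [hs.2, h2, hs]⟩ (α + i * ((β - α) / n))
          ⟨h3, by linarith only [hstep0, h2]⟩ (by
            rw [Real.dist_eq, abs_of_nonneg (by linarith only [hs.1, hs])]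
            linarith only [hs.2, hstep, hs])
        rw [Real.dist_eq] at h4
        exact h4.le
  have hfinal := hQ n le_rfl
  have e2 : α + (n : ℝ) * ((β - α) / n) = β := by
    field_simp
    ring
  rw [e2] at hfinal
  obtain ⟨D₀, hD₀, h5⟩ := hfinal (ε / 2) (by linarith only [hε])
  refine ⟨D₀, hD₀, fun D hD => (h5 D hD).trans ?_⟩
  have h6 : η * Real.log (β / α) ≤ ε / 2 := by
    rw [hη, div_mul_eq_mul_div, div_le_iff₀ (by positivity)]
    linarith only [hε]
  linarith only [h6]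

end Pool.Agent.Lib.MP_d9bc60_nt.AP
end

section
/-! Row H10 (about 130 lines): sums and products of `ν` over intervals. -/

set_option autoImplicit false

namespace Pool.Agent.Lib.MP_d9bc60_nt.AP

open Finset Pool.Agent.Lib.MP_d9bc60_nt.UV

theorem h10_mem (u v : ℝ) (p : ℕ) : p ∈ prs u v ↔ (p < ⌈v⌉₊ ∧ p.Prime ∧ u ≤ (p : ℝ)) := by
  unfold prs
  rw [mem_filter, mem_range]

theorem h10_sq (u v : ℝ) (hu : 2 ≤ u) : ∑ p ∈ prs u v, 1 / (p : ℝ) ^ 2 ≤ 2 / u := by
  have hc : 1 ≤ ⌈u⌉₊ := Nat.one_le_ceil_iff.2 (by linarith only [hu])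
  have h1 : prs u v ⊆ Ioo (⌈u⌉₊ - 1) ⌈v⌉₊ := by
    intro p hp
    rw [h10_mem] at hp
    rw [mem_Ioo]
    refine ⟨?_, hp.1⟩
    have := Nat.ceil_le.2 hp.2.2
    omega
  calc ∑ p ∈ prs u v, 1 / (p : ℝ) ^ 2 ≤ ∑ p ∈ Ioo (⌈u⌉₊ - 1) ⌈v⌉₊, 1 / (p : ℝ) ^ 2 :=
        sum_le_sum_of_subset_of_nonneg h1 fun _ _ _ => by positivity
    _ = ∑ p ∈ Ioo (⌈u⌉₊ - 1) ⌈v⌉₊, ((p : ℝ) ^ 2)⁻¹ := by simp only [one_div]
    _ ≤ 2 / (((⌈u⌉₊ - 1 : ℕ) : ℝ) + 1) := sum_Ioo_inv_sq_le _ _
    _ = 2 / (⌈u⌉₊ : ℝ) := by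
      congr 1
      rw [Nat.cast_sub hc]
      simp
    _ ≤ 2 / u := by
      refine div_le_div_of_nonneg_left (by norm_num) (by linarith only [hu]) (Nat.le_ceil u)

theorem h10_nu_le (ν : ℕ → ℝ) (hν : Dens ν) (p : ℕ) (hp : p.Prime) (h5 : (5 : ℝ) ≤ p) :
    ν p ≤ 2 * (1 / (p : ℝ)) + 4 * (1 / (p : ℝ) ^ 2) ∧ ν p ^ 2 ≤ 8 * (1 / (p : ℝ) ^ 2) ∧
      ν p ≤ 1 / 2 := by
  have h5' : 5 ≤ p := by exact_mod_cast h5
  have h1 := hν.le p hp h5'
  have h0 := hν.nonneg p
  have hp0 : (0 : ℝ) < (p : ℝ) - 1 := by linarith only [h5]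
  have hpp : (0 : ℝ) < p := by linarith only [h5]
  refine ⟨h1.trans ?_, ?_, h1.trans ?_⟩
  · have : 2 * (1 / (p : ℝ)) + 4 * (1 / (p : ℝ) ^ 2) = (2 * p + 4) / (p : ℝ) ^ 2 := by
      field_simp
    rw [this, div_le_div_iff₀ hp0 (by positivity)]
    linarith only [h5]
  · have h2 : ν p ^ 2 ≤ (2 / ((p : ℝ) - 1)) ^ 2 := pow_le_pow_left₀ h0 h1 2
    refine h2.trans ?_
    rw [div_pow, mul_one_div, div_le_div_iff₀ (by positivity) (by positivity)]
    nlinarith only [h5]
  · rw [div_le_div_iff₀ hp0 (by norm_num)]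
    linarith only [h5]

/-- Proof. `ν p ≤ 2/(p-1) ≤ 2/p + 4/p²`, `∑_{p ≥ u} 4/p² ≤ 8/u`, `mertens`. -/
theorem nu_sum (ε : ℝ) (hε : 0 < ε) : ∃ u₀ : ℝ, 5 ≤ u₀ ∧ ∀ (ν : ℕ → ℝ), Dens ν → ∀ u v : ℝ,
    u₀ ≤ u → u ≤ v → ∑ p ∈ prs u v, ν p ≤ 2 * Real.log (Real.log v / Real.log u) + ε := by
  obtain ⟨u₁, h1, hm⟩ := mertens (ε / 4) (by positivity)
  refine ⟨max 5 (max u₁ (16 / ε)), le_max_left _ _, fun ν hν u v hu huv => ?_⟩
  have hu5 : 5 ≤ u := (le_max_left _ _).trans hu
  have hu1 : u₁ ≤ u := (le_max_left _ _).trans ((le_max_right _ _).trans hu)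
  have hu2 : 16 / ε ≤ u := (le_max_right _ _).trans ((le_max_right _ _).trans hu)
  have hm1 := (abs_le.1 (hm u v hu1 huv)).2
  have hsq := h10_sq u v (by linarith only [hu5])
  have hsum : ∑ p ∈ prs u v, ν p ≤ 2 * ∑ p ∈ prs u v, 1 / (p : ℝ) +
      4 * ∑ p ∈ prs u v, 1 / (p : ℝ) ^ 2 := by
    rw [mul_sum, mul_sum, ← sum_add_distrib]
    refine sum_le_sum fun p hp => ?_
    rw [h10_mem] at hp
    exact (h10_nu_le ν hν p hp.2.1 (by linarith only [hp.2.2, hu5, hp])).1
  have h8 : 4 * (2 / u) ≤ ε / 2 := by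
    have hu0 : 0 < u := by linarith only [hu5]
    rw [← mul_div_assoc, div_le_div_iff₀ hu0 (by norm_num)]
    rw [div_le_iff₀ hε] at hu2
    linarith only [hu2]
  linarith only [hm1, hsq, hsum, h8]

theorem h10_exp (x : ℝ) (h0 : 0 ≤ x) (h1 : x ≤ 1 / 2) : Real.exp (-(x + x ^ 2)) ≤ 1 - x := by
  rw [Real.exp_neg, inv_le_comm₀ (Real.exp_pos _) (by linarith only [h1])]
  refine le_trans ?_ (Real.quadratic_le_exp_of_nonneg (by positivity))
  rw [inv_le_iff_one_le_mul₀ (by linarith only [h1])]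
  have h2 : 0 ≤ 1 - x - x ^ 2 - x ^ 3 := by nlinarith only [mul_nonneg h0 h0, mul_nonneg h0 (mul_nonneg h0 h0), h1, h0]
  linarith only [mul_nonneg (mul_nonneg h0 h0) h2, h0, h2]

/-- Proof. `1/(1-x) ≤ exp(x + x²)` for `0 ≤ x ≤ 1/2`, `∑_{p ≥ u} (2/(p-1))² ≤ 8/u`, `nu_sum`. -/
theorem nu_prod_inv (ε : ℝ) (hε : 0 < ε) : ∃ u₀ : ℝ, 5 ≤ u₀ ∧ ∀ (ν : ℕ → ℝ), Dens ν → ∀ u v : ℝ,
    u₀ ≤ u → u ≤ v → 1 ≤ (1 + ε) * (Real.log v / Real.log u) ^ 2 * ∏ p ∈ prs u v, (1 - ν p) := by
  have hδ : 0 < Real.log (1 + ε) := Real.log_pos (by linarith only [hε])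
  obtain ⟨u₁, h1, hm⟩ := nu_sum (Real.log (1 + ε) / 2) (by positivity)
  refine ⟨max u₁ (32 / Real.log (1 + ε)), h1.trans (le_max_left _ _), fun ν hν u v hu huv => ?_⟩
  have hu1 : u₁ ≤ u := (le_max_left _ _).trans hu
  have hu2 : 32 / Real.log (1 + ε) ≤ u := (le_max_right _ _).trans hu
  have hu5 : 5 ≤ u := h1.trans hu1
  have hlu : 0 < Real.log u := Real.log_pos (by linarith only [h1, hu1])
  have hlv : 0 < Real.log v := Real.log_pos (by linarith only [h1, huv, hu1])
  have hs := hm ν hν u v hu1 huv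
  have hsq := h10_sq u v (by linarith only [h1, hu1])
  have h8 : 8 * (2 / u) ≤ Real.log (1 + ε) / 2 := by
    have hu0 : 0 < u := by linarith only [h1, hu1]
    rw [← mul_div_assoc, div_le_div_iff₀ hu0 (by norm_num)]
    rw [div_le_iff₀ hδ] at hu2
    linarith only [hu2]
  have hs2 : ∑ p ∈ prs u v, ν p ^ 2 ≤ 8 * ∑ p ∈ prs u v, 1 / (p : ℝ) ^ 2 := by
    rw [mul_sum]
    refine sum_le_sum fun p hp => ?_
    rw [h10_mem] at hp
    exact (h10_nu_le ν hν p hp.2.1 (by linarith only [hp.2.2, h1, hu1, hp])).2.1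
  have hprod : Real.exp (-(∑ p ∈ prs u v, (ν p + ν p ^ 2))) ≤ ∏ p ∈ prs u v, (1 - ν p) := by
    rw [← sum_neg_distrib, Real.exp_sum]
    refine prod_le_prod (fun _ _ => (Real.exp_pos _).le) fun p hp => ?_
    rw [h10_mem] at hp
    exact h10_exp (ν p) (hν.nonneg p) (h10_nu_le ν hν p hp.2.1 (by linarith only [hp.2.2, h1, hu1, hp])).2.2
  have hle : -(2 * Real.log (Real.log v / Real.log u) + Real.log (1 + ε)) ≤
      -(∑ p ∈ prs u v, (ν p + ν p ^ 2)) := by
    rw [sum_add_distrib]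
    linarith only [hs, hsq, h8, hs2]
  have hfin : Real.exp (-(2 * Real.log (Real.log v / Real.log u) + Real.log (1 + ε))) ≤
      ∏ p ∈ prs u v, (1 - ν p) := (Real.exp_le_exp.2 hle).trans hprod
  have hX : 0 < Real.log v / Real.log u := by positivity
  have hval : (1 + ε) * (Real.log v / Real.log u) ^ 2 =
      Real.exp (2 * Real.log (Real.log v / Real.log u) + Real.log (1 + ε)) := by
    rw [Real.exp_add, Real.exp_log (by linarith only [hε]), two_mul, Real.exp_add, Real.exp_log hX]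
    ring
  rw [hval]
  calc (1 : ℝ) = Real.exp (2 * Real.log (Real.log v / Real.log u) + Real.log (1 + ε)) *
      Real.exp (-(2 * Real.log (Real.log v / Real.log u) + Real.log (1 + ε))) := by
        rw [← Real.exp_add, add_neg_cancel, Real.exp_zero]
    _ ≤ _ := mul_le_mul_of_nonneg_left hfin (Real.exp_pos _).le

/-- Proof. `VV ν v = VV ν u ∏_{p ∈ prs u v} (1 - ν p)`. -/
theorem VV_ratio (ε : ℝ) (hε : 0 < ε) : ∃ u₀ : ℝ, 5 ≤ u₀ ∧ ∀ (ν : ℕ → ℝ), Dens ν → ∀ u v : ℝ,
    u₀ ≤ u → u ≤ v → VV ν u ≤ (1 + ε) * (Real.log v / Real.log u) ^ 2 * VV ν v := by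
  obtain ⟨u₁, h1, hm⟩ := nu_prod_inv ε hε
  refine ⟨u₁, h1, fun ν hν u v hu huv => ?_⟩
  have hmain := hm ν hν u v hu huv
  have hsplit : VV ν v = VV ν u * ∏ p ∈ prs u v, (1 - ν p) := by
    unfold VV
    rw [← prod_filter_mul_prod_filter_not ((range ⌈v⌉₊).filter (fun p => p.Prime ∧ 3 ≤ p))
      (fun p => p < ⌈u⌉₊)]
    have hcu : ⌈u⌉₊ ≤ ⌈v⌉₊ := Nat.ceil_mono huv
    congr 1
    · refine prod_congr ?_ fun _ _ => rfl
      ext p
      simp only [mem_filter, mem_range]
      constructor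
      · rintro ⟨⟨_, h⟩, h2⟩
        exact ⟨h2, h⟩
      · rintro ⟨h2, h⟩
        exact ⟨⟨by omega, h⟩, h2⟩
    · refine prod_congr ?_ fun _ _ => rfl
      ext p
      rw [h10_mem]
      simp only [mem_filter, mem_range, not_lt]
      constructor
      · rintro ⟨⟨h2, h3, _⟩, h4⟩
        exact ⟨h2, h3, Nat.ceil_le.1 h4⟩
      · rintro ⟨h2, h3, h4⟩
        refine ⟨⟨h2, h3, ?_⟩, Nat.ceil_le.2 h4⟩
        have : (3 : ℝ) ≤ p := by linarith only [h1, hu, h4]
        exact_mod_cast this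
  have hVV : 0 ≤ VV ν u := by
    unfold VV
    refine prod_nonneg fun p hp => ?_
    simp only [mem_filter, mem_range] at hp
    have := nu_le_half ν hν p hp.2.1 hp.2.2
    linarith only [this]
  rw [hsplit]
  calc VV ν u = VV ν u * 1 := (mul_one _).symm
    _ ≤ VV ν u * ((1 + ε) * (Real.log v / Real.log u) ^ 2 * ∏ p ∈ prs u v, (1 - ν p)) :=
      mul_le_mul_of_nonneg_left hmain hVV
    _ = _ := by ring

end Pool.Agent.Lib.MP_d9bc60_nt.AP
end
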