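import Pool.Agent.Lib.MP_d9bc60_nt.AQ.QDefs

section
/-! Row H11 (about 60 lines): a numerical sum. -/

set_option autoImplicit false

namespace Pool.Agent.Lib.MP_d9bc60_nt.AP

open Finset

private lemma h11_ratio (j : ℕ) :
    4.02 * (1.388 : ℝ) ^ (2 * (j + 1) + 7) / (2 * (j + 1) + 7).factorial ≤
      (1 / 30) * (4.02 * (1.388 : ℝ) ^ (2 * j + 7) / (2 * j + 7).factorial) := by
  have e1 : 2 * (j + 1) + 7 = (2 * j + 8) + 1 := by ring
  have e2 : 2 * j + 8 = (2 * j + 7) + 1 := by ring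
  rw [e1, Nat.factorial_succ, e2, Nat.factorial_succ, pow_succ, pow_succ]
  have hf : (0 : ℝ) < ((2 * j + 7).factorial : ℝ) := by exact_mod_cast Nat.factorial_pos _
  have hp : (0 : ℝ) < (1.388 : ℝ) ^ (2 * j + 7) := by positivity
  have hj : (0 : ℝ) ≤ (j : ℝ) := Nat.cast_nonneg j
  push_cast
  rw [div_le_iff₀ (by positivity)]
  have : 1 / 30 * (4.02 * (1.388 : ℝ) ^ (2 * j + 7) / ((2 * j + 7).factorial : ℝ)) *
      ((2 * (j : ℝ) + 7 + 1 + 1) * ((2 * (j : ℝ) + 7 + 1) * ((2 * j + 7).factorial : ℝ))) =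
      1 / 30 * (4.02 * (1.388 : ℝ) ^ (2 * j + 7)) * ((2 * (j : ℝ) + 7 + 1 + 1) * (2 * (j : ℝ) + 7 + 1)) := by
    field_simp
  rw [this]
  have h2 : (72 : ℝ) ≤ (2 * (j : ℝ) + 7 + 1 + 1) * (2 * (j : ℝ) + 7 + 1) := by nlinarith
  nlinarith [mul_le_mul_of_nonneg_left h2 hp.le]

/-- Proof. The term `j = 0` is `4.02 · 1.388^7/5040 ≤ 0.00792`, each next term is at most `1/30` of the previous
one (`1.388²/(8·9)`). -/
theorem block_sum (t : ℕ) :
    ∑ j ∈ Finset.range t, 4.02 * (1.388 : ℝ) ^ (2 * j + 7) / (2 * j + 7).factorial ≤ 0.0095 := by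
  have key : ∀ t : ℕ, ∑ j ∈ Finset.range t, 4.02 * (1.388 : ℝ) ^ (2 * j + 7) / (2 * j + 7).factorial +
      (30 / 29) * (4.02 * (1.388 : ℝ) ^ (2 * t + 7) / (2 * t + 7).factorial) ≤
      (30 / 29) * (4.02 * (1.388 : ℝ) ^ (2 * 0 + 7) / (2 * 0 + 7).factorial) := by
    intro t
    induction t with
    | zero => simp
    | succ n ih =>
      rw [Finset.sum_range_succ]
      have := h11_ratio n
      linarith
  have h := key t
  have h0 : (0 : ℝ) ≤ (30 / 29) * (4.02 * (1.388 : ℝ) ^ (2 * t + 7) / (2 * t + 7).factorial) := by positivity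
  have h1 : (30 / 29) * (4.02 * (1.388 : ℝ) ^ (2 * 0 + 7) / (2 * 0 + 7).factorial) ≤ 0.0095 := by
    norm_num [Nat.factorial]
  linarith

end Pool.Agent.Lib.MP_d9bc60_nt.AP
end

section
/-! Row H12 (about 80 lines): the dissection points. -/

set_option autoImplicit false

namespace Pool.Agent.Lib.MP_d9bc60_nt.AP

open Finset

/-- Proof. `T` minimal with `z^(2^(-T)) < Z²` (it exists as `z^(2^(-T)) → 1 < Z²`), `T ≥ 1` as `z ≥ Z²` for large
`D`; `z^(2^(-(T-1))) ≥ Z²` gives `z^(2^(-T)) ≥ Z`; and `2^T ≤ log z/log Z`, so `T + 2 ≤ log D` for large `D`. -/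
theorem chain (Z : ℝ) (hZ : 5 ≤ Z) : ∃ D₀ : ℝ, 2 ≤ D₀ ∧ ∀ D : ℝ, D₀ ≤ D → ∃ T : ℕ, 1 ≤ T ∧
    Z ≤ (D ^ (2 / 35 : ℝ)) ^ ((1 / 2 : ℝ) ^ T) ∧ (D ^ (2 / 35 : ℝ)) ^ ((1 / 2 : ℝ) ^ T) < Z ^ 2 ∧
    (T : ℝ) + 2 ≤ Real.log D := by
  have hZ0 : 0 < Z := by linarith
  have hlZ : 1 < Real.log Z := by
    have h1 := Real.exp_one_lt_d9
    rw [Real.lt_log_iff_exp_lt hZ0]
    linarith
  refine ⟨max (Real.exp (35 * Real.log Z)) (Real.exp 8), ?_, ?_⟩
  · refine le_trans ?_ (le_max_right _ _)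
    have h1 := Real.add_one_le_exp (8 : ℝ)
    linarith
  · intro D hD
    have hD1 : Real.exp (35 * Real.log Z) ≤ D := (le_max_left _ _).trans hD
    have hD2 : Real.exp 8 ≤ D := (le_max_right _ _).trans hD
    have hD0 : 0 < D := lt_of_lt_of_le (Real.exp_pos _) hD2
    have hlD1 : 35 * Real.log Z ≤ Real.log D := (Real.le_log_iff_exp_le hD0).2 hD1
    have hlD2 : 8 ≤ Real.log D := (Real.le_log_iff_exp_le hD0).2 hD2
    set l : ℝ := 2 / 35 * Real.log D with hl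
    have hl2 : 2 * Real.log Z ≤ l := by rw [hl]; linarith
    have hlpos : 0 < l := by linarith
    -- the powers in terms of exp
    have hpow : ∀ t : ℕ, (D ^ (2 / 35 : ℝ)) ^ ((1 / 2 : ℝ) ^ t) = Real.exp (l * (1 / 2 : ℝ) ^ t) := by
      intro t
      rw [Real.rpow_def_of_pos hD0, ← Real.exp_mul, hl]
      congr 1
      ring
    have hZ2 : Z ^ 2 = Real.exp (2 * Real.log Z) := by
      rw [two_mul, Real.exp_add, Real.exp_log hZ0, sq]
    have hZ1 : Z = Real.exp (Real.log Z) := (Real.exp_log hZ0).symm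
    have hex : ∃ t : ℕ, l * (1 / 2 : ℝ) ^ t < 2 * Real.log Z := by
      obtain ⟨t, ht⟩ := exists_pow_lt_of_lt_one (show 0 < 2 * Real.log Z / l by positivity)
        (by norm_num : (1 / 2 : ℝ) < 1)
      refine ⟨t, ?_⟩
      rw [lt_div_iff₀ hlpos] at ht
      linarith
    classical
    set T := Nat.find hex with hT
    have hTspec : l * (1 / 2 : ℝ) ^ T < 2 * Real.log Z := Nat.find_spec hex
    have hT1 : 1 ≤ T := by
      rcases Nat.eq_zero_or_pos T with h0 | h0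
      · exfalso
        rw [h0, pow_zero, mul_one] at hTspec
        linarith
      · exact h0
    have hmin : 2 * Real.log Z ≤ l * (1 / 2 : ℝ) ^ (T - 1) := by
      have := Nat.find_min hex (m := T - 1) (by omega)
      exact not_lt.1 this
    have hhalf : (1 / 2 : ℝ) ^ (T - 1) = 2 * (1 / 2 : ℝ) ^ T := by
      obtain ⟨s, hs⟩ : ∃ s, T = s + 1 := ⟨T - 1, by omega⟩
      rw [hs, Nat.add_sub_cancel, pow_succ]
      ring
    have hlow : Real.log Z ≤ l * (1 / 2 : ℝ) ^ T := by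
      rw [hhalf] at hmin
      linarith
    refine ⟨T, hT1, ?_, ?_, ?_⟩
    · rw [hpow]
      calc Z = Real.exp (Real.log Z) := hZ1
        _ ≤ _ := Real.exp_le_exp.2 hlow
    · rw [hpow, hZ2]
      exact Real.exp_lt_exp.2 hTspec
    · -- `T + 1 ≤ 2^T ≤ l / log Z ≤ l`
      have h1 : (T : ℝ) + 1 ≤ 2 ^ T := by
        have h : T + 1 ≤ 2 ^ T := Nat.lt_two_pow_self
        exact_mod_cast h
      have h2 : (2 : ℝ) ^ T ≤ l := by
        have h3 : (1 / 2 : ℝ) ^ T * 2 ^ T = 1 := by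
          rw [← mul_pow]
          norm_num
        have h4 : (0 : ℝ) < 2 ^ T := by positivity
        have h5 : (2 : ℝ) ^ T * 1 ≤ 2 ^ T * (l * (1 / 2 : ℝ) ^ T) :=
          mul_le_mul_of_nonneg_left (hlZ.le.trans hlow) h4.le
        have h6 : (2 : ℝ) ^ T * (l * (1 / 2 : ℝ) ^ T) = l * ((1 / 2 : ℝ) ^ T * 2 ^ T) := by ring
        rw [h6, h3] at h5
        linarith
      have h3 : l ≤ Real.log D - 1 := by
        rw [hl]
        linarith
      linarith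

end Pool.Agent.Lib.MP_d9bc60_nt.AP
end

section
/-! Row H13 (about 120 lines): the level of the Brun-Hooley sieve. -/

set_option autoImplicit false

namespace Pool.Agent.Lib.MP_d9bc60_nt.AP

open Finset Pool.Agent.Lib.MP_d9bc60_nt.UV

theorem h13_geom (T : ℕ) :
    ∑ j ∈ range T, (1 / 2 : ℝ) ^ j * (2 * ((j : ℝ) + 3)) = 16 - (4 * T + 16) * (1 / 2) ^ T := by
  induction T with
  | zero => simp
  | succ T ih =>
    rw [Finset.sum_range_succ, ih, pow_succ]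
    push_cast
    ring

/-- Proof. For `j < T` the product of `S_j` is `≤ z_j^(|S_j|)`, `z_j = z^(2^(-j))`, so the blocks `j < T`
contribute at most `z^(∑_j 2(j+3) 2^(-j) + 1) ≤ z^17` (`∑_{j ≥ 0} (j+3) 2^(-j) = 8`) and the last block is a set of
primes `< Z²`: product `≤ primorial ⌊Z²⌋₊ ≤ 4^(Z²)` (`primorial_le_4_pow`; `S_T` arbitrary). -/
theorem level_bound (Z z : ℝ) (hZ : 5 ≤ Z) (hz : 1 ≤ z) (T : ℕ)
    (hT : z ^ ((1 / 2 : ℝ) ^ T) < Z ^ 2) (S : ℕ → Finset ℕ) (j₀ : ℕ)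
    (h1 : ∀ j < T, ∀ p ∈ S j, (p : ℝ) ≤ z ^ ((1 / 2 : ℝ) ^ j))
    (h2 : ∀ j < T, (S j).card ≤ if j = j₀ then 2 * (j + 3) + 1 else 2 * (j + 3))
    (h3 : ∀ p ∈ S T, p.Prime ∧ (p : ℝ) < Z ^ 2) :
    ((∏ j ∈ range (T + 1), ∏ p ∈ S j, p : ℕ) : ℝ) ≤ z ^ (17 : ℝ) * (4 : ℝ) ^ (Z ^ 2) := by
  have hz0 : 0 < z := by linarith
  have hZ2 : 0 ≤ Z ^ 2 := sq_nonneg Z
  rw [Finset.prod_range_succ, Nat.cast_mul]
  -- the last block
  have hlast : ((∏ p ∈ S T, p : ℕ) : ℝ) ≤ (4 : ℝ) ^ (Z ^ 2) := by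
    have h4 : ∏ p ∈ S T, p ≤ primorial ⌊Z ^ 2⌋₊ := by
      unfold primorial
      apply Finset.prod_le_prod_of_subset_of_one_le'
      · intro p hp
        rw [Finset.mem_filter, Finset.mem_range]
        refine ⟨?_, (h3 p hp).1⟩
        have := Nat.le_floor (h3 p hp).2.le
        omega
      · intro p hp _
        exact (Finset.mem_filter.1 hp).2.one_lt.le
    have h5 := h4.trans (primorial_le_four_pow ⌊Z ^ 2⌋₊)
    have h6 : ((∏ p ∈ S T, p : ℕ) : ℝ) ≤ ((4 ^ ⌊Z ^ 2⌋₊ : ℕ) : ℝ) := by exact_mod_cast h5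
    refine h6.trans ?_
    push_cast
    rw [← Real.rpow_natCast]
    exact Real.rpow_le_rpow_of_exponent_le (by norm_num) (Nat.floor_le hZ2)
  have hfirst : ((∏ j ∈ range T, ∏ p ∈ S j, p : ℕ) : ℝ) ≤ z ^ (17 : ℝ) := by
    rw [Nat.cast_prod]
    have h4 : ∀ j ∈ range T, ((∏ p ∈ S j, p : ℕ) : ℝ) ≤
        z ^ ((1 / 2 : ℝ) ^ j * (2 * ((j : ℝ) + 3) + if j = j₀ then 1 else 0)) := by
      intro j hj
      have hjT := Finset.mem_range.1 hj
      have h5 : (1 : ℝ) ≤ z ^ ((1 / 2 : ℝ) ^ j) := Real.one_le_rpow hz (by positivity)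
      rw [Nat.cast_prod]
      have h6 : ∏ p ∈ S j, (p : ℝ) ≤ ∏ _p ∈ S j, z ^ ((1 / 2 : ℝ) ^ j) :=
        Finset.prod_le_prod (fun p _ => Nat.cast_nonneg p) (h1 j hjT)
      rw [Finset.prod_const] at h6
      refine h6.trans ?_
      rw [Real.rpow_mul hz0.le, ← Real.rpow_natCast]
      refine Real.rpow_le_rpow_of_exponent_le h5 ?_
      have h7 := h2 j hjT
      split_ifs at h7 ⊢ with h8
      · have h9 : ((S j).card : ℝ) ≤ ((2 * (j + 3) + 1 : ℕ) : ℝ) := by exact_mod_cast h7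
        push_cast at h9
        linarith
      · have h9 : ((S j).card : ℝ) ≤ ((2 * (j + 3) : ℕ) : ℝ) := by exact_mod_cast h7
        push_cast at h9
        linarith
    refine (Finset.prod_le_prod (fun j _ => Nat.cast_nonneg _) h4).trans ?_
    rw [← Real.rpow_sum_of_pos hz0]
    refine Real.rpow_le_rpow_of_exponent_le hz ?_
    have h10 : ∑ j ∈ range T, (1 / 2 : ℝ) ^ j * (2 * ((j : ℝ) + 3) + if j = j₀ then 1 else 0) =
        ∑ j ∈ range T, (1 / 2 : ℝ) ^ j * (2 * ((j : ℝ) + 3)) +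
        ∑ j ∈ range T, (if j = j₀ then (1 / 2 : ℝ) ^ j else 0) := by
      rw [← Finset.sum_add_distrib]
      refine Finset.sum_congr rfl fun j _ => ?_
      split_ifs <;> ring
    rw [h10, h13_geom]
    have h11 : ∑ j ∈ range T, (if j = j₀ then (1 / 2 : ℝ) ^ j else 0) ≤ 1 := by
      rw [Finset.sum_ite_eq']
      split_ifs
      · exact pow_le_one₀ (by norm_num) (by norm_num)
      · norm_num
    have h12 : 0 ≤ (4 * (T : ℝ) + 16) * (1 / 2) ^ T := by positivity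
    linarith
  exact mul_le_mul hfirst hlast (Nat.cast_nonneg _) (by positivity)

end Pool.Agent.Lib.MP_d9bc60_nt.AP
end
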