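import Pool.Agent.Lib.MP_d9bc60_nt.AQ.QBH
import Pool.Agent.Lib.MP_d9bc60_nt.AQ.QMert
import Pool.Agent.Lib.MP_d9bc60_nt.AQ.QNum

section
/-! Row H14: the lower bound sieve of dimension 2 with level `z^(35/2)`. -/

set_option autoImplicit false

namespace Pool.Agent.Lib.MP_d9bc60_nt.AP

open Finset Pool.Agent.Lib.MP_d9bc60_nt.UV

lemma h14_mem_prs {u v : ℝ} {p : ℕ} : p ∈ prs u v ↔ p.Prime ∧ u ≤ (p : ℝ) ∧ (p : ℝ) < v := by
  classical
  unfold prs
  rw [Finset.mem_filter, Finset.mem_range, Nat.lt_ceil]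
  tauto

lemma h14_nu_le {ν : ℕ → ℝ} (hν : Dens ν) {p : ℕ} (hp : p.Prime) (h3 : 3 ≤ p) : ν p ≤ 1 / 2 := by
  rcases Nat.lt_or_ge p 5 with h | h
  · have h4 : p ≠ 4 := by rintro rfl; exact absurd hp (by decide)
    have : p = 3 := by omega
    subst this
    exact hν.three
  · refine (hν.le p hp h).trans ?_
    have : (5 : ℝ) ≤ p := by exact_mod_cast h
    rw [div_le_div_iff₀ (by linarith) (by norm_num)]
    linarith

lemma h14_VV_split (ν : ℕ → ℝ) {u v : ℝ} (h3 : 3 ≤ u) (huv : u ≤ v) :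
    VV ν v = VV ν u * ∏ p ∈ prs u v, (1 - ν p) := by
  classical
  unfold VV
  rw [← Finset.prod_union]
  · apply Finset.prod_congr _ (fun _ _ => rfl)
    ext p
    rw [Finset.mem_union, Finset.mem_filter, Finset.mem_filter, Finset.mem_range, Finset.mem_range,
      Nat.lt_ceil, Nat.lt_ceil, h14_mem_prs]
    constructor
    · rintro ⟨h1, h2, h4⟩
      rcases lt_or_ge (p : ℝ) u with h | h
      · exact Or.inl ⟨h, h2, h4⟩
      · exact Or.inr ⟨h2, h, h1⟩
    · rintro (⟨h1, h2, h4⟩ | ⟨h1, h2, h4⟩)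
      · exact ⟨h1.trans_le huv, h2, h4⟩
      · refine ⟨h4, h1, ?_⟩
        have : (3 : ℝ) ≤ p := h3.trans h2
        exact_mod_cast this
  · rw [Finset.disjoint_left]
    intro p h1 h2
    rw [Finset.mem_filter, Finset.mem_range, Nat.lt_ceil] at h1
    rw [h14_mem_prs] at h2
    linarith [h1.1, h2.2.1]

lemma h14_VV_prs (ν : ℕ → ℝ) (v : ℝ) : VV ν v = ∏ p ∈ prs 3 v, (1 - ν p) := by
  classical
  unfold VV
  apply Finset.prod_congr _ (fun _ _ => rfl)
  ext p
  rw [Finset.mem_filter, Finset.mem_range, Nat.lt_ceil, h14_mem_prs]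
  constructor
  · rintro ⟨h1, h2, h3⟩
    exact ⟨h2, by exact_mod_cast h3, h1⟩
  · rintro ⟨h1, h2, h3⟩
    exact ⟨h3, h1, by exact_mod_cast h2⟩

lemma h14_VV_nonneg {ν : ℕ → ℝ} (hν : Dens ν) (z : ℝ) : 0 ≤ VV ν z := by
  classical
  unfold VV
  apply Finset.prod_nonneg
  intro p hp
  rw [Finset.mem_filter] at hp
  linarith [h14_nu_le hν hp.2.1 hp.2.2]

/-- The lower bound sieve. -/
theorem lower_sieve : ∃ D₀ : ℝ, 2 ≤ D₀ ∧ ∀ D : ℝ, D₀ ≤ D → ∀ {ι : Type} (I : Finset ι) (w : ι → ℝ)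
    (a : ι → ℕ) (X : ℝ) (ν : ℕ → ℝ), (∀ i, 0 ≤ w i) → 0 ≤ X → Dens ν →
    0.99 * X * VV ν (D ^ (2 / 35 : ℝ)) -
      Real.log D * ∑ d ∈ Dset (D ^ (2 / 35 : ℝ)) D, Rem I w a X ν d ≤
      Ssum I w a (D ^ (2 / 35 : ℝ)) := by
  classical
  obtain ⟨u₁, hu₁, hsum⟩ := nu_sum 0.001 (by norm_num)
  obtain ⟨u₂, hu₂, hprod⟩ := nu_prod_inv 0.001 (by norm_num)
  set Z : ℝ := max u₁ u₂ with hZdef
  have hZ : 5 ≤ Z := hu₁.trans (le_max_left _ _)
  obtain ⟨D₁, hD₁, hchain⟩ := chain Z hZ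
  refine ⟨max D₁ (((4 : ℝ) ^ (Z ^ 2)) ^ (35 : ℝ)), hD₁.trans (le_max_left _ _), ?_⟩
  intro D hD ι I w a X ν hw hX hν
  obtain ⟨T, hT1, hTZ, hTZ2, hTlog⟩ := hchain D ((le_max_left _ _).trans hD)
  have hD2 : 2 ≤ D := hD₁.trans ((le_max_left _ _).trans hD)
  have hD0 : 0 < D := by linarith
  have h4 : (4 : ℝ) ^ (Z ^ 2) ≤ D ^ (1 / 35 : ℝ) := by
    have h1 : ((4 : ℝ) ^ (Z ^ 2)) ^ (35 : ℝ) ≤ D := (le_max_right _ _).trans hD
    have h2 : (((4 : ℝ) ^ (Z ^ 2)) ^ (35 : ℝ)) ^ (1 / 35 : ℝ) ≤ D ^ (1 / 35 : ℝ) :=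
      Real.rpow_le_rpow (by positivity) h1 (by norm_num)
    rw [← Real.rpow_mul (by positivity)] at h2
    norm_num at h2
    norm_num
    exact h2
  set z : ℝ := D ^ (2 / 35 : ℝ) with hz
  have hz1 : 1 ≤ z := Real.one_le_rpow (by linarith) (by norm_num)
  have hz0 : 0 < z := by linarith
  -- the dissection points
  set zz : ℕ → ℝ := fun j => z ^ ((1 / 2 : ℝ) ^ j) with hzz
  have hzz0 : zz 0 = z := by simp [hzz]
  have hanti : ∀ i j, i ≤ j → zz j ≤ zz i := by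
    intro i j hij
    apply Real.rpow_le_rpow_of_exponent_le hz1
    exact pow_le_pow_of_le_one (by norm_num) (by norm_num) hij
  have hzT : ∀ j ≤ T, Z ≤ zz j := fun j hj => hTZ.trans (hanti j T hj)
  have hzzle : ∀ j, zz j ≤ z := fun j => by
    have := hanti 0 j (Nat.zero_le j)
    rwa [hzz0] at this
  have hlog : ∀ j, Real.log (zz j) = 2 * Real.log (zz (j + 1)) := by
    intro j
    simp only [hzz]
    rw [Real.log_rpow hz0, Real.log_rpow hz0, pow_succ]
    ring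
  have hlogpos : ∀ j ≤ T, 0 < Real.log (zz j) := by
    intro j hj
    apply Real.log_pos
    linarith [hzT j hj]
  have hratio : ∀ j < T, Real.log (zz j) / Real.log (zz (j + 1)) = 2 := by
    intro j hj
    rw [hlog j, mul_div_assoc, div_self (hlogpos (j + 1) hj).ne', mul_one]
  -- the blocks
  set B : ℕ → Finset ℕ := fun j =>
    if j < T then prs (zz (j + 1)) (zz j) else if j = T then prs 3 (zz T) else ∅ with hBdef
  have hBlt : ∀ j, j < T → B j = prs (zz (j + 1)) (zz j) := fun j hj => by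
    simp only [hBdef, if_pos hj]
  have hBT : B T = prs 3 (zz T) := by
    simp only [hBdef, lt_irrefl, if_false, if_true]
  have hBgt : ∀ j, T < j → B j = ∅ := fun j hj => by
    simp only [hBdef]
    rw [if_neg (by omega), if_neg (by omega)]
  have hBmem : ∀ j, ∀ p ∈ B j, p.Prime ∧ 3 ≤ p ∧ (p : ℝ) < zz j ∧ (j < T → zz (j + 1) ≤ (p : ℝ)) := by
    intro j p hp
    rcases lt_trichotomy j T with h | h | h
    · rw [hBlt j h, h14_mem_prs] at hp
      have h1 : (3 : ℝ) ≤ p := by linarith [hzT (j + 1) h, hp.2.1]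
      exact ⟨hp.1, by exact_mod_cast h1, hp.2.2, fun _ => hp.2.1⟩
    · subst h
      rw [hBT, h14_mem_prs] at hp
      exact ⟨hp.1, by exact_mod_cast hp.2.1, hp.2.2, fun h => absurd h (lt_irrefl _)⟩
    · rw [hBgt j h] at hp
      simp at hp
  have hB : ∀ j, ∀ p ∈ B j, p.Prime ∧ 3 ≤ p ∧ (p : ℝ) < z := by
    intro j p hp
    obtain ⟨h1, h2, h3, -⟩ := hBmem j p hp
    exact ⟨h1, h2, h3.trans_le (hzzle j)⟩
  have hdislt : ∀ i j, i < j → Disjoint (B i) (B j) := by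
    intro i j hij
    rw [Finset.disjoint_left]
    intro p h1 h2
    rcases lt_or_ge i T with h | h
    · have h3 := (hBmem i p h1).2.2.2 h
      have h5 := (hBmem j p h2).2.2.1
      have h6 := hanti (i + 1) j hij
      linarith
    · rw [hBgt j (by omega)] at h2
      simp at h2
  have hdis : ∀ i j, i ≠ j → Disjoint (B i) (B j) := by
    intro i j hij
    rcases lt_or_gt_of_ne hij with h | h
    · exact hdislt i j h
    · exact (hdislt j i h).symm
  set k : ℕ → ℕ := fun j => if j < T then j + 3 else ⌈Z ^ 2⌉₊ with hk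
  have hklt : ∀ j, j < T → k j = j + 3 := fun j hj => by simp only [hk, if_pos hj]
  have hkT : k T = ⌈Z ^ 2⌉₊ := by simp only [hk, lt_irrefl, if_false]
  -- the level
  have hY : ∀ (S : ℕ → Finset ℕ) (j₀ : ℕ), (∀ j, S j ⊆ B j) →
      (∀ j < T + 1, (S j).card ≤ if j = j₀ then 2 * k j + 1 else 2 * k j) →
      ((∏ j ∈ range (T + 1), ∏ p ∈ S j, p : ℕ) : ℝ) ≤ D := by
    intro S j₀ hS hc
    have h1 := level_bound Z z hZ hz1 T hTZ2 S j₀
      (fun j _ p hp => (hBmem j p (hS j hp)).2.2.1.le)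
      (fun j hj => by
        have := hc j (by omega)
        rwa [hklt j hj] at this)
      (fun p hp => by
        have := hBmem T p (hS T hp)
        exact ⟨this.1, this.2.2.1.trans hTZ2⟩)
    refine h1.trans ?_
    have h2 : z ^ (17 : ℝ) = D ^ (34 / 35 : ℝ) := by
      rw [hz, ← Real.rpow_mul hD0.le]
      norm_num
    rw [h2]
    calc D ^ (34 / 35 : ℝ) * (4 : ℝ) ^ (Z ^ 2) ≤ D ^ (34 / 35 : ℝ) * D ^ (1 / 35 : ℝ) :=
          mul_le_mul_of_nonneg_left h4 (by positivity)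
      _ = D := by
          rw [← Real.rpow_add hD0]
          norm_num
  -- the sum over the blocks
  have hterm : ∀ j < T, (∑ S ∈ (B j).powersetCard (2 * k j + 1), ν (∏ p ∈ S, p)) /
      ∏ p ∈ B j, (1 - ν p) ≤ 4.02 * (1.388 : ℝ) ^ (2 * j + 7) / (2 * j + 7).factorial := by
    intro j hj
    have hkj : 2 * k j + 1 = 2 * j + 7 := by rw [hklt j hj]; ring
    rw [hkj]
    have hu : Z ≤ zz (j + 1) := hzT (j + 1) hj
    have huv : zz (j + 1) ≤ zz j := hanti j (j + 1) (Nat.le_succ j)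
    have h1 := hsum ν hν (zz (j + 1)) (zz j) ((le_max_left _ _).trans hu) huv
    have h2 := hprod ν hν (zz (j + 1)) (zz j) ((le_max_right _ _).trans hu) huv
    rw [hratio j hj] at h1 h2
    rw [← hBlt j hj] at h1 h2
    have h3 : ∑ p ∈ B j, ν p ≤ 1.388 := by
      have := Real.log_two_lt_d9
      linarith
    have h3' : 0 ≤ ∑ p ∈ B j, ν p := Finset.sum_nonneg fun p _ => hν.nonneg p
    have h5 := esymm_le ν hν (B j) (fun p hp => (hB j p hp).1) (2 * j + 7)
    have h6 : (∑ p ∈ B j, ν p) ^ (2 * j + 7) ≤ (1.388 : ℝ) ^ (2 * j + 7) :=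
      pow_le_pow_left₀ h3' h3 _
    have h7 : 0 < ∏ p ∈ B j, (1 - ν p) := by
      by_contra hneg
      push Not at hneg
      nlinarith
    rw [div_le_iff₀ h7]
    have h8 : (0 : ℝ) < (2 * j + 7).factorial := by exact_mod_cast Nat.factorial_pos _
    have h9 : ∑ S ∈ (B j).powersetCard (2 * j + 7), ν (∏ p ∈ S, p) ≤
        (1.388 : ℝ) ^ (2 * j + 7) / (2 * j + 7).factorial :=
      h5.trans (div_le_div_of_nonneg_right h6 h8.le)
    have h10 : 0 ≤ (1.388 : ℝ) ^ (2 * j + 7) / (2 * j + 7).factorial := by positivity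
    have h11 : 1 ≤ 4.02 * ∏ p ∈ B j, (1 - ν p) := by nlinarith
    calc ∑ S ∈ (B j).powersetCard (2 * j + 7), ν (∏ p ∈ S, p)
        ≤ (1.388 : ℝ) ^ (2 * j + 7) / (2 * j + 7).factorial * 1 := by rw [mul_one]; exact h9
      _ ≤ (1.388 : ℝ) ^ (2 * j + 7) / (2 * j + 7).factorial * (4.02 * ∏ p ∈ B j, (1 - ν p)) :=
          mul_le_mul_of_nonneg_left h11 h10
      _ = 4.02 * (1.388 : ℝ) ^ (2 * j + 7) / (2 * j + 7).factorial * ∏ p ∈ B j, (1 - ν p) := by
          ring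
  have hlast : (B T).powersetCard (2 * k T + 1) = ∅ := by
    rw [Finset.powersetCard_eq_empty, hkT, hBT]
    have h1 : (prs 3 (zz T)).card ≤ ⌈zz T⌉₊ := by
      unfold prs
      refine (Finset.card_filter_le _ _).trans ?_
      rw [Finset.card_range]
    have h2 : ⌈zz T⌉₊ ≤ ⌈Z ^ 2⌉₊ := Nat.ceil_le_ceil hTZ2.le
    omega
  have hsumle : ∑ j ∈ range (T + 1), (∑ S ∈ (B j).powersetCard (2 * k j + 1), ν (∏ p ∈ S, p)) /
      ∏ p ∈ B j, (1 - ν p) ≤ 0.0095 := by
    rw [Finset.sum_range_succ, hlast, Finset.sum_empty, zero_div, add_zero]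
    exact (Finset.sum_le_sum fun j hj => hterm j (Finset.mem_range.mp hj)).trans (block_sum T)
  -- the main product
  have hmain : ∏ j ∈ range (T + 1), ∏ p ∈ B j, (1 - ν p) = VV ν z := by
    have h1 : ∀ m ≤ T, VV ν z = VV ν (zz m) * ∏ j ∈ range m, ∏ p ∈ B j, (1 - ν p) := by
      intro m
      induction m with
      | zero => intro _; rw [hzz0]; simp
      | succ m ih =>
        intro hm
        rw [ih (by omega), Finset.prod_range_succ,
          h14_VV_split ν (by linarith [hzT (m + 1) hm]) (hanti m (m + 1) (Nat.le_succ m)),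
          hBlt m hm]
        ring
    rw [h1 T le_rfl, Finset.prod_range_succ, hBT, h14_VV_prs]
    ring
  have hcover : ∀ p : ℕ, p.Prime → 3 ≤ p → (p : ℝ) < z → ∃ j < T + 1, p ∈ B j := by
    intro p hp hp3 hpz
    have h1 : ∀ m ≤ T, (p : ℝ) < zz m ∨ ∃ j < m, p ∈ B j := by
      intro m
      induction m with
      | zero => intro _; left; rwa [hzz0]
      | succ m ih =>
        intro hm
        rcases ih (by omega) with h | ⟨j, hj, h⟩
        · rcases lt_or_ge (p : ℝ) (zz (m + 1)) with h2 | h2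
          · exact Or.inl h2
          · refine Or.inr ⟨m, Nat.lt_succ_self m, ?_⟩
            rw [hBlt m hm, h14_mem_prs]
            exact ⟨hp, h2, h⟩
        · exact Or.inr ⟨j, by omega, h⟩
    rcases h1 T le_rfl with h | ⟨j, hj, h⟩
    · refine ⟨T, Nat.lt_succ_self T, ?_⟩
      rw [hBT, h14_mem_prs]
      exact ⟨hp, by exact_mod_cast hp3, h⟩
    · exact ⟨j, by omega, h⟩
  have hlow := bh_lower I w hw a X z D hX ν hν (T + 1) B hB hdis k hY (hsumle.trans (by norm_num))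
  rw [hmain] at hlow
  have hVV := h14_VV_nonneg hν z
  have hRem : 0 ≤ ∑ d ∈ Dset z D, Rem I w a X ν d := by
    apply Finset.sum_nonneg
    intro d _
    unfold Rem
    exact abs_nonneg _
  have hfil : ∑ i ∈ I.filter (fun i => ∀ j < T + 1, ∀ p ∈ B j, ¬ p ∣ a i), w i ≤ Ssum I w a z := by
    unfold Ssum
    apply Finset.sum_le_sum_of_subset_of_nonneg
    · intro i hi
      rw [Finset.mem_filter] at hi ⊢
      refine ⟨hi.1, ?_⟩
      intro p hp hp3 hpz
      obtain ⟨j, hj, hpj⟩ := hcover p hp hp3 hpz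
      exact hi.2 j hj p hpj
    · intro i _ _
      exact hw i
  have hXV : 0 ≤ X * VV ν z := mul_nonneg hX hVV
  have hA : 0.99 * X * VV ν z ≤ X * VV ν z *
      (1 - ∑ j ∈ range (T + 1), (∑ S ∈ (B j).powersetCard (2 * k j + 1), ν (∏ p ∈ S, p)) /
        ∏ p ∈ B j, (1 - ν p)) := by
    nlinarith
  have hC : (((T + 1 : ℕ) : ℝ) + 1) * ∑ d ∈ Dset z D, Rem I w a X ν d ≤
      Real.log D * ∑ d ∈ Dset z D, Rem I w a X ν d := by
    apply mul_le_mul_of_nonneg_right _ hRem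
    push_cast
    linarith
  calc 0.99 * X * VV ν z - Real.log D * ∑ d ∈ Dset z D, Rem I w a X ν d
      ≤ X * VV ν z *
        (1 - ∑ j ∈ range (T + 1), (∑ S ∈ (B j).powersetCard (2 * k j + 1), ν (∏ p ∈ S, p)) /
          ∏ p ∈ B j, (1 - ν p)) - (((T + 1 : ℕ) : ℝ) + 1) * ∑ d ∈ Dset z D, Rem I w a X ν d := by
        linarith
    _ ≤ ∑ i ∈ I.filter (fun i => ∀ j < T + 1, ∀ p ∈ B j, ¬ p ∣ a i), w i := hlow
    _ ≤ Ssum I w a z := hfil

end Pool.Agent.Lib.MP_d9bc60_nt.AP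
end
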