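import Mathlib

section
/-! Row T04 (about 120 lines): two integrals. -/

set_option autoImplicit false

namespace Pool.Agent.Lib.MP_d9bc60_nt.AP

open Finset

theorem t04_exp_le (x : ℝ) (hx : 0 ≤ x) (hx2 : x ≤ 2) :
    Real.exp x ≤ (∑ m ∈ range 11, x ^ m / (m.factorial : ℝ)) + x ^ 11 / (Nat.factorial 11 : ℝ) * 2 := by
  have h := Complex.exp_bound' (x := (x : ℂ)) (n := 11) (by
    rw [Complex.norm_real, Real.norm_of_nonneg hx]
    norm_num
    linarith)
  rw [Complex.norm_real, Real.norm_of_nonneg hx] at h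
  have e1 : Complex.exp (x : ℂ) - ∑ m ∈ range 11, (x : ℂ) ^ m / (m.factorial : ℂ)
      = ((Real.exp x - ∑ m ∈ range 11, x ^ m / (m.factorial : ℝ) : ℝ) : ℂ) := by
    push_cast
    rfl
  rw [e1, Complex.norm_real] at h
  have := le_trans (le_abs_self _) h
  linarith

theorem t04_point (η u : ℝ) (hη : 0 < η) (hη2 : η ≤ 2) (hu : 0 < u) (hu1 : u ≤ 1) :
    (Real.exp (η * u) - 1) / u ≤
      (∑ m ∈ range 10, η ^ (m + 1) / ((m + 1).factorial : ℝ) * u ^ m)
        + η ^ 11 / (Nat.factorial 11 : ℝ) * 2 * u ^ 10 := by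
  have hx : 0 ≤ η * u := by positivity
  have hx2 : η * u ≤ 2 := by nlinarith
  have h := t04_exp_le (η * u) hx hx2
  rw [div_le_iff₀ hu]
  rw [Finset.sum_range_succ'] at h
  have e2 : ((∑ m ∈ range 10, η ^ (m + 1) / ((m + 1).factorial : ℝ) * u ^ m)
        + η ^ 11 / (Nat.factorial 11 : ℝ) * 2 * u ^ 10) * u =
      (∑ m ∈ range 10, (η * u) ^ (m + 1) / ((m + 1).factorial : ℝ))
        + (η * u) ^ 11 / (Nat.factorial 11 : ℝ) * 2 := by
    rw [add_mul, Finset.sum_mul]
    congr 1
    · refine Finset.sum_congr rfl fun m _ => ?_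
      rw [mul_pow]; ring
    · rw [mul_pow]; ring
  rw [e2]
  simp only [pow_zero, Nat.factorial_zero, Nat.cast_one, div_one] at h
  linarith

theorem t04_int (η s : ℝ) (hη : 0 < η) (hη2 : η ≤ 2) (hs : 0 < s) (hs1 : s ≤ 1) :
    (∫ u in s..1, (Real.exp (η * u) - 1) / u) ≤
      (∑ m ∈ range 10, η ^ (m + 1) / ((m + 1).factorial : ℝ) * (1 / ((m : ℝ) + 1)))
        + η ^ 11 / (Nat.factorial 11 : ℝ) * 2 * (1 / 11) := by
  have hcont : ContinuousOn (fun u : ℝ => (Real.exp (η * u) - 1) / u) (Set.uIcc s 1) := by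
    refine ContinuousOn.div (by fun_prop) (by fun_prop) ?_
    intro u hu
    rw [Set.uIcc_of_le hs1] at hu
    exact (lt_of_lt_of_le hs hu.1).ne'
  have hP : Continuous (fun u : ℝ => (∑ m ∈ range 10, η ^ (m + 1) / ((m + 1).factorial : ℝ) * u ^ m)
        + η ^ 11 / (Nat.factorial 11 : ℝ) * 2 * u ^ 10) := by fun_prop
  have h1 : (∫ u in s..1, (Real.exp (η * u) - 1) / u) ≤
      ∫ u in s..1, ((∑ m ∈ range 10, η ^ (m + 1) / ((m + 1).factorial : ℝ) * u ^ m)
        + η ^ 11 / (Nat.factorial 11 : ℝ) * 2 * u ^ 10) := by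
    refine intervalIntegral.integral_mono_on hs1 hcont.intervalIntegrable
      (hP.intervalIntegrable _ _) ?_
    intro u hu
    exact t04_point η u hη hη2 (lt_of_lt_of_le hs hu.1) hu.2
  refine h1.trans ?_
  have hpow : ∀ m : ℕ, (∫ u in s..1, u ^ m) ≤ 1 / ((m : ℝ) + 1) := by
    intro m
    rw [integral_pow]
    refine div_le_div_of_nonneg_right ?_ (by positivity)
    have : 0 ≤ s ^ (m + 1) := by positivity
    rw [one_pow]
    linarith
  rw [intervalIntegral.integral_add (Continuous.intervalIntegrable (by fun_prop) _ _)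
    (Continuous.intervalIntegrable (by fun_prop) _ _),
    intervalIntegral.integral_finsetSum (fun m _ => Continuous.intervalIntegrable (by fun_prop) _ _)]
  refine add_le_add ?_ ?_
  · refine Finset.sum_le_sum fun m _ => ?_
    rw [intervalIntegral.integral_const_mul]
    exact mul_le_mul_of_nonneg_left (hpow m) (by positivity)
  · rw [intervalIntegral.integral_const_mul]
    refine mul_le_mul_of_nonneg_left ?_ (by positivity)
    have := hpow 10
    norm_num at this ⊢
    linarith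

/-- Proof. `(e^x - 1)/u`, `x = ηu`: for `0 ≤ x ≤ 1.7`, `e^x ≤ ∑_{k ≤ 10} x^k/k! + 1.2 x^11/11!` (`Real.exp_bound`-type
bound, or compare with the geometric series), so the integral from `s` to `1` is at most the one from
`0` of the polynomial, `∑_{k=1}^{10} η^k/(k k!) + ...`. True values `2.81312` and `1.88182`. -/
theorem exp_int (s : ℝ) (hs : 0 < s) (hs1 : s ≤ 1) :
    2 * (∫ u in s..1, (Real.exp (1.7 * u) - 1) / u) ≤ 5.627 ∧
    2 * (∫ u in s..1, (Real.exp (1.3 * u) - 1) / u) ≤ 3.7645 := by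
  constructor
  · have h := t04_int 1.7 s (by norm_num) (by norm_num) hs hs1
    refine (mul_le_mul_of_nonneg_left h (by norm_num : (0:ℝ) ≤ 2)).trans ?_
    norm_num [Finset.sum_range_succ, Nat.factorial]
  · have h := t04_int 1.3 s (by norm_num) (by norm_num) hs hs1
    refine (mul_le_mul_of_nonneg_left h (by norm_num : (0:ℝ) ≤ 2)).trans ?_
    norm_num [Finset.sum_range_succ, Nat.factorial]

end Pool.Agent.Lib.MP_d9bc60_nt.AP
end

section
/-! Row T07 (about 120 lines): the numerical inequality. -/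

set_option autoImplicit false

namespace Pool.Agent.Lib.MP_d9bc60_nt.AP

open Finset

/-- The upper bound factor at `l = D^t`, `z = D^(2/35)`. -/
noncomputable def Fup (t : ℝ) : ℝ :=
  if t ≤ 11 / 35 then 1.011 else if t ≤ 19 / 35 then 1.322 else 84.7 * (2 / 35 / (1 - t)) ^ 2

theorem t07_log_le {x : ℝ} (hx : 0 < x) (n k : ℕ) :
    n * Real.log x ≤ k * Real.log 2 + (x ^ n / 2 ^ k - 1) := by
  have h1 : Real.log (x ^ n / 2 ^ k) = n * Real.log x - k * Real.log 2 := by
    rw [Real.log_div (by positivity) (by positivity), Real.log_pow, Real.log_pow]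
  have h2 := Real.log_le_sub_one_of_pos (show 0 < x ^ n / 2 ^ k by positivity)
  linarith

theorem t07_log_ge {x : ℝ} (hx : 0 < x) (n k : ℕ) :
    k * Real.log 2 - (2 ^ k / x ^ n - 1) ≤ n * Real.log x := by
  have h1 : Real.log (2 ^ k / x ^ n) = k * Real.log 2 - n * Real.log x := by
    rw [Real.log_div (by positivity) (by positivity), Real.log_pow, Real.log_pow]
  have h2 := Real.log_le_sub_one_of_pos (show 0 < 2 ^ k / x ^ n by positivity)
  linarith

theorem t07_int1 {a b c : ℝ} (ha : 0 < a) (hab : a ≤ b) :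
    ∫ t in a..b, (2 * c * (1 - t / 0.9)) / t =
      2 * c * (Real.log b - Real.log a - 10 / 9 * (b - a)) := by
  have hne : ∀ t ∈ Set.uIcc a b, t ≠ 0 := by
    intro t ht
    rw [Set.uIcc_of_le hab] at ht
    exact (lt_of_lt_of_le ha ht.1).ne'
  have hd : ∀ t ∈ Set.uIcc a b, HasDerivAt (fun t => 2 * c * (Real.log t - 10 / 9 * t))
      ((2 * c * (1 - t / 0.9)) / t) t := by
    intro t ht
    have h0 := hne t ht
    have h1 := ((Real.hasDerivAt_log h0).sub ((hasDerivAt_id t).const_mul (10 / 9))).const_mul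
      (2 * c)
    refine h1.congr_deriv ?_
    field_simp
    ring
  rw [intervalIntegral.integral_eq_sub_of_hasDerivAt hd]
  · ring
  · apply ContinuousOn.intervalIntegrable
    exact ContinuousOn.div (by fun_prop) continuousOn_id hne

theorem t07_int2 {a b c : ℝ} (ha : 0 < a) (hab : a ≤ b) (hb : b < 1) :
    ∫ t in a..b, (2 * (c * (2 / 35 / (1 - t)) ^ 2) * (1 - t / 0.9)) / t =
      2 * c * (4 / 1225) * ((Real.log b - Real.log (1 - b) - 1 / 9 / (1 - b)) -
        (Real.log a - Real.log (1 - a) - 1 / 9 / (1 - a))) := by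
  have hne : ∀ t ∈ Set.uIcc a b, t ≠ 0 ∧ 1 - t ≠ 0 := by
    intro t ht
    rw [Set.uIcc_of_le hab] at ht
    exact ⟨(lt_of_lt_of_le ha ht.1).ne', by linarith [ht.2] |> fun h : 0 < 1 - t => h.ne'⟩
  have hd : ∀ t ∈ Set.uIcc a b, HasDerivAt
      (fun t => 2 * c * (4 / 1225) * (Real.log t - Real.log (1 - t) - 1 / 9 / (1 - t)))
      ((2 * (c * (2 / 35 / (1 - t)) ^ 2) * (1 - t / 0.9)) / t) t := by
    intro t ht
    obtain ⟨h0, h0'⟩ := hne t ht
    have hs : HasDerivAt (fun t : ℝ => 1 - t) (-1) t := by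
      simpa using (hasDerivAt_id t).const_sub 1
    have h1 := (((Real.hasDerivAt_log h0).sub (hs.log h0')).sub
      ((hs.inv h0').const_mul (1 / 9))).const_mul (2 * c * (4 / 1225))
    have h2 : HasDerivAt
      (fun t => 2 * c * (4 / 1225) * (Real.log t - Real.log (1 - t) - 1 / 9 / (1 - t)))
      (2 * c * (4 / 1225) * (t⁻¹ - -1 / (1 - t) - 1 / 9 * (-(-1) / (1 - t) ^ 2))) t := by
      refine h1.congr_of_eventuallyEq (Filter.Eventually.of_forall fun y => ?_)
      simp only [Pi.sub_apply, div_eq_mul_inv]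
      rfl
    refine h2.congr_deriv ?_
    field_simp
    ring
  rw [intervalIntegral.integral_eq_sub_of_hasDerivAt hd]
  · ring
  · apply ContinuousOn.intervalIntegrable
    refine ContinuousOn.div ?_ continuousOn_id (fun t ht => (hne t ht).1)
    refine ContinuousOn.mul ?_ (by fun_prop)
    refine ContinuousOn.mul continuousOn_const ?_
    refine ContinuousOn.mul continuousOn_const ?_
    refine ContinuousOn.pow ?_ 2
    exact ContinuousOn.div continuousOn_const (by fun_prop) (fun t ht => (hne t ht).2)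

/-- Proof. `∫ (1/t - 10/9) dt = log t - (10/9) t`; `∫ (1/t - 10/9)/(1-t)² dt =
log(t/(1-t)) - (1/9)/(1-t)`. So the three integrals are `2.022 (log 5.5 - 2/7) = 2.8693`,
`2.644 (log(19/11) - 16/63) = 0.7736`, `2 · 84.7 · (4/1225) · (log 9 - 10/9 - log(19/16) + 35/144) = 0.6402`;
the sum is `4.2831 ≤ 4.3`. -/
theorem num_int :
    (∫ t in (2 / 35 : ℝ)..(11 / 35), (2 * 1.011 * (1 - t / 0.9)) / t) +
    (∫ t in (11 / 35 : ℝ)..(19 / 35), (2 * 1.322 * (1 - t / 0.9)) / t) +
    (∫ t in (19 / 35 : ℝ)..0.9, (2 * (84.7 * (2 / 35 / (1 - t)) ^ 2) * (1 - t / 0.9)) / t) ≤ 4.3 := by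
  rw [t07_int1 (by norm_num) (by norm_num), t07_int1 (by norm_num) (by norm_num),
    t07_int2 (by norm_num) (by norm_num) (by norm_num)]
  have e1 : Real.log (11 / 35) - Real.log (2 / 35) = Real.log (11 / 2) := by
    rw [← Real.log_div (by norm_num) (by norm_num)]
    norm_num
  have e2 : Real.log (19 / 35) - Real.log (11 / 35) = Real.log (19 / 11) := by
    rw [← Real.log_div (by norm_num) (by norm_num)]
    norm_num
  have e3 : Real.log 0.9 - Real.log (1 - 0.9) = Real.log 9 := by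
    rw [← Real.log_div (by norm_num) (by norm_num)]
    norm_num
  have e4 : Real.log (19 / 35) - Real.log (1 - 19 / 35) = Real.log (19 / 16) := by
    rw [← Real.log_div (by norm_num) (by norm_num)]
    norm_num
  rw [e1, e2, e3, e4]
  have b1 := t07_log_le (show (0 : ℝ) < 11 / 2 by norm_num) 2 5
  have b2 := t07_log_le (show (0 : ℝ) < 19 / 11 by norm_num) 5 4
  have b3 := t07_log_le (show (0 : ℝ) < 9 by norm_num) 1 3
  have b4 := t07_log_ge (show (0 : ℝ) < 19 / 16 by norm_num) 4 1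
  have c1 := Real.log_two_lt_d9
  have c2 := Real.log_two_gt_d9
  norm_num at b1 b2 b3 b4 c1 c2 ⊢
  linarith

end Pool.Agent.Lib.MP_d9bc60_nt.AP
end
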