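import Pool.Agent.Lib.MP_d9bc60_nt.AQ.QSel
import Pool.Agent.Lib.MP_d9bc60_nt.AQ.QNumB
import Pool.Agent.Lib.MP_d9bc60_nt.AQ.QMert

section
/-! Row T05 (about 130 lines): Rankin's sum. -/

set_option autoImplicit false

namespace Pool.Agent.Lib.MP_d9bc60_nt.AP

open Finset Pool.Agent.Lib.MP_d9bc60_nt.UV

theorem t05_mem (u v : ℝ) (p : ℕ) : p ∈ prs u v ↔ (p < ⌈v⌉₊ ∧ p.Prime ∧ u ≤ (p : ℝ)) := by
  unfold prs
  rw [mem_filter, mem_range]

theorem t05_sq (u v : ℝ) (hu : 2 ≤ u) : ∑ p ∈ prs u v, 1 / (p : ℝ) ^ 2 ≤ 2 / u := by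
  have hc : 1 ≤ ⌈u⌉₊ := Nat.one_le_ceil_iff.2 (by linarith)
  have h1 : prs u v ⊆ Ioo (⌈u⌉₊ - 1) ⌈v⌉₊ := by
    intro p hp
    rw [t05_mem] at hp
    rw [mem_Ioo]
    refine ⟨?_, hp.1⟩
    have := Nat.ceil_le.2 hp.2.2
    omega
  calc ∑ p ∈ prs u v, 1 / (p : ℝ) ^ 2 ≤ ∑ p ∈ Ioo (⌈u⌉₊ - 1) ⌈v⌉₊, 1 / (p : ℝ) ^ 2 :=
        sum_le_sum_of_subset_of_nonneg h1 fun _ _ _ => by positivity
    _ = ∑ p ∈ Ioo (⌈u⌉₊ - 1) ⌈v⌉₊, ((p : ℝ) ^ 2)⁻¹ := by simp only [one_div]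
    _ ≤ 2 / (((⌈u⌉₊ - 1 : ℕ) : ℝ) + 1) := sum_Ioo_inv_sq_le _ _
    _ = 2 / (⌈u⌉₊ : ℝ) := by
      congr 1
      rw [Nat.cast_sub hc]
      simp
    _ ≤ 2 / u := by
      refine div_le_div_of_nonneg_left (by norm_num) (by linarith) (Nat.le_ceil u)

theorem t05_nu_le (ν : ℕ → ℝ) (hν : Dens ν) (p : ℕ) (hp : p.Prime) (h5 : (5 : ℝ) ≤ p) :
    ν p ≤ 2 * (1 / (p : ℝ)) + 4 * (1 / (p : ℝ) ^ 2) := by
  have h5' : 5 ≤ p := by exact_mod_cast h5
  have h1 := hν.le p hp h5'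
  have hp0 : (0 : ℝ) < (p : ℝ) - 1 := by linarith
  have hpp : (0 : ℝ) < p := by linarith
  refine h1.trans ?_
  have : 2 * (1 / (p : ℝ)) + 4 * (1 / (p : ℝ) ^ 2) = (2 * p + 4) / (p : ℝ) ^ 2 := by
    field_simp
  rw [this, div_le_div_iff₀ hp0 (by positivity)]
  nlinarith

theorem t05_split (u w v : ℝ) (huw : u ≤ w) (hwv : w ≤ v) (F : ℕ → ℝ) :
    ∑ p ∈ prs u v, F p = ∑ p ∈ prs u w, F p + ∑ p ∈ prs w v, F p := by
  rw [← sum_filter_add_sum_filter_not (prs u v) (fun p => p < ⌈w⌉₊)]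
  have hc : ⌈w⌉₊ ≤ ⌈v⌉₊ := Nat.ceil_mono hwv
  congr 1
  · refine sum_congr ?_ fun _ _ => rfl
    ext p
    rw [mem_filter, t05_mem, t05_mem]
    constructor
    · rintro ⟨⟨_, h⟩, h2⟩
      exact ⟨h2, h⟩
    · rintro ⟨h2, h⟩
      exact ⟨⟨by omega, h⟩, h2⟩
  · refine sum_congr ?_ fun _ _ => rfl
    ext p
    rw [mem_filter, t05_mem, t05_mem, not_lt]
    constructor
    · rintro ⟨⟨h2, h3, _⟩, h4⟩
      exact ⟨h2, h3, Nat.ceil_le.1 h4⟩
    · rintro ⟨h2, h3, h4⟩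
      exact ⟨⟨h2, h3, by linarith⟩, Nat.ceil_le.2 h4⟩

theorem t05_main (η κ : ℝ) (hη : 0 < η) (hη2 : η ≤ 2)
    (hκ : 2 * (∫ u in (1 / 5000 : ℝ)..1, (Real.exp (η * u) - 1) / u) ≤ κ) :
    ∀ᶠ z : ℝ in Filter.atTop, ∀ (ν : ℕ → ℝ), Dens ν →
      ∑ p ∈ prs 3 z, ν p * ((p : ℝ) ^ (η / Real.log z) - 1) ≤ κ + 6 * η * (1 / 5000) + 6 / 1000 := by
  obtain ⟨C, hC, hsmall⟩ := rank_small
  obtain ⟨D₀, hD₀, hint⟩ := prime_integral (1 / 5000) 1 (by norm_num) (by norm_num)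
    (fun u => Real.exp (η * u) - 1) (by fun_prop) (1 / 1000) (by norm_num)
  have e1 : ∀ᶠ z : ℝ in Filter.atTop, max D₀ 10 ≤ z := Filter.eventually_ge_atTop _
  have e2 : ∀ᶠ z : ℝ in Filter.atTop, max 5000 (C * 1000) ≤ Real.log z :=
    Real.tendsto_log_atTop.eventually_ge_atTop _
  have e3 : ∀ᶠ z : ℝ in Filter.atTop, (64000 : ℝ) ≤ z ^ (1 / 5000 : ℝ) :=
    (tendsto_rpow_atTop (by norm_num)).eventually_ge_atTop _
  filter_upwards [e1, e2, e3] with z h1 h2 h3 ν hν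
  have hzD : D₀ ≤ z := (le_max_left _ _).trans h1
  have hz10 : 10 ≤ z := (le_max_right _ _).trans h1
  have hl1 : 5000 ≤ Real.log z := (le_max_left _ _).trans h2
  have hl2 : C * 1000 ≤ Real.log z := (le_max_right _ _).trans h2
  have hl0 : 0 < Real.log z := by linarith
  have hz0 : 0 < z := by linarith
  have hws : z ^ (1 / 5000 : ℝ) ≤ z := by
    have : z ^ (1 / 5000 : ℝ) ≤ z ^ (1 : ℝ) := Real.rpow_le_rpow_of_exponent_le (by linarith)
      (by norm_num)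
    rwa [Real.rpow_one] at this
  rw [t05_split 3 (z ^ (1 / 5000 : ℝ)) z (by linarith) hws]
  have g1 := hsmall ν hν z η (1 / 5000) hz10 hη hη2 (by norm_num) (by norm_num) (by linarith)
  have g2 : C / Real.log z ≤ 1 / 1000 := by
    rw [div_le_div_iff₀ hl0 (by norm_num)]
    linarith
  have g3 := (abs_le.1 (hint z hzD)).2
  rw [Real.rpow_one] at g3
  have g4 := t05_sq (z ^ (1 / 5000 : ℝ)) z (by linarith)
  have g5 : 32 * (2 / z ^ (1 / 5000 : ℝ)) ≤ 1 / 1000 := by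
    rw [← mul_div_assoc, div_le_div_iff₀ (by linarith) (by norm_num)]
    linarith
  have g6 : ∑ p ∈ prs (z ^ (1 / 5000 : ℝ)) z, ν p * ((p : ℝ) ^ (η / Real.log z) - 1) ≤
      2 * ∑ p ∈ prs (z ^ (1 / 5000 : ℝ)) z, (Real.exp (η * (Real.log p / Real.log z)) - 1) / p +
      32 * ∑ p ∈ prs (z ^ (1 / 5000 : ℝ)) z, 1 / (p : ℝ) ^ 2 := by
    rw [mul_sum, mul_sum, ← sum_add_distrib]
    refine sum_le_sum fun p hp => ?_
    rw [t05_mem] at hp
    obtain ⟨hpv, hpp, hpu⟩ := hp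
    have hp5 : (5 : ℝ) ≤ p := by linarith
    have hp0 : (0 : ℝ) < p := by linarith
    have hpz : (p : ℝ) ≤ z := by
      have := Nat.lt_ceil.1 hpv
      exact this.le
    have hlp0 : 0 ≤ Real.log p := Real.log_nonneg (by linarith)
    have hlp : Real.log p ≤ Real.log z := Real.log_le_log hp0 hpz
    have hpow : (p : ℝ) ^ (η / Real.log z) = Real.exp (η * (Real.log p / Real.log z)) := by
      rw [Real.rpow_def_of_pos hp0]
      congr 1
      ring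
    rw [hpow]
    set X : ℝ := Real.exp (η * (Real.log p / Real.log z)) - 1 with hX
    have hq0 : 0 ≤ Real.log p / Real.log z := by positivity
    have hq1 : Real.log p / Real.log z ≤ 1 := by
      rw [div_le_one hl0]
      exact hlp
    have hX0 : 0 ≤ X := by
      have := Real.one_le_exp (x := η * (Real.log p / Real.log z)) (by positivity)
      linarith
    have hX8 : X ≤ 8 := by
      have a1 : η * (Real.log p / Real.log z) ≤ 2 := by nlinarith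
      have a2 := Real.exp_le_exp.2 a1
      have a3 : Real.exp 2 ≤ 9 := by
        have a4 : Real.exp 2 = Real.exp 1 * Real.exp 1 := by
          rw [← Real.exp_add]; norm_num
        have a5 := Real.exp_one_lt_d9
        have a6 := Real.exp_pos 1
        rw [a4]
        nlinarith
      linarith
    have hν1 := t05_nu_le ν hν p hpp hp5
    have i2 : 0 ≤ 1 / (p : ℝ) ^ 2 := by positivity
    calc ν p * X ≤ (2 * (1 / (p : ℝ)) + 4 * (1 / (p : ℝ) ^ 2)) * X :=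
          mul_le_mul_of_nonneg_right hν1 hX0
      _ = 2 * (X / p) + 4 * (1 / (p : ℝ) ^ 2) * X := by ring
      _ ≤ 2 * (X / p) + 4 * (1 / (p : ℝ) ^ 2) * 8 := by
          have := mul_le_mul_of_nonneg_left hX8 (by positivity : 0 ≤ 4 * (1 / (p : ℝ) ^ 2))
          linarith
      _ = 2 * (X / p) + 32 * (1 / (p : ℝ) ^ 2) := by ring
  have g7 : ∑ p ∈ prs (z ^ (1 / 5000 : ℝ)) z, (Real.exp (η * (Real.log p / Real.log z)) - 1) / p ≤
      (∫ u in (1 / 5000 : ℝ)..1, (Real.exp (η * u) - 1) / u) + 1 / 1000 := by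
    linarith
  linarith

/-- Proof. `s = 1/5000`. `p < z^s`: `rank_small`. `p ≥ z^s`: `ν p ≤ 2/(p-1) ≤ 2/p + 4/p²`, `e^{ηu}-1 ≤ 5`, so at most
`2 ∑_{p ∈ prs (z^s) z} Φ(log p/log z)/p + 20 ∑_{p ≥ z^s} 1/p²`, `Φ u = e^{ηu} - 1`; `prime_integral` with `D = z`,
`α = s`, `β = 1`, and `exp_int`. `5.627 + 6·1.7/5000 + small ≤ 5.64`. -/
theorem rankin_num : ∃ z₁ : ℝ, 3 < z₁ ∧ ∀ (ν : ℕ → ℝ), Dens ν → ∀ z : ℝ, z₁ ≤ z →
    ∑ p ∈ prs 3 z, ν p * ((p : ℝ) ^ (1.7 / Real.log z) - 1) ≤ 5.64 ∧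
    ∑ p ∈ prs 3 z, ν p * ((p : ℝ) ^ (1.3 / Real.log z) - 1) ≤ 3.78 := by
  obtain ⟨hi1, hi2⟩ := exp_int (1 / 5000) (by norm_num) (by norm_num)
  have m1 := t05_main 1.7 5.627 (by norm_num) (by norm_num) hi1
  have m2 := t05_main 1.3 3.7645 (by norm_num) (by norm_num) hi2
  obtain ⟨z₀, hz₀⟩ := Filter.eventually_atTop.1 (m1.and m2)
  refine ⟨max z₀ 4, by linarith [le_max_right z₀ 4], fun ν hν z hz => ?_⟩
  obtain ⟨a1, a2⟩ := hz₀ z ((le_max_left _ _).trans hz)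
  have b1 := a1 ν hν
  have b2 := a2 ν hν
  constructor
  · refine b1.trans ?_
    norm_num
  · refine b2.trans ?_
    norm_num

end Pool.Agent.Lib.MP_d9bc60_nt.AP
end

section
/-! Row T06 (about 150 lines): the upper bound sieve of dimension 2. -/

set_option autoImplicit false

namespace Pool.Agent.Lib.MP_d9bc60_nt.AP

open Finset Pool.Agent.Lib.MP_d9bc60_nt.UV

theorem t06_VV_pos {ν : ℕ → ℝ} (hν : Dens ν) (z : ℝ) : 0 < VV ν z := by
  unfold VV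
  refine Finset.prod_pos fun p hp => ?_
  obtain ⟨h1, h2⟩ := (Finset.mem_filter.1 hp).2
  have := nu_le_half ν hν p h1 h2
  linarith

theorem t06_Dset_mono {z z' Y Y' : ℝ} (hz : z ≤ z') (hY : Y ≤ Y') : Dset z Y ⊆ Dset z' Y' := by
  classical
  intro d hd
  unfold Dset at hd ⊢
  rw [Finset.mem_filter, Finset.mem_Icc] at hd ⊢
  obtain ⟨⟨h1, h2⟩, h3, h4⟩ := hd
  exact ⟨⟨h1, h2.trans (Nat.floor_le_floor hY)⟩, h3, fun p hp hpd =>
    ⟨(h4 p hp hpd).1, lt_of_lt_of_le (h4 p hp hpd).2 hz⟩⟩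

theorem t06_Ssum_anti {ι : Type} (I : Finset ι) (w : ι → ℝ) (a : ι → ℕ) (hw : ∀ i, 0 ≤ w i)
    {z z' : ℝ} (hz : z' ≤ z) : Ssum I w a z ≤ Ssum I w a z' := by
  classical
  unfold Ssum
  refine Finset.sum_le_sum_of_subset_of_nonneg ?_ (fun i _ _ => hw i)
  intro i hi
  rw [Finset.mem_filter] at hi ⊢
  exact ⟨hi.1, fun p hp h3 hpz => hi.2 p hp h3 (lt_of_lt_of_le hpz hz)⟩

theorem t06_sum_mono {ι : Type} (I : Finset ι) (w : ι → ℝ) (a : ι → ℕ) (X : ℝ) (ν : ℕ → ℝ)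
    {A B : Finset ℕ} (h : A ⊆ B) : ∑ d ∈ A, (d.divisors.card : ℝ) ^ 2 * Rem I w a X ν d ≤
      ∑ d ∈ B, (d.divisors.card : ℝ) ^ 2 * Rem I w a X ν d := by
  refine Finset.sum_le_sum_of_subset_of_nonneg h (fun d _ _ => ?_)
  exact mul_nonneg (by positivity) (abs_nonneg _)

theorem t06_core {ι : Type} (I : Finset ι) (w : ι → ℝ) (a : ι → ℕ) (X : ℝ) (ν : ℕ → ℝ)
    (hw : ∀ i, 0 ≤ w i) (hX : 0 ≤ X) (hν : Dens ν) {z Y η S K e c : ℝ} (hz : 3 < z) {x : ℕ}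
    (hx : 1 ≤ x) (hxY : (x : ℝ) ^ 2 ≤ Y) (hη : 0 < η)
    (hS : ∑ p ∈ prs 3 z, ν p * ((p : ℝ) ^ (η / Real.log z) - 1) ≤ S)
    (hK : K ≤ Real.log x / Real.log z) (he : Real.exp (-(η * K) + S) ≤ e)
    (hc0 : 0 < c) (hc : 1 ≤ c * (1 - e)) :
    Ssum I w a z ≤ c * X * VV ν z +
      ∑ d ∈ Dset z Y, (d.divisors.card : ℝ) ^ 2 * Rem I w a X ν d := by
  have hV := t06_VV_pos hν z
  have he1 : 0 < 1 - e := by
    by_contra h
    push Not at h
    have : c * (1 - e) ≤ 0 := mul_nonpos_of_nonneg_of_nonpos hc0.le h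
    linarith
  have h1 := ss_lower ν hν z x η hz (by exact_mod_cast hx) hη
  have h2 : Real.exp (-(η * (Real.log x / Real.log z)) +
      ∑ p ∈ prs 3 z, ν p * ((p : ℝ) ^ (η / Real.log z) - 1)) ≤ e := by
    refine le_trans (Real.exp_le_exp.2 ?_) he
    have := mul_le_mul_of_nonneg_left hK hη.le
    linarith
  have h3 : (1 - e) / VV ν z ≤ ∑ d ∈ Dset z x, gS ν d := by
    refine le_trans ?_ h1
    exact div_le_div_of_nonneg_right (by linarith) hV.le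
  have h4 : 0 < (1 - e) / VV ν z := div_pos he1 hV
  have h5 : X / (∑ d ∈ Dset z x, gS ν d) ≤ c * X * VV ν z := by
    calc X / (∑ d ∈ Dset z x, gS ν d) ≤ X / ((1 - e) / VV ν z) :=
          div_le_div_of_nonneg_left hX h4 h3
      _ = X * VV ν z * (1 / (1 - e)) := by
          field_simp
      _ ≤ X * VV ν z * c := by
          refine mul_le_mul_of_nonneg_left ?_ (mul_nonneg hX hV.le)
          rw [div_le_iff₀ he1]
          exact hc
      _ = c * X * VV ν z := by ring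
  have h6 := selberg_idx I w a X z ν hw hX hν x hx
  have h7 := t06_sum_mono I w a X ν (t06_Dset_mono (le_refl z) hxY)
  linarith

theorem t06_floor {z Y k : ℝ} (hz : Real.exp 200 ≤ z) (hY : 2 * k * Real.log z ≤ Real.log Y)
    (hk : 1 ≤ k) (hY0 : 0 < Y) :
    1 ≤ ⌊Real.sqrt Y⌋₊ ∧ ((⌊Real.sqrt Y⌋₊ : ℕ) : ℝ) ^ 2 ≤ Y ∧
      k - 0.0035 ≤ Real.log (⌊Real.sqrt Y⌋₊ : ℕ) / Real.log z := by
  have hz0 : 0 < z := lt_of_lt_of_le (Real.exp_pos _) hz
  have hlz : 200 ≤ Real.log z := (Real.le_log_iff_exp_le hz0).2 hz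
  have hlY : 400 ≤ Real.log Y := by nlinarith
  have hl2 := Real.log_two_lt_d9
  have hs0 : 0 < Real.sqrt Y := Real.sqrt_pos.2 hY0
  have hls : Real.log (Real.sqrt Y) = Real.log Y / 2 := Real.log_sqrt hY0.le
  have hs2 : 2 ≤ Real.sqrt Y := by
    rw [← Real.log_le_log_iff (by norm_num) hs0, hls]
    linarith
  have hf1 : Real.sqrt Y / 2 ≤ (⌊Real.sqrt Y⌋₊ : ℝ) := by
    have := Nat.lt_floor_add_one (Real.sqrt Y)
    linarith
  have hf2 : ((⌊Real.sqrt Y⌋₊ : ℕ) : ℝ) ≤ Real.sqrt Y := Nat.floor_le hs0.le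
  refine ⟨?_, ?_, ?_⟩
  · rw [Nat.one_le_floor_iff]
    linarith
  · calc ((⌊Real.sqrt Y⌋₊ : ℕ) : ℝ) ^ 2 ≤ Real.sqrt Y ^ 2 := by gcongr
      _ = Y := Real.sq_sqrt hY0.le
  · rw [le_div_iff₀ (by linarith)]
    have h1 : Real.log (Real.sqrt Y / 2) ≤ Real.log (⌊Real.sqrt Y⌋₊ : ℕ) :=
      Real.log_le_log (by positivity) hf1
    rw [Real.log_div hs0.ne' (by norm_num), hls] at h1
    nlinarith

theorem t06_exp_a : Real.exp (-(1.7 * (6 - 0.0035)) + 5.64) ≤ 0.0107 := by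
  have h1 := Real.exp_one_gt_d9
  have h2 : (54.598 : ℝ) ≤ Real.exp 4 := by
    have h3 : Real.exp 4 = Real.exp 1 ^ 4 := by
      rw [← Real.exp_nat_mul]
      norm_num
    rw [h3]
    calc (54.598 : ℝ) ≤ 2.7182818283 ^ 4 := by norm_num
      _ ≤ Real.exp 1 ^ 4 := by gcongr
  have h4 : (1.735 : ℝ) ≤ Real.exp 0.554 := by
    have h5 := Real.sum_le_exp_of_nonneg (show (0 : ℝ) ≤ 0.554 by norm_num) 4
    refine le_trans ?_ h5
    norm_num [Finset.sum_range_succ, Nat.factorial]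
  have h6 : (93.5 : ℝ) ≤ Real.exp 4.554 := by
    have h7 : Real.exp 4.554 = Real.exp 4 * Real.exp 0.554 := by
      rw [← Real.exp_add]
      norm_num
    rw [h7]
    nlinarith
  have h8 : Real.exp (-(1.7 * (6 - 0.0035)) + 5.64) ≤ Real.exp (-4.554) :=
    Real.exp_le_exp.2 (by norm_num)
  refine h8.trans ?_
  rw [Real.exp_neg, inv_le_comm₀ (Real.exp_pos _) (by norm_num)]
  refine le_trans ?_ h6
  norm_num

theorem t06_exp_b : Real.exp (-(1.3 * (4 - 0.0035)) + 3.78) ≤ 0.2435 := by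
  have h1 := Real.exp_one_gt_d9
  have h4 : (1.513 : ℝ) ≤ Real.exp 0.415 := by
    have h5 := Real.sum_le_exp_of_nonneg (show (0 : ℝ) ≤ 0.415 by norm_num) 5
    refine le_trans ?_ h5
    norm_num [Finset.sum_range_succ, Nat.factorial]
  have h6 : (4.11 : ℝ) ≤ Real.exp 1.415 := by
    have h7 : Real.exp 1.415 = Real.exp 1 * Real.exp 0.415 := by
      rw [← Real.exp_add]
      norm_num
    rw [h7]
    nlinarith
  have h8 : Real.exp (-(1.3 * (4 - 0.0035)) + 3.78) ≤ Real.exp (-1.415) :=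
    Real.exp_le_exp.2 (by norm_num)
  refine h8.trans ?_
  rw [Real.exp_neg, inv_le_comm₀ (Real.exp_pos _) (by norm_num)]
  refine le_trans ?_ h6
  norm_num

/-- Proof. `x = ⌊√Y⌋₊`. (a) `selberg_idx`, `ss_lower` with `η = 1.7`: `log x/log z ≥ 6 - small` (take the
floor into account: `x ≥ √Y/2`), exponent `≤ -1.7·6 + 0.01 + 5.64 = -4.55`, `e^(-4.55) ≤ 0.0106`, so
`X V/(1 - 0.0106) ≤ 1.011 X V`. (b) `η = 1.3`, `log x/log z ≥ 4 - small`, exponent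
`≤ -5.2 + 0.005 + 3.78`, `1/(1 - 0.243) ≤ 1.322`. (c) `Ssum` decreases in `z`: use (b) at
`z' = Y^(1/8) ≤ z`, `Dset z' Y ⊆ Dset z Y`, and `VV_ratio`:
`V(z') ≤ 1.0005 · 64 (log z/log Y)² V(z)`, `1.322 · 64 · 1.0005 ≤ 84.7`. -/
theorem upper_sieve : ∃ z₁ : ℝ, 3 < z₁ ∧ ∀ {ι : Type} (I : Finset ι) (w : ι → ℝ) (a : ι → ℕ) (X : ℝ)
    (ν : ℕ → ℝ), (∀ i, 0 ≤ w i) → 0 ≤ X → Dens ν → ∀ z Y : ℝ, z₁ ≤ z → z₁ ^ 8 ≤ Y →
    (z ^ 12 ≤ Y → Ssum I w a z ≤ 1.011 * X * VV ν z +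
      ∑ d ∈ Dset z Y, (d.divisors.card : ℝ) ^ 2 * Rem I w a X ν d) ∧
    (z ^ 8 ≤ Y → Ssum I w a z ≤ 1.322 * X * VV ν z +
      ∑ d ∈ Dset z Y, (d.divisors.card : ℝ) ^ 2 * Rem I w a X ν d) ∧
    (Y ≤ z ^ 8 → Ssum I w a z ≤ 84.7 * (Real.log z / Real.log Y) ^ 2 * X * VV ν z +
      ∑ d ∈ Dset z Y, (d.divisors.card : ℝ) ^ 2 * Rem I w a X ν d) := by
  obtain ⟨z1, hz1, hR⟩ := rankin_num
  obtain ⟨u0, hu0, hV⟩ := VV_ratio 0.0005 (by norm_num)
  refine ⟨max (max z1 u0) (Real.exp 200), lt_of_lt_of_le hz1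
    ((le_max_left _ _).trans (le_max_left _ _)), ?_⟩
  intro ι I w a X ν hw hX hν z Y hz hY
  have ha : ∀ z Y : ℝ, max (max z1 u0) (Real.exp 200) ≤ z → z ^ 12 ≤ Y →
      Ssum I w a z ≤ 1.011 * X * VV ν z +
        ∑ d ∈ Dset z Y, (d.divisors.card : ℝ) ^ 2 * Rem I w a X ν d := by
    intro z Y hz hzY
    have hze : Real.exp 200 ≤ z := (le_max_right _ _).trans hz
    have hzr : z1 ≤ z := (le_max_left _ _).trans ((le_max_left _ _).trans hz)
    have hz0 : 0 < z := by linarith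
    have hY0 : 0 < Y := lt_of_lt_of_le (by positivity) hzY
    have hlY : 2 * 6 * Real.log z ≤ Real.log Y := by
      have h1 := Real.log_le_log (by positivity) hzY
      rw [Real.log_pow] at h1
      push_cast at h1
      linarith
    obtain ⟨h1, h2, h3⟩ := t06_floor hze hlY (by norm_num) hY0
    exact t06_core I w a X ν hw hX hν (by linarith) h1 h2 (by norm_num) (hR ν hν z hzr).1 h3
      t06_exp_a (by norm_num) (by norm_num)
  have hb : ∀ z Y : ℝ, max (max z1 u0) (Real.exp 200) ≤ z → z ^ 8 ≤ Y →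
      Ssum I w a z ≤ 1.322 * X * VV ν z +
        ∑ d ∈ Dset z Y, (d.divisors.card : ℝ) ^ 2 * Rem I w a X ν d := by
    intro z Y hz hzY
    have hze : Real.exp 200 ≤ z := (le_max_right _ _).trans hz
    have hzr : z1 ≤ z := (le_max_left _ _).trans ((le_max_left _ _).trans hz)
    have hz0 : 0 < z := by linarith
    have hY0 : 0 < Y := lt_of_lt_of_le (by positivity) hzY
    have hlY : 2 * 4 * Real.log z ≤ Real.log Y := by
      have h1 := Real.log_le_log (by positivity) hzY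
      rw [Real.log_pow] at h1
      push_cast at h1
      linarith
    obtain ⟨h1, h2, h3⟩ := t06_floor hze hlY (by norm_num) hY0
    exact t06_core I w a X ν hw hX hν (by linarith) h1 h2 (by norm_num) (hR ν hν z hzr).2 h3
      t06_exp_b (by norm_num) (by norm_num)
  refine ⟨ha z Y hz, hb z Y hz, fun hYz => ?_⟩
  set Z := max (max z1 u0) (Real.exp 200) with hZ
  have hZe : Real.exp 200 ≤ Z := le_max_right _ _
  have hZ0 : 0 < Z := lt_of_lt_of_le (Real.exp_pos _) hZe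
  have hZ1 : 1 < Z := lt_of_lt_of_le (by
    have := Real.add_one_le_exp (200 : ℝ)
    linarith) hZe
  have hz0 : 0 < z := lt_of_lt_of_le hZ0 hz
  have hY0 : 0 < Y := lt_of_lt_of_le (by positivity) hY
  set z' : ℝ := Y ^ (1 / 8 : ℝ) with hz'
  have hz'0 : 0 < z' := Real.rpow_pos_of_pos hY0 _
  have hz'8 : z' ^ 8 = Y := by
    rw [hz', ← Real.rpow_natCast, ← Real.rpow_mul hY0.le]
    norm_num
  have hZz' : Z ≤ z' := by
    refine le_of_not_gt fun h => ?_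
    have h1 : z' ^ 8 < Z ^ 8 := pow_lt_pow_left₀ h hz'0.le (by norm_num)
    rw [hz'8] at h1
    linarith
  have hz'z : z' ≤ z := by
    refine le_of_not_gt fun h => ?_
    have h1 : z ^ 8 < z' ^ 8 := pow_lt_pow_left₀ h hz0.le (by norm_num)
    rw [hz'8] at h1
    linarith
  have h1 := hb z' Y hZz' hz'8.le
  have h2 := t06_Ssum_anti I w a hw hz'z
  have h3 := t06_sum_mono I w a X ν (t06_Dset_mono hz'z (le_refl Y))
  have hu : u0 ≤ z' := ((le_max_right _ _).trans (le_max_left _ _)).trans hZz'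
  have h4 := hV ν hν z' z hu hz'z
  have hlog : Real.log Y = 8 * Real.log z' := by
    rw [← hz'8, Real.log_pow]
    norm_num
  have hlz' : 0 < Real.log z' := Real.log_pos (lt_of_lt_of_le hZ1 hZz')
  have h5 : (Real.log z / Real.log z') ^ 2 = 64 * (Real.log z / Real.log Y) ^ 2 := by
    rw [hlog]
    field_simp
    norm_num
  rw [h5] at h4
  have hVz := t06_VV_pos hν z
  set q := (Real.log z / Real.log Y) ^ 2 with hq
  have hq0 : 0 ≤ q := sq_nonneg _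
  have h6 : 1.322 * X * VV ν z' ≤ 84.7 * q * X * VV ν z := by
    have h7 : X * VV ν z' ≤ X * ((1 + 0.0005) * (64 * q) * VV ν z) :=
      mul_le_mul_of_nonneg_left h4 hX
    have h8 : 0 ≤ q * X * VV ν z := mul_nonneg (mul_nonneg hq0 hX) hVz.le
    nlinarith
  linarith

end Pool.Agent.Lib.MP_d9bc60_nt.AP
end
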