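import Pool.Agent.Lib.MP_d9bc60_nt.UV.PSing

section
/-! Definitions for the almost prime theorem. -/

set_option autoImplicit false

namespace Pool.Agent.Lib.MP_d9bc60_nt.AP

open Finset Pool.Agent.Lib.MP_d9bc60_nt.UV

/-- The kernel `max(0, log(P/n))` (it is `0` for `n = 0` and for `n > P`). -/
noncomputable def kf (P n : ℕ) : ℝ := max 0 (Real.log ((P : ℝ) / n))

open Classical in
/-- The sum over the primitive characters modulo `q`. -/
noncomputable def prim (q : ℕ) (F : DirichletCharacter ℂ q → ℝ) : ℝ :=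
  if h : q = 0 then 0 else
    haveI : NeZero q := ⟨h⟩
    ∑ χ ∈ (Finset.univ : Finset (DirichletCharacter ℂ q)).filter (fun χ => χ.IsPrimitive), F χ

/-- `|∑_{n ≤ P} χ(n) Λ(n) log⁺(P/n)|`. -/
noncomputable def S1 (P : ℕ) {q : ℕ} (χ : DirichletCharacter ℂ q) : ℝ :=
  ‖∑ n ∈ Icc 1 P, χ (n : ZMod q) * (vm n : ℂ) * (kf P n : ℂ)‖

/-- `∑_{n ≤ P, n ≡ a (d)} Λ(n) log⁺(P/n) - P/φ(d)`. -/
noncomputable def EE (P d a : ℕ) : ℝ :=
  ∑ n ∈ (Icc 1 P).filter (fun n => n % d = a % d), vm n * kf P n - (P : ℝ) / d.totient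

/-- The product of `1 - ν(p)` over the primes `3 ≤ p < z`. -/
noncomputable def VV (ν : ℕ → ℝ) (z : ℝ) : ℝ :=
  ∏ p ∈ (range ⌈z⌉₊).filter (fun p => p.Prime ∧ 3 ≤ p), (1 - ν p)

/-- `a` has no prime factor in `[3, z)`. -/
def Sft (z : ℝ) (a : ℕ) : Prop := ∀ p : ℕ, p.Prime → 3 ≤ p → (p : ℝ) < z → ¬ p ∣ a

/-- The density functions we use: multiplicative over distinct primes, at most `2/(p-1)`. -/
structure Dens (ν : ℕ → ℝ) : Prop where
  one : ν 1 = 1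
  nonneg : ∀ d, 0 ≤ ν d
  mul : ∀ d e : ℕ, d.Coprime e → ν (d * e) = ν d * ν e
  three : ν 3 ≤ 1 / 2
  le : ∀ p : ℕ, p.Prime → 5 ≤ p → ν p ≤ 2 / ((p : ℝ) - 1)

end Pool.Agent.Lib.MP_d9bc60_nt.AP
end

section
/-! More definitions for the sieve rows. -/

set_option autoImplicit false

namespace Pool.Agent.Lib.MP_d9bc60_nt.AP

open Finset Pool.Agent.Lib.MP_d9bc60_nt.UV

open Classical in
/-- The squarefree `d ≤ Y` all of whose prime factors lie in `[3, z)`. -/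
noncomputable def Dset (z Y : ℝ) : Finset ℕ :=
  (Icc 1 ⌊Y⌋₊).filter (fun d => Squarefree d ∧ ∀ p : ℕ, p.Prime → p ∣ d → 3 ≤ p ∧ (p : ℝ) < z)

/-- The remainder `|∑_{i : d ∣ a_i} w_i - ν(d) X|`. -/
noncomputable def Rem {ι : Type*} (I : Finset ι) (w : ι → ℝ) (a : ι → ℕ) (X : ℝ) (ν : ℕ → ℝ)
    (d : ℕ) : ℝ := |∑ i ∈ I.filter (fun i => d ∣ a i), w i - ν d * X|

open Classical in
/-- The sifted sum. -/
noncomputable def Ssum {ι : Type*} (I : Finset ι) (w : ι → ℝ) (a : ι → ℕ) (z : ℝ) : ℝ :=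
  ∑ i ∈ I.filter (fun i => Sft z (a i)), w i

open Classical in
/-- The primes in `[u, v)`. -/
noncomputable def prs (u v : ℝ) : Finset ℕ :=
  (range ⌈v⌉₊).filter (fun p => p.Prime ∧ u ≤ (p : ℝ))

/-- Richert's weight `4.48 - ∑_{l ∣ a, z ≤ l < y} (1 - log l/log y)`. -/
noncomputable def Wt (z y : ℝ) (a : ℕ) : ℝ :=
  4.48 - ∑ l ∈ (prs z y).filter (fun l => l ∣ a), (1 - Real.log l / Real.log y)

open Classical in
/-- The weighted sifted sum. -/
noncomputable def Wsum {ι : Type*} (I : Finset ι) (w : ι → ℝ) (a : ι → ℕ) (z y : ℝ) : ℝ :=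
  ∑ i ∈ I.filter (fun i => Sft z (a i)), w i * Wt z y (a i)

/-- The truncated inclusion-exclusion sum over a set `B` of primes. -/
noncomputable def sg (K : ℕ) (B : Finset ℕ) (a : ℕ) : ℝ :=
  ∑ S ∈ B.powerset.filter (fun S => S.card ≤ K), if (∏ p ∈ S, p) ∣ a then (-1) ^ S.card else 0

/-- The number of `m`-element subsets of `B` whose product divides `a`. -/
noncomputable def cb (m : ℕ) (B : Finset ℕ) (a : ℕ) : ℝ :=
  ∑ S ∈ B.powersetCard m, if (∏ p ∈ S, p) ∣ a then 1 else 0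

end Pool.Agent.Lib.MP_d9bc60_nt.AP
end
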