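import Pool.Agent.Lib.MP_d9bc60_nt.AQ.QUp
import Pool.Agent.Lib.MP_d9bc60_nt.AQ.QNumB
import Pool.Agent.Lib.MP_d9bc60_nt.AQ.QMert
import Pool.Agent.Lib.MP_d9bc60_nt.AQ.QDefs
import Pool.Agent.Lib.MP_d9bc60_nt.AQ.QLow

section
/-! Row T08 (about 130 lines): the sum over the multiples of one prime `l`. -/

set_option autoImplicit false

namespace Pool.Agent.Lib.MP_d9bc60_nt.AP

open Finset Pool.Agent.Lib.MP_d9bc60_nt.UV

theorem t08_mem_prs {u v : ℝ} {l : ℕ} (h : l ∈ prs u v) : l.Prime ∧ u ≤ l ∧ (l : ℝ) < v := by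
  unfold prs at h
  rw [mem_filter, mem_range] at h
  exact ⟨h.2.1, h.2.2, Nat.lt_ceil.mp h.1⟩

/-- the remainders of the subfamily -/
theorem t08_rem {ι : Type} (I : Finset ι) (w : ι → ℝ) (a : ι → ℕ) (X : ℝ) (ν : ℕ → ℝ)
    (hν : Dens ν) {z Y : ℝ} {l d : ℕ} (hl : l.Prime) (hzl : z ≤ l) (hd : d ∈ Dset z Y) :
    Rem (I.filter (fun i => l ∣ a i)) w a (ν l * X) ν d = Rem I w a X ν (l * d) := by
  classical
  unfold Dset at hd
  rw [mem_filter, mem_Icc] at hd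
  obtain ⟨⟨hd1, -⟩, -, hd2⟩ := hd
  have hcop : l.Coprime d := by
    rw [Nat.Prime.coprime_iff_not_dvd hl]
    intro h
    have := (hd2 l hl h).2
    linarith
  unfold Rem
  rw [filter_filter, hν.mul l d hcop]
  have h1 : I.filter (fun i => l ∣ a i ∧ d ∣ a i) = I.filter (fun i => l * d ∣ a i) := by
    refine filter_congr fun i _ => ?_
    constructor
    · rintro ⟨h1, h2⟩
      exact Nat.Coprime.mul_dvd_of_dvd_of_dvd hcop h1 h2
    · intro h
      exact ⟨(dvd_mul_right l d).trans h, (dvd_mul_left d l).trans h⟩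
  rw [h1]
  congr 2
  ring

/-- Proof. `upper_sieve` for the family `I_l`, with `X_l = ν(l) X`, `Y = D/l ≥ D^(1/10) ≥ z₁^8`. With
`t = log l/log D`: `z^12 ≤ Y` iff `t ≤ 11/35`, `z^8 ≤ Y` iff `t ≤ 19/35`, else the third bound with
`log z/log Y = (2/35)/(1-t)`. For `d ∈ Dset z Y` (prime factors `< z ≤ l`, so coprime to `l`)
`Rem I_l w a X_l ν d = Rem I w a X ν (l d)` (`Dens.mul`). -/
theorem one_l : ∃ D₀ : ℝ, 2 ≤ D₀ ∧ ∀ D : ℝ, D₀ ≤ D → ∀ {ι : Type} (I : Finset ι) (w : ι → ℝ)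
    (a : ι → ℕ) (X : ℝ) (ν : ℕ → ℝ), (∀ i, 0 ≤ w i) → 0 ≤ X → Dens ν →
    ∀ l ∈ prs (D ^ (2 / 35 : ℝ)) (D ^ (9 / 10 : ℝ)),
    Ssum (I.filter (fun i => l ∣ a i)) w a (D ^ (2 / 35 : ℝ)) ≤
      Fup (Real.log l / Real.log D) * (ν l * X) * VV ν (D ^ (2 / 35 : ℝ)) +
      ∑ d ∈ Dset (D ^ (2 / 35 : ℝ)) (D / l), (d.divisors.card : ℝ) ^ 2 * Rem I w a X ν (l * d) := by
  obtain ⟨z₁, hz₁, hup⟩ := upper_sieve
  have hz0 : (0 : ℝ) < z₁ := by linarith
  refine ⟨max (z₁ ^ (80 : ℕ)) (z₁ ^ (18 : ℕ)), ?_, ?_⟩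
  · refine le_trans ?_ (le_max_left _ _)
    calc (2 : ℝ) ≤ z₁ := by linarith
      _ = z₁ ^ 1 := (pow_one _).symm
      _ ≤ z₁ ^ 80 := pow_le_pow_right₀ (by linarith) (by norm_num)
  intro D hD ι I w a X ν hw hX hν l hl
  have hD80 : z₁ ^ (80 : ℕ) ≤ D := (le_max_left _ _).trans hD
  have hD18 : z₁ ^ (18 : ℕ) ≤ D := (le_max_right _ _).trans hD
  have hD1 : (1 : ℝ) < D := by
    refine lt_of_lt_of_le ?_ hD80
    exact one_lt_pow₀ (by linarith) (by norm_num)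
  have hD0 : (0 : ℝ) < D := by linarith
  have hLD : 0 < Real.log D := Real.log_pos hD1
  obtain ⟨hlp, hl1, hl2⟩ := t08_mem_prs hl
  have hl0 : (0 : ℝ) < l := by exact_mod_cast hlp.pos
  set z : ℝ := D ^ (2 / 35 : ℝ) with hz
  set t : ℝ := Real.log l / Real.log D with ht
  have hlD : (l : ℝ) = D ^ t := by
    rw [Real.rpow_def_of_pos hD0, ht, mul_div_cancel₀ _ hLD.ne', Real.exp_log hl0]
  have hzpos : 0 < z := Real.rpow_pos_of_pos hD0 _
  have ht2 : t < 9 / 10 := by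
    rw [hlD] at hl2
    exact (Real.rpow_lt_rpow_left_iff hD1).mp hl2
  have hY : D / l = D ^ (1 - t) := by
    rw [Real.rpow_sub hD0, Real.rpow_one, ← hlD]
  have hz₁z : z₁ ≤ z := by
    have h1 : z₁ = (z₁ ^ (18 : ℕ)) ^ (1 / 18 : ℝ) := by
      rw [← Real.rpow_natCast z₁ 18, ← Real.rpow_mul hz0.le]
      norm_num
    rw [h1, hz]
    calc (z₁ ^ (18 : ℕ)) ^ (1 / 18 : ℝ) ≤ D ^ (1 / 18 : ℝ) :=
          Real.rpow_le_rpow (by positivity) hD18 (by norm_num)
      _ ≤ D ^ (2 / 35 : ℝ) := Real.rpow_le_rpow_of_exponent_le hD1.le (by norm_num)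
  have hz₁Y : z₁ ^ 8 ≤ D / l := by
    have h1 : z₁ ^ 8 = (z₁ ^ (80 : ℕ)) ^ (1 / 10 : ℝ) := by
      rw [← Real.rpow_natCast z₁ 80, ← Real.rpow_mul hz0.le, ← Real.rpow_natCast z₁ 8]
      norm_num
    rw [h1, hY]
    calc (z₁ ^ (80 : ℕ)) ^ (1 / 10 : ℝ) ≤ D ^ (1 / 10 : ℝ) :=
          Real.rpow_le_rpow (by positivity) hD80 (by norm_num)
      _ ≤ D ^ (1 - t) := Real.rpow_le_rpow_of_exponent_le hD1.le (by linarith)
  have hνX : 0 ≤ ν l * X := mul_nonneg (hν.nonneg l) hX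
  obtain ⟨ha, hb, hc⟩ := hup (I.filter (fun i => l ∣ a i)) w a (ν l * X) ν hw hνX hν z (D / l)
    hz₁z hz₁Y
  have hrem : ∑ d ∈ Dset z (D / l), (d.divisors.card : ℝ) ^ 2 *
      Rem (I.filter (fun i => l ∣ a i)) w a (ν l * X) ν d =
      ∑ d ∈ Dset z (D / l), (d.divisors.card : ℝ) ^ 2 * Rem I w a X ν (l * d) := by
    refine sum_congr rfl fun d hd => ?_
    rw [t08_rem I w a X ν hν hlp hl1 hd]
  rw [hrem] at ha hb hc
  have hzpow : ∀ k : ℕ, z ^ k = D ^ (2 / 35 * k : ℝ) := by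
    intro k
    rw [hz, ← Real.rpow_natCast, ← Real.rpow_mul hD0.le]
  unfold Fup
  by_cases h1 : t ≤ 11 / 35
  · rw [if_pos h1]
    refine ha ?_
    rw [hzpow 12, hY]
    refine Real.rpow_le_rpow_of_exponent_le hD1.le ?_
    push_cast
    linarith
  · rw [if_neg h1]
    by_cases h2 : t ≤ 19 / 35
    · rw [if_pos h2]
      refine hb ?_
      rw [hzpow 8, hY]
      refine Real.rpow_le_rpow_of_exponent_le hD1.le ?_
      push_cast
      linarith
    · rw [if_neg h2]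
      have h3 : Real.log z / Real.log (D / l) = 2 / 35 / (1 - t) := by
        rw [hY, hz, Real.log_rpow hD0, Real.log_rpow hD0]
        have : 1 - t ≠ 0 := by linarith
        field_simp
      rw [← h3]
      refine (hc ?_)
      rw [hzpow 8, hY]
      refine Real.rpow_le_rpow_of_exponent_le hD1.le ?_
      push_neg at h2
      push_cast
      linarith

end Pool.Agent.Lib.MP_d9bc60_nt.AP
end

section
/-! Row T09 (about 140 lines): the sum over `l`. -/

set_option autoImplicit false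

namespace Pool.Agent.Lib.MP_d9bc60_nt.AP

open Finset Pool.Agent.Lib.MP_d9bc60_nt.UV

theorem t09_mem_prs {u v : ℝ} {p : ℕ} : p ∈ prs u v ↔ p.Prime ∧ u ≤ (p : ℝ) ∧ (p : ℝ) < v := by
  unfold prs
  rw [Finset.mem_filter, Finset.mem_range, Nat.lt_ceil]
  tauto

theorem t09_sum_split {u v w : ℝ} (h1 : u ≤ v) (h2 : v ≤ w) (f : ℕ → ℝ) :
    ∑ p ∈ prs u w, f p = ∑ p ∈ prs u v, f p + ∑ p ∈ prs v w, f p := by
  classical
  have hun : prs u w = prs u v ∪ prs v w := by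
    ext p
    rw [Finset.mem_union, t09_mem_prs, t09_mem_prs, t09_mem_prs]
    constructor
    · rintro ⟨p1, p2, p3⟩
      rcases lt_or_ge (p : ℝ) v with h | h
      · exact Or.inl ⟨p1, p2, h⟩
      · exact Or.inr ⟨p1, h, p3⟩
    · rintro (⟨p1, p2, p3⟩ | ⟨p1, p2, p3⟩)
      · exact ⟨p1, p2, lt_of_lt_of_le p3 h2⟩
      · exact ⟨p1, h1.trans p2, p3⟩
  have hdis : Disjoint (prs u v) (prs v w) := by
    rw [Finset.disjoint_left]
    intro p hp hp'
    exact absurd (t09_mem_prs.1 hp).2.2 (not_lt.2 (t09_mem_prs.1 hp').2.1)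
  rw [hun, Finset.sum_union hdis]

theorem t09_range {D a b : ℝ} (hD : 1 < D) {p : ℕ} (hp : p ∈ prs (D ^ a) (D ^ b)) :
    a ≤ Real.log p / Real.log D ∧ Real.log p / Real.log D < b ∧ (0 : ℝ) < p := by
  obtain ⟨p1, p2, p3⟩ := t09_mem_prs.1 hp
  have hp0 : (0 : ℝ) < p := by exact_mod_cast p1.pos
  have hD0 : 0 < D := by linarith
  have hlogD : 0 < Real.log D := Real.log_pos hD
  refine ⟨?_, ?_, hp0⟩
  · rw [le_div_iff₀ hlogD, ← Real.log_rpow hD0]
    exact Real.log_le_log (Real.rpow_pos_of_pos hD0 _) p2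
  · rw [div_lt_iff₀ hlogD, ← Real.log_rpow hD0]
    exact Real.log_lt_log hp0 p3

theorem t09_Fup_nonneg (t : ℝ) : 0 ≤ Fup t := by
  unfold Fup
  split_ifs
  · norm_num
  · norm_num
  · positivity

/-- Proof. `1 - log l/log y = 1 - t/0.9`, `t = log l/log D`. As `ν(l) ≤ 2/(l-1) ≤ 2/l + 4/l²`, `Fup ≤ 30` and
`∑ 4/l²` over `l ≥ D^(2/35)` is tiny, split `prs` at `D^(11/35)`, `D^(19/35)` and apply `prime_integral` on the
three intervals (third: `[19/35, 9/10]`; on the common end points `Fup` is the smaller value, harmless: one prime),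
and `num_int`. -/
theorem sum_l : ∃ D₀ : ℝ, 2 ≤ D₀ ∧ ∀ D : ℝ, D₀ ≤ D → ∀ ν : ℕ → ℝ, Dens ν →
    ∑ l ∈ prs (D ^ (2 / 35 : ℝ)) (D ^ (9 / 10 : ℝ)), (1 - Real.log l / Real.log (D ^ (9 / 10 : ℝ))) *
      (ν l * Fup (Real.log l / Real.log D)) ≤ 4.31 := by
  obtain ⟨D₁, hD₁, k1⟩ := prime_integral (2 / 35) (11 / 35) (by norm_num) (by norm_num)
    (fun t => 2 * 1.011 * (1 - t / 0.9)) (by fun_prop) 0.001 (by norm_num)
  obtain ⟨D₂, hD₂, k2⟩ := prime_integral (11 / 35) (19 / 35) (by norm_num) (by norm_num)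
    (fun t => 2 * 1.322 * (1 - t / 0.9)) (by fun_prop) 0.001 (by norm_num)
  obtain ⟨D₃, hD₃, k3⟩ := prime_integral (19 / 35) (9 / 10) (by norm_num) (by norm_num)
    (fun t => 2 * (84.7 * (2 / 35 / (1 - t)) ^ 2) * (1 - t / 0.9)) (by
      have h1 : ContinuousOn (fun t : ℝ => (2 / 35 : ℝ) / (1 - t)) (Set.Icc (19 / 35) (9 / 10)) := by
        apply ContinuousOn.div continuousOn_const (by fun_prop)
        intro x hx
        have := hx.2
        intro h0
        linarith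
      exact (continuousOn_const.mul (continuousOn_const.mul (h1.pow 2))).mul (by fun_prop))
    0.001 (by norm_num)
  refine ⟨max (max D₁ D₂) (max D₃ ((1001 : ℝ) ^ (35 / 2 : ℝ))),
    hD₁.trans ((le_max_left _ _).trans (le_max_left _ _)), fun D hD ν hν => ?_⟩
  have hDD₁ : D₁ ≤ D := ((le_max_left _ _).trans (le_max_left _ _)).trans hD
  have hDD₂ : D₂ ≤ D := ((le_max_right _ _).trans (le_max_left _ _)).trans hD
  have hDD₃ : D₃ ≤ D := ((le_max_left _ _).trans (le_max_right _ _)).trans hD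
  have hDD₄ : (1001 : ℝ) ^ (35 / 2 : ℝ) ≤ D := ((le_max_right _ _).trans (le_max_right _ _)).trans hD
  have hD1 : 1 < D := by linarith
  have hD0 : 0 < D := by linarith
  have hlogD : 0 < Real.log D := Real.log_pos hD1
  have hz : (1001 : ℝ) ≤ D ^ (2 / 35 : ℝ) := by
    have h2 := Real.rpow_le_rpow (by positivity) hDD₄ (by norm_num : (0 : ℝ) ≤ 2 / 35)
    rw [← Real.rpow_mul (by norm_num)] at h2
    norm_num at h2
    exact h2
  -- step 1: remove nu
  have hstep : ∑ l ∈ prs (D ^ (2 / 35 : ℝ)) (D ^ (9 / 10 : ℝ)),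
      (1 - Real.log l / Real.log (D ^ (9 / 10 : ℝ))) *
      (ν l * Fup (Real.log l / Real.log D)) ≤
      1.001 * ∑ l ∈ prs (D ^ (2 / 35 : ℝ)) (D ^ (9 / 10 : ℝ)),
        (2 * Fup (Real.log l / Real.log D) * (1 - (Real.log l / Real.log D) / 0.9)) / l := by
    rw [Finset.mul_sum]
    refine Finset.sum_le_sum fun l hl => ?_
    obtain ⟨l1, l2, l3⟩ := t09_range hD1 hl
    obtain ⟨l4, l5, l6⟩ := t09_mem_prs.1 hl
    have hl1001 : (1001 : ℝ) ≤ l := hz.trans l5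
    have hl5 : 5 ≤ l := by
      have : (5 : ℝ) ≤ l := by linarith
      exact_mod_cast this
    have e1 : Real.log l / Real.log (D ^ (9 / 10 : ℝ)) = (Real.log l / Real.log D) / 0.9 := by
      rw [Real.log_rpow hD0, show (0.9 : ℝ) = 9 / 10 by norm_num, div_div, mul_comm (9 / 10 : ℝ)]
    rw [e1]
    set t := Real.log l / Real.log D with ht
    have hu : 0 ≤ 1 - t / 0.9 := by
      rw [sub_nonneg, div_le_one (by norm_num)]
      linarith
    have hF := t09_Fup_nonneg t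
    have hν1 : ν l ≤ 1.001 * (2 / l) := by
      refine (hν.le l l4 hl5).trans ?_
      rw [mul_div_assoc', div_le_div_iff₀ (by linarith) l3]
      nlinarith
    calc (1 - t / 0.9) * (ν l * Fup t) ≤ (1 - t / 0.9) * (1.001 * (2 / l) * Fup t) :=
          mul_le_mul_of_nonneg_left (mul_le_mul_of_nonneg_right hν1 hF) hu
      _ = 1.001 * (2 * Fup t * (1 - t / 0.9) / l) := by ring
  -- step 2: split
  have h12 : D ^ (2 / 35 : ℝ) ≤ D ^ (11 / 35 : ℝ) :=
    Real.rpow_le_rpow_of_exponent_le hD1.le (by norm_num)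
  have h23 : D ^ (11 / 35 : ℝ) ≤ D ^ (19 / 35 : ℝ) :=
    Real.rpow_le_rpow_of_exponent_le hD1.le (by norm_num)
  have h34 : D ^ (19 / 35 : ℝ) ≤ D ^ (9 / 10 : ℝ) :=
    Real.rpow_le_rpow_of_exponent_le hD1.le (by norm_num)
  have hR : ∑ l ∈ prs (D ^ (2 / 35 : ℝ)) (D ^ (9 / 10 : ℝ)),
        (2 * Fup (Real.log l / Real.log D) * (1 - (Real.log l / Real.log D) / 0.9)) / l =
      ∑ l ∈ prs (D ^ (2 / 35 : ℝ)) (D ^ (11 / 35 : ℝ)),
      (2 * Fup (Real.log l / Real.log D) * (1 - (Real.log l / Real.log D) / 0.9)) / l +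
      ∑ l ∈ prs (D ^ (11 / 35 : ℝ)) (D ^ (19 / 35 : ℝ)),
      (2 * Fup (Real.log l / Real.log D) * (1 - (Real.log l / Real.log D) / 0.9)) / l +
      ∑ l ∈ prs (D ^ (19 / 35 : ℝ)) (D ^ (9 / 10 : ℝ)),
      (2 * Fup (Real.log l / Real.log D) * (1 - (Real.log l / Real.log D) / 0.9)) / l := by
    rw [t09_sum_split (h12.trans h23) h34, t09_sum_split h12 h23]
  rw [hR] at hstep
  have m1 : ∑ l ∈ prs (D ^ (2 / 35 : ℝ)) (D ^ (11 / 35 : ℝ)),
      (2 * Fup (Real.log l / Real.log D) * (1 - (Real.log l / Real.log D) / 0.9)) / l ≤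
      (∫ t in (2 / 35 : ℝ)..(11 / 35), (2 * 1.011 * (1 - t / 0.9)) / t) + 0.001 := by
    have q := (abs_le.1 (k1 D hDD₁)).2
    have q' : ∑ p ∈ prs (D ^ (2 / 35 : ℝ)) (D ^ (11 / 35 : ℝ)),
        2 * 1.011 * (1 - (Real.log p / Real.log D) / 0.9) / p ≤
        (∫ t in (2 / 35 : ℝ)..(11 / 35), (2 * 1.011 * (1 - t / 0.9)) / t) + 0.001 := by linarith
    refine le_trans (Finset.sum_le_sum fun l hl => ?_) q'
    obtain ⟨l1, l2, l3⟩ := t09_range hD1 hl
    have : Fup (Real.log l / Real.log D) = 1.011 := by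
      unfold Fup
      rw [if_pos l2.le]
    rw [this]
  have m2 : ∑ l ∈ prs (D ^ (11 / 35 : ℝ)) (D ^ (19 / 35 : ℝ)),
      (2 * Fup (Real.log l / Real.log D) * (1 - (Real.log l / Real.log D) / 0.9)) / l ≤
      (∫ t in (11 / 35 : ℝ)..(19 / 35), (2 * 1.322 * (1 - t / 0.9)) / t) + 0.001 := by
    have q := (abs_le.1 (k2 D hDD₂)).2
    have q' : ∑ p ∈ prs (D ^ (11 / 35 : ℝ)) (D ^ (19 / 35 : ℝ)),
        2 * 1.322 * (1 - (Real.log p / Real.log D) / 0.9) / p ≤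
        (∫ t in (11 / 35 : ℝ)..(19 / 35), (2 * 1.322 * (1 - t / 0.9)) / t) + 0.001 := by linarith
    refine le_trans (Finset.sum_le_sum fun l hl => ?_) q'
    obtain ⟨l1, l2, l3⟩ := t09_range hD1 hl
    have hF : Fup (Real.log l / Real.log D) ≤ 1.322 := by
      unfold Fup
      split_ifs
      · norm_num
      · exact le_rfl
      · linarith
    have hu : 0 ≤ 1 - (Real.log l / Real.log D) / 0.9 := by
      rw [sub_nonneg, div_le_one (by norm_num)]
      norm_num at l2 ⊢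
      linarith
    apply div_le_div_of_nonneg_right _ l3.le
    apply mul_le_mul_of_nonneg_right _ hu
    linarith
  have m3 : ∑ l ∈ prs (D ^ (19 / 35 : ℝ)) (D ^ (9 / 10 : ℝ)),
      (2 * Fup (Real.log l / Real.log D) * (1 - (Real.log l / Real.log D) / 0.9)) / l ≤
      (∫ t in (19 / 35 : ℝ)..0.9, (2 * (84.7 * (2 / 35 / (1 - t)) ^ 2) * (1 - t / 0.9)) / t) +
        0.001 := by
    have e9 : (0.9 : ℝ) = 9 / 10 := by norm_num
    have q := (abs_le.1 (k3 D hDD₃)).2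
    have q' : ∑ p ∈ prs (D ^ (19 / 35 : ℝ)) (D ^ (9 / 10 : ℝ)),
        2 * (84.7 * (2 / 35 / (1 - Real.log p / Real.log D)) ^ 2) *
          (1 - (Real.log p / Real.log D) / 0.9) / p ≤
        (∫ t in (19 / 35 : ℝ)..(9 / 10), (2 * (84.7 * (2 / 35 / (1 - t)) ^ 2) * (1 - t / 0.9)) / t) +
        0.001 := by linarith
    have hint : (∫ t in (19 / 35 : ℝ)..0.9, (2 * (84.7 * (2 / 35 / (1 - t)) ^ 2) * (1 - t / 0.9)) / t) =
        ∫ t in (19 / 35 : ℝ)..(9 / 10), (2 * (84.7 * (2 / 35 / (1 - t)) ^ 2) * (1 - t / 0.9)) / t := by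
      congr 1
    rw [hint]
    refine le_trans (Finset.sum_le_sum fun l hl => ?_) q'
    obtain ⟨l1, l2, l3⟩ := t09_range hD1 hl
    set t := Real.log l / Real.log D with ht
    have hF : Fup t ≤ 84.7 * (2 / 35 / (1 - t)) ^ 2 := by
      unfold Fup
      split_ifs with h1 h2
      · exfalso
        linarith
      · have ht' : t = 19 / 35 := le_antisymm h2 l1
        rw [ht']
        norm_num
      · exact le_rfl
    have hu : 0 ≤ 1 - t / 0.9 := by
      rw [sub_nonneg, div_le_one (by norm_num)]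
      norm_num at l2 ⊢
      linarith
    apply div_le_div_of_nonneg_right _ l3.le
    apply mul_le_mul_of_nonneg_right _ hu
    linarith
  have hnum := num_int
  have htot : 1.001 * (∑ l ∈ prs (D ^ (2 / 35 : ℝ)) (D ^ (11 / 35 : ℝ)),
      (2 * Fup (Real.log l / Real.log D) * (1 - (Real.log l / Real.log D) / 0.9)) / l +
      ∑ l ∈ prs (D ^ (11 / 35 : ℝ)) (D ^ (19 / 35 : ℝ)),
      (2 * Fup (Real.log l / Real.log D) * (1 - (Real.log l / Real.log D) / 0.9)) / l +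
      ∑ l ∈ prs (D ^ (19 / 35 : ℝ)) (D ^ (9 / 10 : ℝ)),
      (2 * Fup (Real.log l / Real.log D) * (1 - (Real.log l / Real.log D) / 0.9)) / l) ≤
      1.001 * 4.303 := by
    apply mul_le_mul_of_nonneg_left _ (by norm_num)
    norm_num at m1 m2 m3 hnum ⊢
    linarith
  refine hstep.trans (htot.trans ?_)
  norm_num

end Pool.Agent.Lib.MP_d9bc60_nt.AP
end

section
/-! Row T10 (about 80 lines): rearranging the error terms. -/

set_option autoImplicit false

namespace Pool.Agent.Lib.MP_d9bc60_nt.AP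

open Finset Pool.Agent.Lib.MP_d9bc60_nt.UV

theorem t10_mem_prs (u v : ℝ) (l : ℕ) :
    l ∈ prs u v ↔ (l : ℝ) < v ∧ l.Prime ∧ u ≤ (l : ℝ) := by
  unfold prs
  rw [Finset.mem_filter, Finset.mem_range, Nat.lt_ceil]

theorem t10_mem_Dset (z Y : ℝ) (d : ℕ) :
    d ∈ Dset z Y ↔ 1 ≤ d ∧ (d : ℝ) ≤ Y ∧ Squarefree d ∧
      ∀ p : ℕ, p.Prime → p ∣ d → 3 ≤ p ∧ (p : ℝ) < z := by
  unfold Dset
  simp only [Finset.mem_filter, Finset.mem_Icc]
  constructor
  · rintro ⟨⟨h1, h2⟩, h3, h4⟩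
    exact ⟨h1, (Nat.le_floor_iff' (by omega)).1 h2, h3, h4⟩
  · rintro ⟨h1, h2, h3, h4⟩
    exact ⟨⟨h1, (Nat.le_floor_iff' (by omega)).2 h2⟩, h3, h4⟩

theorem t10_maps (D z y : ℝ) (hz : 3 ≤ z) (hzy : z ≤ y) (l d : ℕ) (hl : l ∈ prs z y)
    (hd : d ∈ Dset z (D / l)) : l * d ∈ Dset y D := by
  rw [t10_mem_prs] at hl
  rw [t10_mem_Dset] at hd ⊢
  obtain ⟨hly, hlp, hzl⟩ := hl
  obtain ⟨hd1, hdY, hsq, hp⟩ := hd
  have hl0 : (0 : ℝ) < l := by exact_mod_cast hlp.pos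
  have hndvd : ¬ l ∣ d := by
    intro h
    have := (hp l hlp h).2
    linarith
  refine ⟨Nat.mul_pos hlp.pos hd1, ?_, ?_, ?_⟩
  · rw [le_div_iff₀ hl0] at hdY
    push_cast
    linarith
  · rw [Nat.squarefree_mul_iff]
    exact ⟨(Nat.Prime.coprime_iff_not_dvd hlp).2 hndvd, hlp.squarefree, hsq⟩
  · intro p hpp hpd
    rcases (Nat.Prime.dvd_mul hpp).1 hpd with h | h
    · have h5 : p = l := (Nat.prime_dvd_prime_iff_eq hpp hlp).1 h
      subst h5
      refine ⟨?_, hly⟩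
      have : (3 : ℝ) ≤ p := hz.trans hzl
      exact_mod_cast this
    · obtain ⟨h5, h6⟩ := hp p hpp h
      exact ⟨h5, lt_of_lt_of_le h6 hzy⟩

/-- Proof. `(l, d) ↦ m = l d`: `l` is prime, `z ≤ l < y`, the prime factors of `d` are `< z`, so `m` is
squarefree, `m ≤ D`, with prime factors in `[3, y)`, `τ(d) ≤ τ(m)`, and every `m` comes from at most `τ(m)` primes `l`
(`d = m/l`). -/
theorem err_sum (D z y : ℝ) (hz : 3 ≤ z) (hzy : z ≤ y) (R : ℕ → ℝ) (hR : ∀ m, 0 ≤ R m) :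
    ∑ l ∈ prs z y, ∑ d ∈ Dset z (D / l), (d.divisors.card : ℝ) ^ 2 * R (l * d) ≤
      ∑ m ∈ Dset y D, (m.divisors.card : ℝ) ^ 3 * R m := by
  classical
  rw [Finset.sum_sigma' (prs z y) (fun l => Dset z (D / l))
    (fun l d => (d.divisors.card : ℝ) ^ 2 * R (l * d))]
  have hmaps : ∀ x ∈ (prs z y).sigma (fun l => Dset z (D / l)), x.1 * x.2 ∈ Dset y D := by
    intro x hx
    rw [Finset.mem_sigma] at hx
    exact t10_maps D z y hz hzy x.1 x.2 hx.1 hx.2
  rw [← Finset.sum_fiberwise_of_maps_to hmaps]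
  refine Finset.sum_le_sum fun m hm => ?_
  rw [t10_mem_Dset] at hm
  have hm0 : m ≠ 0 := by omega
  have h1 : ∀ x ∈ ((prs z y).sigma (fun l => Dset z (D / l))).filter (fun x => x.1 * x.2 = m),
      ((x.2).divisors.card : ℝ) ^ 2 * R (x.1 * x.2) ≤ (m.divisors.card : ℝ) ^ 2 * R m := by
    intro x hx
    rw [Finset.mem_filter] at hx
    obtain ⟨_, hxm⟩ := hx
    rw [hxm]
    refine mul_le_mul_of_nonneg_right ?_ (hR m)
    have h2 : (x.2).divisors.card ≤ m.divisors.card :=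
      Finset.card_le_card (Nat.divisors_subset_of_dvd hm0 ⟨x.1, by rw [← hxm, mul_comm]⟩)
    have h3 : ((x.2).divisors.card : ℝ) ≤ (m.divisors.card : ℝ) := by exact_mod_cast h2
    exact pow_le_pow_left₀ (Nat.cast_nonneg _) h3 2
  have hcard : (((prs z y).sigma (fun l => Dset z (D / l))).filter
      (fun x => x.1 * x.2 = m)).card ≤ m.divisors.card := by
    refine Finset.card_le_card_of_injOn (fun x => x.1) ?_ ?_
    · intro x hx
      rw [Finset.mem_coe, Finset.mem_filter] at hx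
      rw [Finset.mem_coe, Nat.mem_divisors]
      exact ⟨⟨x.2, hx.2.symm⟩, hm0⟩
    · rintro ⟨l, d⟩ hx ⟨l', d'⟩ hx' h
      rw [Finset.mem_coe, Finset.mem_filter] at hx hx'
      simp only at h hx hx'
      subst h
      have hl0 : 0 < l := by
        rcases Nat.eq_zero_or_pos l with h0 | h0
        · exfalso
          apply hm0
          rw [← hx.2, h0, zero_mul]
        · exact h0
      have hdd : d = d' := Nat.eq_of_mul_eq_mul_left hl0 (hx.2.trans hx'.2.symm)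
      subst hdd
      rfl
  calc ∑ x ∈ ((prs z y).sigma (fun l => Dset z (D / l))).filter (fun x => x.1 * x.2 = m),
        ((x.2).divisors.card : ℝ) ^ 2 * R (x.1 * x.2)
      ≤ (((prs z y).sigma (fun l => Dset z (D / l))).filter (fun x => x.1 * x.2 = m)).card •
        ((m.divisors.card : ℝ) ^ 2 * R m) := Finset.sum_le_card_nsmul _ _ _ h1
    _ ≤ (m.divisors.card : ℝ) * ((m.divisors.card : ℝ) ^ 2 * R m) := by
        rw [nsmul_eq_mul]
        refine mul_le_mul_of_nonneg_right (by exact_mod_cast hcard) ?_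
        exact mul_nonneg (by positivity) (hR m)
    _ = (m.divisors.card : ℝ) ^ 3 * R m := by ring

end Pool.Agent.Lib.MP_d9bc60_nt.AP
end

section
/-! Row T11 (about 120 lines): the weighted sieve. -/

set_option autoImplicit false

namespace Pool.Agent.Lib.MP_d9bc60_nt.AP

open Finset Pool.Agent.Lib.MP_d9bc60_nt.UV

theorem t11_VV_nonneg {ν : ℕ → ℝ} (hν : Dens ν) (z : ℝ) : 0 ≤ VV ν z := by
  unfold VV
  apply Finset.prod_nonneg
  intro p hp
  rw [mem_filter] at hp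
  obtain ⟨-, hp1, hp3⟩ := hp
  rcases Nat.lt_or_ge p 5 with h | h
  · have h4 : p ≠ 4 := by
      rintro rfl
      revert hp1
      decide
    have h3 : p = 3 := by omega
    subst h3
    have := hν.three
    linarith
  · have h1 := hν.le p hp1 h
    have h5 : (5 : ℝ) ≤ p := by exact_mod_cast h
    have h2 : (2 : ℝ) / ((p : ℝ) - 1) ≤ 1 / 2 := by
      rw [div_le_div_iff₀ (by linarith) (by norm_num)]
      linarith
    linarith

theorem t11_Rem_nonneg {ι : Type} (I : Finset ι) (w : ι → ℝ) (a : ι → ℕ) (X : ℝ) (ν : ℕ → ℝ)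
    (d : ℕ) : 0 ≤ Rem I w a X ν d := abs_nonneg _

theorem t11_Dset_one {z D : ℝ} {m : ℕ} (h : m ∈ Dset z D) : 1 ≤ m := by
  classical
  unfold Dset at h
  rw [mem_filter, mem_Icc] at h
  exact h.1.1

/-- the sets of divisors increase -/
theorem t11_Dset_mono {z y D : ℝ} (h : z ≤ y) : Dset z D ⊆ Dset y D := by
  classical
  intro d hd
  unfold Dset at hd ⊢
  rw [mem_filter] at hd ⊢
  exact ⟨hd.1, hd.2.1, fun p hp hpd => ⟨(hd.2.2 p hp hpd).1, (hd.2.2 p hp hpd).2.trans_le h⟩⟩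

/-- exchange of the sums -/
theorem t11_exchange {ι : Type} (I : Finset ι) (w : ι → ℝ) (a : ι → ℕ) (z y : ℝ) :
    Wsum I w a z y = 4.48 * Ssum I w a z -
      ∑ l ∈ prs z y, (1 - Real.log l / Real.log y) * Ssum (I.filter (fun i => l ∣ a i)) w a z := by
  classical
  have h1 : ∀ l ∈ prs z y, (1 - Real.log l / Real.log y) *
      Ssum (I.filter (fun i => l ∣ a i)) w a z =
      ∑ i ∈ I.filter (fun i => Sft z (a i)), if l ∣ a i then
        w i * (1 - Real.log l / Real.log y) else 0 := by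
    intro l _
    unfold Ssum
    rw [Finset.filter_filter, ← Finset.sum_filter, Finset.filter_filter, Finset.mul_sum]
    apply Finset.sum_congr
    · ext i
      simp only [mem_filter]
      tauto
    · intro i _
      ring
  rw [Finset.sum_congr rfl h1, Finset.sum_comm]
  unfold Wsum Ssum
  rw [Finset.mul_sum, ← Finset.sum_sub_distrib]
  apply Finset.sum_congr rfl
  intro i _
  unfold Wt
  rw [← Finset.sum_filter, ← Finset.mul_sum]
  ring

/-- Proof. Exchange sums: the right side is `4.48 Ssum - ∑_{l ∈ prs z y} (1 - log l/log y) S_l`, `S_l` the sifted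
sum over `I_l = {i ∈ I : l ∣ a i}`. `lower_sieve` for the first, `one_l`, `sum_l`, `err_sum` for the others
(`0 ≤ 1 - log l/log y ≤ 1`). `4.48 · 0.99 = 4.4352 ≥ 4.31 + 0.1`. Error terms:
`4.48 log D ∑_{d ∈ Dset z D} Rem d ≤ 4.48 log D ∑_{Dset y D} τ³ Rem`. -/
theorem weighted : ∃ D₀ : ℝ, 2 ≤ D₀ ∧ ∀ D : ℝ, D₀ ≤ D → ∀ {ι : Type} (I : Finset ι) (w : ι → ℝ)
    (a : ι → ℕ) (X : ℝ) (ν : ℕ → ℝ), (∀ i, 0 ≤ w i) → 0 ≤ X → Dens ν →
    0.1 * X * VV ν (D ^ (2 / 35 : ℝ)) -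
      6 * Real.log D * ∑ d ∈ Dset (D ^ (9 / 10 : ℝ)) D, (d.divisors.card : ℝ) ^ 3 * Rem I w a X ν d ≤
      Wsum I w a (D ^ (2 / 35 : ℝ)) (D ^ (9 / 10 : ℝ)) := by
  obtain ⟨D₁, hD₁2, hlow⟩ := lower_sieve
  obtain ⟨D₂, hD₂2, hone⟩ := one_l
  obtain ⟨D₃, hD₃2, hsum⟩ := sum_l
  refine ⟨max (max D₁ D₂) (max D₃ (3 ^ (18 : ℕ))),
    hD₁2.trans ((le_max_left _ _).trans (le_max_left _ _)), ?_⟩
  intro D hD ι I w a X ν hw hX hν
  have hD1 : D₁ ≤ D := ((le_max_left _ _).trans (le_max_left _ _)).trans hD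
  have hD2 : D₂ ≤ D := ((le_max_right _ _).trans (le_max_left _ _)).trans hD
  have hD3 : D₃ ≤ D := ((le_max_left _ _).trans (le_max_right _ _)).trans hD
  have hD4 : (3 : ℝ) ^ (18 : ℕ) ≤ D := ((le_max_right _ _).trans (le_max_right _ _)).trans hD
  have hD0 : (0 : ℝ) < D := lt_of_lt_of_le (by positivity) hD4
  have hDone : (1 : ℝ) ≤ D := le_trans (by norm_num) hD4
  set z : ℝ := D ^ (2 / 35 : ℝ) with hz
  set y : ℝ := D ^ (9 / 10 : ℝ) with hy
  have hz3 : 3 ≤ z := by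
    have h1 : ((3 : ℝ) ^ (18 : ℕ)) ^ (2 / 35 : ℝ) ≤ z :=
      Real.rpow_le_rpow (by positivity) hD4 (by norm_num)
    have h2 : ((3 : ℝ) ^ (18 : ℕ)) ^ (2 / 35 : ℝ) = 3 ^ (36 / 35 : ℝ) := by
      rw [← Real.rpow_natCast, ← Real.rpow_mul (by norm_num)]
      norm_num
    have h3 : (3 : ℝ) ^ (1 : ℝ) ≤ 3 ^ (36 / 35 : ℝ) :=
      Real.rpow_le_rpow_of_exponent_le (by norm_num) (by norm_num)
    rw [Real.rpow_one] at h3
    rw [h2] at h1
    exact h3.trans h1
  have hzy : z ≤ y := Real.rpow_le_rpow_of_exponent_le hDone (by norm_num)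
  have hy3 : 3 ≤ y := hz3.trans hzy
  have hlogy : 0 < Real.log y := Real.log_pos (by linarith)
  have hV := t11_VV_nonneg hν z
  have hlogD : 1 ≤ Real.log D := by
    rw [Real.le_log_iff_exp_le hD0]
    have h1 := Real.exp_one_lt_d9
    have h2 : (3 : ℝ) ≤ 3 ^ (18 : ℕ) := by norm_num
    linarith
  set E : ℝ := ∑ m ∈ Dset y D, (m.divisors.card : ℝ) ^ 3 * Rem I w a X ν m with hE
  have hE0 : 0 ≤ E := Finset.sum_nonneg fun m _ =>
    mul_nonneg (by positivity) (t11_Rem_nonneg I w a X ν m)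
  have h1 := hlow D hD1 I w a X ν hw hX hν
  have h2 : ∑ d ∈ Dset z D, Rem I w a X ν d ≤ E := by
    refine (Finset.sum_le_sum_of_subset_of_nonneg (t11_Dset_mono hzy)
      fun m _ _ => t11_Rem_nonneg I w a X ν m).trans ?_
    apply Finset.sum_le_sum
    intro m hm
    have hm1 : 1 ≤ m := t11_Dset_one hm
    have h3 : (1 : ℝ) ≤ (m.divisors.card : ℝ) := by
      exact_mod_cast Finset.card_pos.mpr ⟨1, Nat.one_mem_divisors.mpr (by omega)⟩
    have h4 : (1 : ℝ) ≤ (m.divisors.card : ℝ) ^ 3 := one_le_pow₀ h3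
    have h5 := t11_Rem_nonneg I w a X ν m
    nlinarith
  have hc : ∀ l ∈ prs z y, 0 ≤ 1 - Real.log l / Real.log y ∧ 1 - Real.log l / Real.log y ≤ 1 := by
    intro l hl
    unfold prs at hl
    rw [mem_filter, mem_range, Nat.lt_ceil] at hl
    obtain ⟨hl1, hl2, hl3⟩ := hl
    have hl0 : (0 : ℝ) < l := by exact_mod_cast hl2.pos
    have h3 : Real.log l ≤ Real.log y := Real.log_le_log hl0 hl1.le
    have h4 : 0 ≤ Real.log l := Real.log_nonneg (by exact_mod_cast hl2.one_lt.le)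
    have h5 : Real.log l / Real.log y ≤ 1 := by
      rw [div_le_one hlogy]; exact h3
    have h6 : 0 ≤ Real.log l / Real.log y := div_nonneg h4 hlogy.le
    constructor <;> linarith
  have h3 : ∑ l ∈ prs z y, (1 - Real.log l / Real.log y) *
      Ssum (I.filter (fun i => l ∣ a i)) w a z ≤
      4.31 * (X * VV ν z) + E := by
    have h4 : ∀ l ∈ prs z y, (1 - Real.log l / Real.log y) *
        Ssum (I.filter (fun i => l ∣ a i)) w a z ≤
        ((1 - Real.log l / Real.log y) * (ν l * Fup (Real.log l / Real.log D))) * (X * VV ν z) +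
        ∑ d ∈ Dset z (D / l), (d.divisors.card : ℝ) ^ 2 * Rem I w a X ν (l * d) := by
      intro l hl
      obtain ⟨hc1, hc2⟩ := hc l hl
      have h5 := hone D hD2 I w a X ν hw hX hν l hl
      have h6 : 0 ≤ ∑ d ∈ Dset z (D / l), (d.divisors.card : ℝ) ^ 2 * Rem I w a X ν (l * d) :=
        Finset.sum_nonneg fun m _ => mul_nonneg (by positivity) (t11_Rem_nonneg I w a X ν _)
      have h7 := mul_le_mul_of_nonneg_left h5 hc1
      refine h7.trans ?_
      rw [mul_add]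
      apply add_le_add
      · exact le_of_eq (by ring)
      · exact (mul_le_mul_of_nonneg_right hc2 h6).trans (le_of_eq (one_mul _))
    refine (Finset.sum_le_sum h4).trans ?_
    rw [Finset.sum_add_distrib, ← Finset.sum_mul]
    apply add_le_add
    · exact mul_le_mul_of_nonneg_right (hsum D hD3 ν hν) (mul_nonneg hX hV)
    · exact err_sum D z y hz3 hzy (fun m => Rem I w a X ν m)
        (fun m => t11_Rem_nonneg I w a X ν m)
  rw [t11_exchange]
  have hXV : 0 ≤ X * VV ν z := mul_nonneg hX hV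
  have h8 : Real.log D * ∑ d ∈ Dset z D, Rem I w a X ν d ≤ Real.log D * E :=
    mul_le_mul_of_nonneg_left h2 (by linarith)
  have h9 : E ≤ Real.log D * E := by nlinarith
  have e1 : 0.99 * X * VV ν z = 0.99 * (X * VV ν z) := by ring
  have e2 : 0.1 * X * VV ν z = 0.1 * (X * VV ν z) := by ring
  have e3 : 6 * Real.log D * E = 6 * (Real.log D * E) := by ring
  rw [e1] at h1
  rw [e2, e3]
  norm_num at h1 h3 ⊢
  linarith

end Pool.Agent.Lib.MP_d9bc60_nt.AP
end
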