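import Pool.Agent.Lib.MP_d9bc60_nt.AQ.QDefs

section
/-! Row A01 (about 100 lines): the number of roots. -/

set_option autoImplicit false

namespace Pool.Agent.Lib.MP_d9bc60_nt.AP

open Finset Pool.Agent.Lib.MP_d9bc60_nt.UV

theorem a01_gg (b : ℤ) (N : ℤ) (x y d : ℕ) (h : x ≡ y [MOD d]) :
    (d : ℤ) ∣ N - gg b x ↔ (d : ℤ) ∣ N - gg b y := by
  have h1 : (d : ℤ) ∣ (y : ℤ) - x := (Nat.modEq_iff_dvd.mp h)
  have h2 : (d : ℤ) ∣ gg b y - gg b x := by
    have h3 : gg b y - gg b x = ((y : ℤ) - x) * ((y : ℤ) + x + b) := by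
      simp only [gg]; ring
    rw [h3]; exact Dvd.dvd.mul_right h1 _
  have h4 : (N - gg b x) = (N - gg b y) + (gg b y - gg b x) := by ring
  rw [h4]
  exact ⟨fun h5 => (dvd_add_left h2).mp h5, fun h5 => dvd_add h5 h2⟩

theorem a01_cop (x y d : ℕ) (h : x ≡ y [MOD d]) : x.Coprime d ↔ y.Coprime d := by
  have := Nat.ModEq.gcd_eq h
  simp only [Nat.Coprime]
  rw [this]

/-- Proof. Chinese remainder theorem (`x mod de ↔ (x mod d, x mod e)`). -/
theorem rho_mul (b : ℤ) (N : ℤ) (d e : ℕ) (h : d.Coprime e) :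
    rho b (d * e) N = rho b d N * rho b e N := by
  classical
  rcases Nat.eq_zero_or_pos d with rfl | hd
  · simp [rho]
  rcases Nat.eq_zero_or_pos e with rfl | he
  · simp [rho]
  rw [rho, rho, rho, ← Finset.card_product]
  have hcop : IsCoprime (d : ℤ) (e : ℤ) := Nat.isCoprime_iff_coprime.mpr h
  have key : ∀ x : ℕ, (x.Coprime (d * e) ∧ ((d * e : ℕ) : ℤ) ∣ N - gg b x) ↔
      ((x % d).Coprime d ∧ (d : ℤ) ∣ N - gg b (x % d)) ∧
      ((x % e).Coprime e ∧ (e : ℤ) ∣ N - gg b (x % e)) := by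
    intro x
    rw [a01_cop (x % d) x d (Nat.mod_modEq x d), a01_cop (x % e) x e (Nat.mod_modEq x e),
      a01_gg b N (x % d) x d (Nat.mod_modEq x d), a01_gg b N (x % e) x e (Nat.mod_modEq x e),
      Nat.coprime_mul_iff_right, Nat.cast_mul]
    constructor
    · rintro ⟨⟨h1, h2⟩, h3⟩
      exact ⟨⟨h1, (Dvd.intro _ rfl).trans h3⟩, ⟨h2, (Dvd.intro_left _ rfl).trans h3⟩⟩
    · rintro ⟨⟨h1, h2⟩, ⟨h3, h4⟩⟩
      exact ⟨⟨h1, h3⟩, hcop.mul_dvd h2 h4⟩
  refine Finset.card_nbij' (fun x => (x % d, x % e))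
    (fun p => (Nat.chineseRemainder h p.1 p.2 : ℕ)) ?_ ?_ ?_ ?_
  · intro x hx
    simp only [Finset.coe_filter, Finset.mem_range, Set.mem_ofPred_eq] at hx
    simp only [Finset.coe_product, Finset.coe_filter, Finset.mem_range, Set.mem_prod,
      Set.mem_ofPred_eq]
    have := (key x).mp hx.2
    exact ⟨⟨Nat.mod_lt _ hd, this.1⟩, ⟨Nat.mod_lt _ he, this.2⟩⟩
  · rintro ⟨u, v⟩ hx
    simp only [Finset.coe_product, Finset.coe_filter, Finset.mem_range, Set.mem_prod,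
      Set.mem_ofPred_eq] at hx
    simp only [Finset.coe_filter, Finset.mem_range, Set.mem_ofPred_eq]
    have h1 := (Nat.chineseRemainder h u v).2.1
    have h2 := (Nat.chineseRemainder h u v).2.2
    refine ⟨Nat.chineseRemainder_lt_mul h u v hd.ne' he.ne', (key _).mpr ?_⟩
    have h3 : (Nat.chineseRemainder h u v : ℕ) % d = u := by
      rw [Nat.ModEq] at h1
      rw [h1, Nat.mod_eq_of_lt hx.1.1]
    have h4 : (Nat.chineseRemainder h u v : ℕ) % e = v := by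
      rw [Nat.ModEq] at h2
      rw [h2, Nat.mod_eq_of_lt hx.2.1]
    rw [h3, h4]
    exact ⟨hx.1.2, hx.2.2⟩
  · intro x hx
    simp only [Finset.coe_filter, Finset.mem_range, Set.mem_ofPred_eq] at hx
    have h1 := (Nat.chineseRemainder h (x % d) (x % e)).2.1
    have h2 := (Nat.chineseRemainder h (x % d) (x % e)).2.2
    have h3 : (Nat.chineseRemainder h (x % d) (x % e) : ℕ) ≡ x [MOD d * e] :=
      (Nat.modEq_and_modEq_iff_modEq_mul h).mp
        ⟨h1.trans (Nat.mod_modEq x d), h2.trans (Nat.mod_modEq x e)⟩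
    have h4 := Nat.chineseRemainder_lt_mul h (x % d) (x % e) hd.ne' he.ne'
    exact Nat.ModEq.eq_of_lt_of_lt h3 h4 hx.1
  · rintro ⟨u, v⟩ hx
    simp only [Finset.coe_product, Finset.coe_filter, Finset.mem_range, Set.mem_prod,
      Set.mem_ofPred_eq] at hx
    have h1 := (Nat.chineseRemainder h u v).2.1
    have h2 := (Nat.chineseRemainder h u v).2.2
    rw [Nat.ModEq] at h1 h2
    simp only [Prod.mk.injEq]
    rw [h1, h2]
    exact ⟨Nat.mod_eq_of_lt hx.1.1, Nat.mod_eq_of_lt hx.2.1⟩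

/-- Proof. Squarefree: `rho_mul`, `rho_le_two`: `ρ(d) ≤ 2^ω(d) = τ(d)`. -/
theorem rho_le_tau (b : ℤ) (N : ℤ) (d : ℕ) (hd : Squarefree d) : rho b d N ≤ d.divisors.card := by
  induction d using Nat.recOnPosPrimePosCoprime with
  | prime_pow p n hp hn =>
    have h1 : n = 1 := by
      by_contra hne
      have h2 : 2 ≤ n := by omega
      have h3 : p * p ∣ p ^ n := by rw [← pow_two]; exact pow_dvd_pow p h2
      exact hp.not_isUnit (hd p h3)
    subst h1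
    rw [pow_one, Nat.Prime.divisors hp, Finset.card_pair hp.one_lt.ne]
    exact rho_le_two b p hp N
  | zero => simp [rho]
  | one =>
    rw [rho]
    refine (Finset.card_filter_le _ _).trans ?_
    simp
  | coprime a c ha hc hac iha ihc =>
    rw [rho_mul b N a c hac, Nat.Coprime.card_divisors_mul hac]
    exact Nat.mul_le_mul (iha (hd.squarefree_of_dvd (Dvd.intro _ rfl)))
      (ihc (hd.squarefree_of_dvd (Dvd.intro_left _ rfl)))

end Pool.Agent.Lib.MP_d9bc60_nt.AP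
end

section
/-! Row A02 (about 60 lines): the density function of the roots. -/

set_option autoImplicit false

namespace Pool.Agent.Lib.MP_d9bc60_nt.AP

open Finset Pool.Agent.Lib.MP_d9bc60_nt.UV

/-- `ν(d) = ρ(d)/φ(d)`, `ρ(d) = #{x mod d, (x,d) = 1 : g(x) ≡ N (d)}`. -/
noncomputable def nuq (b : ℤ) (N d : ℕ) : ℝ := (rho b d (N : ℤ) : ℝ) / d.totient

/-- Proof. `rho_mul`, `rho_le_two`, `rho_three` (in `UV.PSing`); `Nat.totient_mul`. -/
theorem dens_nuq (b : ℤ) (N : ℕ) (h3 : ¬ (3 : ℤ) ∣ b) : Dens (nuq b N) where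
  one := by
    have h : rho b 1 (N : ℤ) = 1 := by
      rw [rho, Finset.filter_true_of_mem]
      · simp
      · intro x _
        exact ⟨Nat.coprime_one_right x, by simp⟩
    rw [nuq, h]
    simp
  nonneg := fun d => div_nonneg (Nat.cast_nonneg _) (Nat.cast_nonneg _)
  mul := by
    intro d e h
    rw [nuq, nuq, nuq, rho_mul b N d e h, Nat.totient_mul h]
    push_cast
    rw [div_mul_div_comm]
  three := by
    have h1 : ((rho b 3 (N : ℤ) : ℕ) : ℝ) ≤ 1 := by exact_mod_cast rho_three b h3 N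
    have h2 : Nat.totient 3 = 2 := by decide
    rw [nuq, h2]
    push_cast
    linarith
  le := by
    intro p hp h5
    have h1 : ((rho b p (N : ℤ) : ℕ) : ℝ) ≤ 2 := by exact_mod_cast rho_le_two b p hp N
    have h2 : ((Nat.totient p : ℕ) : ℝ) = (p : ℝ) - 1 := by
      rw [Nat.totient_prime hp, Nat.cast_sub hp.one_le, Nat.cast_one]
    have h3 : (5 : ℝ) ≤ p := by exact_mod_cast h5
    rw [nuq, h2]
    exact div_le_div_of_nonneg_right h1 (by linarith)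

end Pool.Agent.Lib.MP_d9bc60_nt.AP
end

section
/-! Row A03 (about 180 lines): the remainders of our sequence. -/

set_option autoImplicit false

namespace Pool.Agent.Lib.MP_d9bc60_nt.AP

open Finset Pool.Agent.Lib.MP_d9bc60_nt.UV

open Classical in
/-- The weight `log n · log⁺(P/n)` of the primes `n > y`. -/
noncomputable def wq (P : ℕ) (y : ℝ) (n : ℕ) : ℝ :=
  if n.Prime ∧ y < (n : ℝ) then Real.log n * kf P n else 0

/-- The sequence `N - g(n)`. -/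
def aq (b : ℤ) (N n : ℕ) : ℕ := ((N : ℤ) - gg b n).toNat

theorem a03_gg_mod (b : ℤ) (N d n : ℕ) :
    (d : ℤ) ∣ (N : ℤ) - gg b n ↔ (d : ℤ) ∣ (N : ℤ) - gg b (n % d) := by
  have h := Nat.mod_add_div n d
  have h1 : (n : ℤ) = ((n % d : ℕ) : ℤ) + d * ((n / d : ℕ) : ℤ) := by exact_mod_cast h.symm
  have h2 : (N : ℤ) - gg b n = (N : ℤ) - gg b ((n % d : ℕ)) -
      d * (((n / d : ℕ) : ℤ) * ((n : ℤ) + ((n % d : ℕ) : ℤ) + b)) := by
    unfold gg
    rw [h1]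
    push_cast
    ring
  have h3 : ((n % d : ℕ) : ℤ) = (n : ℤ) % d := by push_cast; rfl
  rw [h2]
  constructor
  · intro h4
    have := dvd_add h4 (Dvd.intro (((n / d : ℕ) : ℤ) * ((n : ℤ) + ((n % d : ℕ) : ℤ) + b)) rfl)
    rwa [sub_add_cancel] at this
  · intro h4
    exact dvd_sub h4 (Dvd.intro _ rfl)

theorem a03_kf_nonneg (P n : ℕ) : 0 ≤ kf P n := le_max_left _ _

theorem a03_kf_le (P n : ℕ) (hP : 1 ≤ P) (hn : 1 ≤ n) : kf P n ≤ Real.log P := by
  unfold kf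
  have hP' : (1 : ℝ) ≤ P := by exact_mod_cast hP
  have hn' : (1 : ℝ) ≤ n := by exact_mod_cast hn
  apply max_le (Real.log_nonneg hP')
  apply Real.log_le_log
  · positivity
  · exact div_le_self (by linarith) hn'

theorem a03_vm_nonneg (n : ℕ) : 0 ≤ vm n := ArithmeticFunction.vonMangoldt_nonneg

/-- the sum over the `n` which are not primes `> y` -/
theorem a03_small (P : ℕ) (y : ℝ) (hP : 3 ≤ P) (hy : 1 ≤ y) :
    ∑ n ∈ (Icc 1 P).filter (fun n : ℕ => ¬ (n.Prime ∧ y < (n : ℝ))), vm n * kf P n ≤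
      (y + 2 * Real.sqrt P) * Real.log P ^ 2 := by
  classical
  have hPR : (1 : ℝ) ≤ P := by exact_mod_cast (by omega : 1 ≤ P)
  have hL : 0 ≤ Real.log P := Real.log_nonneg hPR
  -- the primes up to y
  have h1 : ∑ n ∈ (Icc 1 P).filter (fun n : ℕ => n.Prime ∧ (n : ℝ) ≤ y), vm n * kf P n ≤
      y * Real.log P ^ 2 := by
    have hb : ∀ n ∈ (Icc 1 P).filter (fun n : ℕ => n.Prime ∧ (n : ℝ) ≤ y),
        vm n * kf P n ≤ Real.log P ^ 2 := by
      intro n hn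
      rw [mem_filter, mem_Icc] at hn
      have h2 : vm n ≤ Real.log P := by
        refine (ArithmeticFunction.vonMangoldt_le_log (n := n)).trans ?_
        apply Real.log_le_log
        · exact_mod_cast hn.1.1
        · exact_mod_cast hn.1.2
      rw [sq]
      exact mul_le_mul h2 (a03_kf_le P n (by omega) hn.1.1) (a03_kf_nonneg _ _) hL
    have hc : (((Icc 1 P).filter (fun n : ℕ => n.Prime ∧ (n : ℝ) ≤ y)).card : ℝ) ≤ y := by
      have hsub : (Icc 1 P).filter (fun n : ℕ => n.Prime ∧ (n : ℝ) ≤ y) ⊆ Icc 1 ⌊y⌋₊ := by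
        intro n hn
        rw [mem_filter, mem_Icc] at hn
        rw [mem_Icc]
        exact ⟨hn.1.1, Nat.le_floor hn.2.2⟩
      have h3 := card_le_card hsub
      rw [Nat.card_Icc, Nat.add_sub_cancel] at h3
      have h4 : ((⌊y⌋₊ : ℕ) : ℝ) ≤ y := Nat.floor_le (by linarith)
      have h5 : (((Icc 1 P).filter (fun n : ℕ => n.Prime ∧ (n : ℝ) ≤ y)).card : ℝ) ≤ (⌊y⌋₊ : ℕ) := by
        exact_mod_cast h3
      linarith
    calc _ ≤ ∑ _n ∈ (Icc 1 P).filter (fun n : ℕ => n.Prime ∧ (n : ℝ) ≤ y), Real.log P ^ 2 :=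
          sum_le_sum hb
      _ = (((Icc 1 P).filter (fun n : ℕ => n.Prime ∧ (n : ℝ) ≤ y)).card : ℝ) * Real.log P ^ 2 := by
          rw [sum_const, nsmul_eq_mul]
      _ ≤ y * Real.log P ^ 2 := mul_le_mul_of_nonneg_right hc (sq_nonneg _)
  -- the non-primes
  have h2 : ∑ n ∈ (Icc 1 P).filter (fun n : ℕ => ¬ n.Prime), vm n * kf P n ≤
      2 * Real.sqrt P * Real.log P ^ 2 := by
    have h3 := Chebyshev.psi_sub_theta_le hPR
    rw [Chebyshev.psi_sub_theta_eq_sum_not_prime, Nat.floor_natCast] at h3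
    have h4 : ∑ n ∈ (Icc 1 P).filter (fun n : ℕ => ¬ n.Prime), vm n ≤
        2 * Real.sqrt P * Real.log P := by
      refine le_trans (le_of_eq ?_) h3
      rfl
    calc _ ≤ ∑ n ∈ (Icc 1 P).filter (fun n : ℕ => ¬ n.Prime), vm n * Real.log P := by
          apply sum_le_sum
          intro n hn
          rw [mem_filter, mem_Icc] at hn
          exact mul_le_mul_of_nonneg_left (a03_kf_le P n (by omega) hn.1.1) (a03_vm_nonneg n)
      _ = (∑ n ∈ (Icc 1 P).filter (fun n : ℕ => ¬ n.Prime), vm n) * Real.log P := by rw [sum_mul]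
      _ ≤ 2 * Real.sqrt P * Real.log P * Real.log P := mul_le_mul_of_nonneg_right h4 hL
      _ = _ := by ring
  have hsplit : (Icc 1 P).filter (fun n : ℕ => ¬ (n.Prime ∧ y < (n : ℝ))) ⊆
      (Icc 1 P).filter (fun n : ℕ => n.Prime ∧ (n : ℝ) ≤ y) ∪ (Icc 1 P).filter (fun n : ℕ => ¬ n.Prime) := by
    intro n hn
    rw [mem_filter] at hn
    rw [mem_union, mem_filter, mem_filter]
    by_cases hp : n.Prime
    · left
      refine ⟨hn.1, hp, ?_⟩
      by_contra hc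
      exact hn.2 ⟨hp, not_le.1 hc⟩
    · right
      exact ⟨hn.1, hp⟩
  have hnn : ∀ n, 0 ≤ vm n * kf P n := fun n => mul_nonneg (a03_vm_nonneg n) (a03_kf_nonneg P n)
  calc _ ≤ ∑ n ∈ (Icc 1 P).filter (fun n : ℕ => n.Prime ∧ (n : ℝ) ≤ y) ∪
        (Icc 1 P).filter (fun n : ℕ => ¬ n.Prime), vm n * kf P n :=
        sum_le_sum_of_subset_of_nonneg hsplit fun n _ _ => hnn n
    _ ≤ ∑ n ∈ (Icc 1 P).filter (fun n : ℕ => n.Prime ∧ (n : ℝ) ≤ y), vm n * kf P n +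
        ∑ n ∈ (Icc 1 P).filter (fun n : ℕ => ¬ n.Prime), vm n * kf P n := by
        rw [← sum_union_inter]
        exact le_add_of_nonneg_right (sum_nonneg fun n _ => hnn n)
    _ ≤ _ := by linarith

open Classical in
/-- the sum over the residue classes -/
theorem a03_classes (P N : ℕ) (b : ℤ) (d : ℕ) (hd : 0 < d) :
    ∑ x ∈ (range d).filter (fun x => x.Coprime d ∧ (d : ℤ) ∣ (N : ℤ) - gg b x),
      ∑ n ∈ (Icc 1 P).filter (fun n => n % d = x % d), vm n * kf P n =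
    ∑ n ∈ Icc 1 P, if n.Coprime d ∧ (d : ℤ) ∣ (N : ℤ) - gg b n then vm n * kf P n else 0 := by
  have h1 : ∀ x ∈ (range d).filter (fun x => x.Coprime d ∧ (d : ℤ) ∣ (N : ℤ) - gg b x),
      ∑ n ∈ (Icc 1 P).filter (fun n => n % d = x % d), vm n * kf P n =
      ∑ n ∈ Icc 1 P, if n % d = x then vm n * kf P n else 0 := by
    intro x hx
    rw [mem_filter, mem_range] at hx
    rw [sum_filter, Nat.mod_eq_of_lt hx.1]
  rw [sum_congr rfl h1, sum_comm]
  apply sum_congr rfl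
  intro n _
  rw [sum_ite_eq]
  have e1 : (n % d ∈ (range d).filter (fun x => x.Coprime d ∧ (d : ℤ) ∣ (N : ℤ) - gg b x)) ↔
      (n.Coprime d ∧ (d : ℤ) ∣ (N : ℤ) - gg b n) := by
    rw [mem_filter, mem_range, g1_cop, ← a03_gg_mod]
    exact ⟨fun h => h.2, fun h => ⟨Nat.mod_lt _ hd, h⟩⟩
  by_cases hc : n.Coprime d ∧ (d : ℤ) ∣ (N : ℤ) - gg b n
  · rw [if_pos hc, if_pos (e1.2 hc)]
  · rw [if_neg hc, if_neg (fun h => hc (e1.1 h))]

/-- Proof. For `n ≤ P`: `aq b N n = N - g(n) > 0`, so `d ∣ aq` iff `(d : ℤ) ∣ N - g(n)`. Compare with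
`∑_{x ∈ roots mod d} ∑_{n ≤ P, n ≡ x (d)} Λ(n) kf P n = ρ(d) P/φ(d) + ∑_x EE P d x`. A prime `n > y` is
coprime to `d` (prime factors `< y`), so it is counted in exactly the same way. The remaining `n` with
`Λ(n) ≠ 0` are primes `≤ y` (at most `y + 1`) or proper prime powers (at most `√P log P/log 2 ≤ 2 √P L`),
each with `Λ(n) kf ≤ L²`. `rho_le_tau`. -/
theorem level (P N : ℕ) (b : ℤ) (y D : ℝ) (hP : 3 ≤ P) (hy : 1 ≤ y)
    (hpos : ∀ n ∈ Icc 1 P, 0 < (N : ℤ) - gg b n) (Est : ℕ → ℝ)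
    (hEst : ∀ d ∈ Icc 1 ⌊D⌋₊, ∀ a : ℕ, a.Coprime d → |EE P d a| ≤ Est d) :
    ∀ d ∈ Dset y D, Rem (Icc 1 P) (wq P y) (aq b N) P (nuq b N) d ≤
      (d.divisors.card : ℝ) * Est d + 8 * (Real.sqrt P + y + 1) * Real.log P ^ 3 := by
  intro d hd
  classical
  rw [Dset, mem_filter] at hd
  obtain ⟨hdI, hsq, hpr⟩ := hd
  have hd1 : 1 ≤ d := (mem_Icc.1 hdI).1
  have hE0 : 0 ≤ Est d := (abs_nonneg _).trans (hEst d hdI 1 (Nat.coprime_one_left d))
  set R := (range d).filter (fun x => x.Coprime d ∧ (d : ℤ) ∣ (N : ℤ) - gg b x) with hR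
  have hRc : R.card = rho b d (N : ℤ) := rfl
  set A : ℝ := ∑ x ∈ R, ∑ n ∈ (Icc 1 P).filter (fun n => n % d = x % d), vm n * kf P n with hA
  have hA1 : A - nuq b N d * P = ∑ x ∈ R, EE P d x := by
    unfold EE
    rw [sum_sub_distrib, sum_const, hRc, nsmul_eq_mul, nuq]
    ring
  have hA2 : |A - nuq b N d * P| ≤ (d.divisors.card : ℝ) * Est d := by
    rw [hA1]
    calc |∑ x ∈ R, EE P d x| ≤ ∑ x ∈ R, |EE P d x| := abs_sum_le_sum_abs _ _
      _ ≤ ∑ _x ∈ R, Est d := by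
          apply sum_le_sum
          intro x hx
          exact hEst d hdI x (mem_filter.1 hx).2.1
      _ = (R.card : ℝ) * Est d := by rw [sum_const, nsmul_eq_mul]
      _ ≤ (d.divisors.card : ℝ) * Est d := by
          apply mul_le_mul_of_nonneg_right _ hE0
          rw [hRc]
          exact_mod_cast rho_le_tau b N d hsq
  set F : ℕ → ℝ := fun n => if n.Coprime d ∧ (d : ℤ) ∣ (N : ℤ) - gg b n then vm n * kf P n else 0
    with hF
  have hA3 : A = ∑ n ∈ Icc 1 P, F n := a03_classes P N b d hd1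
  set S : ℝ := ∑ n ∈ (Icc 1 P).filter (fun n => d ∣ aq b N n), wq P y n with hS
  have hS1 : S = ∑ n ∈ Icc 1 P, if d ∣ aq b N n then wq P y n else 0 := sum_filter _ _
  have hnn : ∀ n, 0 ≤ vm n * kf P n := fun n => mul_nonneg (a03_vm_nonneg n) (a03_kf_nonneg P n)
  -- termwise
  have hterm : ∀ n ∈ Icc 1 P, |(if d ∣ aq b N n then wq P y n else 0) - F n| ≤
      if ¬ (n.Prime ∧ y < (n : ℝ)) then vm n * kf P n else 0 := by
    intro n hn
    have hpn := hpos n hn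
    have hdv : d ∣ aq b N n ↔ (d : ℤ) ∣ (N : ℤ) - gg b n := by
      rw [aq, ← Int.natCast_dvd_natCast, Int.toNat_of_nonneg hpn.le]
    by_cases hc : n.Prime ∧ y < (n : ℝ)
    · rw [if_neg (not_not.2 hc)]
      have hcop : n.Coprime d := by
        rw [hc.1.coprime_iff_not_dvd]
        intro h
        have := (hpr n hc.1 h).2
        linarith [hc.2]
      have hw : wq P y n = vm n * kf P n := by
        rw [wq, if_pos hc, vm, ArithmeticFunction.vonMangoldt_apply_prime hc.1]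
      have hFn : F n = if d ∣ aq b N n then vm n * kf P n else 0 := by
        simp only [hF]
        by_cases h : (d : ℤ) ∣ (N : ℤ) - gg b n
        · rw [if_pos ⟨hcop, h⟩, if_pos (hdv.2 h)]
        · rw [if_neg (fun h' => h h'.2), if_neg (fun h' => h (hdv.1 h'))]
      rw [hFn, hw, sub_self, abs_zero]
    · rw [if_pos hc]
      have hw : wq P y n = 0 := by rw [wq, if_neg hc]
      rw [hw, ite_self, zero_sub, abs_neg]
      simp only [hF]
      split_ifs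
      · rw [abs_of_nonneg (hnn n)]
      · rw [abs_zero]
        exact hnn n
  have hSA : |S - A| ≤ (y + 2 * Real.sqrt P) * Real.log P ^ 2 := by
    rw [hS1, hA3, ← sum_sub_distrib]
    refine (abs_sum_le_sum_abs _ _).trans ((sum_le_sum hterm).trans ?_)
    rw [← sum_filter]
    exact a03_small P y hP hy
  have hL1 : 1 ≤ Real.log P := by
    rw [Real.le_log_iff_exp_le (by positivity)]
    have h3 : (3 : ℝ) ≤ P := by exact_mod_cast hP
    have := Real.exp_one_lt_d9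
    linarith
  have hfin : (y + 2 * Real.sqrt P) * Real.log P ^ 2 ≤
      8 * (Real.sqrt P + y + 1) * Real.log P ^ 3 := by
    have hs := Real.sqrt_nonneg (P : ℝ)
    have h2 : 0 ≤ Real.log P ^ 2 := sq_nonneg _
    have h3 : Real.log P ^ 2 ≤ Real.log P ^ 3 := by
      rw [pow_succ (Real.log P) 2]
      exact le_mul_of_one_le_right h2 hL1
    calc (y + 2 * Real.sqrt P) * Real.log P ^ 2 ≤ (y + 2 * Real.sqrt P) * Real.log P ^ 3 :=
          mul_le_mul_of_nonneg_left h3 (by linarith)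
      _ ≤ 8 * (Real.sqrt P + y + 1) * Real.log P ^ 3 :=
          mul_le_mul_of_nonneg_right (by linarith) (by linarith)
  have hRem : Rem (Icc 1 P) (wq P y) (aq b N) P (nuq b N) d = |S - nuq b N d * P| := by
    rw [Rem]
  rw [hRem]
  have h9 : |S - nuq b N d * P| ≤ |S - A| + |A - nuq b N d * P| := by
    have : S - nuq b N d * P = (S - A) + (A - nuq b N d * P) := by ring
    rw [this]
    exact abs_add_le _ _
  linarith

end Pool.Agent.Lib.MP_d9bc60_nt.AP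
end

section
/-! Row A04 (about 130 lines): values divisible by the square of one prime. -/

set_option autoImplicit false

namespace Pool.Agent.Lib.MP_d9bc60_nt.AP

open Finset Pool.Agent.Lib.MP_d9bc60_nt.UV

/-- Number of `n ≤ P` in a residue class (given by an integer representative) modulo `q`. -/
theorem a04_class (P q : ℕ) (hq : 0 < q) (v : ℤ) :
    (((Icc 1 P).filter (fun n : ℕ => (q : ℤ) ∣ (n : ℤ) - v)).card : ℝ) ≤ (P : ℝ) / q + 1 := by
  have hqz : (0 : ℤ) < (q : ℤ) := by exact_mod_cast hq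
  have h0 : 0 ≤ v % (q : ℤ) := Int.emod_nonneg _ hqz.ne'
  obtain ⟨w, hw⟩ := Int.eq_ofNat_of_zero_le h0
  have hIcc : Icc 1 P = Ioc 0 P := by
    ext n; simp only [mem_Icc, mem_Ioc]; omega
  have hset : (Icc 1 P).filter (fun n : ℕ => (q : ℤ) ∣ (n : ℤ) - v) =
      (Ioc 0 P).filter (fun n : ℕ => n ≡ w [MOD q]) := by
    rw [hIcc]
    apply filter_congr
    intro n _
    have h1 : ((q : ℤ) ∣ (n : ℤ) - v) ↔ (v ≡ (n : ℤ) [ZMOD (q : ℤ)]) := Int.modEq_iff_dvd.symm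
    have h2 : (v ≡ (w : ℤ) [ZMOD (q : ℤ)]) := by
      have : (w : ℤ) = v % (q : ℤ) := hw.symm
      rw [this]
      exact (Int.mod_modEq v q).symm
    rw [h1]
    constructor
    · intro h
      exact (Int.natCast_modEq_iff).1 (h.symm.trans h2)
    · intro h
      exact h2.trans ((Int.natCast_modEq_iff).2 h.symm)
  rw [hset]
  have hc := Nat.Ioc_filter_modEq_card 0 P hq w
  have hqQ : (0 : ℚ) < (q : ℚ) := by exact_mod_cast hq
  have hle : ((((Ioc 0 P).filter (fun n : ℕ => n ≡ w [MOD q])).card : ℤ) : ℚ) ≤ (P : ℚ) / q + 1 := by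
    rw [hc]
    push_cast
    apply max_le
    · have a1 : ((⌊((P : ℚ) - (w : ℚ)) / (q : ℚ)⌋ : ℤ) : ℚ) ≤ ((P : ℚ) - (w : ℚ)) / (q : ℚ) := Int.floor_le _
      have a2 : (((0 : ℚ) - (w : ℚ)) / (q : ℚ)) - 1 < ((⌊((0 : ℚ) - (w : ℚ)) / (q : ℚ)⌋ : ℤ) : ℚ) :=
        Int.sub_one_lt_floor _
      have a3 : ((P : ℚ) - (w : ℚ)) / (q : ℚ) - ((0 : ℚ) - (w : ℚ)) / (q : ℚ) = (P : ℚ) / q := by ring
      linarith
    · positivity
  have hfin : ((((Ioc 0 P).filter (fun n : ℕ => n ≡ w [MOD q])).card : ℚ) : ℝ) ≤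
      (((P : ℚ) / q + 1 : ℚ) : ℝ) := by
    have hle' : ((((Ioc 0 P).filter (fun n : ℕ => n ≡ w [MOD q])).card : ℚ)) ≤ (P : ℚ) / q + 1 := by
      exact_mod_cast hle
    exact_mod_cast hle'
  push_cast at hfin
  simpa using hfin

/-- The identity `4 (N - g(n)) = Δ - (2n+b)²`. -/
theorem a04_id (N : ℕ) (b : ℤ) (n : ℕ) :
    4 * ((N : ℤ) - gg b n) = (b ^ 2 + 4 * N) - (2 * (n : ℤ) + b) ^ 2 := by
  unfold gg
  ring

theorem a04_dvd (P N : ℕ) (b : ℤ) (l n : ℕ) (hn : n ∈ Icc 1 P)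
    (hpos : ∀ n ∈ Icc 1 P, 0 < (N : ℤ) - gg b n) (h : l ^ 2 ∣ aq b N n) :
    ((l ^ 2 : ℕ) : ℤ) ∣ (b ^ 2 + 4 * N) - (2 * (n : ℤ) + b) ^ 2 := by
  have h1 : ((l ^ 2 : ℕ) : ℤ) ∣ ((aq b N n : ℕ) : ℤ) := Int.natCast_dvd_natCast.2 h
  have h2 : ((aq b N n : ℕ) : ℤ) = (N : ℤ) - gg b n := by
    unfold aq
    exact Int.toNat_of_nonneg (hpos n hn).le
  rw [h2] at h1
  rw [← a04_id]
  exact Dvd.dvd.mul_left h1 4

theorem a04_cop (l : ℕ) (hl : l.Prime) (h3 : 3 ≤ l) : IsCoprime (l : ℤ) 2 := by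
  have h : Nat.Coprime l 2 := by
    rw [Nat.coprime_primes hl Nat.prime_two]
    omega
  exact_mod_cast (Nat.isCoprime_iff_coprime.2 h)

/-- Proof. `4(N - g(n)) = Δ - (2n+b)²`, `Δ = b² + 4N`. If `l ∤ Δ` the congruence
`(2n+b)² ≡ Δ (l²)` has at most 2 solutions mod `l²` (difference of squares: `l²` divides a product of two
factors, `l` cannot divide both), so at most `2(P/l² + 1)` of the `n ≤ P`. -/
theorem sq_gen (P N : ℕ) (b : ℤ) (l : ℕ) (hl : l.Prime) (h3 : 3 ≤ l)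
    (hpos : ∀ n ∈ Icc 1 P, 0 < (N : ℤ) - gg b n) (hΔ : ¬ (l : ℤ) ∣ b ^ 2 + 4 * N) :
    (((Icc 1 P).filter (fun n => l ^ 2 ∣ aq b N n)).card : ℝ) ≤ 2 * ((P : ℝ) / (l : ℝ) ^ 2 + 1) := by
  classical
  have hlp : Prime (l : ℤ) := Nat.prime_iff_prime_int.1 hl
  have hl2 : 0 < l ^ 2 := pow_pos hl.pos 2
  rcases ((Icc 1 P).filter (fun n => l ^ 2 ∣ aq b N n)).eq_empty_or_nonempty with he | ⟨n1, hn1⟩
  · rw [he]
    simp only [card_empty, Nat.cast_zero]
    positivity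
  · rw [mem_filter] at hn1
    have hd1 := a04_dvd P N b l n1 hn1.1 hpos hn1.2
    have hsub : (Icc 1 P).filter (fun n => l ^ 2 ∣ aq b N n) ⊆
        (Icc 1 P).filter (fun n : ℕ => ((l ^ 2 : ℕ) : ℤ) ∣ (n : ℤ) - (n1 : ℤ)) ∪
        (Icc 1 P).filter (fun n : ℕ => ((l ^ 2 : ℕ) : ℤ) ∣ (n : ℤ) - (-(n1 : ℤ) - b)) := by
      intro n hn
      rw [mem_filter] at hn
      have hd := a04_dvd P N b l n hn.1 hpos hn.2
      have hprod : ((l ^ 2 : ℕ) : ℤ) ∣ 2 * (2 * (((n : ℤ) - n1) * ((n : ℤ) - (-(n1 : ℤ) - b)))) := by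
        have := dvd_sub hd1 hd
        have e : (b ^ 2 + 4 * (N : ℤ)) - (2 * (n1 : ℤ) + b) ^ 2 - ((b ^ 2 + 4 * (N : ℤ)) - (2 * (n : ℤ) + b) ^ 2) =
          2 * (2 * (((n : ℤ) - n1) * ((n : ℤ) - (-(n1 : ℤ) - b)))) := by ring
        rwa [e] at this
      have hc2 : IsCoprime ((l ^ 2 : ℕ) : ℤ) 2 := by
        push_cast
        exact (a04_cop l hl h3).pow_left
      have hprod2 : ((l ^ 2 : ℕ) : ℤ) ∣ ((n : ℤ) - n1) * ((n : ℤ) - (-(n1 : ℤ) - b)) :=
        hc2.dvd_of_dvd_mul_left (hc2.dvd_of_dvd_mul_left hprod)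
      have hnb : ¬ ((l : ℤ) ∣ ((n : ℤ) - n1) ∧ (l : ℤ) ∣ ((n : ℤ) - (-(n1 : ℤ) - b))) := by
        rintro ⟨ha, hb⟩
        apply hΔ
        have hc : (l : ℤ) ∣ (2 * (n1 : ℤ) + b) := by
          have := dvd_sub hb ha
          have e : ((n : ℤ) - (-(n1 : ℤ) - b)) - ((n : ℤ) - n1) = 2 * (n1 : ℤ) + b := by ring
          rwa [e] at this
        have hc' : (l : ℤ) ∣ (2 * (n1 : ℤ) + b) ^ 2 := dvd_pow hc two_ne_zero
        have hl1 : (l : ℤ) ∣ ((l ^ 2 : ℕ) : ℤ) := by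
          push_cast
          exact dvd_pow_self _ two_ne_zero
        have := dvd_add (hl1.trans hd1) hc'
        have e : (b ^ 2 + 4 * (N : ℤ)) - (2 * (n1 : ℤ) + b) ^ 2 + (2 * (n1 : ℤ) + b) ^ 2 =
          b ^ 2 + 4 * (N : ℤ) := by ring
        rwa [e] at this
      rw [mem_union, mem_filter, mem_filter]
      by_cases ha : (l : ℤ) ∣ ((n : ℤ) - n1)
      · have hb : ¬ (l : ℤ) ∣ ((n : ℤ) - (-(n1 : ℤ) - b)) := fun h => hnb ⟨ha, h⟩
        left
        refine ⟨hn.1, ?_⟩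
        have hcop : IsCoprime ((l ^ 2 : ℕ) : ℤ) ((n : ℤ) - (-(n1 : ℤ) - b)) := by
          push_cast
          exact IsCoprime.pow_left ((Prime.coprime_iff_not_dvd hlp).2 hb)
        exact hcop.dvd_of_dvd_mul_right hprod2
      · right
        refine ⟨hn.1, ?_⟩
        have hcop : IsCoprime ((l ^ 2 : ℕ) : ℤ) ((n : ℤ) - n1) := by
          push_cast
          exact IsCoprime.pow_left ((Prime.coprime_iff_not_dvd hlp).2 ha)
        exact hcop.dvd_of_dvd_mul_left hprod2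
    have hcard := (card_le_card hsub).trans (card_union_le _ _)
    have hA := a04_class P (l ^ 2) hl2 (n1 : ℤ)
    have hB := a04_class P (l ^ 2) hl2 (-(n1 : ℤ) - b)
    have hcardR : (((Icc 1 P).filter (fun n => l ^ 2 ∣ aq b N n)).card : ℝ) ≤
        (((Icc 1 P).filter (fun n : ℕ => ((l ^ 2 : ℕ) : ℤ) ∣ (n : ℤ) - (n1 : ℤ))).card : ℝ) +
        (((Icc 1 P).filter (fun n : ℕ => ((l ^ 2 : ℕ) : ℤ) ∣ (n : ℤ) - (-(n1 : ℤ) - b))).card : ℝ) := by
      exact_mod_cast hcard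
    have e : (((l ^ 2 : ℕ)) : ℝ) = (l : ℝ) ^ 2 := by push_cast; ring
    rw [e] at hA hB
    linarith

/-- Proof. If `l ∣ Δ` then `l ∣ 2n + b`, `n` lies in one class mod `l`. -/
theorem sq_special (P N : ℕ) (b : ℤ) (l : ℕ) (hl : l.Prime) (h3 : 3 ≤ l)
    (hpos : ∀ n ∈ Icc 1 P, 0 < (N : ℤ) - gg b n) (hΔ : (l : ℤ) ∣ b ^ 2 + 4 * N) :
    (((Icc 1 P).filter (fun n => l ^ 2 ∣ aq b N n)).card : ℝ) ≤ (P : ℝ) / l + 1 := by
  classical
  have hlp : Prime (l : ℤ) := Nat.prime_iff_prime_int.1 hl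
  have hl1 : (l : ℤ) ∣ ((l ^ 2 : ℕ) : ℤ) := by
    push_cast
    exact dvd_pow_self _ two_ne_zero
  have hkey : ∀ n ∈ (Icc 1 P).filter (fun n => l ^ 2 ∣ aq b N n), (l : ℤ) ∣ (2 * (n : ℤ) + b) := by
    intro n hn
    rw [mem_filter] at hn
    have hd := a04_dvd P N b l n hn.1 hpos hn.2
    have := dvd_sub hΔ (hl1.trans hd)
    have e : b ^ 2 + 4 * (N : ℤ) - ((b ^ 2 + 4 * (N : ℤ)) - (2 * (n : ℤ) + b) ^ 2) =
      (2 * (n : ℤ) + b) ^ 2 := by ring
    rw [e] at this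
    exact hlp.dvd_of_dvd_pow this
  rcases ((Icc 1 P).filter (fun n => l ^ 2 ∣ aq b N n)).eq_empty_or_nonempty with he | ⟨n1, hn1⟩
  · rw [he]
    simp only [card_empty, Nat.cast_zero]
    positivity
  · have hd1 := hkey n1 hn1
    have hsub : (Icc 1 P).filter (fun n => l ^ 2 ∣ aq b N n) ⊆
        (Icc 1 P).filter (fun n : ℕ => (l : ℤ) ∣ (n : ℤ) - (n1 : ℤ)) := by
      intro n hn
      have hd := hkey n hn
      rw [mem_filter] at hn ⊢
      refine ⟨hn.1, ?_⟩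
      have := dvd_sub hd hd1
      have e : (2 * (n : ℤ) + b) - (2 * (n1 : ℤ) + b) = 2 * ((n : ℤ) - n1) := by ring
      rw [e] at this
      exact (a04_cop l hl h3).dvd_of_dvd_mul_left this
    have hcard := card_le_card hsub
    have hA := a04_class P l hl.pos (n1 : ℤ)
    have hcardR : (((Icc 1 P).filter (fun n => l ^ 2 ∣ aq b N n)).card : ℝ) ≤
        (((Icc 1 P).filter (fun n : ℕ => (l : ℤ) ∣ (n : ℤ) - (n1 : ℤ))).card : ℝ) := by
      exact_mod_cast hcard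
    linarith

end Pool.Agent.Lib.MP_d9bc60_nt.AP
end

section
/-! Row A05 (about 100 lines): values divisible by the square of a medium prime. -/

set_option autoImplicit false

namespace Pool.Agent.Lib.MP_d9bc60_nt.AP

open Finset Pool.Agent.Lib.MP_d9bc60_nt.UV

theorem a05_mem {z y : ℝ} {l : ℕ} (h : l ∈ prs z y) : l < ⌈y⌉₊ ∧ l.Prime ∧ z ≤ (l : ℝ) := by
  classical
  rw [prs, mem_filter, mem_range] at h
  exact h

theorem a05_inv (z y : ℝ) (hz : 3 ≤ z) : ∑ l ∈ prs z y, ((l : ℝ) ^ 2)⁻¹ ≤ 2 / z := by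
  have hL : 3 ≤ ⌈z⌉₊ := by
    have : ((3 : ℕ) : ℝ) ≤ z := by exact_mod_cast hz
    exact_mod_cast this.trans (Nat.le_ceil z)
  have hsub : prs z y ⊆ Ioo (⌈z⌉₊ - 1) ⌈y⌉₊ := by
    intro l hl
    obtain ⟨h1, h2, h3⟩ := a05_mem hl
    rw [mem_Ioo]
    have := Nat.ceil_le.mpr h3
    omega
  refine (sum_le_sum_of_subset_of_nonneg hsub fun i _ _ => by positivity).trans
    ((sum_Ioo_inv_sq_le (⌈z⌉₊ - 1) ⌈y⌉₊).trans ?_)
  have e1 : ((⌈z⌉₊ - 1 : ℕ) : ℝ) + 1 = (⌈z⌉₊ : ℝ) := by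
    rw [Nat.cast_sub (by omega), Nat.cast_one, sub_add_cancel]
  rw [e1]
  exact div_le_div_of_nonneg_left zero_le_two (by linarith) (Nat.le_ceil z)

theorem a05_card (z y : ℝ) (hz : 3 ≤ z) (hy : 3 ≤ y) : ((prs z y).card : ℝ) ≤ y := by
  have hsub : prs z y ⊆ Ioo 0 ⌈y⌉₊ := by
    intro l hl
    obtain ⟨h1, h2, h3⟩ := a05_mem hl
    rw [mem_Ioo]
    exact ⟨h2.pos, h1⟩
  have h1 := card_le_card hsub
  rw [Nat.card_Ioo] at h1
  have hL : 3 ≤ ⌈y⌉₊ := by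
    have : ((3 : ℕ) : ℝ) ≤ y := by exact_mod_cast hy
    exact_mod_cast this.trans (Nat.le_ceil y)
  have h2 : (prs z y).card + 1 ≤ ⌈y⌉₊ := by omega
  have h3 : ((prs z y).card : ℝ) + 1 ≤ (⌈y⌉₊ : ℝ) := by exact_mod_cast h2
  have h4 := Nat.ceil_lt_add_one (show 0 ≤ y by linarith)
  linarith

theorem a05_spec (z y : ℝ) (hz : 3 ≤ z) (N : ℕ) (b : ℤ) (hN : 1 ≤ N) (hb : |(b : ℝ)| ≤ N) :
    (((prs z y).filter (fun l : ℕ => (l : ℤ) ∣ b ^ 2 + 4 * N)).card : ℝ) ≤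
      Real.log (5 * (N : ℝ) ^ 2) / Real.log z := by
  classical
  have hNR : (1 : ℝ) ≤ N := by exact_mod_cast hN
  have hz1 : 1 < z := by linarith
  have hlog : 0 < Real.log z := Real.log_pos hz1
  set T := (prs z y).filter (fun l : ℕ => (l : ℤ) ∣ b ^ 2 + 4 * N) with hT
  have hpos : 0 < b ^ 2 + 4 * (N : ℤ) := by
    have : 0 ≤ b ^ 2 := sq_nonneg b
    have : (1 : ℤ) ≤ N := by exact_mod_cast hN
    omega
  have hdvd : ∏ l ∈ T, l ∣ (b ^ 2 + 4 * (N : ℤ)).natAbs := by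
    refine Finset.prod_primes_dvd _ ?_ ?_
    · intro l hl
      rw [hT, mem_filter] at hl
      exact (a05_mem hl.1).2.1.prime
    · intro l hl
      rw [hT, mem_filter] at hl
      exact Int.natCast_dvd.mp hl.2
  have hle : ∏ l ∈ T, l ≤ (b ^ 2 + 4 * (N : ℤ)).natAbs :=
    Nat.le_of_dvd (Int.natAbs_pos.mpr hpos.ne') hdvd
  have hcast : (((b ^ 2 + 4 * (N : ℤ)).natAbs : ℕ) : ℝ) ≤ 5 * (N : ℝ) ^ 2 := by
    have e1 : (((b ^ 2 + 4 * (N : ℤ)).natAbs : ℕ) : ℝ) = (b : ℝ) ^ 2 + 4 * N := by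
      rw [← Int.cast_natCast, Int.natAbs_of_nonneg hpos.le]
      push_cast
      ring
    rw [e1]
    have h2 : (b : ℝ) ^ 2 ≤ (N : ℝ) ^ 2 := by
      rw [← sq_abs (b : ℝ)]
      exact pow_le_pow_left₀ (abs_nonneg _) hb 2
    nlinarith
  have hprod : z ^ T.card ≤ ((∏ l ∈ T, l : ℕ) : ℝ) := by
    rw [← prod_const, Nat.cast_prod]
    refine prod_le_prod (fun _ _ => by linarith) ?_
    intro l hl
    rw [hT, mem_filter] at hl
    exact (a05_mem hl.1).2.2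
  have hfin : z ^ T.card ≤ 5 * (N : ℝ) ^ 2 :=
    hprod.trans ((by exact_mod_cast hle : ((∏ l ∈ T, l : ℕ) : ℝ) ≤
      (((b ^ 2 + 4 * (N : ℤ)).natAbs : ℕ) : ℝ)).trans hcast)
  rw [le_div_iff₀ hlog, ← Real.log_pow]
  exact Real.log_le_log (pow_pos (by linarith) _) hfin

/-- Proof. `sq_gen`, `sq_special`, union bound: `∑_{z ≤ l < y} 2(P/l² + 1) ≤ 4P/z + 2y`. The primes
`l ≥ z` dividing `Δ ≤ 5N²` are at most `log(5N²)/log z`, they give `(P/z + 1) log(5N²)/log z`. -/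
theorem nonsq (P N : ℕ) (b : ℤ) (z y : ℝ) (hz : 3 ≤ z) (hzy : z ≤ y) (hN : 1 ≤ N) (hb : |(b : ℝ)| ≤ N)
    (hpos : ∀ n ∈ Icc 1 P, 0 < (N : ℤ) - gg b n) :
    (((Icc 1 P).filter (fun n => ∃ l ∈ prs z y, l ^ 2 ∣ aq b N n)).card : ℝ) ≤
      (4 * P / z + 2 * y) * (1 + Real.log (5 * (N : ℝ) ^ 2) / Real.log z) := by
  classical
  have hz0 : 0 < z := by linarith
  have hP : (0 : ℝ) ≤ P := Nat.cast_nonneg P
  have hsub : (Icc 1 P).filter (fun n => ∃ l ∈ prs z y, l ^ 2 ∣ aq b N n) ⊆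
      (prs z y).biUnion (fun l => (Icc 1 P).filter (fun n => l ^ 2 ∣ aq b N n)) := by
    intro n hn
    rw [mem_filter] at hn
    obtain ⟨h1, l, hl, h2⟩ := hn
    rw [mem_biUnion]
    exact ⟨l, hl, mem_filter.mpr ⟨h1, h2⟩⟩
  have hcard := (card_le_card hsub).trans card_biUnion_le
  have hcard' : (((Icc 1 P).filter (fun n => ∃ l ∈ prs z y, l ^ 2 ∣ aq b N n)).card : ℝ) ≤
      ∑ l ∈ prs z y, (((Icc 1 P).filter (fun n => l ^ 2 ∣ aq b N n)).card : ℝ) := by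
    exact_mod_cast hcard
  have hterm : ∀ l ∈ prs z y, (((Icc 1 P).filter (fun n => l ^ 2 ∣ aq b N n)).card : ℝ) ≤
      (2 * P * ((l : ℝ) ^ 2)⁻¹ + 2) +
        (if (l : ℤ) ∣ b ^ 2 + 4 * N then ((P : ℝ) / z + 1) else 0) := by
    intro l hl
    obtain ⟨h1, h2, h3⟩ := a05_mem hl
    have h3' : 3 ≤ l := by
      have : ((3 : ℕ) : ℝ) ≤ l := by push_cast; linarith
      exact_mod_cast this
    have hl0 : 0 < (l : ℝ) := by linarith
    split_ifs with hd
    · have h4 := sq_special P N b l h2 h3' hpos hd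
      have h5 : (P : ℝ) / l ≤ P / z := div_le_div_of_nonneg_left hP hz0 h3
      have h6 : 0 ≤ 2 * (P : ℝ) * ((l : ℝ) ^ 2)⁻¹ := by positivity
      linarith
    · have h4 := sq_gen P N b l h2 h3' hpos hd
      have e1 : 2 * ((P : ℝ) / (l : ℝ) ^ 2 + 1) = 2 * P * ((l : ℝ) ^ 2)⁻¹ + 2 := by
        rw [div_eq_mul_inv]; ring
      linarith
  refine hcard'.trans ((sum_le_sum hterm).trans ?_)
  rw [sum_add_distrib, sum_add_distrib, ← mul_sum, sum_const, ← sum_filter, sum_const,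
    nsmul_eq_mul, nsmul_eq_mul]
  have h1 := a05_inv z y hz
  have h2 := a05_card z y hz (hz.trans hzy)
  have h3 := a05_spec z y hz N b hN hb
  have hR : 0 ≤ Real.log (5 * (N : ℝ) ^ 2) / Real.log z := (Nat.cast_nonneg _).trans h3
  have h4 : 2 * (P : ℝ) * ∑ l ∈ prs z y, ((l : ℝ) ^ 2)⁻¹ ≤ 2 * P * (2 / z) :=
    mul_le_mul_of_nonneg_left h1 (by linarith)
  have h5 : 2 * (P : ℝ) * (2 / z) = 4 * P / z := by ring
  have hPz : 0 ≤ (P : ℝ) / z := div_nonneg hP hz0.le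
  have h6 : (((prs z y).filter (fun l : ℕ => (l : ℤ) ∣ b ^ 2 + 4 * N)).card : ℝ) *
      ((P : ℝ) / z + 1) ≤ Real.log (5 * (N : ℝ) ^ 2) / Real.log z * ((P : ℝ) / z + 1) :=
    mul_le_mul_of_nonneg_right h3 (by linarith)
  have h7 : Real.log (5 * (N : ℝ) ^ 2) / Real.log z * ((P : ℝ) / z + 1) ≤
      Real.log (5 * (N : ℝ) ^ 2) / Real.log z * (4 * P / z + 2 * y) := by
    refine mul_le_mul_of_nonneg_left ?_ hR
    have e2 : 4 * (P : ℝ) / z = 4 * (P / z) := by ring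
    rw [e2]
    linarith
  have e3 : (4 * (P : ℝ) / z + 2 * y) * (1 + Real.log (5 * (N : ℝ) ^ 2) / Real.log z) =
      4 * P / z + 2 * y + Real.log (5 * (N : ℝ) ^ 2) / Real.log z * (4 * P / z + 2 * y) := by
    ring
  rw [e3]
  linarith

end Pool.Agent.Lib.MP_d9bc60_nt.AP
end
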