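import Pool.Agent.Lib.MP_d9bc60_nt.AQ.QDefs
import Pool.Agent.Lib.MP_d9bc60_nt.TH.L4Large

section
/-! Row B01 (about 80 lines): sums over primitive characters. -/

set_option autoImplicit false

namespace Pool.Agent.Lib.MP_d9bc60_nt.AP

open Finset Pool.Agent.Lib.MP_d9bc60_nt.UV

open Classical in
theorem prim_eq (q : ℕ) [NeZero q] (F : DirichletCharacter ℂ q → ℝ) : prim q F =
    ∑ χ ∈ (Finset.univ : Finset (DirichletCharacter ℂ q)).filter (fun χ => χ.IsPrimitive), F χ := by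
  rw [prim, dif_neg (NeZero.ne q)]

theorem b01_prim_zero (F : DirichletCharacter ℂ 0 → ℝ) : prim 0 F = 0 := by
  rw [prim, dif_pos rfl]

theorem prim_nonneg (q : ℕ) (F : DirichletCharacter ℂ q → ℝ) (h : ∀ χ, 0 ≤ F χ) : 0 ≤ prim q F := by
  classical
  by_cases hq : q = 0
  · subst hq
    rw [b01_prim_zero]
  · have : NeZero q := ⟨hq⟩
    rw [prim_eq]
    exact Finset.sum_nonneg (fun χ _ => h χ)

theorem prim_mono (q : ℕ) (F G : DirichletCharacter ℂ q → ℝ)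
    (h : ∀ χ : DirichletCharacter ℂ q, χ.IsPrimitive → F χ ≤ G χ) : prim q F ≤ prim q G := by
  classical
  by_cases hq : q = 0
  · subst hq
    rw [b01_prim_zero, b01_prim_zero]
  · have : NeZero q := ⟨hq⟩
    rw [prim_eq, prim_eq]
    exact Finset.sum_le_sum (fun χ hχ => h χ (Finset.mem_filter.1 hχ).2)

theorem prim_mul (q : ℕ) (c : ℝ) (F : DirichletCharacter ℂ q → ℝ) :
    prim q (fun χ => c * F χ) = c * prim q F := by
  classical
  by_cases hq : q = 0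
  · subst hq
    rw [b01_prim_zero, b01_prim_zero, mul_zero]
  · have : NeZero q := ⟨hq⟩
    rw [prim_eq, prim_eq, Finset.mul_sum]

theorem prim_add (q : ℕ) (F G : DirichletCharacter ℂ q → ℝ) :
    prim q (fun χ => F χ + G χ) = prim q F + prim q G := by
  classical
  by_cases hq : q = 0
  · subst hq
    rw [b01_prim_zero, b01_prim_zero, b01_prim_zero, add_zero]
  · have : NeZero q := ⟨hq⟩
    rw [prim_eq, prim_eq, prim_eq, Finset.sum_add_distrib]

theorem prim_sum {κ : Type*} (q : ℕ) (s : Finset κ) (F : κ → DirichletCharacter ℂ q → ℝ) :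
    prim q (fun χ => ∑ i ∈ s, F i χ) = ∑ i ∈ s, prim q (F i) := by
  classical
  by_cases hq : q = 0
  · subst hq
    rw [b01_prim_zero, Finset.sum_eq_zero]
    intro i _
    exact b01_prim_zero _
  · have : NeZero q := ⟨hq⟩
    rw [prim_eq, Finset.sum_comm]
    refine Finset.sum_congr rfl (fun i _ => ?_)
    rw [prim_eq]

/-- There are at most `φ(q)` characters modulo `q` (`DirichletCharacter.card_eq_totient`). -/
theorem prim_const (q : ℕ) (c : ℝ) (hc : 0 ≤ c) : prim q (fun _ => c) ≤ q.totient * c := by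
  classical
  by_cases hq : q = 0
  · subst hq
    rw [b01_prim_zero]
    simp
  · have : NeZero q := ⟨hq⟩
    rw [prim_eq, Finset.sum_const, nsmul_eq_mul]
    refine mul_le_mul_of_nonneg_right ?_ hc
    have h1 : ((Finset.univ : Finset (DirichletCharacter ℂ q)).filter
        (fun χ => χ.IsPrimitive)).card ≤ q.totient := by
      refine (Finset.card_filter_le _ _).trans ?_
      rw [Finset.card_univ, ← Nat.card_eq_fintype_card,
        DirichletCharacter.card_eq_totient_of_hasEnoughRootsOfUnity ℂ q]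
    exact_mod_cast h1

/-- All pairs (`q ≤ Q`, primitive character) as one finite family (`Sigma` type). -/
theorem prim_index (Q : ℕ) : ∃ (ι : Type) (I : Finset ι) (qq : ι → ℕ)
    (cc : (i : ι) → DirichletCharacter ℂ (qq i)), (∀ i ∈ I, 1 ≤ qq i ∧ qq i ≤ Q) ∧
    ∀ (w : ℕ → ℝ) (F : (q : ℕ) → DirichletCharacter ℂ q → ℝ),
      ∑ q ∈ Icc 1 Q, w q * prim q (F q) = ∑ i ∈ I, w (qq i) * F (qq i) (cc i) := by
  classical
  let T : (q : ℕ) → Finset (DirichletCharacter ℂ q) := fun q =>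
    if h : q = 0 then ∅ else
      haveI : NeZero q := ⟨h⟩
      (Finset.univ : Finset (DirichletCharacter ℂ q)).filter (fun χ => χ.IsPrimitive)
  refine ⟨(q : ℕ) × DirichletCharacter ℂ q, (Icc 1 Q).sigma T, fun i => i.1, fun i => i.2,
    ?_, ?_⟩
  · intro i hi
    exact Finset.mem_Icc.1 (Finset.mem_sigma.1 hi).1
  · intro w F
    rw [Finset.sum_sigma]
    refine Finset.sum_congr rfl (fun q hq => ?_)
    have hq0 : q ≠ 0 := by
      have := (Finset.mem_Icc.1 hq).1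
      omega
    have : NeZero q := ⟨hq0⟩
    have hT : T q = (Finset.univ : Finset (DirichletCharacter ℂ q)).filter
        (fun χ => χ.IsPrimitive) := by
      simp only [T]
      rw [dif_neg hq0]
    rw [prim_eq, hT, Finset.mul_sum]

end Pool.Agent.Lib.MP_d9bc60_nt.AP
end

section
/-! Row B02 (about 100 lines): Gauss sums of primitive characters. -/

set_option autoImplicit false

namespace Pool.Agent.Lib.MP_d9bc60_nt.AP

open Finset Pool.Agent.Lib.MP_d9bc60_nt.UV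

theorem b02_shift (q : ℕ) [NeZero q] (χ : DirichletCharacter ℂ q) (hχ : χ.IsPrimitive) (n : ZMod q) :
    ∑ a : ZMod q, χ a * ZMod.stdAddChar (a * n) = χ⁻¹ n * gaussSum χ ZMod.stdAddChar := by
  rw [← gaussSum_mulShift_of_isPrimitive ZMod.stdAddChar hχ n]
  unfold gaussSum
  refine Finset.sum_congr rfl fun a _ => ?_
  rw [AddChar.mulShift_apply, mul_comm n a]

/-- Proof. `τ = gaussSum χ ZMod.stdAddChar`, `gaussSum_mulShift_of_isPrimitive`. Sum of the squared norms of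
both sides over `n : ZMod q`: Parseval (orthogonality of the additive characters) gives
`q φ(q) = ‖τ‖² φ(q)`. -/
theorem gauss_facts (q : ℕ) [NeZero q] (χ : DirichletCharacter ℂ q) (hχ : χ.IsPrimitive) :
    ∃ τ : ℂ, ‖τ‖ ^ 2 = q ∧
      ∀ n : ZMod q, ∑ a : ZMod q, χ a * ZMod.stdAddChar (a * n) = χ⁻¹ n * τ := by
  classical
  refine ⟨gaussSum χ ZMod.stdAddChar, ?_, b02_shift q χ hχ⟩
  set τ := gaussSum χ ZMod.stdAddChar with hτ
  have h1 : star τ * τ = (q : ℂ) := by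
    rw [hτ, star_gaussSum_eq]
    have h2 : gaussSum χ⁻¹ (ZMod.stdAddChar (N := q))⁻¹ =
        ∑ b : ZMod q, χ⁻¹ b * ZMod.stdAddChar (-b) := by
      unfold gaussSum
      refine Finset.sum_congr rfl fun b _ => ?_
      rw [AddChar.inv_apply]
    rw [h2, Finset.sum_mul]
    have h3 : ∀ b : ZMod q, χ⁻¹ b * ZMod.stdAddChar (-b) * gaussSum χ ZMod.stdAddChar =
        ∑ a : ZMod q, χ a * ZMod.stdAddChar (b * (a - 1)) := by
      intro b
      calc χ⁻¹ b * ZMod.stdAddChar (-b) * gaussSum χ ZMod.stdAddChar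
          = (χ⁻¹ b * gaussSum χ ZMod.stdAddChar) * ZMod.stdAddChar (-b) := by ring
        _ = ∑ a : ZMod q, χ a * ZMod.stdAddChar (b * (a - 1)) := by
            rw [← b02_shift q χ hχ b, Finset.sum_mul]
            refine Finset.sum_congr rfl fun a _ => ?_
            rw [mul_assoc, ← AddChar.map_add_eq_mul]
            congr 2
            ring
    simp_rw [h3]
    rw [Finset.sum_comm]
    simp_rw [← Finset.mul_sum]
    have h4 : ∀ a : ZMod q, χ a * ∑ b : ZMod q, ZMod.stdAddChar (b * (a - 1)) =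
        if a = 1 then (q : ℂ) else 0 := by
      intro a
      rw [AddChar.sum_mulShift (a - 1) (ZMod.isPrimitive_stdAddChar q)]
      by_cases ha : a = 1
      · subst ha
        simp
      · rw [if_neg (sub_ne_zero.mpr ha), if_neg ha]
        simp
    simp_rw [h4]
    simp
  have h5 : ((‖τ‖ ^ 2 : ℝ) : ℂ) = ((q : ℝ) : ℂ) := by
    rw [← h1.trans (by simp : (q : ℂ) = ((q : ℝ) : ℂ))]
    rw [← Complex.normSq_eq_norm_sq, Complex.normSq_eq_conj_mul_self]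
    rfl
  exact_mod_cast h5

end Pool.Agent.Lib.MP_d9bc60_nt.AP
end

section
/-! Row B03 (about 140 lines): the multiplicative large sieve. -/

set_option autoImplicit false

namespace Pool.Agent.Lib.MP_d9bc60_nt.AP

open Finset Pool.Agent.Lib.MP_d9bc60_nt.UV

theorem b03_prim (q : ℕ) [NeZero q] : IsPrimitiveRoot (ZMod.stdAddChar (1 : ZMod q)) q := by
  have h : (ZMod.stdAddChar (1 : ZMod q) : ℂ) = Complex.exp (2 * Real.pi * Complex.I / q) := by
    have := ZMod.stdAddChar_coe (N := q) 1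
    rw [Int.cast_one] at this
    rw [this]
    congr 1
    push_cast
    ring
  rw [h]
  exact Complex.isPrimitiveRoot_exp q (NeZero.ne q)

theorem b03_val (q : ℕ) [NeZero q] (x : ZMod q) :
    (ZMod.stdAddChar x : ℂ) = ZMod.stdAddChar (1 : ZMod q) ^ x.val := by
  rw [← AddChar.map_nsmul_eq_pow]
  congr 1
  rw [nsmul_eq_mul, mul_one, ZMod.natCast_zmod_val]

theorem b03_pow (q : ℕ) [NeZero q] (x : ZMod q) (n : ℕ) :
    (ZMod.stdAddChar (x * (n : ZMod q)) : ℂ) = ZMod.stdAddChar x ^ n := by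
  rw [← AddChar.map_nsmul_eq_pow]
  congr 1
  rw [nsmul_eq_mul, mul_comm]

open Classical in
theorem b03_roots (q : ℕ) [NeZero q] (F : ℂ → ℝ) :
    ∑ x ∈ (univ : Finset (ZMod q)).filter (fun x => IsUnit x), F (ZMod.stdAddChar x) =
      ∑ ζ ∈ primitiveRoots q ℂ, F ζ := by
  have hz := b03_prim q
  refine Finset.sum_bij (fun x _ => (ZMod.stdAddChar x : ℂ)) ?_ ?_ ?_ ?_
  · intro x hx
    rw [mem_primitiveRoots (Nat.pos_of_ne_zero (NeZero.ne q)), b03_val]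
    apply hz.pow_of_coprime
    have h1 := (Finset.mem_filter.1 hx).2
    rw [← ZMod.natCast_zmod_val x, ZMod.isUnit_iff_coprime] at h1
    exact h1
  · intro x _ y _ hxy
    exact ZMod.injective_stdAddChar hxy
  · intro ζ hζ
    rw [mem_primitiveRoots (Nat.pos_of_ne_zero (NeZero.ne q)), hz.isPrimitiveRoot_iff] at hζ
    obtain ⟨i, hi, hc, rfl⟩ := hζ
    refine ⟨(i : ZMod q), ?_, ?_⟩
    · rw [Finset.mem_filter]
      exact ⟨Finset.mem_univ _, (ZMod.isUnit_iff_coprime i q).2 hc⟩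
    · rw [b03_val, ZMod.val_natCast_of_lt hi]
  · intro x _
    rfl

open Classical in
theorem b03_orth (q : ℕ) [NeZero q] (x y : ZMod q) :
    ∑ χ : DirichletCharacter ℂ q, χ x * (starRingEnd ℂ) (χ y) =
      if IsUnit y ∧ y = x then (q.totient : ℂ) else 0 := by
  have h1 : ∀ χ : DirichletCharacter ℂ q, (starRingEnd ℂ) (χ y) = χ⁻¹ y := fun χ =>
    MulChar.star_apply' χ y
  simp_rw [h1]
  by_cases hy : IsUnit y
  · obtain ⟨u, rfl⟩ := hy
    have h2 : ∀ χ : DirichletCharacter ℂ q, χ⁻¹ (u : ZMod q) = χ ((u : ZMod q)⁻¹) := by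
      intro χ
      rw [MulChar.inv_apply, Ring.inverse_unit, ZMod.inv_coe_unit]
    have h3 := DirichletCharacter.sum_char_inv_mul_char_eq (R := ℂ) (n := q) u.isUnit x
    have h4 : ∑ χ : DirichletCharacter ℂ q, χ x * χ⁻¹ (u : ZMod q) =
        ∑ χ : DirichletCharacter ℂ q, χ ((u : ZMod q)⁻¹) * χ x := by
      refine Finset.sum_congr rfl fun χ _ => ?_
      rw [h2, mul_comm]
    rw [h4, h3]
    simp [u.isUnit]
  · rw [if_neg (fun h => hy h.1)]
    apply Finset.sum_eq_zero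
    intro χ _
    rw [MulChar.map_nonunit χ⁻¹ hy, mul_zero]

open Classical in
theorem b03_parseval (q : ℕ) [NeZero q] (T : ZMod q → ℂ) :
    ∑ χ : DirichletCharacter ℂ q, ‖∑ x, χ x * T x‖ ^ 2 =
      q.totient * ∑ x ∈ (univ : Finset (ZMod q)).filter (fun x => IsUnit x), ‖T x‖ ^ 2 := by
  have h1 : ∀ z : ℂ, ((‖z‖ ^ 2 : ℝ) : ℂ) = z * (starRingEnd ℂ) z := by
    intro z
    rw [Complex.mul_conj, Complex.normSq_eq_norm_sq]
  have h2 : ((∑ χ : DirichletCharacter ℂ q, ‖∑ x, χ x * T x‖ ^ 2 : ℝ) : ℂ) =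
      ((q.totient * ∑ x ∈ (univ : Finset (ZMod q)).filter (fun x => IsUnit x), ‖T x‖ ^ 2 : ℝ) : ℂ) := by
    rw [Complex.ofReal_sum, Complex.ofReal_mul, Complex.ofReal_sum]
    simp_rw [h1]
    simp_rw [map_sum, map_mul, Finset.sum_mul_sum]
    have h3 : ∀ χ : DirichletCharacter ℂ q, ∀ x y : ZMod q,
        χ x * T x * ((starRingEnd ℂ) (χ y) * (starRingEnd ℂ) (T y)) =
        (T x * (starRingEnd ℂ) (T y)) * (χ x * (starRingEnd ℂ) (χ y)) := by
      intro χ x y; ring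
    simp_rw [h3]
    rw [Finset.sum_comm]
    rw [Finset.sum_congr rfl fun x _ => Finset.sum_comm]
    simp_rw [← Finset.mul_sum, b03_orth]
    rw [Finset.sum_comm]
    rw [Finset.mul_sum, Finset.sum_filter]
    refine Finset.sum_congr rfl fun y _ => ?_
    by_cases hy : IsUnit y
    · simp only [hy, true_and, if_true, mul_ite, mul_zero]
      rw [Finset.sum_ite_eq]
      simp only [Finset.mem_univ, if_true]
      push_cast
      ring
    · simp [hy]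
  exact_mod_cast h2

/-- Proof. Let `T(x) = ∑_n a_n e(xn/q)`, `x : ZMod q`. `gauss_facts`: `τ ∑ a_n χ⁻¹(n) = ∑_x χ(x) T(x)`, so
`∑*_χ ‖∑ a_n χ⁻¹(n)‖² = q⁻¹ ∑*_χ ‖∑_x χ(x) T(x)‖² ≤ q⁻¹ ∑_{all χ} ‖∑_x χ(x) T(x)‖² =
q⁻¹ φ(q) ∑_{x unit} ‖T(x)‖²` (orthogonality, `DirichletCharacter.sum_char_inv_mul_char_eq`), and
`χ ↦ χ⁻¹` permutes the primitive characters. The `e(x/q)`, `x` a unit, are the primitive `q`-th roots of 1. -/
theorem gauss_point (q : ℕ) [NeZero q] (a : ℕ → ℂ) (s : Finset ℕ) :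
    ((q : ℝ) / q.totient) * prim q (fun χ => ‖∑ n ∈ s, a n * χ (n : ZMod q)‖ ^ 2) ≤
      ∑ ζ ∈ primitiveRoots q ℂ, ‖∑ n ∈ s, a n * ζ ^ n‖ ^ 2 := by
  classical
  have hq : (0 : ℝ) < q := by exact_mod_cast Nat.pos_of_ne_zero (NeZero.ne q)
  have hφ : (0 : ℝ) < q.totient := by
    exact_mod_cast Nat.totient_pos.2 (Nat.pos_of_ne_zero (NeZero.ne q))
  set T : ZMod q → ℂ := fun x => ∑ n ∈ s, a n * ZMod.stdAddChar (x * (n : ZMod q)) with hT
  have h1 : ∀ χ : DirichletCharacter ℂ q, χ.IsPrimitive →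
      (q : ℝ) * ‖∑ n ∈ s, a n * χ⁻¹ (n : ZMod q)‖ ^ 2 = ‖∑ x, χ x * T x‖ ^ 2 := by
    intro χ hχ
    obtain ⟨τ, hτ, hg⟩ := gauss_facts q χ hχ
    have h2 : ∑ x, χ x * T x = (∑ n ∈ s, a n * χ⁻¹ (n : ZMod q)) * τ := by
      rw [hT]
      simp_rw [Finset.mul_sum]
      rw [Finset.sum_comm, Finset.sum_mul]
      refine Finset.sum_congr rfl fun n _ => ?_
      rw [mul_assoc, ← hg, Finset.mul_sum]
      refine Finset.sum_congr rfl fun x _ => ?_
      ring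
    rw [h2, norm_mul, mul_pow, hτ, mul_comm]
  have hinv : prim q (fun χ => ‖∑ n ∈ s, a n * χ (n : ZMod q)‖ ^ 2) =
      prim q (fun χ => ‖∑ n ∈ s, a n * χ⁻¹ (n : ZMod q)‖ ^ 2) := by
    rw [prim_eq, prim_eq]
    refine Finset.sum_bij (fun χ _ => χ⁻¹) ?_ ?_ ?_ ?_
    · intro χ hχ
      rw [Finset.mem_filter] at hχ ⊢
      refine ⟨Finset.mem_univ _, ?_⟩
      unfold DirichletCharacter.IsPrimitive
      rw [DirichletCharacter.conductor_inv]
      exact hχ.2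
    · intro χ _ ψ _ h
      exact inv_injective h
    · intro χ hχ
      refine ⟨χ⁻¹, ?_, inv_inv χ⟩
      rw [Finset.mem_filter] at hχ ⊢
      refine ⟨Finset.mem_univ _, ?_⟩
      unfold DirichletCharacter.IsPrimitive
      rw [DirichletCharacter.conductor_inv]
      exact hχ.2
    · intro χ _
      simp only [inv_inv]
  have h3 : (q : ℝ) * prim q (fun χ => ‖∑ n ∈ s, a n * χ⁻¹ (n : ZMod q)‖ ^ 2) ≤
      ∑ χ : DirichletCharacter ℂ q, ‖∑ x, χ x * T x‖ ^ 2 := by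
    rw [prim_eq, Finset.mul_sum]
    calc _ = ∑ χ ∈ (univ : Finset (DirichletCharacter ℂ q)).filter (fun χ => χ.IsPrimitive),
          ‖∑ x, χ x * T x‖ ^ 2 :=
          Finset.sum_congr rfl fun χ hχ => h1 χ (Finset.mem_filter.1 hχ).2
      _ ≤ _ := Finset.sum_le_sum_of_subset_of_nonneg (Finset.filter_subset _ _)
          fun _ _ _ => by positivity
  rw [b03_parseval] at h3
  have h4 : ∑ x ∈ (univ : Finset (ZMod q)).filter (fun x => IsUnit x), ‖T x‖ ^ 2 =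
      ∑ ζ ∈ primitiveRoots q ℂ, ‖∑ n ∈ s, a n * ζ ^ n‖ ^ 2 := by
    rw [← b03_roots q (fun ζ => ‖∑ n ∈ s, a n * ζ ^ n‖ ^ 2)]
    refine Finset.sum_congr rfl fun x _ => ?_
    rw [hT]
    simp_rw [b03_pow]
  rw [h4] at h3
  rw [hinv, div_mul_eq_mul_div, div_le_iff₀ hφ]
  linarith

/-- Proof. `gauss_point` and `TH.large_sieve`. -/
theorem mult_large_sieve (a : ℕ → ℂ) (u v Q : ℕ) (huv : u ≤ v) (hQ : 0 < Q) :
    ∑ q ∈ Icc 1 Q, ((q : ℝ) / q.totient) *
      prim q (fun χ => ‖∑ n ∈ Ioc u v, a n * χ (n : ZMod q)‖ ^ 2) ≤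
      8 * (((v : ℝ) - u) + (Q : ℝ) ^ 2) * ∑ n ∈ Ioc u v, ‖a n‖ ^ 2 := by
  refine le_trans (Finset.sum_le_sum fun q hq => ?_) (TH.large_sieve a u v Q huv hQ)
  have hq1 := (Finset.mem_Icc.1 hq).1
  have : NeZero q := ⟨by omega⟩
  exact gauss_point q a (Ioc u v)

end Pool.Agent.Lib.MP_d9bc60_nt.AP
end

section
/-! Row B08 (about 70 lines): Cauchy-Schwarz and the large sieve. -/

set_option autoImplicit false

namespace Pool.Agent.Lib.MP_d9bc60_nt.AP

open Finset Pool.Agent.Lib.MP_d9bc60_nt.UV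

/-- Proof. Cauchy-Schwarz over all pairs `(q, χ)` (`prim_index`) with the weights `q/φ(q)`, and
`mult_large_sieve` twice. -/
theorem cs_ls (M K Q : ℕ) (hQ : 1 ≤ Q) (f g : ℕ → ℂ) :
    ∑ q ∈ Icc 1 Q, ((q : ℝ) / q.totient) *
      prim q (fun χ => ‖∑ m ∈ Ioc M (2 * M), f m * χ (m : ZMod q)‖ *
        ‖∑ k ∈ Ioc K (2 * K), g k * χ (k : ZMod q)‖) ≤
      8 * Real.sqrt (((M : ℝ) + (Q : ℝ) ^ 2) * ((K : ℝ) + (Q : ℝ) ^ 2)) *
        (Real.sqrt (∑ m ∈ Ioc M (2 * M), ‖f m‖ ^ 2) * Real.sqrt (∑ k ∈ Ioc K (2 * K), ‖g k‖ ^ 2)) := by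
  obtain ⟨ι, I, qq, cc, hI, hsum⟩ := prim_index Q
  have hw : ∀ q : ℕ, (0 : ℝ) ≤ (q : ℝ) / q.totient := fun q => by positivity
  have hls : ∀ (N : ℕ) (a : ℕ → ℂ),
      ∑ i ∈ I, (((qq i : ℝ) / (qq i).totient) * ‖∑ n ∈ Ioc N (2 * N), a n * cc i (n : ZMod (qq i))‖ ^ 2) ≤
      8 * ((N : ℝ) + (Q : ℝ) ^ 2) * ∑ n ∈ Ioc N (2 * N), ‖a n‖ ^ 2 := by
    intro N a
    have h1 := mult_large_sieve a N (2 * N) Q (by omega) hQ
    rw [hsum (fun q => (q : ℝ) / q.totient)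
      (fun q χ => ‖∑ n ∈ Ioc N (2 * N), a n * χ (n : ZMod q)‖ ^ 2)] at h1
    refine h1.trans (le_of_eq ?_)
    push_cast
    ring
  rw [hsum (fun q => (q : ℝ) / q.totient)
    (fun q χ => ‖∑ m ∈ Ioc M (2 * M), f m * χ (m : ZMod q)‖ *
      ‖∑ k ∈ Ioc K (2 * K), g k * χ (k : ZMod q)‖)]
  have hcs := Real.sum_mul_le_sqrt_mul_sqrt I
    (fun i => Real.sqrt ((qq i : ℝ) / (qq i).totient) *
      ‖∑ n ∈ Ioc M (2 * M), f n * cc i (n : ZMod (qq i))‖)
    (fun i => Real.sqrt ((qq i : ℝ) / (qq i).totient) *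
      ‖∑ n ∈ Ioc K (2 * K), g n * cc i (n : ZMod (qq i))‖)
  have e0 : ∑ i ∈ I, ((qq i : ℝ) / (qq i).totient) *
      (‖∑ m ∈ Ioc M (2 * M), f m * cc i (m : ZMod (qq i))‖ *
        ‖∑ k ∈ Ioc K (2 * K), g k * cc i (k : ZMod (qq i))‖) =
      ∑ i ∈ I, Real.sqrt ((qq i : ℝ) / (qq i).totient) *
        ‖∑ n ∈ Ioc M (2 * M), f n * cc i (n : ZMod (qq i))‖ *
        (Real.sqrt ((qq i : ℝ) / (qq i).totient) *
        ‖∑ n ∈ Ioc K (2 * K), g n * cc i (n : ZMod (qq i))‖) := by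
    refine sum_congr rfl fun i _ => ?_
    have := Real.mul_self_sqrt (hw (qq i))
    calc _ = (Real.sqrt ((qq i : ℝ) / (qq i).totient) * Real.sqrt ((qq i : ℝ) / (qq i).totient)) *
          (‖∑ m ∈ Ioc M (2 * M), f m * cc i (m : ZMod (qq i))‖ *
            ‖∑ k ∈ Ioc K (2 * K), g k * cc i (k : ZMod (qq i))‖) := by rw [this]
      _ = _ := by ring
  rw [e0]
  refine hcs.trans ?_
  have e1 : ∀ (N : ℕ) (a : ℕ → ℂ), ∑ i ∈ I, (Real.sqrt ((qq i : ℝ) / (qq i).totient) *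
      ‖∑ n ∈ Ioc N (2 * N), a n * cc i (n : ZMod (qq i))‖) ^ 2 ≤
      8 * ((N : ℝ) + (Q : ℝ) ^ 2) * ∑ n ∈ Ioc N (2 * N), ‖a n‖ ^ 2 := by
    intro N a
    refine le_trans (le_of_eq ?_) (hls N a)
    refine sum_congr rfl fun i _ => ?_
    rw [mul_pow, Real.sq_sqrt (hw (qq i))]
  have h2 : ∀ N : ℕ, (0 : ℝ) ≤ (N : ℝ) + (Q : ℝ) ^ 2 := fun N => by positivity
  calc _ ≤ Real.sqrt (8 * ((M : ℝ) + (Q : ℝ) ^ 2) * ∑ n ∈ Ioc M (2 * M), ‖f n‖ ^ 2) *
        Real.sqrt (8 * ((K : ℝ) + (Q : ℝ) ^ 2) * ∑ n ∈ Ioc K (2 * K), ‖g n‖ ^ 2) :=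
        mul_le_mul (Real.sqrt_le_sqrt (e1 M f)) (Real.sqrt_le_sqrt (e1 K g)) (Real.sqrt_nonneg _)
          (Real.sqrt_nonneg _)
    _ = _ := by
      have h3 : ∀ (N : ℕ) (S : ℝ), Real.sqrt (8 * ((N : ℝ) + (Q : ℝ) ^ 2) * S) =
          Real.sqrt 8 * Real.sqrt ((N : ℝ) + (Q : ℝ) ^ 2) * Real.sqrt S := by
        intro N S
        rw [Real.sqrt_mul (mul_nonneg (by norm_num) (h2 N)), Real.sqrt_mul (by norm_num)]
      rw [h3, h3, Real.sqrt_mul (h2 M)]
      have h8 : Real.sqrt 8 * Real.sqrt 8 = 8 := Real.mul_self_sqrt (by norm_num)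
      calc _ = (Real.sqrt 8 * Real.sqrt 8) * (Real.sqrt ((M : ℝ) + (Q : ℝ) ^ 2) *
            Real.sqrt ((K : ℝ) + (Q : ℝ) ^ 2)) * (Real.sqrt (∑ m ∈ Ioc M (2 * M), ‖f m‖ ^ 2) *
            Real.sqrt (∑ k ∈ Ioc K (2 * K), ‖g k‖ ^ 2)) := by ring
        _ = _ := by rw [h8]

end Pool.Agent.Lib.MP_d9bc60_nt.AP
end
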