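import Pool.Agent.Lib.MP_d9bc60_nt.AQ.QLS
import Pool.Agent.Lib.MP_d9bc60_nt.UV.PTools
import Pool.Agent.Lib.MP_d9bc60_nt.UV.PVaughan

section
/-! Row B06 (about 150 lines): Polya-Vinogradov for primitive characters. -/

set_option autoImplicit false

namespace Pool.Agent.Lib.MP_d9bc60_nt.AP

open Finset Pool.Agent.Lib.MP_d9bc60_nt.UV

theorem b06_char (q : ℕ) [NeZero q] (x : ZMod q) (n : ℕ) :
    (ZMod.stdAddChar (x * (n : ZMod q)) : ℂ) = e ((x.val : ℝ) / q * n) := by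
  have h1 : x * (n : ZMod q) = ((((x.val * n : ℕ) : ℤ)) : ZMod q) := by
    push_cast
    rw [ZMod.natCast_zmod_val]
  rw [h1, ZMod.stdAddChar_coe, e]
  congr 1
  push_cast
  ring

theorem b06_term (q j u v : ℕ) (h0 : 0 < j) (h1 : j < q) :
    ‖∑ n ∈ Ioc u v, e ((j : ℝ) / q * n)‖ ≤ 1 / 2 * a3_F q 0 (j : ℤ) := by
  have hq : (0 : ℝ) < q := by exact_mod_cast (h0.trans h1)
  have hj : (0 : ℝ) < j := by exact_mod_cast h0
  have hjq : (j : ℝ) < q := by exact_mod_cast h1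
  have hx0 : 0 < (j : ℝ) / q := by positivity
  have hx1 : (j : ℝ) / q < 1 := by
    rw [div_lt_one hq]
    exact hjq
  have hnn : 0 < nn ((j : ℝ) / q) :=
    (lt_min hx0 (by linarith)).trans_le (a3_min_le _ hx0 hx1)
  have hnd : ¬ ((q : ℤ) ∣ (j : ℤ)) := by
    intro h
    have := Nat.le_of_dvd h0 (by exact_mod_cast h)
    omega
  refine (geom_le _ u v hnn).trans (le_of_eq ?_)
  unfold a3_F
  rw [if_neg hnd]
  push_cast
  field_simp

/-- Proof. `gauss_facts` for `χ⁻¹` (primitive too): `χ(n) τ = ∑_a χ⁻¹(a) e(an/q)`, `‖τ‖ = √q`, the `a = 0`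
term vanishes (`q ≥ 2`), so the sum is `≤ q^(-1/2) ∑_{a=1}^{q-1} 1/(2 ‖a/q‖) ≤ √q (1 + log q)` (geometric
sums: `UV.geom_le` in `UV.PTools`). -/
theorem pv (q : ℕ) [NeZero q] (hq : 2 ≤ q) (χ : DirichletCharacter ℂ q) (hχ : χ.IsPrimitive)
    (u v : ℕ) : ‖∑ n ∈ Ioc u v, χ (n : ZMod q)‖ ≤ 2 * (Real.sqrt q * (1 + Real.log q)) := by
  have hq0 : (0 : ℝ) < q := by exact_mod_cast (by omega : 0 < q)
  have hq1 : (1 : ℝ) ≤ q := by exact_mod_cast (by omega : 1 ≤ q)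
  have hχ' : (χ⁻¹).IsPrimitive := by
    unfold DirichletCharacter.IsPrimitive
    rw [DirichletCharacter.conductor_inv]
    exact hχ
  obtain ⟨τ, hτ, hg⟩ := gauss_facts q χ⁻¹ hχ'
  rw [inv_inv] at hg
  have hnτ : ‖τ‖ = Real.sqrt q := by
    rw [← hτ, Real.sqrt_sq (norm_nonneg _)]
  have hsq : 0 < Real.sqrt q := Real.sqrt_pos.2 hq0
  have hlog : 0 ≤ Real.log q := Real.log_nonneg hq1
  have hnt : Nontrivial (ZMod q) := ZMod.nontrivial_iff.2 (by omega)
  have h1 : (∑ n ∈ Ioc u v, χ (n : ZMod q)) * τ =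
      ∑ a : ZMod q, χ⁻¹ a * ∑ n ∈ Ioc u v, e ((a.val : ℝ) / q * n) := by
    rw [Finset.sum_mul]
    simp_rw [← hg, Finset.mul_sum, b06_char]
    rw [Finset.sum_comm]
  have h2 : ‖(∑ n ∈ Ioc u v, χ (n : ZMod q)) * τ‖ ≤ ∑ j ∈ range q, 1 / 2 * a3_F q 0 (j : ℤ) := by
    rw [h1]
    refine (norm_sum_le _ _).trans ?_
    have h3 : ∀ a : ZMod q, ‖χ⁻¹ a * ∑ n ∈ Ioc u v, e ((a.val : ℝ) / q * n)‖ ≤
        1 / 2 * a3_F q 0 (a.val : ℤ) := by
      intro a
      by_cases ha : a = 0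
      · rw [ha, MulChar.map_zero, zero_mul, norm_zero]
        exact mul_nonneg (by norm_num) (a3_F_nonneg q 0 le_rfl _)
      · rw [norm_mul]
        have h4 : ‖χ⁻¹ a‖ ≤ 1 := DirichletCharacter.norm_le_one _ _
        have h5 := b06_term q a.val u v (Nat.pos_of_ne_zero (fun h => ha ((ZMod.val_eq_zero a).1 h)))
          (ZMod.val_lt a)
        calc _ ≤ 1 * ‖∑ n ∈ Ioc u v, e ((a.val : ℝ) / q * n)‖ :=
              mul_le_mul_of_nonneg_right h4 (norm_nonneg _)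
          _ ≤ _ := by rw [one_mul]; exact h5
    refine (Finset.sum_le_sum fun a _ => h3 a).trans (le_of_eq ?_)
    refine Finset.sum_bij (fun (a : ZMod q) _ => a.val) ?_ ?_ ?_ ?_
    · intro a _
      exact Finset.mem_range.2 (ZMod.val_lt a)
    · intro a _ b _ h
      exact ZMod.val_injective q h
    · intro j hj
      exact ⟨(j : ZMod q), Finset.mem_univ _, ZMod.val_natCast_of_lt (Finset.mem_range.1 hj)⟩
    · intro a _
      rfl
  rw [← Finset.mul_sum, norm_mul, hnτ] at h2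
  have h3 := a3_full q (by omega) 0
  rw [zero_add] at h3
  have h4 : ‖∑ n ∈ Ioc u v, χ (n : ZMod q)‖ * Real.sqrt q ≤ q * (1 + Real.log q) := by linarith
  have h5 : (q : ℝ) = Real.sqrt q * Real.sqrt q := (Real.mul_self_sqrt hq0.le).symm
  have h6 : ‖∑ n ∈ Ioc u v, χ (n : ZMod q)‖ * Real.sqrt q ≤
      (Real.sqrt q * (1 + Real.log q)) * Real.sqrt q := by
    calc _ ≤ q * (1 + Real.log q) := h4
      _ = (Real.sqrt q * Real.sqrt q) * (1 + Real.log q) := by rw [← h5]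
      _ = _ := by ring
  have h7 := le_of_mul_le_mul_right h6 hsq
  have h8 : 0 ≤ Real.sqrt q * (1 + Real.log q) := by positivity
  linarith

end Pool.Agent.Lib.MP_d9bc60_nt.AP
end

section
/-! Row B07 (about 80 lines): type I sums with the kernel. -/

set_option autoImplicit false

namespace Pool.Agent.Lib.MP_d9bc60_nt.AP

open Finset Pool.Agent.Lib.MP_d9bc60_nt.UV

theorem b07_abel (a : ℕ → ℂ) (g : ℕ → ℝ) (t : ℕ) :
    ∑ k ∈ Icc 1 (t + 1), a k * (g k : ℂ) = (∑ k ∈ Icc 1 (t + 1), a k) * (g (t + 1) : ℂ) +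
      ∑ k ∈ Ico 1 (t + 1), (∑ j ∈ Icc 1 k, a j) * ((g k - g (k + 1) : ℝ) : ℂ) := by
  induction t with
  | zero => simp
  | succ t ih =>
    rw [sum_Icc_succ_top (by omega : 1 ≤ t + 1 + 1), ih, sum_Icc_succ_top (by omega : 1 ≤ t + 1 + 1),
      sum_Ico_succ_top (by omega : 1 ≤ t + 1)]
    push_cast
    ring

theorem b07_tel (g : ℕ → ℝ) (t : ℕ) :
    ∑ k ∈ Ico 1 (t + 1), (g k - g (k + 1)) = g 1 - g (t + 1) := by
  induction t with
  | zero => simp
  | succ t ih =>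
    rw [sum_Ico_succ_top (by omega : 1 ≤ t + 1), ih]
    ring

theorem b07_norm (a : ℕ → ℂ) (g : ℕ → ℝ) (B : ℝ) (hB : ∀ t, ‖∑ k ∈ Icc 1 t, a k‖ ≤ B)
    (hg : ∀ k, 1 ≤ k → g (k + 1) ≤ g k) (hg0 : ∀ k, 0 ≤ g k) (t : ℕ) :
    ‖∑ k ∈ Icc 1 t, a k * (g k : ℂ)‖ ≤ B * g 1 := by
  have hB0 : 0 ≤ B := (norm_nonneg _).trans (hB 0)
  rcases t with _ | t
  · simpa using mul_nonneg hB0 (hg0 1)
  rw [b07_abel]
  have h1 : ‖(∑ k ∈ Icc 1 (t + 1), a k) * (g (t + 1) : ℂ)‖ ≤ B * g (t + 1) := by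
    rw [norm_mul, Complex.norm_real, Real.norm_of_nonneg (hg0 _)]
    exact mul_le_mul_of_nonneg_right (hB _) (hg0 _)
  have h2 : ‖∑ k ∈ Ico 1 (t + 1), (∑ j ∈ Icc 1 k, a j) * ((g k - g (k + 1) : ℝ) : ℂ)‖ ≤
      B * (g 1 - g (t + 1)) := by
    rw [← b07_tel, mul_sum]
    refine (norm_sum_le _ _).trans (sum_le_sum fun k hk => ?_)
    rw [mem_Ico] at hk
    have h3 := hg k hk.1
    rw [norm_mul, Complex.norm_real, Real.norm_of_nonneg (by linarith)]
    exact mul_le_mul_of_nonneg_right (hB _) (by linarith)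
  calc _ ≤ B * g (t + 1) + B * (g 1 - g (t + 1)) := (norm_add_le _ _).trans (add_le_add h1 h2)
    _ = B * g 1 := by ring

/-- Proof. `k ↦ kf P (d k)` is nonincreasing for `k ≥ 1`, with values in `[0, log P]`; Abel
summation and `pv` (`u = 0`); `χ(dk) = χ(d)χ(k)`. -/
theorem pv_kf (P q : ℕ) [NeZero q] (hP : 3 ≤ P) (hq : 2 ≤ q) (χ : DirichletCharacter ℂ q)
    (hχ : χ.IsPrimitive) (d t : ℕ) (hd : 1 ≤ d) :
    ‖∑ k ∈ Icc 1 t, χ ((d * k : ℕ) : ZMod q) * (kf P (d * k) : ℂ)‖ ≤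
      2 * Real.log P * (Real.sqrt q * (1 + Real.log q)) := by
  have hP' : (0 : ℝ) < P := by
    have : 0 < P := by omega
    exact_mod_cast this
  have hP1 : (1 : ℝ) ≤ P := by
    have : 1 ≤ P := by omega
    exact_mod_cast this
  have hd' : (1 : ℝ) ≤ d := by exact_mod_cast hd
  have hq1 : (1 : ℝ) ≤ q := by
    have : 1 ≤ q := by omega
    exact_mod_cast this
  set B : ℝ := 2 * (Real.sqrt q * (1 + Real.log q)) with hB
  have hB0 : 0 ≤ B := by
    have := Real.log_nonneg hq1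
    positivity
  have h1 := b07_norm (fun k => χ ((d * k : ℕ) : ZMod q)) (fun k => kf P (d * k)) B ?_ ?_ ?_ t
  · refine h1.trans ?_
    have h2 : kf P (d * 1) ≤ Real.log P := by
      unfold kf
      apply max_le (Real.log_nonneg hP1)
      have h3 : (0 : ℝ) < ((d * 1 : ℕ) : ℝ) := by
        push_cast
        linarith
      apply Real.log_le_log (by positivity)
      rw [div_le_iff₀ h3]
      push_cast
      nlinarith
    calc B * kf P (d * 1) ≤ B * Real.log P := mul_le_mul_of_nonneg_left h2 hB0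
      _ = _ := by rw [hB]; ring
  · intro s
    have h2 : ∑ k ∈ Icc 1 s, χ ((d * k : ℕ) : ZMod q) =
        χ (d : ZMod q) * ∑ k ∈ Icc 1 s, χ (k : ZMod q) := by
      rw [mul_sum]
      exact sum_congr rfl fun k _ => by rw [Nat.cast_mul, map_mul]
    rw [h2, norm_mul]
    have h3 : ‖χ (d : ZMod q)‖ ≤ 1 := DirichletCharacter.norm_le_one χ _
    have h4 := pv q hq χ hχ 0 s
    have h5 : Ioc 0 s = Icc 1 s := by
      ext n
      rw [mem_Ioc, mem_Icc]
      omega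
    rw [h5] at h4
    calc _ ≤ 1 * B := mul_le_mul h3 h4 (norm_nonneg _) zero_le_one
      _ = B := one_mul B
  · intro k hk
    have hk' : (1 : ℝ) ≤ k := by exact_mod_cast hk
    apply max_le_max le_rfl
    apply Real.log_le_log
    · push_cast
      positivity
    · apply div_le_div_of_nonneg_left hP'.le
      · push_cast
        positivity
      · push_cast
        nlinarith
  · intro k
    exact le_max_left _ _

end Pool.Agent.Lib.MP_d9bc60_nt.AP
end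

section
/-! Row B10 (about 130 lines): Vaughan's identity for one character. -/

set_option autoImplicit false

namespace Pool.Agent.Lib.MP_d9bc60_nt.AP

open Finset Pool.Agent.Lib.MP_d9bc60_nt.UV

theorem b10_kf_nonneg (P n : ℕ) : 0 ≤ kf P n := le_max_left _ _

theorem b10_kf_le (P n : ℕ) (hP : 3 ≤ P) : kf P n ≤ Real.log P := by
  unfold kf
  have hL : 0 ≤ Real.log (P : ℝ) := Real.log_natCast_nonneg P
  refine max_le hL ?_
  rcases Nat.eq_zero_or_pos n with h | h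
  · subst h
    simpa using hL
  · have hn : (1 : ℝ) ≤ n := by exact_mod_cast h
    have hP' : (0 : ℝ) < P := by
      have : 0 < P := by omega
      exact_mod_cast this
    refine Real.log_le_log (by positivity) ?_
    exact div_le_self hP'.le hn

theorem b10_kf_zero (P n : ℕ) (h : P < n) : kf P n = 0 := by
  unfold kf
  refine max_eq_left ?_
  have hn : (0 : ℝ) < n := by
    have : 0 < n := by omega
    exact_mod_cast this
  refine Real.log_nonpos (by positivity) ?_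
  rw [div_le_one hn]
  exact_mod_cast h.le

theorem b10_log_one_le (P : ℕ) (hP : 3 ≤ P) : 1 ≤ Real.log P := by
  rw [Real.le_log_iff_exp_le (by
    have : 0 < P := by omega
    exact_mod_cast this)]
  have h1 := Real.exp_one_lt_d9
  have h2 : (3 : ℝ) ≤ P := by exact_mod_cast hP
  linarith

/-- Proof. `L = log P`, `vaughan_bound` with `U = V`, `N = P`, `φ n = χ(n) kf P n / L` (norm `≤ 1`),
`G(d) = 2 √q (1 + log q)` (`pv_kf`), multiplied by `L`:
`S1 P χ ≤ 6 V L + 6 L² V² √q (1 + log q) + ‖type II‖`; `dyadic_split` with `a = aV V`, `b = Λ`; in the pieces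
`TII` the condition `m k ≤ P` may be dropped, as `kf P (mk) = 0` otherwise. -/
theorem S1_vaughan (P q V J : ℕ) [NeZero q] (hP : 3 ≤ P) (hq : 2 ≤ q) (hV : 1 ≤ V) (hJ : P < 2 ^ J)
    (χ : DirichletCharacter ℂ q) (hχ : χ.IsPrimitive) :
    S1 P χ ≤ 20 * Real.log P ^ 2 * (V : ℝ) ^ 2 * (Real.sqrt q * (1 + Real.log q)) +
      ∑ j ∈ range J, ∑ i ∈ range J,
        ‖∑ m ∈ Ioc (2 ^ j * V) (2 * (2 ^ j * V)), ∑ k ∈ Ioc (2 ^ i * V) (2 * (2 ^ i * V)),
          (aV V m : ℂ) * (vm k : ℂ) * (χ ((m * k : ℕ) : ZMod q) * (kf P (m * k) : ℂ))‖ := by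
  set L : ℝ := Real.log P with hL
  have hL1 : 1 ≤ L := b10_log_one_le P hP
  have hL0 : 0 < L := by linarith
  have hLc : (L : ℂ) ≠ 0 := by exact_mod_cast hL0.ne'
  set W : ℝ := Real.sqrt q * (1 + Real.log q) with hW
  have hW1 : 1 ≤ W := by
    have h1 : 1 ≤ Real.sqrt q := by
      rw [Real.one_le_sqrt]
      have : 1 ≤ q := by omega
      exact_mod_cast this
    have h2 : 0 ≤ Real.log (q : ℝ) := Real.log_natCast_nonneg q
    nlinarith
  set ψ : ℕ → ℂ := fun n => χ (n : ZMod q) * (kf P n : ℂ) with hψ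
  set φ : ℕ → ℂ := fun n => χ (n : ZMod q) * (kf P n : ℂ) / (L : ℂ) with hφd
  have hφψ : ∀ n, ψ n = (L : ℂ) * φ n := by
    intro n
    simp only [hψ, hφd]
    field_simp
  have hφ : ∀ n, ‖φ n‖ ≤ 1 := by
    intro n
    simp only [hφd]
    rw [norm_div, norm_mul, Complex.norm_real, Complex.norm_real,
      Real.norm_of_nonneg (b10_kf_nonneg P n), Real.norm_of_nonneg hL0.le,
      div_le_one hL0]
    have h1 := χ.norm_le_one (n : ZMod q)
    have h2 := b10_kf_nonneg P n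
    have h3 := b10_kf_le P n hP
    calc ‖χ (n : ZMod q)‖ * kf P n ≤ 1 * kf P n := mul_le_mul_of_nonneg_right h1 h2
      _ ≤ L := by rw [one_mul]; exact h3
  have hG : ∀ d ∈ Icc 1 (V * V), ∀ t ≤ P / d, ‖∑ k ∈ Icc 1 t, φ (d * k)‖ ≤ 2 * W := by
    intro d hd t _
    rw [mem_Icc] at hd
    have h1 := pv_kf P q hP hq χ hχ d t hd.1
    have h2 : ∑ k ∈ Icc 1 t, χ ((d * k : ℕ) : ZMod q) * (kf P (d * k) : ℂ) =
        (L : ℂ) * ∑ k ∈ Icc 1 t, φ (d * k) := by
      rw [Finset.mul_sum]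
      exact Finset.sum_congr rfl fun k _ => hφψ (d * k)
    rw [h2, norm_mul, Complex.norm_real, Real.norm_of_nonneg hL0.le] at h1
    have h3 : L * ‖∑ k ∈ Icc 1 t, φ (d * k)‖ ≤ L * (2 * W) := by
      rw [← hL, ← hW] at h1
      linarith
    exact le_of_mul_le_mul_left h3 hL0
  have hvb := vaughan_bound V V P hV φ hφ (fun _ => 2 * W) hG
  rw [Finset.sum_const, Nat.card_Icc, nsmul_eq_mul] at hvb
  -- multiply by L
  have hS : S1 P χ = L * ‖∑ n ∈ Icc 1 P, (vm n : ℂ) * φ n‖ := by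
    unfold S1
    rw [← Real.norm_of_nonneg hL0.le, ← Complex.norm_real, ← norm_mul, Finset.mul_sum]
    congr 1
    refine Finset.sum_congr rfl fun n _ => ?_
    have := hφψ n
    simp only [hψ] at this
    calc χ (n : ZMod q) * (vm n : ℂ) * (kf P n : ℂ) = (vm n : ℂ) * (χ (n : ZMod q) * (kf P n : ℂ)) := by
          ring
      _ = _ := by rw [this]; ring
  have hT : L * ‖∑ m ∈ Ioc V P, ∑ k ∈ Ioc V (P / m), (aV V m : ℂ) * (vm k : ℂ) * φ (m * k)‖ ≤
      ∑ j ∈ range J, ∑ i ∈ range J,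
        ‖∑ m ∈ Ioc (2 ^ j * V) (2 * (2 ^ j * V)), ∑ k ∈ Ioc (2 ^ i * V) (2 * (2 ^ i * V)),
          (aV V m : ℂ) * (vm k : ℂ) * (χ ((m * k : ℕ) : ZMod q) * (kf P (m * k) : ℂ))‖ := by
    have h1 := dyadic_split (fun m => (aV V m : ℂ)) (fun k => (vm k : ℂ)) ψ V V P J hV hV hJ
    have h2 : L * ‖∑ m ∈ Ioc V P, ∑ k ∈ Ioc V (P / m), (aV V m : ℂ) * (vm k : ℂ) * φ (m * k)‖ =
        ‖∑ m ∈ Ioc V P, ∑ k ∈ Ioc V (P / m), (aV V m : ℂ) * (vm k : ℂ) * ψ (m * k)‖ := by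
      nth_rewrite 1 [← Real.norm_of_nonneg hL0.le]
      rw [← Complex.norm_real, ← norm_mul, Finset.mul_sum]
      congr 1
      refine Finset.sum_congr rfl fun m _ => ?_
      rw [Finset.mul_sum]
      refine Finset.sum_congr rfl fun k _ => ?_
      rw [hφψ]
      ring
    rw [h2, h1]
    refine (norm_sum_le _ _).trans (Finset.sum_le_sum fun j _ => ?_)
    refine (norm_sum_le _ _).trans (Finset.sum_le_sum fun i _ => ?_)
    refine le_of_eq ?_
    congr 1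
    unfold TII
    refine Finset.sum_congr rfl fun m _ => ?_
    rw [Finset.sum_filter]
    refine Finset.sum_congr rfl fun k _ => ?_
    split_ifs with h
    · rfl
    · rw [b10_kf_zero P (m * k) (not_le.1 h)]
      simp
  rw [hS]
  have h3 : L * ‖∑ n ∈ Icc 1 P, (vm n : ℂ) * φ n‖ ≤
      L * (6 * V + 3 * L * (((V * V + 1 - 1 : ℕ) : ℝ) * (2 * W))) +
      L * ‖∑ m ∈ Ioc V P, ∑ k ∈ Ioc V (P / m), (aV V m : ℂ) * (vm k : ℂ) * φ (m * k)‖ := by
    have := mul_le_mul_of_nonneg_left hvb hL0.le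
    rw [mul_add] at this
    exact this
  have hV1 : (1 : ℝ) ≤ V := by exact_mod_cast hV
  have h4 : L * (6 * V + 3 * L * (((V * V + 1 - 1 : ℕ) : ℝ) * (2 * W))) ≤
      20 * L ^ 2 * (V : ℝ) ^ 2 * W := by
    rw [Nat.add_sub_cancel]
    push_cast
    have h5 : L * (6 * (V : ℝ)) ≤ 14 * L ^ 2 * (V : ℝ) ^ 2 * W := by
      have h6 : L ≤ L ^ 2 := by nlinarith
      have h7 : (V : ℝ) ≤ (V : ℝ) ^ 2 := by nlinarith
      have h8 : L * (V : ℝ) ≤ L ^ 2 * (V : ℝ) ^ 2 := mul_le_mul h6 h7 (by positivity) (by positivity)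
      have h9 : L ^ 2 * (V : ℝ) ^ 2 ≤ L ^ 2 * (V : ℝ) ^ 2 * W :=
        le_mul_of_one_le_right (by positivity) hW1
      have h10 : 0 ≤ L ^ 2 * (V : ℝ) ^ 2 * W := by positivity
      linarith
    have h6 : L * (3 * L * ((V : ℝ) * V * (2 * W))) = 6 * L ^ 2 * (V : ℝ) ^ 2 * W := by ring
    rw [mul_add]
    linarith
  linarith

end Pool.Agent.Lib.MP_d9bc60_nt.AP
end
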