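import Pool.Agent.Lib.MP_d9bc60_nt.AQ.QSep
import Pool.Agent.Lib.MP_d9bc60_nt.AQ.QLS
import Pool.Agent.Lib.MP_d9bc60_nt.UV.PVaughan
import Pool.Agent.Lib.MP_d9bc60_nt.AQ.QPV

section
/-! Row B09 (about 160 lines): type II sums over primitive characters. -/

set_option autoImplicit false

namespace Pool.Agent.Lib.MP_d9bc60_nt.AP

open Finset Pool.Agent.Lib.MP_d9bc60_nt.UV

theorem b09_kf_zero (P n : ℕ) (h : P ≤ n) : kf P n = 0 := by
  unfold kf
  refine max_eq_left ?_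
  rcases Nat.eq_zero_or_pos n with h0 | h0
  · subst h0; simp
  · have h1 : (P : ℝ) / n ≤ 1 := by
      rw [div_le_one (by exact_mod_cast h0)]
      exact_mod_cast h
    exact Real.log_nonpos (by positivity) h1

theorem b09_zero (P M K : ℕ) (h : P ≤ M * K) (q : ℕ) (a b : ℕ → ℝ) (χ : DirichletCharacter ℂ q) :
    ‖∑ m ∈ Ioc M (2 * M), ∑ k ∈ Ioc K (2 * K),
        (a m : ℂ) * (b k : ℂ) * (χ ((m * k : ℕ) : ZMod q) * (kf P (m * k) : ℂ))‖ = 0 := by
  rw [norm_eq_zero]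
  refine Finset.sum_eq_zero fun m hm => Finset.sum_eq_zero fun k hk => ?_
  rw [Finset.mem_Ioc] at hm hk
  have h1 : P ≤ m * k := h.trans (Nat.mul_le_mul hm.1.le hk.1.le)
  rw [b09_kf_zero P _ h1]
  simp

theorem b09_log (P : ℕ) (hP : 3 ≤ P) : (1 : ℝ) ≤ Real.log P := by
  have h1 : Real.exp 1 ≤ (P : ℝ) := by
    have h2 := Real.exp_one_lt_d9
    have h3 : (3 : ℝ) ≤ P := by exact_mod_cast hP
    linarith only [h2, h3]
  exact (Real.le_log_iff_exp_le (by positivity)).2 h1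

theorem b09_log2 (P N : ℕ) (hN : 1 ≤ N) (h : N ≤ 2 * P) (hP : 1 ≤ P) :
    Real.log N ≤ Real.log 2 + Real.log P := by
  have h1 : (N : ℝ) ≤ 2 * P := by exact_mod_cast h
  have hP' : (0 : ℝ) < P := by exact_mod_cast hP
  have h2 := Real.log_le_log (by exact_mod_cast hN) h1
  rwa [Real.log_mul (by norm_num) hP'.ne'] at h2

theorem b09_aV (P V M : ℕ) (hP : 3 ≤ P) (hM1 : 1 ≤ M) (hM : M ≤ P) (τ : ℕ → ℂ)
    (hτ : ∀ n, ‖τ n‖ ≤ 1) :
    ∑ m ∈ Ioc M (2 * M), ‖(aV V m : ℂ) * τ m‖ ^ 2 ≤ 54 * M * Real.log P ^ 3 := by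
  have hL := b09_log P hP
  have hlog2 : Real.log 2 < 1 := by
    have := Real.log_two_lt_d9
    linarith only [this]
  have h1 : ∑ m ∈ Ioc M (2 * M), ‖(aV V m : ℂ) * τ m‖ ^ 2 ≤
      ∑ n ∈ Icc 1 (2 * M), (n.divisors.card : ℝ) ^ 2 := by
    refine le_trans (Finset.sum_le_sum (g := fun n : ℕ => (n.divisors.card : ℝ) ^ 2)
      fun m _ => ?_) ?_
    · rw [norm_mul, Complex.norm_real, Real.norm_eq_abs]
      refine pow_le_pow_left₀ (by positivity) ?_ 2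
      have h2 := abs_aV_le V m
      calc |aV V m| * ‖τ m‖ ≤ |aV V m| * 1 :=
            mul_le_mul_of_nonneg_left (hτ m) (abs_nonneg _)
        _ = |aV V m| := mul_one _
        _ ≤ _ := h2
    · refine Finset.sum_le_sum_of_subset_of_nonneg ?_ (fun _ _ _ => by positivity)
      intro m hm
      rw [Finset.mem_Ioc] at hm
      rw [Finset.mem_Icc]
      omega
  have h2 := sum_tau_sq_le (2 * M)
  have h3 := b09_log2 P (2 * M) (by omega) (by omega) (by omega)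
  have h4 : (1 + Real.log ((2 * M : ℕ) : ℝ)) ^ 3 ≤ (3 * Real.log P) ^ 3 := by
    refine pow_le_pow_left₀ ?_ ?_ 3
    · have := Real.log_natCast_nonneg (2 * M)
      linarith only [this]
    · linarith only [hL, hlog2, h3]
  calc ∑ m ∈ Ioc M (2 * M), ‖(aV V m : ℂ) * τ m‖ ^ 2 ≤
      ((2 * M : ℕ) : ℝ) * (1 + Real.log ((2 * M : ℕ) : ℝ)) ^ 3 := h1.trans h2
    _ ≤ ((2 * M : ℕ) : ℝ) * (3 * Real.log P) ^ 3 :=
        mul_le_mul_of_nonneg_left h4 (Nat.cast_nonneg _)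
    _ = 54 * M * Real.log P ^ 3 := by push_cast; ring

theorem b09_vm (P K : ℕ) (hP : 3 ≤ P) (hK1 : 1 ≤ K) (hK : K ≤ P) (τ : ℕ → ℂ)
    (hτ : ∀ n, ‖τ n‖ ≤ 1) :
    ∑ k ∈ Ioc K (2 * K), ‖(vm k : ℂ) * τ k‖ ^ 2 ≤ 24 * K * Real.log P := by
  have hL := b09_log P hP
  have hlog2 : Real.log 2 < 1 := by
    have := Real.log_two_lt_d9
    linarith only [this]
  have hvm0 : ∀ k : ℕ, 0 ≤ vm k := fun k => ArithmeticFunction.vonMangoldt_nonneg
  have h1 : ∀ k ∈ Ioc K (2 * K), ‖(vm k : ℂ) * τ k‖ ^ 2 ≤ 2 * Real.log P * vm k := by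
    intro k hk
    rw [Finset.mem_Ioc] at hk
    have h2 : vm k ≤ Real.log k := ArithmeticFunction.vonMangoldt_le_log
    have h3 := b09_log2 P k (by omega) (by omega) (by omega)
    rw [norm_mul, Complex.norm_real, Real.norm_of_nonneg (hvm0 k)]
    have h4 : vm k * ‖τ k‖ ≤ vm k := by
      calc vm k * ‖τ k‖ ≤ vm k * 1 := mul_le_mul_of_nonneg_left (hτ k) (hvm0 k)
        _ = vm k := mul_one _
    calc (vm k * ‖τ k‖) ^ 2 ≤ (vm k) ^ 2 :=
          pow_le_pow_left₀ (mul_nonneg (hvm0 k) (norm_nonneg _)) h4 2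
      _ = vm k * vm k := sq _
      _ ≤ 2 * Real.log P * vm k := by
          refine mul_le_mul_of_nonneg_right ?_ (hvm0 k)
          linarith only [hL, hlog2, h2, h3]
  have h2 : ∑ k ∈ Ioc K (2 * K), vm k ≤ 12 * K := by
    have h3 : ∑ k ∈ Ioc K (2 * K), vm k ≤ ∑ k ∈ Ioc 0 (2 * K), vm k := by
      refine Finset.sum_le_sum_of_subset_of_nonneg ?_ (fun k _ _ => hvm0 k)
      exact Finset.Ioc_subset_Ioc_left (Nat.zero_le _)
    have h4 : ∑ k ∈ Ioc 0 (2 * K), vm k = Chebyshev.psi ((2 * K : ℕ) : ℝ) := by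
      unfold Chebyshev.psi
      rw [Nat.floor_natCast]
      rfl
    have h5 := Chebyshev.psi_le_const_mul_self (Nat.cast_nonneg (α := ℝ) (2 * K))
    have h6 : Real.log 4 ≤ 2 := by
      have h7 : Real.log 4 = 2 * Real.log 2 := by
        rw [show (4 : ℝ) = 2 ^ 2 by norm_num, Real.log_pow]
        push_cast
        ring
      rw [h7]
      linarith only [hlog2]
    have h8 : (Real.log 4 + 4) * ((2 * K : ℕ) : ℝ) ≤ 6 * ((2 * K : ℕ) : ℝ) :=
      mul_le_mul_of_nonneg_right (by linarith only [h6]) (Nat.cast_nonneg _)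
    have h9 : 6 * ((2 * K : ℕ) : ℝ) = 12 * K := by push_cast; ring
    linarith only [h3, h4, h5, h8, h9]
  calc ∑ k ∈ Ioc K (2 * K), ‖(vm k : ℂ) * τ k‖ ^ 2 ≤
      ∑ k ∈ Ioc K (2 * K), 2 * Real.log P * vm k := Finset.sum_le_sum h1
    _ = 2 * Real.log P * ∑ k ∈ Ioc K (2 * K), vm k := by rw [Finset.mul_sum]
    _ ≤ 2 * Real.log P * (12 * K) := mul_le_mul_of_nonneg_left h2 (by linarith only [hL])
    _ = 24 * K * Real.log P := by ring

/-- The elementary inequality. -/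
theorem b09_sqrt (P Q V M K : ℝ) (hQ : 0 ≤ Q) (hV : 1 ≤ V) (hM : V ≤ M) (hK : V ≤ K)
    (h : M * K ≤ P) :
    Real.sqrt ((M + Q ^ 2) * (K + Q ^ 2)) * Real.sqrt (M * K) ≤
      2 * (P + Q * P / Real.sqrt V + Q ^ 2 * Real.sqrt P) := by
  have hM0 : 0 < M := by linarith only [hV, hM]
  have hK0 : 0 < K := by linarith only [hV, hK]
  have hP0 : 0 < P := lt_of_lt_of_le (mul_pos hM0 hK0) h
  have hsM := Real.sqrt_nonneg M
  have hsK := Real.sqrt_nonneg K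
  have hsM2 := Real.sq_sqrt hM0.le
  have hsK2 := Real.sq_sqrt hK0.le
  have hV0 : 0 < Real.sqrt V := Real.sqrt_pos.2 (by linarith only [hV])
  have hVM : Real.sqrt V ≤ Real.sqrt M := Real.sqrt_le_sqrt hM
  have hVK : Real.sqrt V ≤ Real.sqrt K := Real.sqrt_le_sqrt hK
  set a := Real.sqrt M with ha
  set b := Real.sqrt K with hb
  have h1 : Real.sqrt ((M + Q ^ 2) * (K + Q ^ 2)) ≤ (a + Q) * (b + Q) := by
    rw [Real.sqrt_le_left (by positivity)]
    rw [← hsM2, ← hsK2, mul_pow]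
    refine mul_le_mul ?_ ?_ (by positivity) (by positivity)
    · nlinarith only [mul_nonneg hsM hQ, hsM, hQ]
    · nlinarith only [mul_nonneg hsK hQ, hsK, hQ]
  have h2 : Real.sqrt (M * K) = a * b := Real.sqrt_mul hM0.le K
  have h3 : a * b ≤ Real.sqrt P := by
    rw [← h2]
    exact Real.sqrt_le_sqrt h
  have h4 : a * b * (a * b) ≤ P := by
    have h5 : a * b * (a * b) = M * K := by rw [← hsM2, ← hsK2]; ring
    linarith only [h, h5]
  have h5 : a * b * a ≤ P / Real.sqrt V := by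
    rw [le_div_iff₀ hV0]
    calc a * b * a * Real.sqrt V ≤ a * b * a * b :=
          mul_le_mul_of_nonneg_left hVK (by positivity)
      _ = a * b * (a * b) := by ring
      _ ≤ P := h4
  have h6 : a * b * b ≤ P / Real.sqrt V := by
    rw [le_div_iff₀ hV0]
    calc a * b * b * Real.sqrt V ≤ a * b * b * a :=
          mul_le_mul_of_nonneg_left hVM (by positivity)
      _ = a * b * (a * b) := by ring
      _ ≤ P := h4
  rw [h2]
  calc Real.sqrt ((M + Q ^ 2) * (K + Q ^ 2)) * (a * b) ≤ ((a + Q) * (b + Q)) * (a * b) :=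
        mul_le_mul_of_nonneg_right h1 (by positivity)
    _ = a * b * (a * b) + Q * (a * b * a) + Q * (a * b * b) + Q ^ 2 * (a * b) := by ring
    _ ≤ P + Q * (P / Real.sqrt V) + Q * (P / Real.sqrt V) + Q ^ 2 * Real.sqrt P := by
        have e1 := mul_le_mul_of_nonneg_left h5 hQ
        have e2 := mul_le_mul_of_nonneg_left h6 hQ
        have e3 := mul_le_mul_of_nonneg_left h3 (by positivity : (0:ℝ) ≤ Q ^ 2)
        linarith only [h4, e1, e2, e3]
    _ ≤ 2 * (P + Q * P / Real.sqrt V + Q ^ 2 * Real.sqrt P) := by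
        have e1 : Q * P / Real.sqrt V = Q * (P / Real.sqrt V) := by ring
        have e2 : 0 ≤ Q ^ 2 * Real.sqrt P := by positivity
        rw [e1]
        linarith only [hP0, e2]

/-- Proof. `L = log P`. If `M K ≥ P` the sum is `0` (`kf P (mk) = 0` for `mk > P`). Otherwise `prim_index`, `sep`
with `f = aV V · χ`, `g = Λ · χ` (for every `τ`: `cs_ls` with `f m = aV V m τ m`, `g k = Λ(k) τ k`),
`∑_{m ≤ 2M} τ(m)² ≤ 2M (1 + log 2M)³` (`sum_tau_sq_le`, `abs_aV_le`),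
`∑_{k ∈ (K,2K]} Λ(k)² ≤ log(2K) ψ(2K) ≤ 12 K log(2K)` (`Chebyshev.psi_le_const_mul_self`). Finally
`((M+Q²)(K+Q²) M K)^(1/2) ≤ MK + Q√(MK)(√M + √K) + Q²√(MK)` and
`√(MK)·√M = MK/√K ≤ P/√V`, same for the other (`M, K ≥ V`, `MK ≤ P`). -/
theorem typeII_mean : ∃ C : ℝ, 1 ≤ C ∧ ∀ P Q V M K : ℕ, 3 ≤ P → 1 ≤ Q → 1 ≤ V → V ≤ M → V ≤ K →
    ∑ q ∈ Icc 1 Q, ((q : ℝ) / q.totient) *
      prim q (fun χ => ‖∑ m ∈ Ioc M (2 * M), ∑ k ∈ Ioc K (2 * K),
        (aV V m : ℂ) * (vm k : ℂ) * (χ ((m * k : ℕ) : ZMod q) * (kf P (m * k) : ℂ))‖) ≤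
      C * Real.log P ^ 4 * (P + Q * P / Real.sqrt V + (Q : ℝ) ^ 2 * Real.sqrt P) := by
  refine ⟨1152, by norm_num, ?_⟩
  intro P Q V M K hP hQ hV hVM hVK
  have hL := b09_log P hP
  have hRHS : 0 ≤ (P : ℝ) + Q * P / Real.sqrt V + (Q : ℝ) ^ 2 * Real.sqrt P := by positivity
  rcases le_or_gt P (M * K) with h | h
  · refine le_trans (le_of_eq ?_) (by positivity :
      0 ≤ 1152 * Real.log P ^ 4 * (P + Q * P / Real.sqrt V + (Q : ℝ) ^ 2 * Real.sqrt P))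
    refine Finset.sum_eq_zero fun q _ => ?_
    have h1 : prim q (fun χ => ‖∑ m ∈ Ioc M (2 * M), ∑ k ∈ Ioc K (2 * K),
        (aV V m : ℂ) * (vm k : ℂ) * (χ ((m * k : ℕ) : ZMod q) * (kf P (m * k) : ℂ))‖) =
        prim q (fun χ => 0 * ‖χ 0‖) := by
      congr 1
      funext χ
      rw [b09_zero P M K h q (aV V) vm χ, zero_mul]
    rw [h1, prim_mul, zero_mul, mul_zero]
  · have hM1 : 1 ≤ M := hV.trans hVM
    have hK1 : 1 ≤ K := hV.trans hVK
    have hMP : M ≤ P := (Nat.le_mul_of_pos_right M hK1).trans h.le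
    have hKP : K ≤ P := (Nat.le_mul_of_pos_left K hM1).trans h.le
    obtain ⟨ι, I, qq, cc, hqq, hidx⟩ := prim_index Q
    rw [hidx (fun q => (q : ℝ) / q.totient) (fun q χ => ‖∑ m ∈ Ioc M (2 * M), ∑ k ∈ Ioc K (2 * K),
        (aV V m : ℂ) * (vm k : ℂ) * (χ ((m * k : ℕ) : ZMod q) * (kf P (m * k) : ℂ))‖)]
    set E : ℝ := 8 * Real.sqrt (((M : ℝ) + (Q : ℝ) ^ 2) * ((K : ℝ) + (Q : ℝ) ^ 2)) *
        (Real.sqrt (54 * M * Real.log P ^ 3) * Real.sqrt (24 * K * Real.log P)) with hE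
    have hsep := sep P hP I (fun i => ((qq i : ℕ) : ℝ) / (qq i).totient)
      (fun i _ => by positivity) (fun i m => (aV V m : ℂ) * cc i (m : ZMod (qq i)))
      (fun i k => (vm k : ℂ) * cc i (k : ZMod (qq i))) (Ioc M (2 * M)) (Ioc K (2 * K))
      (fun m hm => by rw [Finset.mem_Ioc] at hm; omega)
      (fun m hm => by rw [Finset.mem_Ioc] at hm; omega) E (by
        intro τ hτ
        have h1 := cs_ls M K Q hQ (fun m => (aV V m : ℂ) * τ m) (fun k => (vm k : ℂ) * τ k)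
        rw [hidx (fun q => (q : ℝ) / q.totient) (fun q χ =>
          ‖∑ m ∈ Ioc M (2 * M), ((aV V m : ℂ) * τ m) * χ (m : ZMod q)‖ *
          ‖∑ k ∈ Ioc K (2 * K), ((vm k : ℂ) * τ k) * χ (k : ZMod q)‖)] at h1
        have h2 := b09_aV P V M hP hM1 hMP τ hτ
        have h3 := b09_vm P K hP hK1 hKP τ hτ
        refine le_trans (le_of_eq ?_) (h1.trans ?_)
        · refine Finset.sum_congr rfl fun i _ => ?_
          have e1 : ∑ m ∈ Ioc M (2 * M), (aV V m : ℂ) * cc i (m : ZMod (qq i)) * τ m =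
              ∑ m ∈ Ioc M (2 * M), ((aV V m : ℂ) * τ m) * cc i (m : ZMod (qq i)) :=
            Finset.sum_congr rfl fun m _ => by ring
          have e2 : ∑ k ∈ Ioc K (2 * K), (vm k : ℂ) * cc i (k : ZMod (qq i)) * τ k =
              ∑ k ∈ Ioc K (2 * K), ((vm k : ℂ) * τ k) * cc i (k : ZMod (qq i)) :=
            Finset.sum_congr rfl fun m _ => by ring
          rw [e1, e2]
        · rw [hE]
          refine mul_le_mul_of_nonneg_left ?_ (by positivity)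
          exact mul_le_mul (Real.sqrt_le_sqrt h2) (Real.sqrt_le_sqrt h3) (Real.sqrt_nonneg _)
            (Real.sqrt_nonneg _))
    have hE2 : E = 288 * Real.log P ^ 2 *
        (Real.sqrt (((M : ℝ) + (Q : ℝ) ^ 2) * ((K : ℝ) + (Q : ℝ) ^ 2)) *
          Real.sqrt ((M : ℝ) * K)) := by
      have e1 : Real.sqrt (54 * M * Real.log P ^ 3) * Real.sqrt (24 * K * Real.log P) =
          36 * Real.log P ^ 2 * Real.sqrt ((M : ℝ) * K) := by
        rw [← Real.sqrt_mul (by positivity)]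
        have e2 : 54 * (M : ℝ) * Real.log P ^ 3 * (24 * K * Real.log P) =
            (36 * Real.log P ^ 2) ^ 2 * ((M : ℝ) * K) := by ring
        rw [e2, Real.sqrt_mul (by positivity), Real.sqrt_sq (by positivity)]
      rw [hE, e1]
      ring
    have hMK : (M : ℝ) * K ≤ P := by exact_mod_cast h.le
    have hfin := b09_sqrt (P : ℝ) Q V M K (Nat.cast_nonneg _) (by exact_mod_cast hV)
      (by exact_mod_cast hVM) (by exact_mod_cast hVK) hMK
    refine le_trans (le_of_eq ?_) (hsep.trans ?_)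
    · refine Finset.sum_congr rfl fun i _ => ?_
      congr 2
      refine Finset.sum_congr rfl fun m _ => Finset.sum_congr rfl fun k _ => ?_
      rw [Nat.cast_mul, map_mul]
      ring
    · rw [hE2]
      calc 2 * Real.log P * (288 * Real.log P ^ 2 *
            (Real.sqrt (((M : ℝ) + (Q : ℝ) ^ 2) * ((K : ℝ) + (Q : ℝ) ^ 2)) *
              Real.sqrt ((M : ℝ) * K)))
          = 576 * Real.log P ^ 3 * (Real.sqrt (((M : ℝ) + (Q : ℝ) ^ 2) * ((K : ℝ) + (Q : ℝ) ^ 2)) *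
              Real.sqrt ((M : ℝ) * K)) := by ring
        _ ≤ 576 * Real.log P ^ 3 * (2 * (P + Q * P / Real.sqrt V + (Q : ℝ) ^ 2 * Real.sqrt P)) :=
            mul_le_mul_of_nonneg_left hfin (by positivity)
        _ = 1152 * Real.log P ^ 3 * (P + Q * P / Real.sqrt V + (Q : ℝ) ^ 2 * Real.sqrt P) := by
            ring
        _ ≤ 1152 * Real.log P ^ 4 * (P + Q * P / Real.sqrt V + (Q : ℝ) ^ 2 * Real.sqrt P) := by
            refine mul_le_mul_of_nonneg_right ?_ hRHS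
            have e1 : Real.log P ^ 3 ≤ Real.log P ^ 4 := pow_le_pow_right₀ hL (by norm_num)
            linarith only [e1]

end Pool.Agent.Lib.MP_d9bc60_nt.AP
end

section
/-! Row B11 (about 120 lines): the mean value theorem. -/

set_option autoImplicit false

namespace Pool.Agent.Lib.MP_d9bc60_nt.AP

open Finset Pool.Agent.Lib.MP_d9bc60_nt.UV

theorem b11_logJ (P : ℕ) (hP : 3 ≤ P) : ((Nat.log 2 P + 1 : ℕ) : ℝ) ≤ 3 * Real.log P := by
  have hP0 : (0 : ℝ) < P := by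
    have : 0 < P := by omega
    exact_mod_cast this
  have h1 : (2 : ℕ) ^ Nat.log 2 P ≤ P := Nat.pow_log_le_self 2 (by omega)
  have h2 : (2 : ℝ) ^ Nat.log 2 P ≤ P := by exact_mod_cast h1
  have h3 : (Nat.log 2 P : ℝ) * Real.log 2 ≤ Real.log P := by
    rw [← Real.log_pow]
    exact Real.log_le_log (by positivity) h2
  have h4 : (1 : ℝ) ≤ Real.log P := by
    rw [← Real.log_exp 1]
    apply Real.log_le_log (Real.exp_pos _)
    have h5 : Real.exp 1 < 3 := by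
      have := Real.exp_one_lt_d9
      linarith only [this]
    have h6 : (3 : ℝ) ≤ P := by exact_mod_cast hP
    linarith only [h5, h6]
  have h5 := Real.log_two_gt_d9
  have h6 : (0 : ℝ) ≤ Nat.log 2 P := Nat.cast_nonneg _
  push_cast
  nlinarith only [h3, h4, h5]

/-- Proof. `S1_vaughan` with `J ≤ 3 log P`, `2^J > P` (`J = Nat.log 2 P + 1`), `prim_mono`, `prim_sum`,
`prim_const`; `∑_{q ≤ Q} (q/φ(q)) φ(q) √q (1 + log q) ≤ Q² √Q (1 + log Q)`; `typeII_mean` for each of the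
`J² ≤ 9 log² P` pieces. -/
theorem mean_value : ∃ C : ℝ, 1 ≤ C ∧ ∀ P Q V : ℕ, 3 ≤ P → 1 ≤ Q → Q ≤ P → 1 ≤ V →
    ∑ q ∈ Icc 2 Q, ((q : ℝ) / q.totient) * prim q (fun χ => S1 P χ) ≤
      C * Real.log P ^ 6 * (P + Q * P / Real.sqrt V + (Q : ℝ) ^ 2 * Real.sqrt P +
        (Q : ℝ) ^ 2 * Real.sqrt Q * (V : ℝ) ^ 2) := by
  obtain ⟨C2, hC2, hII⟩ := typeII_mean
  refine ⟨40 + 9 * C2, by linarith only [hC2], fun P Q V hP hQ hQP hV => ?_⟩
  set L := Real.log P with hL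
  have hL1 : 1 ≤ L := by
    rw [hL, ← Real.log_exp 1]
    apply Real.log_le_log (Real.exp_pos _)
    have h5 : Real.exp 1 < 3 := by
      have := Real.exp_one_lt_d9
      linarith only [this]
    have h6 : (3 : ℝ) ≤ P := by exact_mod_cast hP
    linarith only [h5, h6]
  set J := Nat.log 2 P + 1 with hJdef
  have hJ : P < 2 ^ J := Nat.lt_pow_succ_log_self (by norm_num) P
  have hJ3 : (J : ℝ) ≤ 3 * L := b11_logJ P hP
  set G : ℕ → ℕ → (q : ℕ) → DirichletCharacter ℂ q → ℝ := fun j i q χ =>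
    ‖∑ m ∈ Ioc (2 ^ j * V) (2 * (2 ^ j * V)), ∑ k ∈ Ioc (2 ^ i * V) (2 * (2 ^ i * V)),
      (aV V m : ℂ) * (vm k : ℂ) * (χ ((m * k : ℕ) : ZMod q) * (kf P (m * k) : ℂ))‖ with hG
  set B : ℝ := (P : ℝ) + Q * P / Real.sqrt V + (Q : ℝ) ^ 2 * Real.sqrt P with hB
  have hB0 : 0 ≤ B := by positivity
  have hQR : (1 : ℝ) ≤ Q := by exact_mod_cast hQ
  have hlogQ : Real.log Q ≤ L := by
    apply Real.log_le_log (by linarith only [hQR])
    exact_mod_cast hQP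
  set D : ℝ := 40 * L ^ 3 * (V : ℝ) ^ 2 * Real.sqrt Q with hD
  have hD0 : 0 ≤ D := by positivity
  -- one modulus
  have hone : ∀ q ∈ Icc 2 Q, ((q : ℝ) / q.totient) * prim q (fun χ => S1 P χ) ≤
      Q * D + ∑ j ∈ range J, ∑ i ∈ range J, ((q : ℝ) / q.totient) * prim q (G j i q) := by
    intro q hq
    rw [mem_Icc] at hq
    have hq0 : q ≠ 0 := by omega
    haveI : NeZero q := ⟨hq0⟩
    have hqQ : (q : ℝ) ≤ Q := by exact_mod_cast hq.2
    have hq1 : (1 : ℝ) ≤ q := by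
      have : 1 ≤ q := by omega
      exact_mod_cast this
    have htot : (0 : ℝ) < q.totient := by
      have := Nat.totient_pos.2 (show 0 < q by omega)
      exact_mod_cast this
    have h1 : prim q (fun χ => S1 P χ) ≤ prim q (fun χ =>
        20 * L ^ 2 * (V : ℝ) ^ 2 * (Real.sqrt q * (1 + Real.log q)) +
          ∑ j ∈ range J, ∑ i ∈ range J, G j i q χ) :=
      prim_mono q _ _ fun χ hχ => S1_vaughan P q V J hP hq.1 hV hJ χ hχ
    rw [prim_add, prim_sum] at h1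
    simp_rw [prim_sum] at h1
    have hlogq : Real.log q ≤ L := (Real.log_le_log (by linarith only [hq1]) hqQ).trans hlogQ
    have hlogq0 : 0 ≤ Real.log q := Real.log_nonneg hq1
    have hsq : Real.sqrt q ≤ Real.sqrt Q := Real.sqrt_le_sqrt hqQ
    have h2 : (20 * L ^ 2 * (V : ℝ) ^ 2 * (Real.sqrt q * (1 + Real.log q))) ≤ D := by
      have h3 : Real.sqrt q * (1 + Real.log q) ≤ Real.sqrt Q * (2 * L) :=
        mul_le_mul hsq (by linarith only [hL1, hlogq]) (by positivity) (Real.sqrt_nonneg _)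
      calc (20 * L ^ 2 * (V : ℝ) ^ 2 * (Real.sqrt q * (1 + Real.log q)))
          ≤ 20 * L ^ 2 * (V : ℝ) ^ 2 * (Real.sqrt Q * (2 * L)) :=
            mul_le_mul_of_nonneg_left h3 (by positivity)
        _ = D := by rw [hD]; ring
    have h4 := prim_const q (20 * L ^ 2 * (V : ℝ) ^ 2 * (Real.sqrt q * (1 + Real.log q)))
      (by positivity)
    have h5 : (q.totient : ℝ) * (20 * L ^ 2 * (V : ℝ) ^ 2 * (Real.sqrt q * (1 + Real.log q))) ≤
        q.totient * D := mul_le_mul_of_nonneg_left h2 htot.le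
    have h6 : prim q (fun χ => S1 P χ) ≤ q.totient * D +
        ∑ j ∈ range J, ∑ i ∈ range J, prim q (G j i q) := by linarith only [h1, h4, h5]
    have hw : (0 : ℝ) ≤ (q : ℝ) / q.totient := by positivity
    calc ((q : ℝ) / q.totient) * prim q (fun χ => S1 P χ)
        ≤ ((q : ℝ) / q.totient) * (q.totient * D +
          ∑ j ∈ range J, ∑ i ∈ range J, prim q (G j i q)) := mul_le_mul_of_nonneg_left h6 hw
      _ = q * D + ∑ j ∈ range J, ∑ i ∈ range J, ((q : ℝ) / q.totient) * prim q (G j i q) := by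
          rw [mul_add, Finset.mul_sum]
          congr 1
          · field_simp
          · exact sum_congr rfl fun j _ => by rw [Finset.mul_sum]
      _ ≤ _ := by
          have := mul_le_mul_of_nonneg_right hqQ hD0
          linarith only [this]
  have hsum := sum_le_sum hone
  rw [sum_add_distrib, sum_const, nsmul_eq_mul] at hsum
  have hcard : ((Icc 2 Q).card : ℝ) ≤ Q := by
    rw [Nat.card_Icc]
    have : Q + 1 - 2 ≤ Q := by omega
    exact_mod_cast this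
  have h1 : ((Icc 2 Q).card : ℝ) * (Q * D) ≤ Q * (Q * D) :=
    mul_le_mul_of_nonneg_right hcard (by positivity)
  have h2 : ∑ q ∈ Icc 2 Q, ∑ j ∈ range J, ∑ i ∈ range J, ((q : ℝ) / q.totient) * prim q (G j i q) ≤
      (J : ℝ) * (J * (C2 * L ^ 4 * B)) := by
    rw [sum_comm]
    calc ∑ j ∈ range J, ∑ q ∈ Icc 2 Q, ∑ i ∈ range J, ((q : ℝ) / q.totient) * prim q (G j i q)
        ≤ ∑ j ∈ range J, (J * (C2 * L ^ 4 * B)) := by
          apply sum_le_sum
          intro j _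
          rw [sum_comm]
          calc ∑ i ∈ range J, ∑ q ∈ Icc 2 Q, ((q : ℝ) / q.totient) * prim q (G j i q)
              ≤ ∑ i ∈ range J, (C2 * L ^ 4 * B) := by
                apply sum_le_sum
                intro i _
                have hM : V ≤ 2 ^ j * V := Nat.le_mul_of_pos_left _ (by positivity)
                have hK : V ≤ 2 ^ i * V := Nat.le_mul_of_pos_left _ (by positivity)
                refine le_trans ?_ (hII P Q V (2 ^ j * V) (2 ^ i * V) hP hQ hV hM hK)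
                apply sum_le_sum_of_subset_of_nonneg
                · intro q hq
                  rw [mem_Icc] at hq ⊢
                  omega
                · intro q _ _
                  apply mul_nonneg (by positivity)
                  exact prim_nonneg q _ fun χ => norm_nonneg _
            _ = J * (C2 * L ^ 4 * B) := by rw [sum_const, card_range, nsmul_eq_mul]
      _ = J * (J * (C2 * L ^ 4 * B)) := by rw [sum_const, card_range, nsmul_eq_mul]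
  have hJ0 : (0 : ℝ) ≤ J := Nat.cast_nonneg _
  have h3 : (J : ℝ) * (J * (C2 * L ^ 4 * B)) ≤ 9 * C2 * L ^ 6 * B := by
    have h4 : (J : ℝ) * J ≤ (3 * L) * (3 * L) := mul_le_mul hJ3 hJ3 hJ0 (by positivity)
    have h5 : 0 ≤ C2 * L ^ 4 * B := by positivity
    calc (J : ℝ) * (J * (C2 * L ^ 4 * B)) = (J * J) * (C2 * L ^ 4 * B) := by ring
      _ ≤ (3 * L) * (3 * L) * (C2 * L ^ 4 * B) := mul_le_mul_of_nonneg_right h4 h5
      _ = 9 * C2 * L ^ 6 * B := by ring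
  set R : ℝ := (Q : ℝ) ^ 2 * Real.sqrt Q * (V : ℝ) ^ 2 with hR
  have hR0 : 0 ≤ R := by positivity
  have h4 : (Q : ℝ) * (Q * D) ≤ 40 * L ^ 6 * R := by
    have h5 : L ^ 3 ≤ L ^ 6 := pow_le_pow_right₀ hL1 (by norm_num)
    calc (Q : ℝ) * (Q * D) = 40 * L ^ 3 * R := by rw [hD, hR]; ring
      _ ≤ 40 * L ^ 6 * R := by
        apply mul_le_mul_of_nonneg_right _ hR0
        linarith only [h5]
  have h6 : 0 ≤ L ^ 6 := by positivity
  calc ∑ q ∈ Icc 2 Q, ((q : ℝ) / q.totient) * prim q (fun χ => S1 P χ)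
      ≤ 40 * L ^ 6 * R + 9 * C2 * L ^ 6 * B := by linarith only [hsum, h1, h2, h3, h4]
    _ ≤ (40 + 9 * C2) * L ^ 6 * (B + R) := by
      have h7 : 0 ≤ C2 * L ^ 6 * R := by positivity
      have h8 : 0 ≤ L ^ 6 * B := by positivity
      nlinarith only [h7, h8]

end Pool.Agent.Lib.MP_d9bc60_nt.AP
end

section
set_option autoImplicit false

/-! Row B18 (about 180 lines): the contribution of the large conductors. -/

namespace Pool.Agent.Lib.MP_d9bc60_nt.AP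

open Finset Pool.Agent.Lib.MP_d9bc60_nt.UV

theorem b18_prim_nonneg (q : ℕ) (F : DirichletCharacter ℂ q → ℝ) (hF : ∀ χ, 0 ≤ F χ) :
    0 ≤ prim q F := by
  classical
  unfold prim
  split_ifs with h
  · exact le_rfl
  · exact sum_nonneg fun χ _ => hF χ

theorem b18_S1_nonneg (P : ℕ) {q : ℕ} (χ : DirichletCharacter ℂ q) : 0 ≤ S1 P χ := norm_nonneg _

/-- the contribution of one dyadic interval -/
theorem b18_piece {C X : ℝ} {A : ℕ} {ε : ℝ} (hε : 0 < ε) (hC : 1 ≤ C) {P i D : ℕ} (hP : 3 ≤ P)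
    (hL : 0 < Real.log P) (hD : (D : ℝ) ≤ (P : ℝ) ^ (1 / 2 - ε)) (hiD : 2 ^ i ≤ D)
    (hiT : Real.log P ^ (A + 8) < 2 * (2 : ℝ) ^ i) (hiP : 2 ^ (i + 1) ≤ P)
    (h : X ≤ C * Real.log P ^ 6 * (P + ((2 ^ (i + 1) : ℕ) : ℝ) * P / Real.sqrt (⌈(P : ℝ) ^ (1 / 20 : ℝ)⌉₊ : ℕ) +
        ((2 ^ (i + 1) : ℕ) : ℝ) ^ 2 * Real.sqrt P +
        ((2 ^ (i + 1) : ℕ) : ℝ) ^ 2 * Real.sqrt ((2 ^ (i + 1) : ℕ) : ℝ) *
          ((⌈(P : ℝ) ^ (1 / 20 : ℝ)⌉₊ : ℕ) : ℝ) ^ 2)) :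
    ((2 : ℝ) ^ i)⁻¹ * X ≤
      C * Real.log P ^ 6 * (2 * P / Real.log P ^ (A + 8) + 2 * (P : ℝ) ^ (39 / 40 : ℝ) +
        4 * (P : ℝ) ^ (1 - ε) + 32 * (P : ℝ) ^ (17 / 20 : ℝ)) := by
  have hP1 : (1 : ℝ) ≤ P := by exact_mod_cast (by omega : 1 ≤ P)
  have hPp : (0 : ℝ) < P := by linarith only [hP1]
  obtain ⟨Y, hY⟩ : ∃ Y : ℝ, Y = (2 : ℝ) ^ i := ⟨_, rfl⟩
  have hYp : 0 < Y := by rw [hY]; positivity
  have hY1 : 1 ≤ Y := by rw [hY]; exact one_le_pow₀ (by norm_num)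
  have hcast : (((2 ^ (i + 1) : ℕ)) : ℝ) = 2 * Y := by rw [hY]; push_cast; ring
  have hYD : Y ≤ (P : ℝ) ^ (1 / 2 - ε) := by
    refine le_trans ?_ hD
    rw [hY]
    exact_mod_cast hiD
  have hsP : Real.sqrt P = (P : ℝ) ^ (1 / 2 : ℝ) := Real.sqrt_eq_rpow _
  have hYs : Y ≤ (P : ℝ) ^ (1 / 2 : ℝ) :=
    hYD.trans (Real.rpow_le_rpow_of_exponent_le hP1 (by linarith only [hε]))
  obtain ⟨V, hV⟩ : ∃ V : ℕ, V = ⌈(P : ℝ) ^ (1 / 20 : ℝ)⌉₊ := ⟨_, rfl⟩
  have hV0 : 1 ≤ (P : ℝ) ^ (1 / 20 : ℝ) := Real.one_le_rpow hP1 (by norm_num)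
  have hV1 : (P : ℝ) ^ (1 / 20 : ℝ) ≤ V := by rw [hV]; exact Nat.le_ceil _
  have hV2 : (V : ℝ) ≤ 2 * (P : ℝ) ^ (1 / 20 : ℝ) := by
    have := (Nat.ceil_lt_add_one (by positivity : 0 ≤ (P : ℝ) ^ (1 / 20 : ℝ))).le
    rw [← hV] at this
    linarith only [hV0, this]
  have hVs : (P : ℝ) ^ (1 / 40 : ℝ) ≤ Real.sqrt V := by
    apply Real.le_sqrt_of_sq_le
    rw [← Real.rpow_natCast, ← Real.rpow_mul hPp.le]
    norm_num
    exact hV1
  have hVq : (V : ℝ) ^ 2 ≤ 4 * (P : ℝ) ^ (1 / 10 : ℝ) := by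
    have h1 : (V : ℝ) ^ 2 ≤ (2 * (P : ℝ) ^ (1 / 20 : ℝ)) ^ 2 :=
      pow_le_pow_left₀ (by positivity) hV2 2
    have h2 : (2 * (P : ℝ) ^ (1 / 20 : ℝ)) ^ 2 = 4 * (P : ℝ) ^ (1 / 10 : ℝ) := by
      rw [mul_pow, ← Real.rpow_natCast ((P : ℝ) ^ (1 / 20 : ℝ)), ← Real.rpow_mul hPp.le]
      norm_num
    rwa [h2] at h1
  rw [← hV, hcast] at h
  rw [← hY]
  have hC0 : 0 ≤ C * Real.log P ^ 6 := by positivity
  have h1 := mul_le_mul_of_nonneg_left h (inv_nonneg.mpr hYp.le)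
  refine h1.trans ?_
  have e1 : Y⁻¹ * (C * Real.log P ^ 6 * (P + 2 * Y * P / Real.sqrt V + (2 * Y) ^ 2 * Real.sqrt P +
      (2 * Y) ^ 2 * Real.sqrt (2 * Y) * (V : ℝ) ^ 2)) =
      C * Real.log P ^ 6 * (P / Y + 2 * (P / Real.sqrt V) + 4 * (Y * Real.sqrt P) +
        4 * (Y * Real.sqrt (2 * Y) * (V : ℝ) ^ 2)) := by
    have : 0 < Real.sqrt V := lt_of_lt_of_le (by positivity) hVs
    field_simp
    ring
  rw [e1]
  refine mul_le_mul_of_nonneg_left ?_ hC0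
  have b1 : (P : ℝ) / Y ≤ 2 * P / Real.log P ^ (A + 8) := by
    rw [div_le_div_iff₀ hYp (by positivity)]
    rw [← hY] at hiT
    nlinarith only [mul_le_mul_of_nonneg_left hiT.le hPp.le, hiT, hPp]
  have b2 : (P : ℝ) / Real.sqrt V ≤ (P : ℝ) ^ (39 / 40 : ℝ) := by
    have c0 : 0 < (P : ℝ) ^ (1 / 40 : ℝ) := by positivity
    calc (P : ℝ) / Real.sqrt V ≤ P / (P : ℝ) ^ (1 / 40 : ℝ) :=
          div_le_div_of_nonneg_left hPp.le c0 hVs
      _ = (P : ℝ) ^ (39 / 40 : ℝ) := by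
          rw [div_eq_iff c0.ne', ← Real.rpow_add hPp]
          norm_num
  have b3 : Y * Real.sqrt P ≤ (P : ℝ) ^ (1 - ε) := by
    rw [hsP]
    calc Y * (P : ℝ) ^ (1 / 2 : ℝ) ≤ (P : ℝ) ^ (1 / 2 - ε) * (P : ℝ) ^ (1 / 2 : ℝ) :=
          mul_le_mul_of_nonneg_right hYD (by positivity)
      _ = (P : ℝ) ^ (1 - ε) := by
          rw [← Real.rpow_add hPp]
          congr 1
          ring
  have b4 : Y * Real.sqrt (2 * Y) * (V : ℝ) ^ 2 ≤ 8 * (P : ℝ) ^ (17 / 20 : ℝ) := by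
    have c1 : Real.sqrt (2 * Y) ≤ 2 * (P : ℝ) ^ (1 / 4 : ℝ) := by
      apply Real.sqrt_le_iff.mpr
      refine ⟨by positivity, ?_⟩
      rw [mul_pow, ← Real.rpow_natCast ((P : ℝ) ^ (1 / 4 : ℝ)), ← Real.rpow_mul hPp.le]
      norm_num
      norm_num at hYs
      linarith only [Real.rpow_nonneg hPp.le (1 / 2 : ℝ), hYp, hYs]
    calc Y * Real.sqrt (2 * Y) * (V : ℝ) ^ 2
        ≤ (P : ℝ) ^ (1 / 2 : ℝ) * (2 * (P : ℝ) ^ (1 / 4 : ℝ)) * (4 * (P : ℝ) ^ (1 / 10 : ℝ)) :=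
          mul_le_mul (mul_le_mul hYs c1 (Real.sqrt_nonneg _) (by positivity)) hVq (by positivity)
            (by positivity)
      _ = 8 * ((P : ℝ) ^ (1 / 2 : ℝ) * (P : ℝ) ^ (1 / 4 : ℝ) * (P : ℝ) ^ (1 / 10 : ℝ)) := by ring
      _ = 8 * (P : ℝ) ^ (17 / 20 : ℝ) := by
          rw [← Real.rpow_add hPp, ← Real.rpow_add hPp]
          norm_num
  linarith only [b1, b2, b3, b4]

theorem large_part (A : ℕ) (ε : ℝ) (hε : 0 < ε) : ∃ P₀ : ℕ, ∀ P : ℕ, P₀ ≤ P → ∀ D : ℕ,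
    (D : ℝ) ≤ (P : ℝ) ^ (1 / 2 - ε) →
    ∑ q ∈ (Icc 2 D).filter (fun q : ℕ => Real.log P ^ (A + 8) < (q : ℝ)),
      (1 / (q.totient : ℝ)) * prim q (fun χ => S1 P χ) ≤ (P : ℝ) / Real.log P ^ A := by
  obtain ⟨C, hC, hmv⟩ := mean_value
  obtain ⟨δ, hδ0, hδ1, hδ2⟩ : ∃ δ : ℝ, 0 < δ ∧ δ ≤ 1 / 40 ∧ δ ≤ ε :=
    ⟨min (1 / 40) ε, lt_min (by norm_num) hε, min_le_left _ _, min_le_right _ _⟩
  -- growth
  have hgrow : ∀ᶠ P : ℕ in Filter.atTop, 456 * C * Real.log P ^ (A + 7) ≤ (P : ℝ) ^ δ := by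
    have h1 := (isLittleO_log_rpow_rpow_atTop ((A + 7 : ℕ) : ℝ) hδ0).bound
      (show 0 < (456 * C)⁻¹ by positivity)
    have h2 := tendsto_natCast_atTop_atTop (R := ℝ) |>.eventually (h1.and (Filter.eventually_ge_atTop 1))
    filter_upwards [h2] with P hP
    obtain ⟨hP1, hP2⟩ := hP
    rw [Real.rpow_natCast, Real.norm_of_nonneg (by positivity), Real.norm_of_nonneg (by positivity)] at hP1
    rw [inv_mul_eq_div, le_div_iff₀ (by positivity)] at hP1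
    linarith only [hP1]
  have hlog : ∀ᶠ P : ℕ in Filter.atTop, max 2 (8 * C) ≤ Real.log P :=
    (Real.tendsto_log_atTop.comp tendsto_natCast_atTop_atTop).eventually_ge_atTop _
  obtain ⟨P₀, hP₀⟩ := Filter.eventually_atTop.mp
    (hgrow.and (hlog.and (Filter.eventually_ge_atTop 4)))
  refine ⟨P₀, fun P hP D hD => ?_⟩
  obtain ⟨g1, g2, g3⟩ := hP₀ P hP
  have hL2 : 2 ≤ Real.log P := (le_max_left _ _).trans g2
  have hL8 : 8 * C ≤ Real.log P := (le_max_right _ _).trans g2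
  have hLp : 0 < Real.log P := by linarith only [hC, hδ0, hδ1, hL8]
  have hP1 : (1 : ℝ) ≤ P := by exact_mod_cast (by omega : 1 ≤ P)
  have hPp : (0 : ℝ) < P := by linarith only [hδ0, hδ1, hP1]
  have hP4 : (4 : ℝ) ≤ P := by exact_mod_cast g3
  obtain ⟨L, hL⟩ : ∃ L : ℝ, L = Real.log P := ⟨_, rfl⟩
  obtain ⟨W, hW⟩ : ∃ W : ℝ, W = C * Real.log P ^ 6 * (2 * P / Real.log P ^ (A + 8) +
      2 * (P : ℝ) ^ (39 / 40 : ℝ) + 4 * (P : ℝ) ^ (1 - ε) + 32 * (P : ℝ) ^ (17 / 20 : ℝ)) := ⟨_, rfl⟩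
  have hW0 : 0 ≤ W := by rw [hW]; positivity
  -- twice the square root is at most `P`
  have hDP : 2 * D ≤ P := by
    have h1 : (D : ℝ) ≤ (P : ℝ) ^ (1 / 2 : ℝ) :=
      hD.trans (Real.rpow_le_rpow_of_exponent_le hP1 (by linarith only [hε]))
    rw [← Real.sqrt_eq_rpow] at h1
    have h2 : Real.sqrt P * Real.sqrt P = P := Real.mul_self_sqrt hPp.le
    have h3 : 2 ≤ Real.sqrt P := Real.le_sqrt_of_sq_le (by norm_num; exact_mod_cast g3)
    have h4 : (2 : ℝ) * D ≤ P := by nlinarith only [h2, h1, h3, hδ0, hδ1]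
    exact_mod_cast h4
  have hDP' : D ≤ P := by omega
  obtain ⟨s, hs⟩ : ∃ s : Finset ℕ, s = (Icc 2 D).filter (fun q : ℕ => Real.log P ^ (A + 8) < (q : ℝ)) :=
    ⟨_, rfl⟩
  rw [← hs]
  have hsm : ∀ q ∈ s, 2 ≤ q ∧ q ≤ D ∧ Real.log P ^ (A + 8) < (q : ℝ) := by
    intro q hq
    rw [hs, mem_filter, mem_Icc] at hq
    exact ⟨hq.1.1, hq.1.2, hq.2⟩
  have hmaps : ∀ q ∈ s, Nat.log 2 q ∈ range (Nat.log 2 P + 1) := by
    intro q hq
    rw [mem_range]
    have := Nat.log_mono_right (b := 2) ((hsm q hq).2.1.trans hDP')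
    omega
  rw [← sum_fiberwise_of_maps_to hmaps]
  have hpiece : ∀ i ∈ range (Nat.log 2 P + 1), ∑ q ∈ s.filter (fun q => Nat.log 2 q = i),
      (1 / (q.totient : ℝ)) * prim q (fun χ => S1 P χ) ≤ W := by
    intro i _
    rcases (s.filter (fun q => Nat.log 2 q = i)).eq_empty_or_nonempty with he | ⟨q₀, hq₀⟩
    · rw [he, sum_empty]
      exact hW0
    · rw [mem_filter] at hq₀
      obtain ⟨hq₀s, hq₀i⟩ := hq₀
      obtain ⟨a1, a2, a3⟩ := hsm q₀ hq₀s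
      have b1 : 2 ^ i ≤ q₀ := by rw [← hq₀i]; exact Nat.pow_log_le_self 2 (by omega)
      have b2 : q₀ < 2 ^ (i + 1) := by
        rw [← hq₀i]
        exact Nat.lt_pow_succ_log_self (by norm_num) q₀
      have b3 : 2 ^ (i + 1) ≤ P := by
        rw [pow_succ]
        omega
      have b4 : Real.log P ^ (A + 8) < 2 * (2 : ℝ) ^ i := by
        have : (q₀ : ℝ) ≤ ((2 ^ (i + 1) : ℕ) : ℝ) := by exact_mod_cast b2.le
        push_cast at this
        rw [pow_succ] at this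
        linarith only [a3, this]
      have hV : 1 ≤ ⌈(P : ℝ) ^ (1 / 20 : ℝ)⌉₊ := by
        rw [Nat.one_le_ceil_iff]
        positivity
      have hm := hmv P (2 ^ (i + 1)) ⌈(P : ℝ) ^ (1 / 20 : ℝ)⌉₊ (by omega) (Nat.one_le_two_pow) b3 hV
      have hp := b18_piece (A := A) hε hC (by omega) hLp hD (b1.trans a2) b4 b3 hm
      rw [hW]
      refine le_trans ?_ hp
      rw [mul_sum]
      have hsub : s.filter (fun q => Nat.log 2 q = i) ⊆ Icc 2 (2 ^ (i + 1)) := by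
        intro q hq
        rw [mem_filter] at hq
        rw [mem_Icc]
        refine ⟨(hsm q hq.1).1, ?_⟩
        rw [← hq.2]
        exact (Nat.lt_pow_succ_log_self (by norm_num) q).le
      refine le_trans (sum_le_sum (g := fun q : ℕ => ((2 : ℝ) ^ i)⁻¹ * (((q : ℝ) / q.totient) *
        prim q (fun χ => S1 P χ))) ?_) (sum_le_sum_of_subset_of_nonneg hsub ?_)
      · intro q hq
        rw [mem_filter] at hq
        have c0 : 0 ≤ prim q (fun χ => S1 P χ) := b18_prim_nonneg q _ fun χ => b18_S1_nonneg P χ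
        have c1 : (2 : ℝ) ^ i ≤ q := by
          have : 2 ^ i ≤ q := by rw [← hq.2]; exact Nat.pow_log_le_self 2 (by
            have := (hsm q hq.1).1
            omega)
          exact_mod_cast this
        have c2 : 1 / (q.totient : ℝ) ≤ ((2 : ℝ) ^ i)⁻¹ * ((q : ℝ) / q.totient) := by
          have c3 : 1 ≤ ((2 : ℝ) ^ i)⁻¹ * (q : ℝ) := by
            rw [inv_mul_eq_div, one_le_div (by positivity)]
            exact c1
          calc 1 / (q.totient : ℝ) ≤ (((2 : ℝ) ^ i)⁻¹ * (q : ℝ)) / q.totient :=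
                div_le_div_of_nonneg_right c3 (Nat.cast_nonneg _)
            _ = _ := by ring
        calc 1 / (q.totient : ℝ) * prim q (fun χ => S1 P χ)
            ≤ (((2 : ℝ) ^ i)⁻¹ * ((q : ℝ) / q.totient)) * prim q (fun χ => S1 P χ) :=
              mul_le_mul_of_nonneg_right c2 c0
          _ = _ := by ring
      · intro q _ _
        have c0 : 0 ≤ prim q (fun χ => S1 P χ) := b18_prim_nonneg q _ fun χ => b18_S1_nonneg P χ
        positivity
  refine (sum_le_sum hpiece).trans ?_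
  rw [sum_const, card_range, nsmul_eq_mul]
  -- the number of intervals
  have hcount : ((Nat.log 2 P + 1 : ℕ) : ℝ) ≤ 2 * L + 1 := by
    have h1 : ((2 ^ Nat.log 2 P : ℕ) : ℝ) ≤ P := by
      exact_mod_cast Nat.pow_log_le_self 2 (by omega)
    push_cast at h1
    have h2 := Real.log_le_log (by positivity) h1
    rw [Real.log_pow] at h2
    have h3 := Real.log_two_gt_d9
    have h4 : (0 : ℝ) ≤ (Nat.log 2 P : ℝ) := Nat.cast_nonneg _
    push_cast
    rw [hL]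
    nlinarith only [hC, hδ0, hδ1, hL8, h2, h3]
  rw [← hL] at hL2 hL8 hLp g1 hW
  have hcount2 : ((Nat.log 2 P + 1 : ℕ) : ℝ) * W ≤ 3 * L * W :=
    mul_le_mul_of_nonneg_right (by linarith only [hC, hδ0, hδ1, hL8, hcount]) hW0
  refine hcount2.trans ?_
  rw [← hL]
  have hPδ : 0 < (P : ℝ) ^ (1 - δ) := by positivity
  have w1 : (P : ℝ) ^ (39 / 40 : ℝ) ≤ (P : ℝ) ^ (1 - δ) :=
    Real.rpow_le_rpow_of_exponent_le hP1 (by linarith only [hδ1])
  have w2 : (P : ℝ) ^ (1 - ε) ≤ (P : ℝ) ^ (1 - δ) :=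
    Real.rpow_le_rpow_of_exponent_le hP1 (by linarith only [hδ2])
  have w3 : (P : ℝ) ^ (17 / 20 : ℝ) ≤ (P : ℝ) ^ (1 - δ) :=
    Real.rpow_le_rpow_of_exponent_le hP1 (by linarith only [hδ0, hδ1])
  have w4 : (P : ℝ) ^ δ * (P : ℝ) ^ (1 - δ) = P := by
    rw [← Real.rpow_add hPp, add_sub_cancel, Real.rpow_one]
  have hLA : 0 < L ^ A := by positivity
  rw [le_div_iff₀ hLA, hW]
  have w5 : 3 * L * (C * L ^ 6 * (2 * P / L ^ (A + 8) + 2 * (P : ℝ) ^ (39 / 40 : ℝ) +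
      4 * (P : ℝ) ^ (1 - ε) + 32 * (P : ℝ) ^ (17 / 20 : ℝ))) * L ^ A ≤
      6 * C * P / L + 114 * C * L ^ (A + 7) * (P : ℝ) ^ (1 - δ) := by
    have v1 : 3 * L * (C * L ^ 6 * (2 * P / L ^ (A + 8) + 2 * (P : ℝ) ^ (39 / 40 : ℝ) +
        4 * (P : ℝ) ^ (1 - ε) + 32 * (P : ℝ) ^ (17 / 20 : ℝ))) * L ^ A =
        6 * C * P / L + 3 * C * L ^ (A + 7) * (2 * (P : ℝ) ^ (39 / 40 : ℝ) +
        4 * (P : ℝ) ^ (1 - ε) + 32 * (P : ℝ) ^ (17 / 20 : ℝ)) := by
      have e : L ^ (A + 8) = L ^ A * L ^ 7 * L := by ring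
      rw [e]
      field_simp
      ring
    rw [v1]
    have v2 : 3 * C * L ^ (A + 7) * (2 * (P : ℝ) ^ (39 / 40 : ℝ) +
        4 * (P : ℝ) ^ (1 - ε) + 32 * (P : ℝ) ^ (17 / 20 : ℝ)) ≤
        3 * C * L ^ (A + 7) * (38 * (P : ℝ) ^ (1 - δ)) :=
      mul_le_mul_of_nonneg_left (by linarith only [w1, w2, w3]) (by positivity)
    linarith only [v2]
  refine w5.trans ?_
  have w6 : 6 * C * P / L ≤ 3 / 4 * P := by
    rw [div_le_iff₀ hLp]
    nlinarith only [hL8]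
  have w7 : 114 * C * L ^ (A + 7) * (P : ℝ) ^ (1 - δ) ≤ 1 / 4 * P := by
    have := mul_le_mul_of_nonneg_right g1 hPδ.le
    rw [w4] at this
    linarith only [this]
  linarith only [w6, w7]

end Pool.Agent.Lib.MP_d9bc60_nt.AP
end
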