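import Pool.Agent.Lib.MP_d9bc60_nt.AQ.QDefs
import Pool.Agent.Lib.MP_d9bc60_nt.UV.PSW
import Pool.Agent.Lib.MP_d9bc60_nt.AQ.QLS

section
/-! Row B12 (about 150 lines): small moduli. -/

set_option autoImplicit false

namespace Pool.Agent.Lib.MP_d9bc60_nt.AP

open Finset Pool.Agent.Lib.MP_d9bc60_nt.UV

theorem b12_kf_succ (P n : ℕ) (hP : 1 ≤ P) (hn : 1 ≤ n) (hnP : n ≤ P) :
    kf (P + 1) n = kf P n + Real.log (((P : ℝ) + 1) / P) := by
  have hP' : (0 : ℝ) < P := by exact_mod_cast hP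
  have hn' : (0 : ℝ) < n := by exact_mod_cast hn
  have hnP' : (n : ℝ) ≤ P := by exact_mod_cast hnP
  unfold kf
  have h1 : 0 ≤ Real.log ((P : ℝ) / n) := Real.log_nonneg (by rw [le_div_iff₀ hn']; linarith)
  have h2 : Real.log (((P + 1 : ℕ) : ℝ) / n) = Real.log ((P : ℝ) / n) +
      Real.log (((P : ℝ) + 1) / P) := by
    rw [← Real.log_mul (by positivity) (by positivity)]
    congr 1
    push_cast
    field_simp
  have h3 : 0 ≤ Real.log (((P : ℝ) + 1) / P) := Real.log_nonneg (by rw [le_div_iff₀ hP']; linarith)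
  rw [h2, max_eq_right h1, max_eq_right (by linarith)]

theorem b12_kf_self (P : ℕ) : kf P P = 0 := by
  unfold kf
  rcases Nat.eq_zero_or_pos P with h | h
  · subst h; simp
  · have : (0 : ℝ) < P := by exact_mod_cast h
    rw [div_self this.ne', Real.log_one, max_self]

/-- Proof. Abel summation, `log(P/n) = ∑_{t=n}^{P-1} log((t+1)/t)`. -/
theorem kf_abel (P : ℕ) (a : ℕ → ℂ) : ∑ n ∈ Icc 1 P, a n * (kf P n : ℂ) =
    ∑ t ∈ Ico 1 P, (∑ n ∈ Icc 1 t, a n) * ((Real.log (((t : ℝ) + 1) / t) : ℝ) : ℂ) := by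
  induction P with
  | zero => simp
  | succ P ih =>
    rw [Finset.sum_Icc_succ_top (by omega), b12_kf_self, Complex.ofReal_zero, mul_zero, add_zero]
    rcases Nat.eq_zero_or_pos P with h | h
    · subst h; simp
    · rw [Finset.sum_Ico_succ_top h, ← ih, Finset.sum_mul, ← Finset.sum_add_distrib]
      refine Finset.sum_congr rfl fun n hn => ?_
      rw [mem_Icc] at hn
      rw [b12_kf_succ P n h hn.1 hn.2]
      push_cast
      ring

theorem b12_psi (t : ℕ) : ∑ n ∈ Icc 1 t, vm n ≤ 6 * t := by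
  have h := Chebyshev.psi_le_const_mul_self (x := (t : ℝ)) (Nat.cast_nonneg t)
  have h2 : Chebyshev.psi (t : ℝ) = ∑ n ∈ Icc 1 t, vm n := by
    unfold Chebyshev.psi
    rw [Nat.floor_natCast]
    rfl
  rw [h2] at h
  refine h.trans ?_
  refine mul_le_mul_of_nonneg_right ?_ (Nat.cast_nonneg t)
  have h3 : Real.log 4 = 2 * Real.log 2 := by
    rw [show (4 : ℝ) = 2 ^ 2 by norm_num, Real.log_pow]
    norm_num
  have h4 := Real.log_two_lt_d9
  rw [h3]
  linarith

theorem b12_triv {q : ℕ} (χ : DirichletCharacter ℂ q) (t : ℕ) :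
    ‖∑ n ∈ Icc 1 t, chL χ n‖ ≤ 6 * t := by
  refine (norm_sum_le _ _).trans (le_trans ?_ (b12_psi t))
  refine sum_le_sum fun n _ => ?_
  unfold chL
  rw [norm_mul, Complex.norm_real, Real.norm_eq_abs, abs_of_nonneg (w23_vm_nonneg n)]
  exact mul_le_of_le_one_left (w23_vm_nonneg n) (DirichletCharacter.norm_le_one χ _)

theorem b12_log_le (t : ℕ) (ht : 1 ≤ t) : |Real.log (((t : ℝ) + 1) / t)| ≤ 1 / t := by
  have ht' : (0 : ℝ) < t := by exact_mod_cast ht
  have h1 : 0 ≤ Real.log (((t : ℝ) + 1) / t) := Real.log_nonneg (by rw [le_div_iff₀ ht']; linarith)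
  rw [abs_of_nonneg h1]
  have h2 := Real.log_le_sub_one_of_pos (x := ((t : ℝ) + 1) / t) (by positivity)
  have h3 : ((t : ℝ) + 1) / t - 1 = 1 / t := by field_simp; ring
  linarith

/-- Proof. `kf_abel`, `log((t+1)/t) ≤ 1/t`. For `t ≤ √P` use `|ψ(t,χ)| ≤ ψ(t) ≤ 6t`, for `√P < t ≤ P` use
`psi_chi (A+2) (2B+1)` (part of `UV.PSW`; `log t ≥ ½ log P`): total `≤ 6√P + (1 + log P) P 2^(A+2)/(log P)^(A+2)`. -/
theorem S1_small (A B : ℕ) : ∃ P₀ : ℕ, ∀ P : ℕ, P₀ ≤ P →
    ∀ (q : ℕ) [NeZero q] (χ : DirichletCharacter ℂ q), (q : ℝ) ≤ Real.log P ^ B → χ ≠ 1 →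
    S1 P χ ≤ (P : ℝ) / Real.log P ^ A := by
  obtain ⟨x₀, hx₀⟩ := psi_chi (A + 1) (2 * B)
  obtain ⟨x₁, hx₁⟩ := w23_large A (max 12 (2 ^ (A + 2)))
  refine ⟨max (x₀ ^ 2) x₁, fun P hP q _ χ hq hχ => ?_⟩
  obtain ⟨hP2, hL1, hLD, hLS⟩ := hx₁ P ((le_max_right _ _).trans hP)
  have hP0 : x₀ ^ 2 ≤ P := (le_max_left _ _).trans hP
  set L : ℝ := Real.log P with hL
  have hL12 : (12 : ℝ) ≤ L := (le_max_left _ _).trans hLD
  have hL2 : (2 : ℝ) ^ (A + 2) ≤ L := (le_max_right _ _).trans hLD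
  have hL0 : 0 < L := by linarith
  have hPpos : (0 : ℝ) < P := by
    have : 0 < P := by omega
    exact_mod_cast this
  -- rewrite
  have e0 : S1 P χ = ‖∑ t ∈ Ico 1 P, (∑ n ∈ Icc 1 t, chL χ n) *
      ((Real.log (((t : ℝ) + 1) / t) : ℝ) : ℂ)‖ := by
    rw [← kf_abel]
    rfl
  rw [e0]
  set R := Nat.sqrt P with hR
  have hterm : ∀ t ∈ Ico 1 P, ‖(∑ n ∈ Icc 1 t, chL χ n) *
      ((Real.log (((t : ℝ) + 1) / t) : ℝ) : ℂ)‖ ≤
      (if t ≤ R then 6 else 0) + 2 ^ (A + 1) / L ^ (A + 1) := by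
    intro t ht
    rw [mem_Ico] at ht
    have ht0 : (0 : ℝ) < t := by exact_mod_cast ht.1
    rw [norm_mul, Complex.norm_real, Real.norm_eq_abs]
    have h1 := b12_log_le t ht.1
    by_cases htR : t ≤ R
    · rw [if_pos htR]
      have h2 : ‖∑ n ∈ Icc 1 t, chL χ n‖ * |Real.log (((t : ℝ) + 1) / t)| ≤ 6 * t * (1 / t) :=
        mul_le_mul (b12_triv χ t) h1 (abs_nonneg _) (by positivity)
      have h3 : (6 : ℝ) * t * (1 / t) = 6 := by field_simp
      have h4 : (0 : ℝ) ≤ 2 ^ (A + 1) / L ^ (A + 1) := by positivity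
      linarith
    · rw [if_neg htR, zero_add]
      push Not at htR
      have h5 : P < t * t := by
        have := Nat.sqrt_lt'.1 htR
        rwa [pow_two] at this
      have h5' : (P : ℝ) ≤ (t : ℝ) * t := by exact_mod_cast h5.le
      have h6 : L ≤ 2 * Real.log t := by
        have h7 := Real.log_le_log hPpos h5'
        rw [Real.log_mul ht0.ne' ht0.ne'] at h7
        linarith
      have hlt : 2 ≤ Real.log t := by linarith
      have h8 : x₀ ≤ t := by
        have h9 : x₀ ≤ R := by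
          rw [hR, Nat.le_sqrt']
          exact hP0
        omega
      have h10 : (q : ℝ) ≤ Real.log t ^ (2 * B) := by
        refine hq.trans ?_
        rw [pow_mul]
        refine pow_le_pow_left₀ hL0.le ?_ B
        nlinarith
      have h11 := hx₀ t h8 q χ h10 hχ
      have h12 : ‖∑ n ∈ Icc 1 t, chL χ n‖ * |Real.log (((t : ℝ) + 1) / t)| ≤
          (t : ℝ) / Real.log t ^ (A + 1) * (1 / t) :=
        mul_le_mul h11 h1 (abs_nonneg _) (by positivity)
      refine h12.trans ?_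
      have h13 : (t : ℝ) / Real.log t ^ (A + 1) * (1 / t) = 1 / Real.log t ^ (A + 1) := by
        field_simp
      rw [h13, div_le_div_iff₀ (by positivity) (by positivity), one_mul, ← mul_pow]
      exact pow_le_pow_left₀ hL0.le h6 _
  refine (norm_sum_le _ _).trans ((sum_le_sum hterm).trans ?_)
  rw [sum_add_distrib, sum_const, Nat.card_Ico, nsmul_eq_mul]
  have hA1 : ∑ t ∈ Ico 1 P, (if t ≤ R then (6 : ℝ) else 0) ≤ 6 * Real.sqrt P := by
    rw [← sum_filter, sum_const, nsmul_eq_mul]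
    have h1 : ((Ico 1 P).filter fun t => t ≤ R).card ≤ R := by
      have h2 : ((Ico 1 P).filter fun t => t ≤ R) ⊆ Icc 1 R := by
        intro t ht
        rw [mem_filter, mem_Ico] at ht
        rw [mem_Icc]
        exact ⟨ht.1.1, ht.2⟩
      have h3 := card_le_card h2
      rwa [Nat.card_Icc, Nat.add_sub_cancel] at h3
    have h4 : (R : ℝ) ≤ Real.sqrt P := Real.nat_sqrt_le_real_sqrt
    have h5 : ((((Ico 1 P).filter fun t => t ≤ R).card : ℕ) : ℝ) ≤ R := by exact_mod_cast h1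
    linarith
  have hA2 : ((P - 1 : ℕ) : ℝ) * (2 ^ (A + 1) / L ^ (A + 1)) ≤ P / L ^ A / 2 := by
    have h1 : ((P - 1 : ℕ) : ℝ) ≤ P := by exact_mod_cast Nat.sub_le P 1
    have h2 : (0 : ℝ) ≤ 2 ^ (A + 1) / L ^ (A + 1) := by positivity
    refine (mul_le_mul_of_nonneg_right h1 h2).trans ?_
    rw [div_div, ← mul_div_assoc, div_le_div_iff₀ (by positivity) (by positivity)]
    have h3 : (2 : ℝ) ^ (A + 1) * 2 ≤ L := by
      calc (2 : ℝ) ^ (A + 1) * 2 = 2 ^ (A + 2) := by ring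
        _ ≤ L := hL2
    have h4 : (0 : ℝ) ≤ P * L ^ A := by positivity
    calc (P : ℝ) * 2 ^ (A + 1) * (L ^ A * 2) = P * L ^ A * (2 ^ (A + 1) * 2) := by ring
      _ ≤ P * L ^ A * L := mul_le_mul_of_nonneg_left h3 h4
      _ = P * L ^ (A + 1) := by ring
  have hA3 : 6 * Real.sqrt P ≤ P / L ^ A / 2 := by
    rw [div_div, le_div_iff₀ (by positivity)]
    have h1 : 12 * L ^ A ≤ Real.sqrt P := by
      refine le_trans ?_ hLS
      have h2 : (12 : ℝ) ≤ max 12 (2 ^ (A + 2)) := le_max_left _ _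
      have h3 : L ^ A ≤ L ^ (A + 1) := pow_le_pow_right₀ (by linarith) (by omega)
      exact mul_le_mul h2 h3 (by positivity) (by linarith)
    calc 6 * Real.sqrt P * (L ^ A * 2) = Real.sqrt P * (12 * L ^ A) := by ring
      _ ≤ Real.sqrt P * Real.sqrt P := mul_le_mul_of_nonneg_left h1 (Real.sqrt_nonneg _)
      _ = P := Real.mul_self_sqrt hPpos.le
  linarith

end Pool.Agent.Lib.MP_d9bc60_nt.AP
end

section
/-! Row B13 (about 100 lines): the principal term. -/

set_option autoImplicit false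

namespace Pool.Agent.Lib.MP_d9bc60_nt.AP

open Finset Pool.Agent.Lib.MP_d9bc60_nt.UV

theorem b13_log_upper (t : ℕ) (ht : 1 ≤ t) : Real.log (((t : ℝ) + 1) / t) ≤ 1 / t := by
  have ht0 : (0 : ℝ) < t := by exact_mod_cast ht
  have h := Real.log_le_sub_one_of_pos (show 0 < ((t : ℝ) + 1) / t by positivity)
  refine h.trans (le_of_eq ?_)
  field_simp
  ring

theorem b13_log_lower (t : ℕ) (ht : 1 ≤ t) : 1 / ((t : ℝ) + 1) ≤ Real.log (((t : ℝ) + 1) / t) := by
  have ht0 : (0 : ℝ) < t := by exact_mod_cast ht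
  have h := Real.one_sub_inv_le_log_of_pos (show 0 < ((t : ℝ) + 1) / t by positivity)
  refine le_trans (le_of_eq ?_) h
  field_simp
  ring

theorem b13_tele (P : ℕ) (hP : 1 ≤ P) :
    ∑ t ∈ Ico 1 P, Real.log (((t : ℝ) + 1) / t) = Real.log P := by
  induction P, hP using Nat.le_induction with
  | base => simp
  | succ n hn ih =>
    rw [Finset.sum_Ico_succ_top hn, ih]
    have hn0 : (0 : ℝ) < n := by exact_mod_cast hn
    rw [Real.log_div (by positivity) hn0.ne']
    push_cast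
    ring

/-- The main sum `∑ t log((t+1)/t)`. -/
theorem b13_main (P : ℕ) (hP : 1 ≤ P) :
    |∑ t ∈ Ico 1 P, (t : ℝ) * Real.log (((t : ℝ) + 1) / t) - P| ≤ 1 + Real.log P := by
  have hcard : ∑ t ∈ Ico 1 P, (1 : ℝ) = (P : ℝ) - 1 := by
    rw [Finset.sum_const, Nat.card_Ico, nsmul_eq_mul, mul_one, Nat.cast_sub hP, Nat.cast_one]
  have hup : ∑ t ∈ Ico 1 P, (t : ℝ) * Real.log (((t : ℝ) + 1) / t) ≤ (P : ℝ) - 1 := by
    rw [← hcard]
    refine Finset.sum_le_sum fun t ht => ?_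
    have h1 := (Finset.mem_Ico.1 ht).1
    have ht0 : (0 : ℝ) < t := by exact_mod_cast h1
    have h2 := mul_le_mul_of_nonneg_left (b13_log_upper t h1) ht0.le
    refine h2.trans (le_of_eq ?_)
    field_simp
  have hlow : (P : ℝ) - 1 - Real.log P ≤
      ∑ t ∈ Ico 1 P, (t : ℝ) * Real.log (((t : ℝ) + 1) / t) := by
    rw [← hcard, ← b13_tele P hP, ← Finset.sum_sub_distrib]
    refine Finset.sum_le_sum fun t ht => ?_
    have h1 := (Finset.mem_Ico.1 ht).1
    have ht0 : (0 : ℝ) < t := by exact_mod_cast h1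
    have h2 := b13_log_lower t h1
    have h3 : (1 : ℝ) ≤ ((t : ℝ) + 1) * Real.log (((t : ℝ) + 1) / t) := by
      have h4 := mul_le_mul_of_nonneg_left h2 (show (0 : ℝ) ≤ (t : ℝ) + 1 by positivity)
      have h5 : ((t : ℝ) + 1) * (1 / ((t : ℝ) + 1)) = 1 := by field_simp
      linarith
    linarith
  rw [abs_le]
  constructor
  · linarith
  · have : 0 ≤ Real.log P := Real.log_nonneg (by exact_mod_cast hP)
    linarith

/-- Proof. `kf_abel` with `a = Λ`, `psi_one (A+2)`; `∑_{1 ≤ t < P} t log((t+1)/t) = P + O(log P)`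
(`1 - 1/(2t) ≤ t log((t+1)/t) ≤ 1`). -/
theorem S1_one (A : ℕ) : ∃ P₀ : ℕ, ∀ P : ℕ, P₀ ≤ P →
    |∑ n ∈ Icc 1 P, vm n * kf P n - P| ≤ (P : ℝ) / Real.log P ^ A := by
  obtain ⟨x₀, hx₀⟩ := psi_one (A + 2)
  set T₀ : ℕ := max x₀ 3 with hT₀
  set K : ℝ := ∑ t ∈ range T₀, |∑ n ∈ Icc 1 t, vm n - (t : ℝ)| with hK
  have hK0 : 0 ≤ K := Finset.sum_nonneg fun _ _ => abs_nonneg _
  set D : ℝ := max 8 (max (K * T₀) (2 * 2 ^ (A + 2))) with hD
  have hD8 : (8 : ℝ) ≤ D := le_max_left _ _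
  have hDK : K * T₀ ≤ D := (le_max_left _ _).trans (le_max_right _ _)
  have hD2 : 2 * 2 ^ (A + 2) ≤ D := (le_max_right _ _).trans (le_max_right _ _)
  obtain ⟨P₀, hP₀⟩ := w23_large A D
  refine ⟨P₀, fun P hP => ?_⟩
  obtain ⟨h2, hL1, hDL, hDS⟩ := hP₀ P hP
  have hP1 : 1 ≤ P := by omega
  set L := Real.log P with hL
  set S := Real.sqrt P with hS
  have hPos : (0 : ℝ) < P := by exact_mod_cast hP1
  have hSS : S * S = P := Real.mul_self_sqrt hPos.le
  have hL0 : 0 < L := by linarith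
  have hS0 : 0 < S := Real.sqrt_pos.2 hPos
  -- Abel summation
  have hab : ∑ n ∈ Icc 1 P, vm n * kf P n =
      ∑ t ∈ Ico 1 P, (∑ n ∈ Icc 1 t, vm n) * Real.log (((t : ℝ) + 1) / t) := by
    have h := kf_abel P (fun n => (vm n : ℂ))
    exact_mod_cast h
  have hsplit : ∑ n ∈ Icc 1 P, vm n * kf P n - P =
      (∑ t ∈ Ico 1 P, (∑ n ∈ Icc 1 t, vm n - (t : ℝ)) * Real.log (((t : ℝ) + 1) / t)) +
        (∑ t ∈ Ico 1 P, (t : ℝ) * Real.log (((t : ℝ) + 1) / t) - P) := by
    rw [hab, ← add_sub_assoc, ← Finset.sum_add_distrib]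
    congr 1
    refine Finset.sum_congr rfl fun t _ => ?_
    ring
  have hpt : ∀ t ∈ Ico 1 P, |(∑ n ∈ Icc 1 t, vm n - (t : ℝ)) * Real.log (((t : ℝ) + 1) / t)| ≤
      (if t < T₀ then K else 0) + (if t ≤ Nat.sqrt P then (1 : ℝ) else 0)
        + 2 ^ (A + 2) / L ^ (A + 2) := by
    intro t ht
    have h1 := (Finset.mem_Ico.1 ht).1
    have ht0 : (0 : ℝ) < t := by exact_mod_cast h1
    have ht1 : (1 : ℝ) ≤ t := by exact_mod_cast h1
    have hlg0 : 0 ≤ Real.log (((t : ℝ) + 1) / t) := by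
      refine Real.log_nonneg ?_
      rw [le_div_iff₀ ht0]
      linarith
    have hlg1 := b13_log_upper t h1
    have hc0 : (0 : ℝ) ≤ 2 ^ (A + 2) / L ^ (A + 2) := by positivity
    rw [abs_mul, abs_of_nonneg hlg0]
    by_cases hT : t < T₀
    · have hE : |∑ n ∈ Icc 1 t, vm n - (t : ℝ)| ≤ K :=
        Finset.single_le_sum (f := fun t : ℕ => |∑ n ∈ Icc 1 t, vm n - (t : ℝ)|)
          (fun _ _ => abs_nonneg _) (Finset.mem_range.2 hT)
      have hle : Real.log (((t : ℝ) + 1) / t) ≤ 1 := by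
        refine hlg1.trans ?_
        rw [div_le_one ht0]
        exact ht1
      have h3 : |∑ n ∈ Icc 1 t, vm n - (t : ℝ)| * Real.log (((t : ℝ) + 1) / t) ≤ K * 1 :=
        mul_le_mul hE hle hlg0 hK0
      rw [if_pos hT]
      have h4 : (0 : ℝ) ≤ if t ≤ Nat.sqrt P then (1 : ℝ) else 0 := by split_ifs <;> norm_num
      linarith
    · rw [if_neg hT]
      push Not at hT
      have hx : x₀ ≤ t := (le_max_left _ _).trans hT
      have h3t : 3 ≤ t := (le_max_right _ _).trans hT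
      have hlt1 : 1 ≤ Real.log t := by
        rw [Real.le_log_iff_exp_le ht0]
        have h3 : (3 : ℝ) ≤ t := by exact_mod_cast h3t
        have := Real.exp_one_lt_d9
        linarith
      have hE := hx₀ t hx
      have h5 : |∑ n ∈ Icc 1 t, vm n - (t : ℝ)| * Real.log (((t : ℝ) + 1) / t) ≤
          1 / Real.log t ^ (A + 2) := by
        have h6 := mul_le_mul hE hlg1 hlg0 (by positivity)
        refine h6.trans (le_of_eq ?_)
        field_simp
      by_cases hs : t ≤ Nat.sqrt P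
      · rw [if_pos hs]
        have h7 : 1 / Real.log t ^ (A + 2) ≤ 1 := by
          rw [div_le_one (by positivity)]
          exact one_le_pow₀ hlt1
        linarith
      · rw [if_neg hs]
        push Not at hs
        have h8 : P < t * t := Nat.sqrt_lt.1 hs
        have h9 : L ≤ 2 * Real.log t := by
          have h10 : (P : ℝ) ≤ (t : ℝ) * t := by exact_mod_cast h8.le
          have h11 := Real.log_le_log hPos h10
          rw [Real.log_mul ht0.ne' ht0.ne'] at h11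
          linarith
        have h12 : 1 / Real.log t ^ (A + 2) ≤ 2 ^ (A + 2) / L ^ (A + 2) := by
          rw [div_le_div_iff₀ (by positivity) (by positivity), one_mul, ← mul_pow]
          exact pow_le_pow_left₀ hL0.le h9 _
        linarith
  have hsum : |∑ t ∈ Ico 1 P, (∑ n ∈ Icc 1 t, vm n - (t : ℝ)) * Real.log (((t : ℝ) + 1) / t)| ≤
      K * T₀ + S + P * (2 ^ (A + 2) / L ^ (A + 2)) := by
    refine (Finset.abs_sum_le_sum_abs _ _).trans ((Finset.sum_le_sum hpt).trans ?_)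
    rw [Finset.sum_add_distrib, Finset.sum_add_distrib]
    refine add_le_add (add_le_add ?_ ?_) ?_
    · rw [← Finset.sum_filter, Finset.sum_const, nsmul_eq_mul, mul_comm]
      refine mul_le_mul_of_nonneg_left ?_ hK0
      have : ((Ico 1 P).filter (fun t => t < T₀)).card ≤ T₀ := by
        refine (Finset.card_le_card (t := range T₀) ?_).trans (by simp)
        intro t ht
        exact Finset.mem_range.2 (Finset.mem_filter.1 ht).2
      exact_mod_cast this
    · rw [← Finset.sum_filter, Finset.sum_const, nsmul_eq_mul, mul_one]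
      have h3 : ((Ico 1 P).filter (fun t => t ≤ Nat.sqrt P)).card ≤ Nat.sqrt P := by
        refine (Finset.card_le_card (t := Icc 1 (Nat.sqrt P)) ?_).trans (by simp)
        intro t ht
        exact Finset.mem_Icc.2 ⟨(Finset.mem_Ico.1 (Finset.mem_filter.1 ht).1).1,
          (Finset.mem_filter.1 ht).2⟩
      have h4 : ((Nat.sqrt P : ℕ) : ℝ) ≤ S := by
        refine Real.le_sqrt_of_sq_le ?_
        exact_mod_cast Nat.sqrt_le' P
      exact le_trans (by exact_mod_cast h3) h4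
    · rw [Finset.sum_const, nsmul_eq_mul, Nat.card_Ico]
      refine mul_le_mul_of_nonneg_right ?_ (by positivity)
      exact_mod_cast Nat.sub_le P 1
  have hmain := b13_main P hP1
  rw [hsplit]
  refine (abs_add_le _ _).trans ((add_le_add hsum hmain).trans ?_)
  -- final estimate
  have hLA : 0 < L ^ A := pow_pos hL0 A
  have e1 : (P : ℝ) * (2 ^ (A + 2) / L ^ (A + 2)) ≤ P / L ^ A / 2 := by
    have h4 : (P : ℝ) * (2 ^ (A + 2) / L ^ (A + 2)) = P / L ^ A * (2 ^ (A + 2) / L ^ 2) := by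
      rw [pow_add L A 2]
      field_simp
    have h5 : (2 : ℝ) ^ (A + 2) / L ^ 2 ≤ 1 / 2 := by
      rw [div_le_iff₀ (by positivity)]
      nlinarith
    rw [h4]
    calc (P : ℝ) / L ^ A * (2 ^ (A + 2) / L ^ 2) ≤ P / L ^ A * (1 / 2) :=
          mul_le_mul_of_nonneg_left h5 (by positivity)
      _ = P / L ^ A / 2 := by ring
  have e2 : 4 * S ≤ P / L ^ A / 2 := by
    rw [div_div, le_div_iff₀ (by positivity)]
    have h6 : D * L ^ A ≤ S := by
      refine le_trans ?_ hDS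
      rw [pow_succ]
      have h7 : L ^ A ≤ L ^ A * L := le_mul_of_one_le_right hLA.le hL1
      exact mul_le_mul_of_nonneg_left h7 (by linarith)
    have h8 : 8 * L ^ A ≤ S := le_trans (mul_le_mul_of_nonneg_right hD8 hLA.le) h6
    calc 4 * S * (L ^ A * 2) = S * (8 * L ^ A) := by ring
      _ ≤ S * S := mul_le_mul_of_nonneg_left h8 hS0.le
      _ = P := hSS
  have hLA1 : 1 ≤ L ^ A := one_le_pow₀ hL1
  have hDS2 : D * L ≤ S := by
    refine le_trans ?_ hDS
    rw [pow_succ]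
    have : L ≤ L ^ A * L := le_mul_of_one_le_left hL0.le hLA1
    exact mul_le_mul_of_nonneg_left this (by linarith)
  have e3 : K * T₀ ≤ S := by nlinarith
  have e4 : 1 + L ≤ 2 * S := by nlinarith
  have e5 : (P : ℝ) / L ^ A = P / L ^ A / 2 + P / L ^ A / 2 := by ring
  rw [e5]
  linarith

end Pool.Agent.Lib.MP_d9bc60_nt.AP
end

section
/-! Row B17 (about 70 lines): the contribution of the small conductors. -/

set_option autoImplicit false

namespace Pool.Agent.Lib.MP_d9bc60_nt.AP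

open Finset Pool.Agent.Lib.MP_d9bc60_nt.UV

/-- Proof. `S1_small (A + B) B`; primitive and `q ≥ 2` imply `χ ≠ 1`; `prim_const`: each `q` contributes at most
`max S1 ≤ P/(log P)^(A+B)`, and there are at most `(log P)^B` values `q`. -/
theorem small_part (A B : ℕ) : ∃ P₀ : ℕ, ∀ P : ℕ, P₀ ≤ P →
    ∑ q ∈ (Icc 2 P).filter (fun q : ℕ => (q : ℝ) ≤ Real.log P ^ B),
      (1 / (q.totient : ℝ)) * prim q (fun χ => S1 P χ) ≤ (P : ℝ) / Real.log P ^ A := by
  obtain ⟨P₀, hP₀⟩ := S1_small (A + B) B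
  refine ⟨max P₀ 3, fun P hP => ?_⟩
  have hP3 : 3 ≤ P := (le_max_right _ _).trans hP
  have hP1 : P₀ ≤ P := (le_max_left _ _).trans hP
  have hP3' : (3 : ℝ) ≤ P := by exact_mod_cast hP3
  have hlog : 0 < Real.log P := Real.log_pos (by linarith)
  set L := Real.log P with hL
  set c : ℝ := (P : ℝ) / L ^ (A + B) with hc
  have hc0 : 0 ≤ c := by positivity
  have h1 : ∀ q ∈ (Icc 2 P).filter (fun q : ℕ => (q : ℝ) ≤ L ^ B),
      (1 / (q.totient : ℝ)) * prim q (fun χ => S1 P χ) ≤ c := by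
    intro q hq
    rw [mem_filter, mem_Icc] at hq
    obtain ⟨⟨hq2, _⟩, hqL⟩ := hq
    have : NeZero q := ⟨by omega⟩
    have h2 : prim q (fun χ => S1 P χ) ≤ prim q (fun _ => c) := by
      apply prim_mono
      intro χ hχ
      apply hP₀ P hP1 q χ hqL
      intro h
      rw [h, DirichletCharacter.isPrimitive_def,
        DirichletCharacter.conductor_one] at hχ
      omega
    have h3 := h2.trans (prim_const q c hc0)
    have h4 : (0 : ℝ) < q.totient := by exact_mod_cast Nat.totient_pos.2 (by omega)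
    calc (1 / (q.totient : ℝ)) * prim q (fun χ => S1 P χ)
        ≤ (1 / (q.totient : ℝ)) * (q.totient * c) := by
          apply mul_le_mul_of_nonneg_left h3
          positivity
      _ = c := by field_simp
  refine (Finset.sum_le_sum h1).trans ?_
  rw [Finset.sum_const, nsmul_eq_mul]
  have h5 : ((Icc 2 P).filter (fun q : ℕ => (q : ℝ) ≤ L ^ B)).card ≤ ⌊L ^ B⌋₊ := by
    have h6 : (Icc 2 P).filter (fun q : ℕ => (q : ℝ) ≤ L ^ B) ⊆ Icc 1 ⌊L ^ B⌋₊ := by
      intro q hq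
      rw [mem_filter, mem_Icc] at hq
      rw [mem_Icc]
      exact ⟨by omega, Nat.le_floor hq.2⟩
    have h7 := Finset.card_le_card h6
    rw [Nat.card_Icc] at h7
    omega
  have h6 : (((Icc 2 P).filter (fun q : ℕ => (q : ℝ) ≤ L ^ B)).card : ℝ) ≤ L ^ B := by
    have h7 : (((Icc 2 P).filter (fun q : ℕ => (q : ℝ) ≤ L ^ B)).card : ℝ) ≤ (⌊L ^ B⌋₊ : ℝ) := by
      exact_mod_cast h5
    exact h7.trans (Nat.floor_le (by positivity))
  calc (((Icc 2 P).filter (fun q : ℕ => (q : ℝ) ≤ L ^ B)).card : ℝ) * c ≤ L ^ B * c :=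
        mul_le_mul_of_nonneg_right h6 hc0
    _ = (P : ℝ) / L ^ A := by
        rw [hc, pow_add]
        field_simp

end Pool.Agent.Lib.MP_d9bc60_nt.AP
end
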