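import Pool.Agent.Lib.MP_d9bc60_nt.AQ.QRed
import Pool.Agent.Lib.MP_d9bc60_nt.AQ.QSW
import Pool.Agent.Lib.MP_d9bc60_nt.AQ.QMean
import Pool.Agent.Lib.MP_d9bc60_nt.AQ.QDefs
import Pool.Agent.Lib.MP_d9bc60_nt.UV.PRam

section
/-! Row B19 (about 120 lines): the Bombieri-Vinogradov theorem. -/

set_option autoImplicit false

namespace Pool.Agent.Lib.MP_d9bc60_nt.AP

open Finset Pool.Agent.Lib.MP_d9bc60_nt.UV

theorem b19_S1_nonneg (P : ℕ) {q : ℕ} (χ : DirichletCharacter ℂ q) : 0 ≤ S1 P χ := norm_nonneg _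

theorem b19_prim_nonneg (P q : ℕ) : 0 ≤ prim q (fun χ => S1 P χ) :=
  prim_nonneg q _ fun χ => b19_S1_nonneg P χ

/-- exchange of summation -/
theorem b19_swap (D : ℕ) (F : ℕ → ℝ) :
    ∑ d ∈ Icc 1 D, (1 / (d.totient : ℝ)) * ∑ q ∈ d.divisors.filter (fun q => 1 < q), F q =
      ∑ q ∈ Icc 2 D, F q * ∑ d ∈ (Icc 1 D).filter (fun d => q ∣ d), 1 / (d.totient : ℝ) := by
  have h1 : ∀ d ∈ Icc 1 D, (1 / (d.totient : ℝ)) * ∑ q ∈ d.divisors.filter (fun q => 1 < q), F q =
      ∑ q ∈ Icc 2 D, if q ∣ d then F q * (1 / (d.totient : ℝ)) else 0 := by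
    intro d hd
    rw [mem_Icc] at hd
    rw [← Finset.sum_filter, Finset.mul_sum]
    have h2 : d.divisors.filter (fun q => 1 < q) = (Icc 2 D).filter (fun q => q ∣ d) := by
      ext q
      simp only [mem_filter, Nat.mem_divisors, mem_Icc]
      constructor
      · rintro ⟨⟨h3, h4⟩, h5⟩
        have h6 := Nat.le_of_dvd (Nat.pos_of_ne_zero h4) h3
        exact ⟨⟨h5, by omega⟩, h3⟩
      · rintro ⟨⟨h3, h4⟩, h5⟩
        exact ⟨⟨h5, by omega⟩, by omega⟩
    rw [h2]
    exact Finset.sum_congr rfl fun q _ => mul_comm _ _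
  rw [Finset.sum_congr rfl h1, Finset.sum_comm]
  refine Finset.sum_congr rfl fun q _ => ?_
  rw [← Finset.sum_filter, Finset.mul_sum]

/-- the conditions for large `P` -/
theorem b19_event (A : ℕ) : ∃ P₀ : ℕ, 3 ≤ P₀ ∧ ∀ P : ℕ, P₀ ≤ P → 24 ≤ Real.log P ∧
    8 * Real.log P ^ (A + 3) ≤ Real.sqrt P := by
  have h1 : ∀ᶠ x : ℝ in Filter.atTop, 24 ≤ Real.log x :=
    Real.tendsto_log_atTop.eventually_ge_atTop 24
  have h2 : ∀ᶠ x : ℝ in Filter.atTop, ‖Real.log x ^ ((A + 3 : ℕ) : ℝ)‖ ≤ (1 / 8) * ‖x ^ (1 / 2 : ℝ)‖ :=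
    (isLittleO_log_rpow_rpow_atTop ((A + 3 : ℕ) : ℝ) (by norm_num)).bound (by norm_num)
  have h3 : ∀ᶠ P : ℕ in Filter.atTop, 24 ≤ Real.log P ∧ 8 * Real.log P ^ (A + 3) ≤ Real.sqrt P := by
    have h4 := (h1.and h2).and (Filter.eventually_ge_atTop (1 : ℝ))
    refine (tendsto_natCast_atTop_atTop.eventually h4).mono fun P hP => ?_
    obtain ⟨⟨h5, h6⟩, h7⟩ := hP
    refine ⟨h5, ?_⟩
    rw [Real.rpow_natCast, Real.norm_of_nonneg (by positivity), Real.norm_of_nonneg (by positivity),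
      ← Real.sqrt_eq_rpow] at h6
    linarith
  obtain ⟨P₀, hP₀⟩ := Filter.eventually_atTop.mp h3
  exact ⟨max P₀ 3, le_max_right _ _, fun P hP => hP₀ P ((le_max_left _ _).trans hP)⟩

/-- Proof. `L = log P`. By `EE_le`, exchange of the sums over `d` and `q`, and `sum_inv_totient`, the sum is
`≤ (1+L)² ∑_{2 ≤ q ≤ D} φ(q)⁻¹ prim q S1 + (1+L)² |∑ Λ kf - P| + 4 D L³`; `small_part (A+3) (A+11)`,
`large_part (A+3)`, `S1_one (A+3)`. -/
theorem bv_sum (A : ℕ) (ε : ℝ) (hε : 0 < ε) : ∃ P₀ : ℕ, ∀ P : ℕ, P₀ ≤ P → ∀ D : ℕ,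
    (D : ℝ) ≤ (P : ℝ) ^ (1 / 2 - ε) → ∀ r : ℕ → ℕ, (∀ d, 1 ≤ d → (r d).Coprime d) →
    ∑ d ∈ Icc 1 D, |EE P d (r d)| ≤ (P : ℝ) / Real.log P ^ A := by
  obtain ⟨P₁, h1⟩ := small_part (A + 3) (A + 11)
  obtain ⟨P₂, h2⟩ := large_part (A + 3) ε hε
  obtain ⟨P₃, h3⟩ := S1_one (A + 3)
  obtain ⟨P₄, hP4, h4⟩ := b19_event A
  refine ⟨max (max P₁ P₂) (max P₃ P₄), fun P hP D hD r hr => ?_⟩
  have hPa : P₁ ≤ P := le_trans (le_trans (le_max_left _ _) (le_max_left _ _)) hP
  have hPb : P₂ ≤ P := le_trans (le_trans (le_max_right _ _) (le_max_left _ _)) hP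
  have hPc : P₃ ≤ P := le_trans (le_trans (le_max_left _ _) (le_max_right _ _)) hP
  have hPd : P₄ ≤ P := le_trans (le_trans (le_max_right _ _) (le_max_right _ _)) hP
  have hP3 : 3 ≤ P := hP4.trans hPd
  have hP3' : (3 : ℝ) ≤ P := by exact_mod_cast hP3
  have hP0 : (0 : ℝ) < P := by linarith
  obtain ⟨hL24, hLs⟩ := h4 P hPd
  have hs := h1 P hPa
  have hl := h2 P hPb D hD
  have ho := h3 P hPc
  set L := Real.log P with hL
  have hL0 : 0 < L := by linarith
  have hDs : (D : ℝ) ≤ Real.sqrt P := by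
    refine hD.trans ?_
    rw [Real.sqrt_eq_rpow]
    exact Real.rpow_le_rpow_of_exponent_le (by linarith) (by linarith)
  have hsP : Real.sqrt P ≤ P := by
    rw [Real.sqrt_le_left hP0.le]
    nlinarith
  have hDP' : (D : ℝ) ≤ P := hDs.trans hsP
  have hDP : D ≤ P := by exact_mod_cast hDP'
  -- pointwise
  have hpt : ∀ d ∈ Icc 1 D, |EE P d (r d)| ≤
      (1 / (d.totient : ℝ)) * ∑ q ∈ d.divisors.filter (fun q => 1 < q), prim q (fun χ => S1 P χ)
      + |∑ n ∈ Icc 1 P, vm n * kf P n - P| * (1 / (d.totient : ℝ)) + 4 * L ^ 3 := by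
    intro d hd
    rw [mem_Icc] at hd
    have e1 := EE_le P d (r d) hP3 hd.1 (hr d hd.1)
    have e2 : Real.log d ≤ L := by
      apply Real.log_le_log (by exact_mod_cast hd.1)
      exact_mod_cast hd.2.trans hDP
    have e3 : 4 * Real.log P ^ 2 * Real.log d ≤ 4 * L ^ 3 := by
      calc 4 * Real.log P ^ 2 * Real.log d ≤ 4 * L ^ 2 * L := by
            apply mul_le_mul_of_nonneg_left e2; positivity
        _ = 4 * L ^ 3 := by ring
    calc |EE P d (r d)| ≤ _ := e1
      _ ≤ _ := by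
          rw [div_eq_mul_one_div (|∑ n ∈ Icc 1 P, vm n * kf P n - P|)]
          linarith
  have hsum := Finset.sum_le_sum hpt
  rw [Finset.sum_add_distrib, Finset.sum_add_distrib, b19_swap, ← Finset.mul_sum, Finset.sum_const,
    Nat.card_Icc, Nat.add_sub_cancel, nsmul_eq_mul] at hsum
  -- 1/φ sums
  have hLD : (1 + Real.log D) ^ 2 ≤ 4 * L ^ 2 := by
    have e1 : 0 ≤ Real.log (D : ℝ) := Real.log_natCast_nonneg D
    have e2 : Real.log D ≤ L := by
      rcases Nat.eq_zero_or_pos D with h | h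
      · rw [h]; simp only [Nat.cast_zero, Real.log_zero]; exact hL0.le
      · exact Real.log_le_log (by exact_mod_cast h) hDP'
    calc (1 + Real.log D) ^ 2 ≤ (2 * L) ^ 2 := by
          apply pow_le_pow_left₀ (by linarith); linarith
      _ = 4 * L ^ 2 := by ring
  have hT2 : ∑ d ∈ Icc 1 D, 1 / (d.totient : ℝ) ≤ 4 * L ^ 2 := by
    have e1 := sum_inv_totient D 1 le_rfl
    rw [Finset.filter_true_of_mem (fun d _ => one_dvd d), Nat.totient_one, Nat.cast_one, div_one,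
      one_mul] at e1
    exact e1.trans hLD
  have hT1 : ∑ q ∈ Icc 2 D, prim q (fun χ => S1 P χ) *
      ∑ d ∈ (Icc 1 D).filter (fun d => q ∣ d), 1 / (d.totient : ℝ) ≤
      4 * L ^ 2 * ∑ q ∈ Icc 2 D, (1 / (q.totient : ℝ)) * prim q (fun χ => S1 P χ) := by
    rw [Finset.mul_sum]
    refine Finset.sum_le_sum fun q hq => ?_
    rw [mem_Icc] at hq
    have e1 := sum_inv_totient D q (by omega)
    have e2 := b19_prim_nonneg P q
    calc prim q (fun χ => S1 P χ) * ∑ d ∈ (Icc 1 D).filter (fun d => q ∣ d), 1 / (d.totient : ℝ)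
        ≤ prim q (fun χ => S1 P χ) * ((1 / (q.totient : ℝ)) * (4 * L ^ 2)) := by
          apply mul_le_mul_of_nonneg_left _ e2
          exact e1.trans (mul_le_mul_of_nonneg_left hLD (by positivity))
      _ = _ := by ring
  -- the sum over the conductors
  have hnn : ∀ q : ℕ, 0 ≤ (1 / (q.totient : ℝ)) * prim q (fun χ => S1 P χ) := fun q =>
    mul_nonneg (by positivity) (b19_prim_nonneg P q)
  have hT3 : ∑ q ∈ Icc 2 D, (1 / (q.totient : ℝ)) * prim q (fun χ => S1 P χ) ≤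
      2 * ((P : ℝ) / L ^ (A + 3)) := by
    rw [← Finset.sum_filter_add_sum_filter_not (Icc 2 D) (fun q : ℕ => L ^ (A + 3 + 8) < (q : ℝ))]
    have e1 : ∑ q ∈ (Icc 2 D).filter (fun q : ℕ => ¬ L ^ (A + 3 + 8) < (q : ℝ)),
        (1 / (q.totient : ℝ)) * prim q (fun χ => S1 P χ) ≤
        ∑ q ∈ (Icc 2 P).filter (fun q : ℕ => (q : ℝ) ≤ L ^ (A + 11)),
        (1 / (q.totient : ℝ)) * prim q (fun χ => S1 P χ) := by
      apply Finset.sum_le_sum_of_subset_of_nonneg
      · intro q hq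
        rw [mem_filter, mem_Icc, not_lt] at hq
        rw [mem_filter, mem_Icc]
        exact ⟨⟨hq.1.1, hq.1.2.trans hDP⟩, hq.2⟩
      · intro q _ _
        exact hnn q
    linarith
  have hA0 : 0 < L ^ A := by positivity
  have hpow : L ^ (A + 3) = L ^ A * L ^ 3 := pow_add _ _ _
  have hX : 0 ≤ |∑ n ∈ Icc 1 P, vm n * kf P n - P| := abs_nonneg _
  have f1 : 4 * L ^ 2 * (2 * ((P : ℝ) / L ^ (A + 3))) = 8 * ((P : ℝ) / L ^ A) / L := by
    rw [hpow]; field_simp; ring
  have f2 : (P : ℝ) / L ^ (A + 3) * (4 * L ^ 2) = 4 * ((P : ℝ) / L ^ A) / L := by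
    rw [hpow]; field_simp
  have f3 : (D : ℝ) * (4 * L ^ 3) ≤ ((P : ℝ) / L ^ A) / 2 := by
    rw [div_div, le_div_iff₀ (by positivity)]
    have g1 : Real.sqrt P * Real.sqrt P = P := Real.mul_self_sqrt hP0.le
    calc (D : ℝ) * (4 * L ^ 3) * (L ^ A * 2) = D * (8 * L ^ (A + 3)) := by rw [hpow]; ring
      _ ≤ Real.sqrt P * Real.sqrt P := by
          apply mul_le_mul hDs hLs (by positivity) (Real.sqrt_nonneg _)
      _ = P := g1
  have hY : 0 ≤ (P : ℝ) / L ^ A := by positivity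
  have f4 : 12 * ((P : ℝ) / L ^ A) / L ≤ ((P : ℝ) / L ^ A) / 2 := by
    rw [div_le_div_iff₀ hL0 (by norm_num)]
    nlinarith
  calc ∑ d ∈ Icc 1 D, |EE P d (r d)| ≤ _ := hsum
    _ ≤ 4 * L ^ 2 * (2 * ((P : ℝ) / L ^ (A + 3))) + (P : ℝ) / L ^ (A + 3) * (4 * L ^ 2) +
        (D : ℝ) * (4 * L ^ 3) := by
        apply add_le_add (add_le_add _ _) le_rfl
        · exact hT1.trans (mul_le_mul_of_nonneg_left hT3 (by positivity))
        · exact mul_le_mul ho hT2 (Finset.sum_nonneg fun d _ => by positivity) (by positivity)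
    _ ≤ (P : ℝ) / L ^ A := by
        rw [f1, f2]
        have f5 : 8 * ((P : ℝ) / L ^ A) / L + 4 * ((P : ℝ) / L ^ A) / L =
          12 * ((P : ℝ) / L ^ A) / L := by ring
        linarith

end Pool.Agent.Lib.MP_d9bc60_nt.AP
end

section
/-! Row B20 (about 80 lines): moments of the divisor function. -/

set_option autoImplicit false

namespace Pool.Agent.Lib.MP_d9bc60_nt.AP

open Finset Pool.Agent.Lib.MP_d9bc60_nt.UV

/-- Proof. Induction on `m`: `τ(n)^(m+1)/n = ∑_{de = n} τ(de)^m/(de) ≤ ∑ (τ(d)^m/d)(τ(e)^m/e)`. -/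
theorem tau_pow_div (m D : ℕ) : ∑ d ∈ Icc 1 D, (d.divisors.card : ℝ) ^ m / d ≤
    (1 + Real.log D) ^ (2 ^ m) := by
  induction m with
  | zero =>
    simpa using a4_harm D
  | succ m ih =>
    have h0 : ∑ n ∈ Icc 1 D, (n.divisors.card : ℝ) ^ (m + 1) / n =
        ∑ n ∈ Icc 1 D, ∑ _d ∈ n.divisors, (n.divisors.card : ℝ) ^ m / n := by
      refine Finset.sum_congr rfl fun n _ => ?_
      rw [Finset.sum_const, nsmul_eq_mul, pow_succ]
      ring
    rw [h0, a4_swap D (fun _ n => (n.divisors.card : ℝ) ^ m / n)]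
    have hnn : 0 ≤ ∑ e ∈ Icc 1 D, (e.divisors.card : ℝ) ^ m / e :=
      Finset.sum_nonneg fun e _ => by positivity
    calc ∑ d ∈ Icc 1 D, ∑ k ∈ Icc 1 (D / d), ((d * k).divisors.card : ℝ) ^ m / ((d * k : ℕ) : ℝ)
        ≤ ∑ d ∈ Icc 1 D, ((d.divisors.card : ℝ) ^ m / d) *
            ∑ k ∈ Icc 1 D, (k.divisors.card : ℝ) ^ m / k := by
          refine Finset.sum_le_sum fun d _ => ?_
          rw [Finset.mul_sum]
          calc ∑ k ∈ Icc 1 (D / d), ((d * k).divisors.card : ℝ) ^ m / ((d * k : ℕ) : ℝ)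
              ≤ ∑ k ∈ Icc 1 (D / d), ((d.divisors.card : ℝ) ^ m / d) *
                  ((k.divisors.card : ℝ) ^ m / k) := by
                refine Finset.sum_le_sum fun k _ => ?_
                rw [div_mul_div_comm, ← mul_pow, Nat.cast_mul]
                gcongr
                exact a4_mul d k
            _ ≤ _ := by
                refine Finset.sum_le_sum_of_subset_of_nonneg
                  (Finset.Icc_subset_Icc_right (Nat.div_le_self D d)) fun k _ _ => by positivity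
      _ = (∑ k ∈ Icc 1 D, (k.divisors.card : ℝ) ^ m / k) ^ 2 := by
          rw [← Finset.sum_mul, sq]
      _ ≤ ((1 + Real.log D) ^ (2 ^ m)) ^ 2 := by gcongr
      _ = (1 + Real.log D) ^ (2 ^ (m + 1)) := by rw [← pow_mul, pow_succ]

theorem tau_pow_sum (m D : ℕ) : ∑ d ∈ Icc 1 D, (d.divisors.card : ℝ) ^ m ≤
    D * (1 + Real.log D) ^ (2 ^ m) := by
  calc ∑ d ∈ Icc 1 D, (d.divisors.card : ℝ) ^ m
      ≤ ∑ d ∈ Icc 1 D, (D : ℝ) * ((d.divisors.card : ℝ) ^ m / d) := by
        refine Finset.sum_le_sum fun d hd => ?_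
        rw [Finset.mem_Icc] at hd
        have hd1 : (0 : ℝ) < d := by exact_mod_cast hd.1
        have hd2 : (d : ℝ) ≤ D := by exact_mod_cast hd.2
        rw [mul_div_assoc', le_div_iff₀ hd1, mul_comm]
        gcongr
    _ = D * ∑ d ∈ Icc 1 D, (d.divisors.card : ℝ) ^ m / d := by rw [Finset.mul_sum]
    _ ≤ _ := by
        gcongr
        exact tau_pow_div m D

end Pool.Agent.Lib.MP_d9bc60_nt.AP
end

section
/-! Row B21 (about 130 lines): Bombieri-Vinogradov with divisor weights. -/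

set_option autoImplicit false

namespace Pool.Agent.Lib.MP_d9bc60_nt.AP

open Finset Pool.Agent.Lib.MP_d9bc60_nt.UV

theorem b21_mod (P d a : ℕ) : EE P d (a % d) = EE P d a := by
  unfold EE
  rw [Nat.mod_mod]

/-- the worst residue class -/
theorem b21_max (P : ℕ) : ∃ r : ℕ → ℕ, (∀ d, 1 ≤ d → (r d).Coprime d) ∧
    ∀ d, 1 ≤ d → ∀ a : ℕ, a.Coprime d → |EE P d a| ≤ |EE P d (r d)| := by
  have h1 : ∀ d : ℕ, ∃ r : ℕ, 1 ≤ d → (r.Coprime d ∧
      ∀ a : ℕ, a.Coprime d → |EE P d a| ≤ |EE P d r|) := by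
    intro d
    rcases Nat.eq_zero_or_pos d with h0 | h0
    · exact ⟨0, fun h => absurd h (by omega)⟩
    have hne : ((range d).filter (fun a => a.Coprime d)).Nonempty := by
      refine ⟨1 % d, ?_⟩
      rw [mem_filter, mem_range]
      refine ⟨Nat.mod_lt _ h0, ?_⟩
      rw [Nat.Coprime, ← Nat.gcd_rec, Nat.gcd_comm]
      exact Nat.gcd_one_left d
    obtain ⟨r, hr, hmax⟩ := exists_max_image _ (fun a => |EE P d a|) hne
    rw [mem_filter] at hr
    refine ⟨r, fun _ => ⟨hr.2, fun a ha => ?_⟩⟩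
    rw [← b21_mod P d a]
    apply hmax
    rw [mem_filter, mem_range]
    refine ⟨Nat.mod_lt _ h0, ?_⟩
    rw [Nat.Coprime, ← Nat.gcd_rec, Nat.gcd_comm]
    exact ha
  choose r hr using h1
  exact ⟨r, fun d hd => (hr d hd).1, fun d hd => (hr d hd).2⟩

theorem b21_kf_le (P n : ℕ) (hP : 1 ≤ P) (hn : 1 ≤ n) : kf P n ≤ Real.log P := by
  have hP' : (1 : ℝ) ≤ P := by exact_mod_cast hP
  have hn' : (1 : ℝ) ≤ n := by exact_mod_cast hn
  unfold kf
  apply max_le (Real.log_nonneg hP')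
  apply Real.log_le_log (by positivity)
  rw [div_le_iff₀ (by positivity)]
  nlinarith

theorem b21_kf_nonneg (P n : ℕ) : 0 ≤ kf P n := le_max_left _ _

theorem b21_count (P d a : ℕ) :
    (((Icc 1 P).filter (fun n => n % d = a % d)).card : ℝ) ≤ (P : ℝ) / d + 1 := by
  have h1 : ((Icc 1 P).filter (fun n => n % d = a % d)).card ≤ P / d + 1 := by
    have h2 : ((Icc 1 P).filter (fun n => n % d = a % d)) ⊆
        (range (P / d + 1)).image (fun k => k * d + a % d) := by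
      intro n hn
      rw [mem_filter, mem_Icc] at hn
      rw [mem_image]
      refine ⟨n / d, ?_, ?_⟩
      · rw [mem_range]
        have := Nat.div_le_div_right (c := d) hn.1.2
        omega
      · have := Nat.div_add_mod n d
        rw [hn.2] at this
        rw [mul_comm]
        exact this
    calc _ ≤ ((range (P / d + 1)).image (fun k => k * d + a % d)).card := card_le_card h2
      _ ≤ (range (P / d + 1)).card := card_image_le
      _ = P / d + 1 := card_range _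
  have h3 : ((P / d : ℕ) : ℝ) ≤ (P : ℝ) / d := Nat.cast_div_le
  have h4 : (((Icc 1 P).filter (fun n => n % d = a % d)).card : ℝ) ≤ ((P / d + 1 : ℕ) : ℝ) := by
    exact_mod_cast h1
  push_cast at h4
  linarith

/-- the trivial bound -/
theorem b21_triv (P d a : ℕ) (hP : 3 ≤ P) (hd : 1 ≤ d) (hdP : d ≤ P) :
    |EE P d a| ≤ 4 * P * Real.log P ^ 2 * ((d.divisors.card : ℝ) / d) := by
  have hL1 : 1 ≤ Real.log P := by
    rw [← Real.log_exp 1]
    apply Real.log_le_log (Real.exp_pos _)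
    have h5 : Real.exp 1 < 3 := by
      have := Real.exp_one_lt_d9
      linarith
    have h6 : (3 : ℝ) ≤ P := by exact_mod_cast hP
    linarith
  set L := Real.log P with hL
  have hd' : (1 : ℝ) ≤ d := by exact_mod_cast hd
  have hdP' : (d : ℝ) ≤ P := by exact_mod_cast hdP
  have hτ : (1 : ℝ) ≤ d.divisors.card := by
    have : 0 < d.divisors.card := card_pos.2 ⟨1, Nat.one_mem_divisors.2 (by omega)⟩
    exact_mod_cast this
  have hsum0 : 0 ≤ ∑ n ∈ (Icc 1 P).filter (fun n => n % d = a % d), vm n * kf P n :=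
    sum_nonneg fun n _ => mul_nonneg ArithmeticFunction.vonMangoldt_nonneg (b21_kf_nonneg P n)
  have hsum : ∑ n ∈ (Icc 1 P).filter (fun n => n % d = a % d), vm n * kf P n ≤
      ((P : ℝ) / d + 1) * L ^ 2 := by
    calc ∑ n ∈ (Icc 1 P).filter (fun n => n % d = a % d), vm n * kf P n
        ≤ ∑ n ∈ (Icc 1 P).filter (fun n => n % d = a % d), L ^ 2 := by
          apply sum_le_sum
          intro n hn
          rw [mem_filter, mem_Icc] at hn
          have h1 : vm n ≤ L := by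
            refine le_trans (ArithmeticFunction.vonMangoldt_le_log) ?_
            apply Real.log_le_log
            · have : 0 < n := by omega
              exact_mod_cast this
            · exact_mod_cast hn.1.2
          have h2 := b21_kf_le P n (by omega) hn.1.1
          rw [pow_two]
          exact mul_le_mul h1 h2 (b21_kf_nonneg P n) (by linarith)
      _ = ((Icc 1 P).filter (fun n => n % d = a % d)).card * L ^ 2 := by
          rw [sum_const, nsmul_eq_mul]
      _ ≤ _ := mul_le_mul_of_nonneg_right (b21_count P d a) (by positivity)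
  have htot : (P : ℝ) / d.totient ≤ P * ((d.divisors.card : ℝ) / d) := by
    have := M2VmQ_tot d hd
    rw [div_eq_mul_one_div]
    exact mul_le_mul_of_nonneg_left this (Nat.cast_nonneg _)
  have htot0 : 0 ≤ (P : ℝ) / d.totient := by positivity
  have h1 : (1 : ℝ) ≤ (P : ℝ) / d := by rw [le_div_iff₀ (by linarith)]; linarith
  have h2 : (P : ℝ) / d ≤ P * ((d.divisors.card : ℝ) / d) := by
    rw [← mul_div_assoc]
    apply div_le_div_of_nonneg_right _ (by linarith)
    nlinarith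
  set X : ℝ := P * ((d.divisors.card : ℝ) / d) with hX
  have hX0 : 0 ≤ X := by positivity
  have hL2 : 1 ≤ L ^ 2 := by nlinarith
  have h3 : 4 * (P : ℝ) * L ^ 2 * ((d.divisors.card : ℝ) / d) = 4 * (L ^ 2 * X) := by rw [hX]; ring
  rw [h3]
  have h4 : X ≤ L ^ 2 * X := le_mul_of_one_le_left hX0 hL2
  have h5 : ((P : ℝ) / d + 1) * L ^ 2 ≤ 2 * (L ^ 2 * X) := by nlinarith
  unfold EE
  rw [abs_le]
  constructor <;> linarith

/-- Proof. `Est d = sup over a` coprime to `d` (a maximum over `a < d`, as only `a mod d` matters). Trivially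
`|EE P d a| ≤ (P/d + 1) L² + P/φ(d) ≤ 4 P L² τ(d)/d` for `d ≤ D`. Cauchy-Schwarz:
`∑ τ^k Est ≤ (∑ τ^(2k) Est)^(1/2) (∑ Est)^(1/2) ≤ (4 P L² ∑ τ^(2k+1)/d)^(1/2) (∑ Est)^(1/2)`, `tau_pow_div`,
and `bv_sum` with exponent `2A + 2 + 2^(2k+1) + 1`. -/
theorem bv (k A : ℕ) (ε : ℝ) (hε : 0 < ε) : ∃ P₀ : ℕ, ∀ P : ℕ, P₀ ≤ P → ∀ D : ℕ,
    (D : ℝ) ≤ (P : ℝ) ^ (1 / 2 - ε) → ∃ Est : ℕ → ℝ, (∀ d, 0 ≤ Est d) ∧
      (∀ d ∈ Icc 1 D, ∀ a : ℕ, a.Coprime d → |EE P d a| ≤ Est d) ∧
      ∑ d ∈ Icc 1 D, (d.divisors.card : ℝ) ^ k * Est d ≤ (P : ℝ) / Real.log P ^ A := by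
  set E : ℕ := 2 ^ (2 * k + 1) with hE
  obtain ⟨P₁, hP₁⟩ := bv_sum (2 * A + 3 + 2 * E) ε hε
  refine ⟨max P₁ (⌈Real.exp 4⌉₊ + 3), fun P hP D hD => ?_⟩
  have hPP : P₁ ≤ P := le_trans (le_max_left _ _) hP
  have hP3' : ⌈Real.exp 4⌉₊ + 3 ≤ P := le_trans (le_max_right _ _) hP
  have hP3 : 3 ≤ P := by omega
  have hP1 : (1 : ℝ) ≤ P := by
    have : 1 ≤ P := by omega
    exact_mod_cast this
  have hL4 : 4 ≤ Real.log P := by
    rw [← Real.log_exp 4]
    apply Real.log_le_log (Real.exp_pos _)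
    refine le_trans (Nat.le_ceil _) ?_
    have : ⌈Real.exp 4⌉₊ ≤ P := by omega
    exact_mod_cast this
  set L := Real.log P with hL
  have hDP : D ≤ P := by
    have h1 : (P : ℝ) ^ (1 / 2 - ε) ≤ (P : ℝ) ^ (1 : ℝ) :=
      Real.rpow_le_rpow_of_exponent_le hP1 (by linarith)
    rw [Real.rpow_one] at h1
    exact_mod_cast hD.trans h1
  obtain ⟨r, hr1, hr2⟩ := b21_max P
  refine ⟨fun d => |EE P d (r d)|, fun d => abs_nonneg _, fun d hd a ha =>
    hr2 d (mem_Icc.1 hd).1 a ha, ?_⟩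
  have hsum := hP₁ P hPP D hD r hr1
  have hcs : (∑ d ∈ Icc 1 D, (d.divisors.card : ℝ) ^ k * |EE P d (r d)|) ^ 2 ≤
      (∑ d ∈ Icc 1 D, (d.divisors.card : ℝ) ^ (2 * k) * |EE P d (r d)|) *
        ∑ d ∈ Icc 1 D, |EE P d (r d)| := by
    have := sum_mul_sq_le_sq_mul_sq (Icc 1 D)
      (fun d => (d.divisors.card : ℝ) ^ k * Real.sqrt |EE P d (r d)|)
      (fun d => Real.sqrt |EE P d (r d)|)
    refine le_trans (le_of_eq ?_) (le_trans this (le_of_eq ?_))
    · congr 1
      refine sum_congr rfl fun d _ => ?_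
      rw [mul_assoc, Real.mul_self_sqrt (abs_nonneg _)]
    · congr 1
      · refine sum_congr rfl fun d _ => ?_
        rw [mul_pow, Real.sq_sqrt (abs_nonneg _), ← pow_mul, mul_comm k 2]
      · refine sum_congr rfl fun d _ => ?_
        rw [Real.sq_sqrt (abs_nonneg _)]
  have hS1 : ∑ d ∈ Icc 1 D, (d.divisors.card : ℝ) ^ (2 * k) * |EE P d (r d)| ≤
      P * L ^ (3 + 2 * E) := by
    calc ∑ d ∈ Icc 1 D, (d.divisors.card : ℝ) ^ (2 * k) * |EE P d (r d)|
        ≤ ∑ d ∈ Icc 1 D, 4 * P * L ^ 2 * ((d.divisors.card : ℝ) ^ (2 * k + 1) / d) := by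
          apply sum_le_sum
          intro d hd
          rw [mem_Icc] at hd
          have h1 := b21_triv P d (r d) hP3 hd.1 (by omega)
          calc (d.divisors.card : ℝ) ^ (2 * k) * |EE P d (r d)|
              ≤ (d.divisors.card : ℝ) ^ (2 * k) *
                (4 * P * L ^ 2 * ((d.divisors.card : ℝ) / d)) :=
                mul_le_mul_of_nonneg_left h1 (by positivity)
            _ = _ := by rw [pow_succ]; ring
      _ = 4 * P * L ^ 2 * ∑ d ∈ Icc 1 D, (d.divisors.card : ℝ) ^ (2 * k + 1) / d := by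
          rw [mul_sum]
      _ ≤ 4 * P * L ^ 2 * (1 + Real.log D) ^ E :=
          mul_le_mul_of_nonneg_left (tau_pow_div (2 * k + 1) D) (by positivity)
      _ ≤ L * P * L ^ 2 * (L ^ 2) ^ E := by
          have h0 : 0 ≤ 1 + Real.log D := by
            rcases Nat.eq_zero_or_pos D with h0 | h0
            · rw [h0]; simp
            · have : (1 : ℝ) ≤ D := by exact_mod_cast h0
              have := Real.log_nonneg this
              linarith
          have h1 : 1 + Real.log D ≤ L ^ 2 := by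
            have h2 : Real.log D ≤ L := by
              rcases Nat.eq_zero_or_pos D with h0 | h0
              · rw [h0]; simp only [Nat.cast_zero, Real.log_zero]; linarith
              · apply Real.log_le_log
                · exact_mod_cast h0
                · exact_mod_cast hDP
            nlinarith
          have h2 : (1 + Real.log D) ^ E ≤ (L ^ 2) ^ E := pow_le_pow_left₀ h0 h1 E
          have h3 : 4 * (P : ℝ) * L ^ 2 ≤ L * P * L ^ 2 := by
            apply mul_le_mul_of_nonneg_right _ (by positivity)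
            nlinarith
          exact mul_le_mul h3 h2 (by positivity) (by positivity)
      _ = P * L ^ (3 + 2 * E) := by
          rw [← pow_mul, pow_add]
          ring
  have hL0 : 0 < L := by linarith
  have hprod : (∑ d ∈ Icc 1 D, (d.divisors.card : ℝ) ^ k * |EE P d (r d)|) ^ 2 ≤
      ((P : ℝ) / L ^ A) ^ 2 := by
    refine hcs.trans ?_
    have h1 : 0 ≤ ∑ d ∈ Icc 1 D, |EE P d (r d)| := sum_nonneg fun d _ => abs_nonneg _
    calc _ ≤ (P * L ^ (3 + 2 * E)) * ((P : ℝ) / L ^ (2 * A + 3 + 2 * E)) :=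
          mul_le_mul hS1 hsum h1 (by positivity)
      _ = ((P : ℝ) / L ^ A) ^ 2 := by
          have h2 : L ^ (2 * A + 3 + 2 * E) = (L ^ A) ^ 2 * L ^ (3 + 2 * E) := by
            rw [← pow_mul, ← pow_add]
            congr 1
            ring
          rw [h2]
          have h3 : L ^ A ≠ 0 := by positivity
          have h4 : L ^ (3 + 2 * E) ≠ 0 := by positivity
          field_simp
  exact le_of_sq_le_sq hprod (by positivity)

end Pool.Agent.Lib.MP_d9bc60_nt.AP
end
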