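import Pool.Agent.Lib.MP_d9bc60_nt.AQ.QDefs
import Pool.Agent.Lib.MP_d9bc60_nt.AQ.QMert
import Pool.Agent.Lib.MP_d9bc60_nt.AQ.QRho
import Pool.Agent.Lib.MP_d9bc60_nt.AQ.QBV
import Pool.Agent.Lib.MP_d9bc60_nt.AQ.QWeight

section
/-! Row A06 (about 100 lines): positive weight implies few prime factors. -/

set_option autoImplicit false

namespace Pool.Agent.Lib.MP_d9bc60_nt.AP

open Finset Pool.Agent.Lib.MP_d9bc60_nt.UV

theorem a06_omega (a : ℕ) :
    (ArithmeticFunction.cardFactors a : ℝ) = ∑ p ∈ a.primeFactors, (a.factorization p : ℝ) := by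
  have h : ArithmeticFunction.cardFactors a = ∑ p ∈ a.primeFactors, a.factorization p := by
    rw [ArithmeticFunction.cardFactors_eq_sum_factorization]
    rfl
  rw [h]
  push_cast
  rfl

theorem a06_log (a : ℕ) :
    Real.log a = ∑ p ∈ a.primeFactors, (a.factorization p : ℝ) * Real.log p := by
  rw [Real.log_nat_eq_sum_factorization]
  rfl

/-- Proof. `Ω(a) = ∑_l v_l(a)` and `∑_l v_l(a) log l = log a`. So
`Ω(a) - log a/log y = ∑_l v_l (1 - log l/log y)`; the primes `l ≥ y` contribute `≤ 0`, there are no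
primes `< z` (`a` odd, `Sft`), and those of `[z, y)` have `v_l = 1`: the sum is `≤ 4.48 - Wt z y a < 4.48`. -/
theorem omega_le (z y : ℝ) (hy : 1 < y) (a : ℕ) (ha : Odd a) (h1 : Sft z a)
    (h2 : ∀ l ∈ prs z y, ¬ l ^ 2 ∣ a) (h3 : 0 < Wt z y a) :
    (ArithmeticFunction.cardFactors a : ℝ) ≤ 4.48 + Real.log a / Real.log y := by
  classical
  have hly : 0 < Real.log y := Real.log_pos hy
  have ha0 : a ≠ 0 := by
    rintro rfl
    exact absurd ha (by decide)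
  have hkey : ∀ p ∈ a.primeFactors, (p : ℝ) < y → p ∈ (prs z y).filter (fun l => l ∣ a) := by
    intro p hp hpy
    have hpp := Nat.prime_of_mem_primeFactors hp
    have hpa := Nat.dvd_of_mem_primeFactors hp
    have hp2 : p ≠ 2 := by
      rintro rfl
      have h4 := Nat.odd_iff.1 ha
      omega
    have hp3 : 3 ≤ p := by
      have := hpp.two_le
      omega
    rw [Finset.mem_filter]
    refine ⟨?_, hpa⟩
    unfold prs
    rw [Finset.mem_filter, Finset.mem_range]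
    refine ⟨Nat.lt_ceil.2 hpy, hpp, ?_⟩
    by_contra hz
    push Not at hz
    exact h1 p hpp hp3 hz hpa
  have hdiff : (ArithmeticFunction.cardFactors a : ℝ) - Real.log a / Real.log y =
      ∑ p ∈ a.primeFactors, (a.factorization p : ℝ) * (1 - Real.log p / Real.log y) := by
    rw [a06_omega, a06_log, Finset.sum_div, ← Finset.sum_sub_distrib]
    refine Finset.sum_congr rfl fun p _ => ?_
    ring
  have hle : ∑ p ∈ a.primeFactors, (a.factorization p : ℝ) * (1 - Real.log p / Real.log y) ≤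
      ∑ p ∈ a.primeFactors.filter (fun p : ℕ => (p : ℝ) < y), (1 - Real.log p / Real.log y) := by
    rw [Finset.sum_filter]
    refine Finset.sum_le_sum fun p hp => ?_
    have hpp := Nat.prime_of_mem_primeFactors hp
    split_ifs with hpy
    · have hmem := Finset.mem_filter.1 (hkey p hp hpy)
      have h4 := h2 p hmem.1
      have h5 : a.factorization p < 2 := by
        by_contra h6
        push Not at h6
        exact h4 ((hpp.pow_dvd_iff_le_factorization ha0).2 h6)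
      have h7 : a.factorization p ≤ 1 := by omega
      have h8 : (a.factorization p : ℝ) ≤ 1 := by exact_mod_cast h7
      have h9 : 0 ≤ 1 - Real.log p / Real.log y := by
        rw [sub_nonneg, div_le_one hly]
        exact Real.log_le_log (by exact_mod_cast hpp.pos) hpy.le
      calc (a.factorization p : ℝ) * (1 - Real.log p / Real.log y)
          ≤ 1 * (1 - Real.log p / Real.log y) := mul_le_mul_of_nonneg_right h8 h9
        _ = 1 - Real.log p / Real.log y := one_mul _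
    · push Not at hpy
      have h9 : 1 - Real.log p / Real.log y ≤ 0 := by
        rw [sub_nonpos, one_le_div hly]
        exact Real.log_le_log (by linarith only [hy]) hpy
      exact mul_nonpos_of_nonneg_of_nonpos (Nat.cast_nonneg _) h9
  have hle2 : ∑ p ∈ a.primeFactors.filter (fun p : ℕ => (p : ℝ) < y), (1 - Real.log p / Real.log y) ≤
      ∑ l ∈ (prs z y).filter (fun l => l ∣ a), (1 - Real.log l / Real.log y) := by
    refine Finset.sum_le_sum_of_subset_of_nonneg ?_ ?_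
    · intro p hp
      rw [Finset.mem_filter] at hp
      exact hkey p hp.1 hp.2
    · intro l hl _
      rw [Finset.mem_filter] at hl
      have hl1 := hl.1
      unfold prs at hl1
      rw [Finset.mem_filter, Finset.mem_range] at hl1
      have hly2 : (l : ℝ) < y := Nat.lt_ceil.1 hl1.1
      rw [sub_nonneg, div_le_one hly]
      exact Real.log_le_log (by exact_mod_cast hl1.2.1.pos) hly2.le
  unfold Wt at h3
  linarith only [h3, hdiff, hle, hle2]

end Pool.Agent.Lib.MP_d9bc60_nt.AP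
end

section
/-! Row A07 (about 50 lines): a lower bound for `VV`. -/

set_option autoImplicit false

namespace Pool.Agent.Lib.MP_d9bc60_nt.AP

open Finset Pool.Agent.Lib.MP_d9bc60_nt.UV

theorem a07_pow_le (ν : ℕ → ℝ) (hν : Dens ν) (u : ℝ) : (1 / 2 : ℝ) ^ ⌈u⌉₊ ≤ VV ν u := by
  unfold VV
  have h1 : ∏ p ∈ (range ⌈u⌉₊).filter (fun p => p.Prime ∧ 3 ≤ p), (1 / 2 : ℝ) ≤
      ∏ p ∈ (range ⌈u⌉₊).filter (fun p => p.Prime ∧ 3 ≤ p), (1 - ν p) := by
    refine Finset.prod_le_prod (fun _ _ => by norm_num) ?_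
    intro p hp
    rw [Finset.mem_filter] at hp
    have h2 := nu_le_half ν hν p hp.2.1 hp.2.2
    linarith only [h2]
  rw [Finset.prod_const] at h1
  refine le_trans ?_ h1
  refine pow_le_pow_of_le_one (by norm_num) (by norm_num) ?_
  exact (Finset.card_filter_le _ _).trans (by rw [Finset.card_range])

/-- Proof. Let `u₀` be from `VV_ratio 1`: `VV ν z ≥ VV ν u₀ /(2 (log z/log u₀)²)`, and `VV ν u₀ ≥ 2^(-u₀)`
(`nu_le_half`). -/
theorem VV_ge : ∃ (c u₀ : ℝ), 0 < c ∧ 5 ≤ u₀ ∧ ∀ ν : ℕ → ℝ, Dens ν → ∀ z : ℝ, u₀ ≤ z →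
    c / Real.log z ^ 2 ≤ VV ν z := by
  obtain ⟨u₀, hu, h⟩ := VV_ratio 1 one_pos
  have hlu : 0 < Real.log u₀ := Real.log_pos (by linarith only [hu])
  refine ⟨(1 / 2 : ℝ) ^ ⌈u₀⌉₊ * Real.log u₀ ^ 2 / 2, u₀, by positivity, hu, ?_⟩
  intro ν hν z hz
  have h1 := h ν hν u₀ z le_rfl hz
  have h2 := a07_pow_le ν hν u₀
  have hlz : 0 < Real.log z := Real.log_pos (by linarith only [hu, hz])
  rw [div_pow] at h1
  have h3 : (1 / 2 : ℝ) ^ ⌈u₀⌉₊ ≤ (1 + 1) * (Real.log z ^ 2 / Real.log u₀ ^ 2) * VV ν z := h2.trans h1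
  rw [div_le_iff₀ (by positivity), div_le_iff₀ (by norm_num)]
  calc (1 / 2 : ℝ) ^ ⌈u₀⌉₊ * Real.log u₀ ^ 2
      ≤ ((1 + 1) * (Real.log z ^ 2 / Real.log u₀ ^ 2) * VV ν z) * Real.log u₀ ^ 2 :=
        mul_le_mul_of_nonneg_right h3 (by positivity)
    _ = VV ν z * Real.log z ^ 2 * 2 := by
        field_simp
        ring

end Pool.Agent.Lib.MP_d9bc60_nt.AP
end

section
/-! Row A08 (about 120 lines): the total error. -/

set_option autoImplicit false

namespace Pool.Agent.Lib.MP_d9bc60_nt.AP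

open Finset Pool.Agent.Lib.MP_d9bc60_nt.UV

theorem a08_large : ∃ P₀ : ℕ, ∀ P : ℕ, P₀ ≤ P →
    24 * Real.log P ^ 15 ≤ (P : ℝ) ^ (1 / 400 : ℝ) := by
  have h1 := (isLittleO_log_rpow_rpow_atTop 15 (by norm_num : (0 : ℝ) < 1 / 400)).bound
    (by norm_num : (0 : ℝ) < 1 / 24)
  have h2 := h1.and (Filter.eventually_ge_atTop (3 : ℝ))
  rw [Filter.eventually_atTop] at h2
  obtain ⟨x₀, hx₀⟩ := h2
  refine ⟨⌈x₀⌉₊, fun P hP => ?_⟩
  have hPx : x₀ ≤ P := (Nat.le_ceil x₀).trans (by exact_mod_cast hP)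
  obtain ⟨h3, h4⟩ := hx₀ P hPx
  have hL : 0 ≤ Real.log P := Real.log_nonneg (by linarith only [h4])
  have e15 : Real.log P ^ (15 : ℝ) = Real.log P ^ 15 := by
    rw [← Real.rpow_natCast]
    norm_num
  rw [e15, Real.norm_of_nonneg (by positivity), Real.norm_of_nonneg (by positivity)] at h3
  linarith only [h3]

/-- Proof. `D = P^(199/400)`, `y = D^(9/10) = P^(1791/4000) ≤ √P`, `L = log P`. `bv 4 4 (1/400)` gives `Est`;
`level`: `Rem ≤ τ(d) Est(d) + 8(√P + y + 1)L³`, so the sum is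
`≤ P/L⁴ + 24 √P L³ · D (1 + log D)^8 ≤ 2P/L⁴` (`tau_pow_sum 3`). -/
theorem rem_sum : ∃ P₀ : ℕ, ∀ P : ℕ, P₀ ≤ P → ∀ (b : ℤ) (N : ℕ),
    (∀ n ∈ Icc 1 P, 0 < (N : ℤ) - gg b n) →
    ∑ d ∈ Dset ((P : ℝ) ^ (1791 / 4000 : ℝ)) ((P : ℝ) ^ (199 / 400 : ℝ)),
      (d.divisors.card : ℝ) ^ 3 *
        Rem (Icc 1 P) (wq P ((P : ℝ) ^ (1791 / 4000 : ℝ))) (aq b N) P (nuq b N) d ≤
      2 * (P : ℝ) / Real.log P ^ 4 := by
  obtain ⟨P₁, hP₁⟩ := bv 4 4 (1 / 400) (by norm_num)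
  obtain ⟨P₂, hP₂⟩ := a08_large
  refine ⟨max (max P₁ P₂) 8, fun P hP b N hpos => ?_⟩
  have hPP₁ : P₁ ≤ P := ((le_max_left _ _).trans (le_max_left _ _)).trans hP
  have hPP₂ : P₂ ≤ P := ((le_max_right _ _).trans (le_max_left _ _)).trans hP
  have hP8 : 8 ≤ P := (le_max_right _ _).trans hP
  have hP8R : (8 : ℝ) ≤ P := by exact_mod_cast hP8
  have hP0 : (0 : ℝ) < P := by linarith only [hP8R]
  have hP1 : (1 : ℝ) ≤ P := by linarith only [hP8R]
  set D : ℝ := (P : ℝ) ^ (199 / 400 : ℝ) with hD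
  set y : ℝ := (P : ℝ) ^ (1791 / 4000 : ℝ) with hy
  set L := Real.log P with hL
  have hL2 : 2 ≤ L := by
    have h1 : Real.log (8 : ℝ) ≤ L := Real.log_le_log (by norm_num) hP8R
    have h2 : Real.log (8 : ℝ) = 3 * Real.log 2 := by
      rw [show (8 : ℝ) = 2 ^ 3 by norm_num, Real.log_pow]
      norm_num
    have h3 := Real.log_two_gt_d9
    linarith only [h1, h2, h3]
  have hD1 : 1 ≤ D := Real.one_le_rpow hP1 (by norm_num)
  have hy1 : 1 ≤ y := Real.one_le_rpow hP1 (by norm_num)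
  have hDfl : (⌊D⌋₊ : ℝ) ≤ D := Nat.floor_le (by linarith only [hD1])
  obtain ⟨Est, hE0, hE1, hE2⟩ := hP₁ P hPP₁ ⌊D⌋₊ (by
    refine hDfl.trans (le_of_eq ?_)
    rw [hD]
    norm_num)
  have hlev := level P N b y D (by omega) hy1 hpos Est hE1
  have hsub : Dset y D ⊆ Icc 1 ⌊D⌋₊ := by
    classical
    unfold Dset
    exact Finset.filter_subset _ _
  set E : ℝ := 8 * (Real.sqrt P + y + 1) * L ^ 3 with hE
  have hE0' : 0 ≤ E := by positivity
  have hy0 : 0 ≤ y := by linarith only [hy1]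
  -- the sum
  have h1 : ∑ d ∈ Dset y D, (d.divisors.card : ℝ) ^ 3 *
      Rem (Icc 1 P) (wq P y) (aq b N) P (nuq b N) d ≤
      ∑ d ∈ Dset y D, ((d.divisors.card : ℝ) ^ 4 * Est d + E * (d.divisors.card : ℝ) ^ 3) := by
    refine Finset.sum_le_sum fun d hd => ?_
    have h2 := mul_le_mul_of_nonneg_left (hlev d hd)
      (by positivity : (0 : ℝ) ≤ (d.divisors.card : ℝ) ^ 3)
    refine h2.trans (le_of_eq ?_)
    ring
  have h3 : ∑ d ∈ Dset y D, ((d.divisors.card : ℝ) ^ 4 * Est d + E * (d.divisors.card : ℝ) ^ 3) ≤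
      ∑ d ∈ Icc 1 ⌊D⌋₊, ((d.divisors.card : ℝ) ^ 4 * Est d + E * (d.divisors.card : ℝ) ^ 3) := by
    refine Finset.sum_le_sum_of_subset_of_nonneg hsub fun d _ _ => ?_
    have := hE0 d
    positivity
  have h3' : ∑ d ∈ Icc 1 ⌊D⌋₊, ((d.divisors.card : ℝ) ^ 4 * Est d + E * (d.divisors.card : ℝ) ^ 3) =
      ∑ d ∈ Icc 1 ⌊D⌋₊, (d.divisors.card : ℝ) ^ 4 * Est d +
      E * ∑ d ∈ Icc 1 ⌊D⌋₊, (d.divisors.card : ℝ) ^ 3 := by
    rw [Finset.sum_add_distrib, ← Finset.mul_sum]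
  have h4 := tau_pow_sum 3 ⌊D⌋₊
  have h5 : (⌊D⌋₊ : ℝ) * (1 + Real.log ⌊D⌋₊) ^ (2 ^ 3) ≤ D * L ^ 8 := by
    have h6 : Real.log ⌊D⌋₊ ≤ L / 2 := by
      have h7 : 1 ≤ ⌊D⌋₊ := Nat.le_floor (by exact_mod_cast hD1)
      have h8 : (1 : ℝ) ≤ ⌊D⌋₊ := by exact_mod_cast h7
      have h9 : Real.log ⌊D⌋₊ ≤ Real.log D := Real.log_le_log (by linarith only [h8]) hDfl
      rw [hD, Real.log_rpow hP0] at h9
      have : (199 / 400 : ℝ) * L ≤ L / 2 := by linarith only [hL2]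
      linarith only [hL2, h9]
    have h10 : 0 ≤ 1 + Real.log ⌊D⌋₊ := by
      have := Real.log_natCast_nonneg ⌊D⌋₊
      linarith only [this]
    have h11 : 1 + Real.log ⌊D⌋₊ ≤ L := by linarith only [hL2, h6]
    norm_num only
    exact mul_le_mul hDfl (pow_le_pow_left₀ h10 h11 8) (by positivity) (by linarith only [hD1])
  have h12 : E * ∑ d ∈ Icc 1 ⌊D⌋₊, (d.divisors.card : ℝ) ^ 3 ≤ E * (D * L ^ 8) :=
    mul_le_mul_of_nonneg_left (h4.trans h5) hE0'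
  -- the error term
  have hsqrt : Real.sqrt P = (P : ℝ) ^ (1 / 2 : ℝ) := Real.sqrt_eq_rpow P
  have hys : y ≤ Real.sqrt P := by
    rw [hsqrt, hy]
    exact Real.rpow_le_rpow_of_exponent_le hP1 (by norm_num)
  have h1s : 1 ≤ Real.sqrt P := by
    rw [hsqrt]
    exact Real.one_le_rpow hP1 (by norm_num)
  have h13 : E ≤ 24 * Real.sqrt P * L ^ 3 := by
    rw [hE]
    refine mul_le_mul_of_nonneg_right ?_ (by positivity)
    linarith only [hy1, hys]
  have h14 : E * (D * L ^ 8) ≤ 24 * Real.sqrt P * L ^ 3 * (D * L ^ 8) :=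
    mul_le_mul_of_nonneg_right h13 (by positivity)
  have h15 : Real.sqrt P * D * (P : ℝ) ^ (1 / 400 : ℝ) = P := by
    rw [hsqrt, hD, ← Real.rpow_add hP0, ← Real.rpow_add hP0]
    norm_num
  have h16 := hP₂ P hPP₂
  have hL4 : 0 < L ^ 4 := by positivity
  have h17 : 24 * Real.sqrt P * L ^ 3 * (D * L ^ 8) ≤ P / L ^ 4 := by
    rw [le_div_iff₀ hL4]
    have h18 : 24 * Real.sqrt P * L ^ 3 * (D * L ^ 8) * L ^ 4 =
        Real.sqrt P * D * (24 * L ^ 15) := by ring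
    rw [h18]
    exact (mul_le_mul_of_nonneg_left h16 (by positivity)).trans (le_of_eq h15)
  have h19 : 2 * (P : ℝ) / L ^ 4 = P / L ^ 4 + P / L ^ 4 := by ring
  rw [h19]
  rw [h3'] at h3
  linarith only [hE2, h1, h3, h12, h14, h17]

end Pool.Agent.Lib.MP_d9bc60_nt.AP
end

section
/-! Row A09 (about 90 lines): the weighted sum is large. -/

set_option autoImplicit false

namespace Pool.Agent.Lib.MP_d9bc60_nt.AP

open Finset Pool.Agent.Lib.MP_d9bc60_nt.UV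

theorem a09_wq_nonneg (P : ℕ) (y : ℝ) (n : ℕ) : 0 ≤ wq P y n := by
  unfold wq
  split_ifs
  · exact mul_nonneg (Real.log_natCast_nonneg n) (le_max_left _ _)
  · exact le_refl _

/-- Proof. `weighted` with `D = P^(199/400)` (so `D^(2/35) = P^(199/7000)`, `D^(9/10) = P^(1791/4000)`), `X = P`,
`ν = nuq b N` (`dens_nuq`), `rem_sum`, `VV_ge`. -/
theorem wsum_ge : ∃ c : ℝ, 0 < c ∧ ∃ P₀ : ℕ, ∀ P : ℕ, P₀ ≤ P → ∀ (b : ℤ) (N : ℕ), ¬ (3 : ℤ) ∣ b →
    (∀ n ∈ Icc 1 P, 0 < (N : ℤ) - gg b n) →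
    c * (P : ℝ) / Real.log P ^ 2 ≤ Wsum (Icc 1 P) (wq P ((P : ℝ) ^ (1791 / 4000 : ℝ))) (aq b N)
      ((P : ℝ) ^ (199 / 7000 : ℝ)) ((P : ℝ) ^ (1791 / 4000 : ℝ)) := by
  obtain ⟨D₀, _, hW⟩ := weighted
  obtain ⟨c1, u₀, hc1, hu₀, hV⟩ := VV_ge
  obtain ⟨P₁, hR⟩ := rem_sum
  refine ⟨0.05 * c1, by positivity, ?_⟩
  have t1 : Filter.Tendsto (fun P : ℕ => ((P : ℝ)) ^ (199 / 400 : ℝ)) Filter.atTop Filter.atTop :=
    (tendsto_rpow_atTop (by norm_num)).comp tendsto_natCast_atTop_atTop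
  have t2 : Filter.Tendsto (fun P : ℕ => ((P : ℝ)) ^ (199 / 7000 : ℝ)) Filter.atTop Filter.atTop :=
    (tendsto_rpow_atTop (by norm_num)).comp tendsto_natCast_atTop_atTop
  have t3 : Filter.Tendsto (fun P : ℕ => Real.log (P : ℝ)) Filter.atTop Filter.atTop :=
    Real.tendsto_log_atTop.comp tendsto_natCast_atTop_atTop
  have ev := ((t1.eventually_ge_atTop D₀).and (t2.eventually_ge_atTop u₀)).and
    ((t3.eventually_ge_atTop (240 / c1)).and
      ((t3.eventually_ge_atTop 1).and (Filter.eventually_ge_atTop (max P₁ 2))))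
  obtain ⟨P₀, hP₀⟩ := Filter.eventually_atTop.1 ev
  refine ⟨P₀, ?_⟩
  intro P hP b N h3 hpos
  obtain ⟨⟨hD, hz⟩, hL1, hL, hPP⟩ := hP₀ P hP
  have hP1 : P₁ ≤ P := (le_max_left _ _).trans hPP
  have hP2 : 2 ≤ P := (le_max_right _ _).trans hPP
  have hPpos : (0 : ℝ) < P := by exact_mod_cast (by omega : 0 < P)
  have hP1' : (1 : ℝ) ≤ P := by exact_mod_cast (by omega : 1 ≤ P)
  set L := Real.log (P : ℝ) with hLdef
  have hLpos : 0 < L := by linarith only [hL]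
  have e1 : ((P : ℝ) ^ (199 / 400 : ℝ)) ^ (2 / 35 : ℝ) = (P : ℝ) ^ (199 / 7000 : ℝ) := by
    rw [← Real.rpow_mul hPpos.le]; norm_num
  have e2 : ((P : ℝ) ^ (199 / 400 : ℝ)) ^ (9 / 10 : ℝ) = (P : ℝ) ^ (1791 / 4000 : ℝ) := by
    rw [← Real.rpow_mul hPpos.le]; norm_num
  have hw := hW ((P : ℝ) ^ (199 / 400 : ℝ)) hD (Icc 1 P)
    (wq P ((P : ℝ) ^ (1791 / 4000 : ℝ))) (aq b N) (P : ℝ) (nuq b N)
    (a09_wq_nonneg P _) hPpos.le (dens_nuq b N h3)
  rw [e1, e2] at hw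
  have hr := hR P hP1 b N hpos
  have hv := hV (nuq b N) (dens_nuq b N h3) ((P : ℝ) ^ (199 / 7000 : ℝ)) hz
  have hlz : Real.log ((P : ℝ) ^ (199 / 7000 : ℝ)) = 199 / 7000 * L := by
    rw [Real.log_rpow hPpos]
  have hlD : Real.log ((P : ℝ) ^ (199 / 400 : ℝ)) = 199 / 400 * L := by
    rw [Real.log_rpow hPpos]
  rw [hlz] at hv
  rw [hlD] at hw
  have hv2 : c1 / L ^ 2 ≤ VV (nuq b N) ((P : ℝ) ^ (199 / 7000 : ℝ)) := by
    refine le_trans ?_ hv
    apply div_le_div_of_nonneg_left hc1.le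
    · positivity
    · have : 199 / 7000 * L ≤ L := by nlinarith only [hL]
      exact pow_le_pow_left₀ (by positivity) this 2
  set S := ∑ d ∈ Dset ((P : ℝ) ^ (1791 / 4000 : ℝ)) ((P : ℝ) ^ (199 / 400 : ℝ)),
      (d.divisors.card : ℝ) ^ 3 *
        Rem (Icc 1 P) (wq P ((P : ℝ) ^ (1791 / 4000 : ℝ))) (aq b N) P (nuq b N) d with hS
  have hS2 : 6 * (199 / 400 * L) * S ≤ 12 * P / L ^ 3 := by
    calc 6 * (199 / 400 * L) * S ≤ 6 * (199 / 400 * L) * (2 * (P : ℝ) / L ^ 4) :=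
          mul_le_mul_of_nonneg_left hr (by positivity)
      _ ≤ 6 * L * (2 * (P : ℝ) / L ^ 4) := by
          apply mul_le_mul_of_nonneg_right _ (by positivity)
          nlinarith only [hL]
      _ = 12 * P / L ^ 3 := by
          field_simp
          ring
  have hmain : 0.1 * (P : ℝ) * (c1 / L ^ 2) ≤
      0.1 * (P : ℝ) * VV (nuq b N) ((P : ℝ) ^ (199 / 7000 : ℝ)) :=
    mul_le_mul_of_nonneg_left hv2 (by positivity)
  have hfin : 0.05 * c1 * (P : ℝ) / L ^ 2 ≤ 0.1 * (P : ℝ) * (c1 / L ^ 2) - 12 * P / L ^ 3 := by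
    have h240 : 240 ≤ L * c1 := by
      rw [div_le_iff₀ hc1] at hL1
      exact hL1
    have hx : 12 * (P : ℝ) / L ^ 3 ≤ 0.05 * c1 * (P : ℝ) / L ^ 2 := by
      rw [div_le_div_iff₀ (by positivity) (by positivity)]
      have : 12 * (P : ℝ) * L ^ 2 ≤ 0.05 * (L * c1) * (P : ℝ) * L ^ 2 := by
        apply mul_le_mul_of_nonneg_right _ (by positivity)
        apply mul_le_mul_of_nonneg_right _ hPpos.le
        linarith only [h240]
      calc 12 * (P : ℝ) * L ^ 2 ≤ 0.05 * (L * c1) * (P : ℝ) * L ^ 2 := this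
        _ = 0.05 * c1 * (P : ℝ) * L ^ 3 := by ring
    have hy : 0.1 * (P : ℝ) * (c1 / L ^ 2) = 0.05 * c1 * (P : ℝ) / L ^ 2 + 0.05 * c1 * (P : ℝ) / L ^ 2 := by
      field_simp
      ring
    rw [hy]
    linarith only [hx]
  linarith only [hw, hS2, hmain, hfin]

end Pool.Agent.Lib.MP_d9bc60_nt.AP
end

section
/-! Row A10 (about 120 lines): counting. -/

set_option autoImplicit false

namespace Pool.Agent.Lib.MP_d9bc60_nt.AP

open Finset Pool.Agent.Lib.MP_d9bc60_nt.UV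

theorem a10_Wt_le (z y : ℝ) (hy : 1 < y) (a : ℕ) : Wt z y a ≤ 4.48 := by
  classical
  unfold Wt
  have hly : 0 < Real.log y := Real.log_pos hy
  have h1 : 0 ≤ ∑ l ∈ (prs z y).filter (fun l => l ∣ a), (1 - Real.log l / Real.log y) := by
    refine Finset.sum_nonneg fun l hl => ?_
    have h2 : l ∈ prs z y := (Finset.mem_filter.mp hl).1
    unfold prs at h2
    rw [Finset.mem_filter, Finset.mem_range] at h2
    obtain ⟨h3, h4, _⟩ := h2
    have h5 : (l : ℝ) < y := Nat.lt_ceil.mp h3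
    have h6 : (0 : ℝ) < l := by exact_mod_cast h4.pos
    have h7 : Real.log l ≤ Real.log y := Real.log_le_log h6 h5.le
    have h8 : Real.log l / Real.log y ≤ 1 := (div_le_one hly).mpr h7
    linarith only [h8]
  linarith only [h1]

theorem a10_kf_le (P n : ℕ) (hn : n ∈ Icc 1 P) : 0 ≤ kf P n ∧ kf P n ≤ Real.log P := by
  rw [Finset.mem_Icc] at hn
  have hn0 : (1 : ℝ) ≤ n := by exact_mod_cast hn.1
  have hP0 : (1 : ℝ) ≤ P := by exact_mod_cast hn.1.trans hn.2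
  have hL : 0 ≤ Real.log P := Real.log_nonneg hP0
  unfold kf
  refine ⟨le_max_left _ _, max_le hL ?_⟩
  apply Real.log_le_log (by positivity)
  exact div_le_self (by linarith only [hP0]) hn0

theorem a10_wq (P : ℕ) (y : ℝ) (n : ℕ) (hn : n ∈ Icc 1 P) :
    0 ≤ wq P y n ∧ wq P y n ≤ Real.log P ^ 2 := by
  have hn' := hn
  rw [Finset.mem_Icc] at hn'
  have hn0 : (1 : ℝ) ≤ n := by exact_mod_cast hn'.1
  have hnP : (n : ℝ) ≤ P := by exact_mod_cast hn'.2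
  have hL : 0 ≤ Real.log P := Real.log_nonneg (hn0.trans hnP)
  obtain ⟨h1, h2⟩ := a10_kf_le P n hn
  have h3 : 0 ≤ Real.log n := Real.log_nonneg hn0
  have h4 : Real.log n ≤ Real.log P := Real.log_le_log (by linarith only [hn0]) hnP
  unfold wq
  split_ifs
  · refine ⟨mul_nonneg h3 h1, ?_⟩
    rw [pow_two]
    exact mul_le_mul h4 h2 h1 hL
  · exact ⟨le_refl _, by positivity⟩

theorem a10_ev (c C : ℝ) (hc : 0 < c) (hC : 0 < C) : ∃ P₀ : ℕ, ∀ P : ℕ, P₀ ≤ P →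
    1 ≤ Real.log P ∧ 3 ≤ (P : ℝ) ^ (199 / 7000 : ℝ) ∧
    6 * C * Real.log P ^ 4 ≤ c / 10 * (P : ℝ) ^ (199 / 7000 : ℝ) ∧
    1 ≤ c / 10 * Real.log P ^ (1 / 2 : ℝ) := by
  have h1 : ∀ᶠ x : ℝ in Filter.atTop, 1 ≤ Real.log x :=
    Real.tendsto_log_atTop.eventually_ge_atTop 1
  have h2 : ∀ᶠ x : ℝ in Filter.atTop, 3 ≤ x ^ (199 / 7000 : ℝ) :=
    (tendsto_rpow_atTop (by norm_num : (0 : ℝ) < 199 / 7000)).eventually_ge_atTop 3
  have h3 := (isLittleO_log_rpow_rpow_atTop (4 : ℝ) (by norm_num : (0 : ℝ) < 199 / 7000)).def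
    (c := c / 10 / (6 * C)) (by positivity)
  have h4 : ∀ᶠ x : ℝ in Filter.atTop, 10 / c ≤ Real.log x ^ (1 / 2 : ℝ) :=
    ((tendsto_rpow_atTop (by norm_num : (0 : ℝ) < 1 / 2)).comp
      Real.tendsto_log_atTop).eventually_ge_atTop _
  have h5 := (h1.and (h2.and (h3.and h4))).and (Filter.eventually_ge_atTop (1 : ℝ))
  have h6 := (tendsto_natCast_atTop_atTop (R := ℝ)).eventually h5
  obtain ⟨P₀, hP₀⟩ := Filter.eventually_atTop.mp h6
  refine ⟨P₀, fun P hP => ?_⟩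
  obtain ⟨⟨a1, a2, a3, a4⟩, a5⟩ := hP₀ P hP
  refine ⟨a1, a2, ?_, ?_⟩
  · have e1 : Real.log (P : ℝ) ^ (4 : ℝ) = Real.log P ^ 4 := by
      rw [← Real.rpow_natCast]; norm_num
    rw [e1, Real.norm_of_nonneg (by positivity), Real.norm_of_nonneg (by positivity)] at a3
    have h7 := mul_le_mul_of_nonneg_left a3 (by positivity : 0 ≤ 6 * C)
    refine h7.trans (le_of_eq ?_)
    field_simp
  · have h7 := mul_le_mul_of_nonneg_left a4 (by positivity : 0 ≤ c / 10)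
    refine le_trans (le_of_eq ?_) h7
    field_simp

theorem a10_arith {P L z y c C G B : ℝ} (hP : 0 < P) (hL : 1 ≤ L) (hz : 0 < z) (_hc : 0 < c)
    (hC : 0 < C) (hG : c * P / L ^ 2 ≤ 4.48 * L ^ 2 * G) (hG0 : 0 ≤ G)
    (hB : B ≤ (4 * P / z + 2 * y) * C) (hy : y ≤ P / z)
    (h1 : 6 * C * L ^ 4 ≤ c / 10 * z) (h2 : 1 ≤ c / 10 * L ^ (1 / 2 : ℝ)) :
    P / L ^ (9 / 2 : ℝ) ≤ G - B := by
  have hL0 : 0 < L := by linarith only [hL]
  have hs : 0 < L ^ (1 / 2 : ℝ) := Real.rpow_pos_of_pos hL0 _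
  have e1 : L ^ (9 / 2 : ℝ) = L ^ 4 * L ^ (1 / 2 : ℝ) := by
    rw [← Real.rpow_natCast, ← Real.rpow_add hL0]
    norm_num
  have h3 : P / L ^ (9 / 2 : ℝ) ≤ c / 10 * (P / L ^ 4) := by
    rw [e1, div_le_iff₀ (by positivity)]
    have : c / 10 * (P / L ^ 4) * (L ^ 4 * L ^ (1 / 2 : ℝ)) = P * (c / 10 * L ^ (1 / 2 : ℝ)) := by
      field_simp
    rw [this]
    nlinarith only [hP, h2]
  have h4 : c / 5 * (P / L ^ 4) ≤ G := by
    have h5 : c * P / L ^ 2 ≤ 5 * L ^ 2 * G := by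
      refine hG.trans ?_
      have : 0 ≤ L ^ 2 * G := by positivity
      nlinarith only [this]
    have h6 : c / 5 * (P / L ^ 4) = (c * P / L ^ 2) / (5 * L ^ 2) := by
      field_simp
    rw [h6, div_le_iff₀ (by positivity)]
    linarith only [h5]
  have h7 : B ≤ c / 10 * (P / L ^ 4) := by
    have h8 : B ≤ 6 * (P / z) * C := by
      refine hB.trans ?_
      have : 4 * P / z + 2 * y ≤ 6 * (P / z) := by
        have : 4 * P / z = 4 * (P / z) := by ring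
        rw [this]
        linarith only [hy]
      exact mul_le_mul_of_nonneg_right this hC.le
    refine h8.trans ?_
    have h9 : 6 * (P / z) * C = (P / (z * L ^ 4)) * (6 * C * L ^ 4) := by
      field_simp
    have h10 : c / 10 * (P / L ^ 4) = (P / (z * L ^ 4)) * (c / 10 * z) := by
      field_simp
    rw [h9, h10]
    exact mul_le_mul_of_nonneg_left h1 (by positivity)
  have h11 : c / 5 * (P / L ^ 4) = c / 10 * (P / L ^ 4) + c / 10 * (P / L ^ 4) := by ring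
  linarith only [h3, h4, h7]

open Classical in
/-- Proof. `wsum_ge`; as `Wt ≤ 4.48` and `wq ≤ L²`, at least `c P/(5 L⁴)` of the `n ≤ P` are
primes `> y` with `Sft z (aq n)`, `Wt > 0`; remove the at most `(4P/z + 2y)(1 + C)` values of `nonsq`
(`log(5N²) ≤ C log P` as `N ≤ P^(2/δ)`). -/
theorem count_good (δ : ℝ) (hδ : 0 < δ) : ∃ P₀ : ℕ, ∀ P : ℕ, P₀ ≤ P → ∀ (b : ℤ) (N : ℕ),
    ¬ (3 : ℤ) ∣ b → 1 ≤ N → |(b : ℝ)| ≤ N → (N : ℝ) ≤ (P : ℝ) ^ (2 / δ) →
    (∀ n ∈ Icc 1 P, 0 < (N : ℤ) - gg b n) →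
    (P : ℝ) / Real.log P ^ (9 / 2 : ℝ) ≤ (((Icc 1 P).filter (fun n => n.Prime ∧ 3 ≤ n ∧
        Sft ((P : ℝ) ^ (199 / 7000 : ℝ)) (aq b N n) ∧
        (∀ l ∈ prs ((P : ℝ) ^ (199 / 7000 : ℝ)) ((P : ℝ) ^ (1791 / 4000 : ℝ)), ¬ l ^ 2 ∣ aq b N n) ∧
        0 < Wt ((P : ℝ) ^ (199 / 7000 : ℝ)) ((P : ℝ) ^ (1791 / 4000 : ℝ)) (aq b N n))).card : ℝ) := by
  obtain ⟨c, hc, P₁, hw⟩ := wsum_ge
  set C : ℝ := 1 + 36 * (2 + 4 / δ) with hC
  have hC0 : 0 < C := by positivity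
  obtain ⟨P₂, hev⟩ := a10_ev c C hc hC0
  refine ⟨max P₁ P₂, fun P hP b N h3 hN hb hNP hpos => ?_⟩
  obtain ⟨hL, hz3, ha, hb2⟩ := hev P (le_trans (le_max_right _ _) hP)
  have hw1 := hw P (le_trans (le_max_left _ _) hP) b N h3 hpos
  have hP1 : (1 : ℝ) < P := by
    by_contra hcon
    rw [not_lt] at hcon
    have := Real.log_nonpos (Nat.cast_nonneg P) hcon
    linarith only [hL, this]
  have hP0 : (0 : ℝ) < P := by linarith only [hP1]
  set z : ℝ := (P : ℝ) ^ (199 / 7000 : ℝ) with hz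
  set y : ℝ := (P : ℝ) ^ (1791 / 4000 : ℝ) with hy
  set L : ℝ := Real.log P with hLdef
  have hzy : z ≤ y := Real.rpow_le_rpow_of_exponent_le hP1.le (by norm_num)
  have hyPz : y ≤ P / z := by
    rw [le_div_iff₀ (by linarith only [hz3]), hy, hz, ← Real.rpow_add hP0]
    conv_rhs => rw [← Real.rpow_one (P : ℝ)]
    exact Real.rpow_le_rpow_of_exponent_le hP1.le (by norm_num)
  have hy1 : 1 < y := by linarith only [hz3, hzy]
  -- the first set
  set G1 := (Icc 1 P).filter (fun n : ℕ => n.Prime ∧ y < (n : ℝ) ∧ Sft z (aq b N n) ∧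
    0 < Wt z y (aq b N n)) with hG1
  set Bad := (Icc 1 P).filter (fun n : ℕ => ∃ l ∈ prs z y, l ^ 2 ∣ aq b N n) with hBad
  have hsum : Wsum (Icc 1 P) (wq P y) (aq b N) z y ≤ 4.48 * L ^ 2 * (G1.card : ℝ) := by
    unfold Wsum
    have h1 : ∀ i ∈ (Icc 1 P).filter (fun i => Sft z (aq b N i)),
        wq P y i * Wt z y (aq b N i) ≤ if i ∈ G1 then 4.48 * L ^ 2 else 0 := by
      intro i hi
      obtain ⟨hi1, hi2⟩ := Finset.mem_filter.mp hi
      obtain ⟨w0, w1⟩ := a10_wq P y i hi1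
      have hWt := a10_Wt_le z y hy1 (aq b N i)
      split_ifs with hG
      · have : wq P y i * Wt z y (aq b N i) ≤ wq P y i * 4.48 :=
          mul_le_mul_of_nonneg_left hWt w0
        refine this.trans ?_
        have : wq P y i * 4.48 ≤ L ^ 2 * 4.48 := mul_le_mul_of_nonneg_right w1 (by norm_num)
        linarith only [w1]
      · by_cases hpr : i.Prime ∧ y < (i : ℝ)
        · have h5 : ¬ 0 < Wt z y (aq b N i) := fun h6 =>
            hG (Finset.mem_filter.mpr ⟨hi1, hpr.1, hpr.2, hi2, h6⟩)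
          exact mul_nonpos_of_nonneg_of_nonpos w0 (not_lt.mp h5)
        · have h5 : wq P y i = 0 := by
            unfold wq
            rw [if_neg hpr]
          rw [h5, zero_mul]
    refine (Finset.sum_le_sum h1).trans ?_
    rw [← Finset.sum_filter, Finset.sum_const, nsmul_eq_mul]
    have h2 : ((((Icc 1 P).filter (fun i : ℕ => Sft z (aq b N i))).filter (fun i : ℕ => i ∈ G1)).card : ℝ) ≤
        (G1.card : ℝ) := by
      exact_mod_cast Finset.card_le_card fun i hi => (Finset.mem_filter.mp hi).2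
    have h3 : (0 : ℝ) ≤ 4.48 * L ^ 2 := by positivity
    have h4 : 4.48 * L ^ 2 * (G1.card : ℝ) = (G1.card : ℝ) * (4.48 * L ^ 2) := by ring
    rw [h4]
    exact mul_le_mul_of_nonneg_right h2 h3
  have hbad : (Bad.card : ℝ) ≤ (4 * P / z + 2 * y) * C := by
    refine (nonsq P N b z y hz3 hzy hN hb hpos).trans ?_
    apply mul_le_mul_of_nonneg_left
    · have hN1 : (1 : ℝ) ≤ N := by exact_mod_cast hN
      have h1 : Real.log (5 * (N : ℝ) ^ 2) = Real.log 5 + 2 * Real.log N := by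
        rw [Real.log_mul (by norm_num) (by positivity), Real.log_pow]
        norm_num
      have h2 : Real.log N ≤ 2 / δ * L := by
        have := Real.log_le_log (by linarith only [hN1]) hNP
        rwa [Real.log_rpow hP0] at this
      have h4 : Real.log z = 199 / 7000 * L := by
        rw [hz, Real.log_rpow hP0]
      have h5 : Real.log 5 ≤ 2 := by
        have h6 : (5 : ℝ) ≤ Real.exp 2 := by
          have := Real.add_one_le_exp (1 : ℝ)
          have h7 : Real.exp 2 = Real.exp 1 * Real.exp 1 := by rw [← Real.exp_add]; norm_num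
          have h8 := Real.exp_one_gt_d9
          nlinarith only [h7, h8, this]
        calc Real.log 5 ≤ Real.log (Real.exp 2) := Real.log_le_log (by norm_num) h6
          _ = 2 := Real.log_exp 2
      rw [h1, h4, hC]
      have h6 : (Real.log 5 + 2 * Real.log N) / (199 / 7000 * L) ≤ 36 * (2 + 4 / δ) := by
        rw [div_le_iff₀ (by positivity)]
        have h7 : Real.log 5 + 2 * Real.log N ≤ (2 + 4 / δ) * L := by
          have h8 : 2 ≤ 2 * L := by linarith only [hL]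
          have h9 : 2 * (2 / δ * L) = 4 / δ * L := by ring
          nlinarith only [hL, h2, h5, h9]
        have h8 : 0 ≤ (2 + 4 / δ) * L := by positivity
        nlinarith only [h7, h8]
      linarith only [h6]
    · have : 0 ≤ P / z := by positivity
      have h2 : 4 * P / z = 4 * (P / z) := by ring
      rw [h2]
      linarith only [hz3, hzy, hyPz]
  have hsub : G1 \ Bad ⊆ (Icc 1 P).filter (fun n : ℕ => n.Prime ∧ 3 ≤ n ∧
        Sft z (aq b N n) ∧ (∀ l ∈ prs z y, ¬ l ^ 2 ∣ aq b N n) ∧ 0 < Wt z y (aq b N n)) := by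
    intro n hn
    rw [Finset.mem_sdiff] at hn
    obtain ⟨hn1, hn2⟩ := hn
    obtain ⟨hn3, hn4, hn5, hn6, hn7⟩ := Finset.mem_filter.mp hn1
    refine Finset.mem_filter.mpr ⟨hn3, hn4, ?_, hn6, ?_, hn7⟩
    · have : (3 : ℝ) < n := by linarith only [hz3, hzy, hn5]
      exact_mod_cast this.le
    · intro l hl hdiv
      exact hn2 (Finset.mem_filter.mpr ⟨hn3, l, hl, hdiv⟩)
  have hcard : (G1.card : ℝ) - Bad.card ≤ ((G1 \ Bad).card : ℝ) := by
    have := Finset.le_card_sdiff Bad G1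
    have h2 : G1.card ≤ (G1 \ Bad).card + Bad.card := by omega
    have h3 : (G1.card : ℝ) ≤ (G1 \ Bad).card + Bad.card := by exact_mod_cast h2
    linarith only [h3]
  have hfin := a10_arith (P := P) (L := L) (z := z) (y := y) (c := c) (C := C)
    (G := G1.card) (B := Bad.card) hP0 hL (by linarith only [hz3]) hc hC0 (hw1.trans hsum)
    (Nat.cast_nonneg _) hbad hyPz ha hb2
  refine hfin.trans (hcard.trans ?_)
  exact_mod_cast Finset.card_le_card hsub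

end Pool.Agent.Lib.MP_d9bc60_nt.AP
end

section
/-! Row A11 (about 90 lines): the range `P`. -/

set_option autoImplicit false

namespace Pool.Agent.Lib.MP_d9bc60_nt.AP

open Finset Pool.Agent.Lib.MP_d9bc60_nt.UV

/-- Proof. `P = PP b N = ⌊min(√N, N/|b|)/4⌋₊`; `min(√N, N/|b|) ≥ N^δ`. `n ≤ P`: `n² ≤ N/16`, `|b| n ≤ N/4`. -/
theorem pp_facts (δ : ℝ) (hδ : 0 < δ) (hδ2 : δ ≤ 1 / 2) : ∃ N₀ : ℕ, ∀ N : ℕ, N₀ ≤ N → ∀ b : ℤ,
    b ≠ 0 → |(b : ℝ)| ≤ (N : ℝ) ^ (1 - δ) →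
    |(b : ℝ)| ≤ N ∧ min (Real.sqrt N) (N / |(b : ℝ)|) / 5 ≤ (PP b N : ℝ) ∧
    (N : ℝ) ^ δ / 5 ≤ (PP b N : ℝ) ∧ (N : ℝ) ≤ (PP b N : ℝ) ^ (2 / δ) ∧ (PP b N : ℝ) ≤ N ∧
    ∀ n ∈ Icc 1 (PP b N), 0 < (N : ℤ) - gg b n ∧ (N : ℤ) - gg b n ≤ 2 * N := by
  refine ⟨⌈(5 : ℝ) ^ (2 / δ)⌉₊ + 1, ?_⟩
  intro N hN b hb hbN
  have hN1 : (1 : ℝ) ≤ N := by
    have : 1 ≤ N := by omega
    exact_mod_cast this
  have hN0 : (0 : ℝ) < N := by linarith only [hδ, hδ2, hN1]
  have hN5 : (5 : ℝ) ^ (2 / δ) ≤ N := by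
    have h1 : (5 : ℝ) ^ (2 / δ) ≤ (⌈(5 : ℝ) ^ (2 / δ)⌉₊ : ℝ) := Nat.le_ceil _
    have h2 : ((⌈(5 : ℝ) ^ (2 / δ)⌉₊ : ℕ) : ℝ) ≤ N := by
      have : ⌈(5 : ℝ) ^ (2 / δ)⌉₊ ≤ N := by omega
      exact_mod_cast this
    linarith only [h1, h2]
  have hs : (5 : ℝ) ≤ (N : ℝ) ^ (δ / 2) := by
    have h1 := Real.rpow_le_rpow (by positivity) hN5 (show 0 ≤ δ / 2 by positivity)
    rw [← Real.rpow_mul (by norm_num), show 2 / δ * (δ / 2) = 1 by field_simp, Real.rpow_one] at h1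
    exact h1
  have hsq : (N : ℝ) ^ δ = (N : ℝ) ^ (δ / 2) * (N : ℝ) ^ (δ / 2) := by
    rw [← Real.rpow_add hN0]
    congr 1
    ring
  have hb0 : 0 < |(b : ℝ)| := by
    rw [abs_pos]
    exact_mod_cast hb
  have h1 : |(b : ℝ)| ≤ N := by
    refine hbN.trans ?_
    calc (N : ℝ) ^ (1 - δ) ≤ (N : ℝ) ^ (1 : ℝ) := Real.rpow_le_rpow_of_exponent_le hN1 (by linarith only [hδ])
      _ = N := Real.rpow_one _
  set mn := min (Real.sqrt N) (N / |(b : ℝ)|) with hmn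
  have hmn1 : (N : ℝ) ^ δ ≤ mn := by
    rw [hmn, le_min_iff]
    constructor
    · rw [Real.sqrt_eq_rpow]
      exact Real.rpow_le_rpow_of_exponent_le hN1 hδ2
    · rw [le_div_iff₀ hb0]
      calc (N : ℝ) ^ δ * |(b : ℝ)| ≤ (N : ℝ) ^ δ * (N : ℝ) ^ (1 - δ) :=
            mul_le_mul_of_nonneg_left hbN (by positivity)
        _ = N := by
            rw [← Real.rpow_add hN0, show δ + (1 - δ) = 1 by ring, Real.rpow_one]
  have hmn20 : 20 ≤ mn := by nlinarith only [hδ2, hs, hsq, hmn1, hδ]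
  have hP : (PP b N : ℝ) ≤ mn / 4 := Nat.floor_le (by linarith only [hδ, hδ2, hmn20])
  have hP2 : mn / 4 - 1 < (PP b N : ℝ) := Nat.sub_one_lt_floor _
  have h2 : mn / 5 ≤ (PP b N : ℝ) := by linarith only [hmn20, hP2]
  have h3 : (N : ℝ) ^ δ / 5 ≤ (PP b N : ℝ) := by linarith only [hmn1, hmn20, hP2]
  have h4 : (N : ℝ) ^ (δ / 2) ≤ (PP b N : ℝ) := by
    refine le_trans ?_ h3
    rw [hsq]
    nlinarith only [hs]
  have hsqrt : mn ≤ Real.sqrt N := min_le_left _ _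
  have hdiv : mn ≤ N / |(b : ℝ)| := min_le_right _ _
  have hss : Real.sqrt N * Real.sqrt N = N := Real.mul_self_sqrt hN0.le
  have hs0 : 0 ≤ Real.sqrt N := Real.sqrt_nonneg _
  refine ⟨h1, h2, h3, ?_, ?_, ?_⟩
  · have h5 := Real.rpow_le_rpow (by positivity) h4 (show 0 ≤ 2 / δ by positivity)
    rw [← Real.rpow_mul hN0.le, show δ / 2 * (2 / δ) = 1 by field_simp, Real.rpow_one] at h5
    exact h5
  · nlinarith only [hδ2, hs, hsq, hmn1, hP2, hss, hsqrt, hP, hδ, h4]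
  · intro n hn
    rw [Finset.mem_Icc] at hn
    have hn1 : (n : ℝ) ≤ PP b N := by exact_mod_cast hn.2
    have hn0 : (0 : ℝ) ≤ n := Nat.cast_nonneg _
    have hnm : (n : ℝ) ≤ mn / 4 := hn1.trans hP
    have hsq2 : (n : ℝ) ^ 2 ≤ N / 16 := by nlinarith only [hss, hsq, hP, hsqrt, hn1, hδ, hδ2, hmn1]
    have hbn : |(b : ℝ) * n| ≤ N / 4 := by
      rw [abs_mul, abs_of_nonneg hn0]
      have h6 : (n : ℝ) ≤ N / |(b : ℝ)| / 4 := hnm.trans (by linarith only [hdiv])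
      calc |(b : ℝ)| * n ≤ |(b : ℝ)| * (N / |(b : ℝ)| / 4) := mul_le_mul_of_nonneg_left h6 hb0.le
        _ = N / 4 := by field_simp
    rw [abs_le] at hbn
    unfold gg
    constructor
    · have h7 : (0 : ℝ) < (N : ℝ) - ((n : ℝ) ^ 2 + b * n) := by linarith only [hbn.2, hδ, hδ2, hN1, hsq2, hbn]
      exact_mod_cast h7
    · have h7 : (N : ℝ) - ((n : ℝ) ^ 2 + b * n) ≤ 2 * N := by nlinarith only [hbn.1, sq_nonneg (n : ℝ), hδ, hδ2, hN1, hbn]
      exact_mod_cast h7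

end Pool.Agent.Lib.MP_d9bc60_nt.AP
end

section
set_option autoImplicit false

/-! Row A12 (about 150 lines): the theorem. -/

namespace Pool.Agent.Lib.MP_d9bc60_nt.AP

open Finset Pool.Agent.Lib.MP_d9bc60_nt.UV

theorem a12_finite (b : ℤ) (N : ℕ) (Q : ℕ → Prop) :
    {p : ℕ | p.Prime ∧ 0 < (N : ℤ) - gg b p ∧ Q p}.Finite := by
  refine (Set.finite_Iic (N + b.natAbs)).subset ?_
  rintro p ⟨-, hp, -⟩
  rw [Set.mem_Iic]
  by_contra hcon
  rw [not_le] at hcon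
  have h1 : (N : ℤ) + |b| < p := by
    have : ((N + b.natAbs : ℕ) : ℤ) < p := by exact_mod_cast hcon
    rw [Nat.cast_add, Int.natCast_natAbs] at this
    exact this
  have h2 : -|b| ≤ b := neg_abs_le b
  have h3 : 0 ≤ |b| := abs_nonneg b
  have h4 : (0 : ℤ) ≤ N := Int.natCast_nonneg N
  rw [gg] at hp
  have h5 : -|b| * (p : ℤ) ≤ b * p := mul_le_mul_of_nonneg_right h2 (by linarith only [hcon, h3])
  have h6 : (p : ℤ) ^ 2 - |b| * p = p * (p - |b|) := by ring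
  have h7 : (p : ℤ) * 1 ≤ p * (p - |b|) := mul_le_mul_of_nonneg_left (by linarith only [hcon]) (by linarith only [hcon, h3])
  nlinarith only [hp, hcon, h3, h5, h7]

theorem a12_odd {b : ℤ} {N p : ℕ} (hp : Odd p) (hNb : (N : ℤ) % 2 = b % 2)
    (h : 0 < (N : ℤ) - gg b p) : Odd (((N : ℤ) - gg b p).toNat) := by
  have h1 : ((((N : ℤ) - gg b p).toNat : ℕ) : ℤ) = (N : ℤ) - gg b p := Int.toNat_of_nonneg h.le
  have h2 : Odd ((N : ℤ) - gg b p) := by
    obtain ⟨r, hr⟩ := hp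
    rw [gg, hr]
    push_cast
    have h3 : ∃ s : ℤ, (N : ℤ) - b = 2 * s := ⟨((N : ℤ) - b) / 2, by omega⟩
    obtain ⟨s, hs⟩ := h3
    refine ⟨s - b * r - 2 * r ^ 2 - 2 * r - 1, ?_⟩
    linear_combination hs
  rw [← h1] at h2
  exact_mod_cast h2

/-- the number of prime factors -/
theorem a12_omega {δ : ℝ} (hδ : 0 < δ) (hδ2 : δ ≤ 1 / 2) {N P a : ℕ} (hN : 1000 / δ ≤ Real.log N)
    (hN1 : 1 ≤ N) (hP : (N : ℝ) ^ δ / 5 ≤ P) (ha : 1 ≤ a) (ha2 : a ≤ 2 * N) :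
    1 < (P : ℝ) ^ (1791 / 4000 : ℝ) ∧
      Real.log a / Real.log ((P : ℝ) ^ (1791 / 4000 : ℝ)) ≤ 2.24 / δ := by
  have hNp : (0 : ℝ) < N := by exact_mod_cast hN1
  have hap : (0 : ℝ) < a := by exact_mod_cast ha
  have hlogN : 2000 ≤ Real.log N := by
    have : 1000 / (1 / 2) ≤ 1000 / δ := div_le_div_of_nonneg_left (by norm_num) hδ hδ2
    linarith only [hN, this]
  have hNδ : 0 < (N : ℝ) ^ δ := by positivity
  have hPp : (0 : ℝ) < P := lt_of_lt_of_le (by positivity) hP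
  have hlog5 : Real.log 5 ≤ 1.7 := by
    have h1 : Real.log 5 = Real.log 4 + Real.log (5 / 4) := by
      rw [← Real.log_mul (by norm_num) (by norm_num)]
      norm_num
    have h2 : Real.log 4 = 2 * Real.log 2 := by
      rw [show (4 : ℝ) = 2 ^ 2 by norm_num, Real.log_pow]
      norm_num
    have h3 : Real.log (5 / 4) ≤ 5 / 4 - 1 := Real.log_le_sub_one_of_pos (by norm_num)
    have h4 := Real.log_two_lt_d9
    linarith only [hδ, hδ2, h1, h2, h3, h4]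
  have hlog2 := Real.log_two_lt_d9
  have hlogP : δ * Real.log N - Real.log 5 ≤ Real.log P := by
    have h1 := Real.log_le_log (by positivity) hP
    rw [Real.log_div hNδ.ne' (by norm_num), Real.log_rpow hNp] at h1
    exact h1
  have hδN : 1000 ≤ δ * Real.log N := by
    rw [div_le_iff₀ hδ] at hN
    linarith only [hN]
  have hlogPpos : 0 < Real.log P := by linarith only [hδ, hδ2, hlog5, hlogP, hδN]
  have hlogy : Real.log ((P : ℝ) ^ (1791 / 4000 : ℝ)) = 1791 / 4000 * Real.log P :=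
    Real.log_rpow hPp _
  have hP1 : 1 < (P : ℝ) := by
    by_contra hcon
    rw [not_lt] at hcon
    have := Real.log_nonpos hPp.le hcon
    linarith only [hδ, hδ2, hlog5, hlogP, hδN, this]
  refine ⟨Real.one_lt_rpow hP1 (by norm_num), ?_⟩
  rw [hlogy, div_le_div_iff₀ (by positivity) hδ]
  have hloga : Real.log a ≤ Real.log 2 + Real.log N := by
    rw [← Real.log_mul (by norm_num) hNp.ne']
    apply Real.log_le_log hap
    exact_mod_cast ha2
  have h1 : Real.log a * δ ≤ (Real.log 2 + Real.log N) * δ := mul_le_mul_of_nonneg_right hloga hδ.le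
  have h2 : 2.24 * (1791 / 4000 * (δ * Real.log N - Real.log 5)) ≤
      2.24 * (1791 / 4000 * Real.log P) := by
    have : (0 : ℝ) < 2.24 * (1791 / 4000) := by norm_num
    nlinarith only [hlogP]
  have h3 : Real.log 2 * δ ≤ 0.7 * (1 / 2) := by
    have h4 : 0 < Real.log 2 := Real.log_pos (by norm_num)
    nlinarith only [hδ2, hδ, hlog2]
  nlinarith only [hδ, hδ2, hlog5, hlogP, hδN, h1, h3]

theorem almost_prime (δ : ℝ) (hδ : 0 < δ) (hδ2 : δ ≤ 1 / 2) : ∃ N₀ : ℝ, ∀ b c n : ℤ, Odd (b + c) →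
    ¬ (3 : ℤ) ∣ b → Odd n → N₀ ≤ (n : ℝ) - c → |(b : ℝ)| ≤ ((n : ℝ) - c) ^ (1 - δ) →
    min (Real.sqrt ((n : ℝ) - c)) (((n : ℝ) - c) / |(b : ℝ)|) / Real.log ((n : ℝ) - c) ^ 5 ≤
      (({p : ℕ | p.Prime ∧ 0 < n - ((p : ℤ) ^ 2 + b * p + c) ∧
        (ArithmeticFunction.cardFactors (n - ((p : ℤ) ^ 2 + b * p + c)).toNat : ℝ) ≤
          4.48 + 2.24 / δ}.ncard : ℕ) : ℝ) := by
  classical
  obtain ⟨N₁, hN₁⟩ := pp_facts δ hδ hδ2
  obtain ⟨P₁, hP₁⟩ := count_good δ hδ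
  have hev1 : ∀ᶠ x : ℝ in Filter.atTop, 5 * (P₁ : ℝ) + 10 ≤ x ^ δ :=
    (tendsto_rpow_atTop hδ).eventually_ge_atTop _
  have hev2 : ∀ᶠ x : ℝ in Filter.atTop, 1000 / δ ≤ Real.log x :=
    Real.tendsto_log_atTop.eventually_ge_atTop _
  obtain ⟨X₀, hX₀⟩ := Filter.eventually_atTop.mp (hev1.and hev2)
  refine ⟨max (max X₀ N₁) 2, fun b c n hbc h3 hn hN hb => ?_⟩
  have hnc2 : (2 : ℝ) ≤ (n : ℝ) - c := (le_max_right _ _).trans hN
  have hncX : X₀ ≤ (n : ℝ) - c := ((le_max_left _ _).trans (le_max_left _ _)).trans hN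
  have hncN : (N₁ : ℝ) ≤ (n : ℝ) - c := ((le_max_right _ _).trans (le_max_left _ _)).trans hN
  have hz : (2 : ℤ) ≤ n - c := by exact_mod_cast hnc2
  obtain ⟨N, hNd⟩ : ∃ N : ℕ, (N : ℤ) = n - c := ⟨(n - c).toNat, Int.toNat_of_nonneg (by omega)⟩
  have hNr : ((n : ℝ) - c) = (N : ℝ) := by
    have : ((N : ℤ) : ℝ) = ((n - c : ℤ) : ℝ) := by rw [hNd]
    push_cast at this
    linarith only [this]
  rw [hNr] at hb hncX hncN hnc2 ⊢
  have hN1 : 1 ≤ N := by
    have : (1 : ℝ) ≤ N := by linarith only [hδ, hδ2, hnc2]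
    exact_mod_cast this
  have hNp : (0 : ℝ) < N := by linarith only [hδ, hδ2, hnc2]
  have hb0 : b ≠ 0 := by
    rintro rfl
    exact h3 (dvd_zero 3)
  obtain ⟨f1, f2, f3, f4, f5, f6⟩ := hN₁ N (by exact_mod_cast hncN) b hb0 hb
  obtain ⟨g1, g2⟩ := hX₀ N hncX
  obtain ⟨P, hPd⟩ : ∃ P : ℕ, P = PP b N := ⟨_, rfl⟩
  rw [← hPd] at f2 f3 f4 f5 f6
  have hPP₁ : P₁ ≤ P := by
    have : (P₁ : ℝ) ≤ P := by linarith only [hδ, hδ2, g1, f3]
    exact_mod_cast this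
  have hP2 : (2 : ℝ) ≤ P := by
    have : (0 : ℝ) ≤ P₁ := Nat.cast_nonneg _
    linarith only [g1, f3]
  have hcount := hP₁ P hPP₁ b N h3 hN1 f1 f4 (fun n hn => (f6 n hn).1)
  -- the set
  have hSeq : {p : ℕ | p.Prime ∧ 0 < n - ((p : ℤ) ^ 2 + b * p + c) ∧
      (ArithmeticFunction.cardFactors (n - ((p : ℤ) ^ 2 + b * p + c)).toNat : ℝ) ≤
        4.48 + 2.24 / δ} = {p : ℕ | p.Prime ∧ 0 < (N : ℤ) - gg b p ∧
      (ArithmeticFunction.cardFactors ((N : ℤ) - gg b p).toNat : ℝ) ≤ 4.48 + 2.24 / δ} := by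
    have h1 : ∀ p : ℕ, n - ((p : ℤ) ^ 2 + b * p + c) = (N : ℤ) - gg b p := by
      intro p
      rw [hNd, gg]
      ring
    ext p
    simp only [Set.mem_ofPred_eq, h1]
  rw [hSeq]
  have hpar : (N : ℤ) % 2 = b % 2 := by
    obtain ⟨r, hr⟩ := hbc
    obtain ⟨s, hs⟩ := hn
    omega
  have hfin := a12_finite b N (fun p => (ArithmeticFunction.cardFactors ((N : ℤ) - gg b p).toNat : ℝ) ≤
    4.48 + 2.24 / δ)
  have hle : (((Icc 1 P).filter (fun n => n.Prime ∧ 3 ≤ n ∧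
        Sft ((P : ℝ) ^ (199 / 7000 : ℝ)) (aq b N n) ∧
        (∀ l ∈ prs ((P : ℝ) ^ (199 / 7000 : ℝ)) ((P : ℝ) ^ (1791 / 4000 : ℝ)), ¬ l ^ 2 ∣ aq b N n) ∧
        0 < Wt ((P : ℝ) ^ (199 / 7000 : ℝ)) ((P : ℝ) ^ (1791 / 4000 : ℝ)) (aq b N n))).card) ≤
      {p : ℕ | p.Prime ∧ 0 < (N : ℤ) - gg b p ∧
        (ArithmeticFunction.cardFactors ((N : ℤ) - gg b p).toNat : ℝ) ≤ 4.48 + 2.24 / δ}.ncard := by
    rw [← Set.ncard_coe_finset]
    apply Set.ncard_le_ncard _ hfin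
    intro p hp
    rw [mem_coe, mem_filter] at hp
    obtain ⟨hpI, hpp, hp3, hs1, hs2, hs3⟩ := hp
    obtain ⟨u1, u2⟩ := f6 p hpI
    have hodd : Odd p := hpp.odd_of_ne_two (by omega)
    have ha := a12_odd hodd hpar u1
    have ha1 : 1 ≤ aq b N p := by
      rw [aq]
      omega
    have ha2 : aq b N p ≤ 2 * N := by
      rw [aq]
      omega
    obtain ⟨v1, v2⟩ := a12_omega hδ hδ2 g2 hN1 f3 ha1 ha2
    have hom := omega_le _ _ v1 (aq b N p) ha hs1 hs2 hs3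
    refine ⟨hpp, u1, ?_⟩
    have : ((N : ℤ) - gg b p).toNat = aq b N p := rfl
    rw [this]
    linarith only [v2, hom]
  refine le_trans ?_ (le_trans hcount (by exact_mod_cast hle))
  -- the numerical comparison
  have hlogN : 25 ≤ Real.log N := by
    have : 1000 / (1 / 2) ≤ 1000 / δ := div_le_div_of_nonneg_left (by norm_num) hδ hδ2
    linarith only [hδ, hδ2, g2, this]
  have hlogP : 0 < Real.log P := Real.log_pos (by linarith only [hδ, hδ2, g1, f3])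
  have hlogPN : Real.log P ≤ Real.log N := Real.log_le_log (by linarith only [hδ, hδ2, g1, f3]) f5
  obtain ⟨m, hm⟩ : ∃ m : ℝ, m = min (Real.sqrt N) (N / |(b : ℝ)|) := ⟨_, rfl⟩
  rw [← hm] at f2 ⊢
  have hm0 : 0 ≤ m := by
    rw [hm]
    exact le_min (Real.sqrt_nonneg _) (by positivity)
  have hlN0 : 0 < Real.log N := by linarith only [hδ, hδ2, hlogN]
  have k1 : Real.log N ^ 5 = Real.log N ^ (9 / 2 : ℝ) * Real.sqrt (Real.log N) := by
    rw [Real.sqrt_eq_rpow, ← Real.rpow_add hlN0, ← Real.rpow_natCast]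
    norm_num
  have k2 : 5 ≤ Real.sqrt (Real.log N) := Real.le_sqrt_of_sq_le (by norm_num; linarith only [hlogN])
  have k3 : 0 < Real.log N ^ (9 / 2 : ℝ) := by positivity
  calc m / Real.log N ^ 5 ≤ m / (Real.log N ^ (9 / 2 : ℝ) * 5) := by
        apply div_le_div_of_nonneg_left hm0 (by positivity)
        rw [k1]
        exact mul_le_mul_of_nonneg_left k2 k3.le
    _ = m / 5 / Real.log N ^ (9 / 2 : ℝ) := by
        field_simp
    _ ≤ P / Real.log N ^ (9 / 2 : ℝ) := div_le_div_of_nonneg_right f2 k3.le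
    _ ≤ P / Real.log P ^ (9 / 2 : ℝ) := by
        apply div_le_div_of_nonneg_left (by linarith only [hδ, hδ2, g1, f3]) (by positivity)
        exact Real.rpow_le_rpow hlogP.le hlogPN (by norm_num)

end Pool.Agent.Lib.MP_d9bc60_nt.AP
end
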