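import Pool.Agent.Lib.MP_d9bc60_nt.AQ.QDefs
import Pool.Agent.Lib.MP_d9bc60_nt.EN.Defs
import Pool.Agent.Lib.MP_d9bc60_nt.AQ.QBV

section
/-! Row E01 (about 180 lines): primes `m ≤ N/2`, `m ≡ a (3)`, `m ≡ N (p)`, for one prime `p`. -/

set_option autoImplicit false

namespace Pool.Agent.Lib.MP_d9bc60_nt.AP

open Finset Pool.Agent.Lib.MP_d9bc60_nt.UV

theorem e01_kf_nonneg (P n : ℕ) : 0 ≤ kf P n := le_max_left _ _

theorem e01_vm_nonneg (n : ℕ) : 0 ≤ vm n := ArithmeticFunction.vonMangoldt_nonneg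

/-- the kernel vanishes beyond `P` -/
theorem e01_kf_zero (P n : ℕ) (h : P < n) : kf P n = 0 := by
  unfold kf
  apply max_eq_left
  have hn : (0 : ℝ) < n := by exact_mod_cast (Nat.zero_le P).trans_lt h
  apply Real.log_nonpos (by positivity)
  rw [div_le_one hn]
  exact_mod_cast h.le

/-- the difference of the kernels -/
theorem e01_kf_diff (P P' n : ℕ) (hn : 1 ≤ n) (hP' : 0 < P') (hPP : P' ≤ P)
    (h : (P : ℝ) ≤ Real.exp 1 * P') : kf P n ≤ kf P' n + 1 := by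
  unfold kf
  have hn0 : (0 : ℝ) < n := by exact_mod_cast hn
  have hp0 : (0 : ℝ) < P' := by exact_mod_cast hP'
  have hP0 : (0 : ℝ) < P := by exact_mod_cast hP'.trans_le hPP
  apply max_le
  · have := le_max_left (0 : ℝ) (Real.log ((P' : ℝ) / n))
    linarith
  · have h1 : Real.log ((P : ℝ) / n) ≤ Real.log ((P' : ℝ) / n) + 1 := by
      rw [Real.log_div hP0.ne' hn0.ne', Real.log_div hp0.ne' hn0.ne']
      have h2 : Real.log (P : ℝ) ≤ Real.log (Real.exp 1 * P') := Real.log_le_log hP0 h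
      rw [Real.log_mul (Real.exp_ne_zero 1) hp0.ne', Real.log_exp] at h2
      linarith
    have := le_max_right (0 : ℝ) (Real.log ((P' : ℝ) / n))
    linarith

/-- the residue -/
theorem e01_res (N p a : ℕ) (hp : p.Prime) (hp3 : p ≠ 3) (hpN : ¬ p ∣ N) (ha : a = 1 ∨ a = 2) :
    ∃ r : ℕ, r.Coprime (3 * p) ∧ r % 3 = a ∧ r ≡ N [MOD p] := by
  have hco : Nat.Coprime 3 p := by
    rw [Nat.coprime_primes Nat.prime_three hp]
    exact fun h => hp3 h.symm
  obtain ⟨r, hr1, hr2⟩ := Nat.chineseRemainder hco a N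
  have h3 : r % 3 = a := by
    have h := hr1
    unfold Nat.ModEq at h
    rcases ha with h' | h' <;> subst h' <;> omega
  refine ⟨r, ?_, h3, hr2⟩
  apply Nat.Coprime.mul_right
  · rw [Nat.coprime_comm, Nat.Prime.coprime_iff_not_dvd Nat.prime_three]
    intro hd
    have := Nat.mod_eq_zero_of_dvd hd
    rcases ha with h' | h' <;> omega
  · rw [Nat.coprime_comm, Nat.Prime.coprime_iff_not_dvd hp]
    intro hd
    exact hpN ((hr2.dvd_iff dvd_rfl).mp hd)

theorem e01_union (s t : Finset ℕ) :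
    ∑ n ∈ s ∪ t, vm n ≤ ∑ n ∈ s, vm n + ∑ n ∈ t, vm n := by
  rw [← Finset.sum_union_inter]
  have h : 0 ≤ ∑ n ∈ s ∩ t, vm n := Finset.sum_nonneg fun n _ => e01_vm_nonneg n
  linarith

/-- the proper prime powers -/
theorem e01_pp (N : ℕ) (hN : 1 ≤ N) :
    ∑ n ∈ (Icc 1 N).filter (fun n => ¬ n.Prime), vm n ≤ 2 * Real.sqrt N * Real.log N := by
  have h1 := Chebyshev.psi_sub_theta_le (x := (N : ℝ)) (by exact_mod_cast hN)
  rw [Chebyshev.psi_sub_theta_eq_sum_not_prime] at h1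
  refine le_trans (le_of_eq ?_) h1
  rw [Nat.floor_natCast]
  apply Finset.sum_congr
  · ext n
    simp only [mem_filter, mem_Icc, mem_Ioc]
    constructor
    · rintro ⟨⟨h1, h2⟩, h3⟩
      exact ⟨⟨by omega, h2⟩, h3⟩
    · rintro ⟨⟨h1, h2⟩, h3⟩
      exact ⟨⟨by omega, h2⟩, h3⟩
  · intro n _
    rfl

/-- Proof. `P = N/2`, `P' = N/4` (natural division), `r` the residue mod `3p` with `r ≡ a (3)`, `r ≡ N (p)`
(`Nat.chineseRemainder`; coprime to `3p`). For all `m`: `0 ≤ kf P m - kf P' m ≤ log(P/P') ≤ 1`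
(`N` large), and it is `0` for `m > P`. `∑_{m ≡ r (3p)} Λ(m) (kf P m - kf P' m) =
(P - P')/(2(p-1)) + EE P - EE P'` and `(P-P')/(2(p-1)) ≥ N/(12 p)`. The left side is at most
`log N · #{primes m}` plus the contribution of `m = 2` and of the proper prime powers `m ≤ N`, at most
`2 √N log N` numbers with `Λ ≤ log N`. `m ≡ r (3p)` iff `m % 3 = a` and `p ∣ N - m` (for `m ≤ N`). -/
theorem one_prime : ∃ N₁ : ℕ, ∀ N : ℕ, N₁ ≤ N → ∀ p a : ℕ, p.Prime → p ≠ 3 → ¬ p ∣ N →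
    a = 1 ∨ a = 2 → ∃ r : ℕ, r.Coprime (3 * p) ∧
    (N : ℝ) / (12 * p) - |EE (N / 2) (3 * p) r| - |EE (N / 4) (3 * p) r| -
      3 * Real.sqrt N * Real.log N ^ 2 ≤
      Real.log N * (((Icc 3 (N / 2)).filter (fun m => m.Prime ∧ m % 3 = a ∧ p ∣ N - m)).card : ℝ) := by
  refine ⟨100, fun N hN p a hp hp3 hpN ha => ?_⟩
  obtain ⟨r, hrco, hr3, hrp⟩ := e01_res N p a hp hp3 hpN ha
  refine ⟨r, hrco, ?_⟩
  have hp2 : 2 ≤ p := hp.two_le
  have hpr : (2 : ℝ) ≤ p := by exact_mod_cast hp2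
  have hNr : (100 : ℝ) ≤ N := by exact_mod_cast hN
  set P := N / 2 with hP
  set P' := N / 4 with hP'
  have hPP : P' ≤ P := by omega
  have hP'0 : 0 < P' := by omega
  have hP1 : 2 * P ≤ N := by omega
  have hP2 : N ≤ 2 * P + 1 := by omega
  have hP3 : 4 * P' ≤ N := by omega
  have hP4 : N ≤ 4 * P' + 3 := by omega
  have hP1r : 2 * (P : ℝ) ≤ N := by exact_mod_cast hP1
  have hP2r : (N : ℝ) ≤ 2 * (P : ℝ) + 1 := by exact_mod_cast hP2
  have hP3r : 4 * (P' : ℝ) ≤ N := by exact_mod_cast hP3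
  have hP4r : (N : ℝ) ≤ 4 * (P' : ℝ) + 3 := by exact_mod_cast hP4
  have hexp : (P : ℝ) ≤ Real.exp 1 * P' := by
    have h1 : (2.7 : ℝ) ≤ Real.exp 1 := by
      have := Real.exp_one_gt_d9
      linarith
    have h2 : (0 : ℝ) ≤ P' := Nat.cast_nonneg _
    nlinarith
  -- the totient
  have htot : (3 * p).totient = 2 * (p - 1) := by
    have hco : Nat.Coprime 3 p := by
      rw [Nat.coprime_primes Nat.prime_three hp]
      exact fun h => hp3 h.symm
    rw [Nat.totient_mul hco, Nat.totient_prime hp, Nat.totient_prime Nat.prime_three]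
  have htotr : (((3 * p).totient : ℕ) : ℝ) = 2 * ((p : ℝ) - 1) := by
    rw [htot]
    push_cast [Nat.cast_sub (by omega : 1 ≤ p)]
    ring
  set C : ℕ → Prop := fun n => n % (3 * p) = r % (3 * p) with hC
  -- the main inequality
  have hsum : ∑ n ∈ (Icc 1 P).filter (fun n => n % (3 * p) = r % (3 * p)), vm n * kf P n -
      ∑ n ∈ (Icc 1 P').filter (fun n => n % (3 * p) = r % (3 * p)), vm n * kf P' n ≤
      ∑ n ∈ (Icc 1 P).filter (fun n => n % (3 * p) = r % (3 * p)), vm n := by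
    have h1 : ∑ n ∈ (Icc 1 P').filter (fun n => n % (3 * p) = r % (3 * p)), vm n * kf P' n =
        ∑ n ∈ (Icc 1 P).filter (fun n => n % (3 * p) = r % (3 * p)), vm n * kf P' n := by
      apply Finset.sum_subset
      · intro n hn
        rw [mem_filter, mem_Icc] at hn ⊢
        exact ⟨⟨hn.1.1, hn.1.2.trans hPP⟩, hn.2⟩
      · intro n hn hn'
        rw [mem_filter, mem_Icc] at hn hn'
        have h2 : P' < n := by
          by_contra hcon
          exact hn' ⟨⟨hn.1.1, by omega⟩, hn.2⟩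
        rw [e01_kf_zero P' n h2, mul_zero]
    rw [h1, ← Finset.sum_sub_distrib]
    apply Finset.sum_le_sum
    intro n hn
    rw [mem_filter, mem_Icc] at hn
    have h2 := e01_kf_diff P P' n hn.1.1 hP'0 hPP hexp
    have h3 := e01_vm_nonneg n
    nlinarith
  have hmain : (N : ℝ) / (12 * p) ≤ ((P : ℝ) - P') / (2 * ((p : ℝ) - 1)) := by
    rw [div_le_div_iff₀ (by positivity) (by linarith)]
    nlinarith
  have hEE : (N : ℝ) / (12 * p) - |EE P (3 * p) r| - |EE P' (3 * p) r| ≤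
      ∑ n ∈ (Icc 1 P).filter (fun n => n % (3 * p) = r % (3 * p)), vm n := by
    have h1 : EE P (3 * p) r = ∑ n ∈ (Icc 1 P).filter (fun n => n % (3 * p) = r % (3 * p)),
        vm n * kf P n - (P : ℝ) / (2 * ((p : ℝ) - 1)) := by
      rw [← htotr]; rfl
    have h2 : EE P' (3 * p) r = ∑ n ∈ (Icc 1 P').filter (fun n => n % (3 * p) = r % (3 * p)),
        vm n * kf P' n - (P' : ℝ) / (2 * ((p : ℝ) - 1)) := by
      rw [← htotr]; rfl
    have h3 := neg_abs_le (EE P (3 * p) r)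
    have h4 := le_abs_self (EE P' (3 * p) r)
    rw [sub_div] at hmain
    linarith
  -- the primes
  have hpr2 : ∑ n ∈ (Icc 1 P).filter (fun n => n % (3 * p) = r % (3 * p)), vm n ≤
      Real.log N * (((Icc 3 P).filter
        (fun m => m.Prime ∧ m % 3 = a ∧ p ∣ N - m)).card : ℝ) + Real.log 2 +
        ∑ n ∈ (Icc 1 N).filter (fun n => ¬ n.Prime), vm n := by
    have h1 : (Icc 1 P).filter (fun n => n % (3 * p) = r % (3 * p)) ⊆
        (((Icc 3 P).filter (fun m => m.Prime ∧ m % 3 = a ∧ p ∣ N - m)) ∪ {2}) ∪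
          (Icc 1 N).filter (fun n => ¬ n.Prime) := by
      intro n hn
      rw [mem_filter, mem_Icc] at hn
      rw [mem_union, mem_union, mem_singleton, mem_filter, mem_filter, mem_Icc, mem_Icc]
      by_cases hpn : n.Prime
      · left
        by_cases h2 : n = 2
        · right; exact h2
        · left
          have h3 := hpn.two_le
          refine ⟨⟨by omega, hn.1.2⟩, hpn, ?_, ?_⟩
          · have h4 : n ≡ r [MOD 3] := Nat.ModEq.of_mul_right p hn.2
            have h5 : n % 3 = r % 3 := h4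
            rw [h5, hr3]
          · have h4 : n ≡ r [MOD p] := Nat.ModEq.of_mul_left 3 hn.2
            exact (Nat.modEq_iff_dvd' (by omega)).mp (h4.trans hrp)
      · right
        exact ⟨⟨hn.1.1, by omega⟩, hpn⟩
    refine (Finset.sum_le_sum_of_subset_of_nonneg h1 fun n _ _ => e01_vm_nonneg n).trans ?_
    have h5 := e01_union (((Icc 3 P).filter (fun m => m.Prime ∧ m % 3 = a ∧ p ∣ N - m)) ∪ {2})
      ((Icc 1 N).filter (fun n => ¬ n.Prime))
    have h6 := e01_union ((Icc 3 P).filter (fun m => m.Prime ∧ m % 3 = a ∧ p ∣ N - m)) {2}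
    have h7 : ∑ n ∈ ({2} : Finset ℕ), vm n = Real.log 2 := by
      rw [Finset.sum_singleton]
      unfold vm
      rw [ArithmeticFunction.vonMangoldt_apply_prime Nat.prime_two]
      norm_num
    have h8 : ∑ n ∈ (Icc 3 P).filter (fun m => m.Prime ∧ m % 3 = a ∧ p ∣ N - m), vm n ≤
        Real.log N * (((Icc 3 P).filter
          (fun m => m.Prime ∧ m % 3 = a ∧ p ∣ N - m)).card : ℝ) := by
      rw [mul_comm, ← nsmul_eq_mul]
      apply Finset.sum_le_card_nsmul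
      intro n hn
      rw [mem_filter, mem_Icc] at hn
      unfold vm
      rw [ArithmeticFunction.vonMangoldt_apply_prime hn.2.1]
      apply Real.log_le_log
      · exact_mod_cast hn.2.1.pos
      · exact_mod_cast (by omega : n ≤ N)
    linarith
  have hpp := e01_pp N (by omega)
  have hlog : 1 ≤ Real.log N := by
    rw [Real.le_log_iff_exp_le (by linarith)]
    have := Real.exp_one_lt_d9
    linarith
  have hsq : 1 ≤ Real.sqrt N := by
    rw [Real.one_le_sqrt]; linarith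
  have hl2 : Real.log 2 ≤ 1 := by
    have := Real.log_two_lt_d9
    linarith
  have hfin : Real.log 2 + 2 * Real.sqrt N * Real.log N ≤ 3 * Real.sqrt N * Real.log N ^ 2 := by
    have h1 : 1 ≤ Real.sqrt N * Real.log N := by nlinarith
    have h2 : Real.sqrt N * Real.log N ≤ Real.sqrt N * Real.log N ^ 2 := by
      nlinarith
    linarith
  linarith

end Pool.Agent.Lib.MP_d9bc60_nt.AP
end

section
/-! Row E02 (about 180 lines): many pairs `(m, p)` with `p ∣ N - m`, for every `U ≤ N^(1/2-ε)`. -/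

set_option autoImplicit false

namespace Pool.Agent.Lib.MP_d9bc60_nt.AP

open Finset Pool.Agent.Lib.MP_d9bc60_nt.UV

theorem e02_theta (U : ℕ) (hU : 1 ≤ U) : Chebyshev.theta ((2 * U : ℕ) : ℝ) ≤
    Chebyshev.theta (U : ℝ) +
      (((Ioc U (2 * U)).filter Nat.Prime).card : ℝ) * Real.log ((2 * U : ℕ) : ℝ) := by
  simp only [Chebyshev.theta, Nat.floor_natCast]
  rw [Finset.sum_filter, Finset.sum_filter,
    ← Finset.sum_Ioc_consecutive _ (Nat.zero_le U) (by omega : U ≤ 2 * U)]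
  have h1 : ∑ p ∈ Ioc U (2 * U), (if p.Prime then Real.log p else 0) ≤
      (((Ioc U (2 * U)).filter Nat.Prime).card : ℝ) * Real.log ((2 * U : ℕ) : ℝ) := by
    rw [← Finset.sum_filter, ← nsmul_eq_mul]
    refine Finset.sum_le_card_nsmul _ _ _ fun p hp => ?_
    rw [mem_filter, mem_Ioc] at hp
    refine Real.log_le_log ?_ ?_
    · exact_mod_cast hp.2.pos
    · exact_mod_cast hp.1.2
  linarith

theorem e02_psi (x : ℕ) : Chebyshev.psi (x : ℝ) = ∑ n ∈ Icc 1 x, vm n := by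
  simp only [Chebyshev.psi, Nat.floor_natCast]
  rfl

/-- Proof. `psi_one 2` (part of `UV.PSW`): `ψ(2U) - ψ(U) ≥ 9U/10`, prime powers contribute `O(√U log U)`. -/
theorem primes_dyadic : ∃ U₀ : ℕ, 2 ≤ U₀ ∧ ∀ U : ℕ, U₀ ≤ U →
    (U : ℝ) / (2 * Real.log U) ≤ (((Ioc U (2 * U)).filter Nat.Prime).card : ℝ) := by
  obtain ⟨x₀, hx₀⟩ := psi_one 2
  have h1 := (isLittleO_log_rpow_atTop (show (0 : ℝ) < 1 / 2 by norm_num)).bound
    (show (0 : ℝ) < 1 / 40 by norm_num)
  rw [Filter.eventually_atTop] at h1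
  obtain ⟨y₀, hy₀⟩ := h1
  refine ⟨max (max x₀ ⌈y₀⌉₊) (max ⌈Real.exp 10⌉₊ 2), (le_max_right _ _).trans (le_max_right _ _),
    fun U hU => ?_⟩
  have hU1 : x₀ ≤ U := ((le_max_left _ _).trans (le_max_left _ _)).trans hU
  have hU2 : ⌈y₀⌉₊ ≤ U := ((le_max_right _ _).trans (le_max_left _ _)).trans hU
  have hU3 : ⌈Real.exp 10⌉₊ ≤ U := ((le_max_left _ _).trans (le_max_right _ _)).trans hU
  have hU4 : 2 ≤ U := ((le_max_right _ _).trans (le_max_right _ _)).trans hU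
  have hU2' : y₀ ≤ U := Nat.ceil_le.mp hU2
  have hU3' : Real.exp 10 ≤ U := Nat.ceil_le.mp hU3
  have hUpos : (0 : ℝ) < U := (Real.exp_pos _).trans_le hU3'
  have hlog : 10 ≤ Real.log U := (Real.le_log_iff_exp_le hUpos).mpr hU3'
  have hc2 : ((2 * U : ℕ) : ℝ) = 2 * U := by push_cast; ring
  have hlog2 : Real.log ((2 * U : ℕ) : ℝ) = Real.log 2 + Real.log U := by
    rw [hc2, Real.log_mul (by norm_num) hUpos.ne']
  have hl2 : Real.log 2 < 0.7 := by
    have := Real.log_two_lt_d9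
    linarith
  have hl2' : 0 < Real.log 2 := Real.log_pos (by norm_num)
  have e1 := hx₀ (2 * U) (by omega)
  have e2 := hx₀ U hU1
  rw [← e02_psi] at e1 e2
  have e3 := Chebyshev.psi_sub_theta_le (x := ((2 * U : ℕ) : ℝ)) (by
    rw [hc2]; linarith [show (2 : ℝ) ≤ U by exact_mod_cast hU4])
  have e4 := Chebyshev.theta_le_psi (U : ℝ)
  have e5 := e02_theta U (by omega)
  have e6 := hy₀ ((2 * U : ℕ) : ℝ) (by rw [hc2]; linarith)
  rw [← Real.sqrt_eq_rpow] at e6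
  obtain ⟨L, hL⟩ : ∃ L : ℝ, L = Real.log ((2 * U : ℕ) : ℝ) := ⟨_, rfl⟩
  obtain ⟨s, hs⟩ : ∃ s : ℝ, s = Real.sqrt ((2 * U : ℕ) : ℝ) := ⟨_, rfl⟩
  have hL0 : 10 < L := by rw [hL, hlog2]; linarith
  have hs0 : 0 ≤ s := by rw [hs]; exact Real.sqrt_nonneg _
  have hss : s * s = 2 * U := by
    rw [hs, Real.mul_self_sqrt (by positivity), hc2]
  rw [← hL, ← hs, Real.norm_of_nonneg (by linarith), Real.norm_of_nonneg hs0] at e6
  rw [← hL, ← hs] at e3
  rw [← hL] at e1 e5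
  obtain ⟨C, hC⟩ : ∃ C : ℝ, C = (((Ioc U (2 * U)).filter Nat.Prime).card : ℝ) := ⟨_, rfl⟩
  rw [← hC] at e5 ⊢
  have e7 : 2 * s * L ≤ 0.1 * U := by nlinarith
  have hL2 : 100 ≤ L ^ 2 := by nlinarith
  have hlU2 : 100 ≤ Real.log U ^ 2 := by nlinarith
  have e8 : ((2 * U : ℕ) : ℝ) / L ^ 2 ≤ 0.02 * U := by
    rw [hc2, div_le_iff₀ (by positivity)]
    nlinarith [mul_nonneg hUpos.le (sub_nonneg.mpr hL2)]
  have e9 : (U : ℝ) / Real.log U ^ 2 ≤ 0.01 * U := by
    rw [div_le_iff₀ (by positivity)]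
    nlinarith [mul_nonneg hUpos.le (sub_nonneg.mpr hlU2)]
  have e10 := (abs_le.mp e1).1
  have e11 := (abs_le.mp e2).2
  have e12 : 0.8 * (U : ℝ) ≤ C * L := by
    rw [hc2] at e10
    rw [hc2] at e3 e5
    rw [hc2] at e8
    linarith
  have hLU : L ≤ 1.6 * Real.log U := by rw [hL, hlog2]; linarith
  have hC0 : 0 ≤ C := by rw [hC]; positivity
  rw [div_le_iff₀ (by positivity)]
  nlinarith

theorem e02_dvd (N U : ℕ) (hN : 0 < N) (hU : 1 ≤ U) :
    (((Ioc U (2 * U)).filter (fun p => p.Prime ∧ p ∣ N)).card : ℝ) * Real.log U ≤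
      Real.log N := by
  set F := (Ioc U (2 * U)).filter (fun p => p.Prime ∧ p ∣ N) with hF
  have h1 : ∏ p ∈ F, p ∣ N := by
    refine Finset.prod_primes_dvd N (fun p hp => ?_) (fun p hp => ?_)
    · exact ((mem_filter.mp hp).2.1).prime
    · exact (mem_filter.mp hp).2.2
  have h2 : U ^ F.card ≤ ∏ p ∈ F, p := by
    rw [← Finset.prod_const]
    exact Finset.prod_le_prod (fun _ _ => Nat.zero_le _)
      (fun p hp => (mem_Ioc.mp (mem_filter.mp hp).1).1.le)
  have h3 : U ^ F.card ≤ N := h2.trans (Nat.le_of_dvd hN h1)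
  rw [← Real.log_pow]
  refine Real.log_le_log ?_ ?_
  · have : (0 : ℝ) < U := by exact_mod_cast hU
    positivity
  · exact_mod_cast h3

/-- many primes not dividing `N` -/
theorem e02_primes : ∃ U₀ : ℕ, 2 ≤ U₀ ∧ ∀ U N : ℕ, U₀ ≤ U → 0 < N → 4 * Real.log N ≤ U →
    (U : ℝ) / (4 * Real.log U) ≤
      (((Ioc U (2 * U)).filter (fun p => p.Prime ∧ ¬ p ∣ N)).card : ℝ) := by
  obtain ⟨U₀, hU₀, h⟩ := primes_dyadic
  refine ⟨U₀, hU₀, fun U N hU hN hlog => ?_⟩
  have hU2 : (2 : ℝ) ≤ U := by exact_mod_cast hU₀.trans hU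
  have hl : 0 < Real.log U := Real.log_pos (by linarith)
  have h1 := h U hU
  have h2 := e02_dvd N U hN (by omega)
  have h3 : ((Ioc U (2 * U)).filter Nat.Prime).card =
      ((Ioc U (2 * U)).filter (fun p => p.Prime ∧ p ∣ N)).card +
      ((Ioc U (2 * U)).filter (fun p => p.Prime ∧ ¬ p ∣ N)).card := by
    rw [← Finset.card_filter_add_card_filter_not (s := (Ioc U (2 * U)).filter Nat.Prime)
      (p := fun p => p ∣ N), Finset.filter_filter, Finset.filter_filter]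
  have h4 : (((Ioc U (2 * U)).filter Nat.Prime).card : ℝ) =
      (((Ioc U (2 * U)).filter (fun p => p.Prime ∧ p ∣ N)).card : ℝ) +
      (((Ioc U (2 * U)).filter (fun p => p.Prime ∧ ¬ p ∣ N)).card : ℝ) := by exact_mod_cast h3
  rw [h4] at h1
  have h5 : (((Ioc U (2 * U)).filter (fun p => p.Prime ∧ p ∣ N)).card : ℝ) ≤
      (U : ℝ) / (4 * Real.log U) := by
    rw [le_div_iff₀ (by positivity)]
    linarith
  have h6 : (U : ℝ) / (2 * Real.log U) = 2 * ((U : ℝ) / (4 * Real.log U)) := by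
    field_simp
    ring
  linarith

/-- the count as a sum over the primes -/
theorem e02_TT (N U a : ℕ) :
    ∑ p ∈ (Ioc U (2 * U)).filter (fun p => p.Prime ∧ ¬ p ∣ N),
      ((Icc 3 (N / 2)).filter (fun m => m.Prime ∧ m % 3 = a ∧ p ∣ N - m)).card ≤
      EN.TT N U a := by
  classical
  unfold EN.TT
  set T := ((Icc 3 (N / 2)) ×ˢ (Ioc U (2 * U))).filter fun x : ℕ × ℕ =>
    x.1.Prime ∧ x.1 % 3 = a ∧ x.2.Prime ∧ x.2 ∣ N - x.1 with hT
  set Pr := (Ioc U (2 * U)).filter (fun p => p.Prime ∧ ¬ p ∣ N) with hP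
  have h1 : ∑ p ∈ Pr, ((Icc 3 (N / 2)).filter (fun m => m.Prime ∧ m % 3 = a ∧ p ∣ N - m)).card =
      ∑ p ∈ Pr, (T.filter (fun x => x.2 = p)).card := by
    refine Finset.sum_congr rfl fun p hp => ?_
    rw [hP, mem_filter] at hp
    refine Finset.card_bij (fun m _ => (m, p)) ?_ ?_ ?_
    · intro m hm
      rw [mem_filter] at hm ⊢
      rw [hT, mem_filter, mem_product]
      exact ⟨⟨⟨hm.1, hp.1⟩, hm.2.1, hm.2.2.1, hp.2.1, hm.2.2.2⟩, rfl⟩
    · intro m _ m' _ h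
      exact (Prod.mk.inj h).1
    · rintro ⟨m, q⟩ hx
      rw [mem_filter, hT, mem_filter, mem_product] at hx
      obtain ⟨⟨⟨h1, h2⟩, h3, h4, h5, h6⟩, h7⟩ := hx
      simp only at h7
      subst h7
      exact ⟨m, mem_filter.mpr ⟨h1, h3, h4, h6⟩, rfl⟩
  rw [h1, ← Finset.card_biUnion]
  · refine Finset.card_le_card ?_
    rw [Finset.biUnion_subset]
    exact fun p _ => Finset.filter_subset _ _
  · intro p _ q _ hpq
    rw [Function.onFun, Finset.disjoint_left]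
    intro x hx hx'
    rw [mem_filter] at hx hx'
    exact hpq (hx.2.symm.trans hx'.2)

/-- the sum of the error terms -/
theorem e02_err (Est : ℕ → ℝ) (hE : ∀ d, 0 ≤ Est d) (U N : ℕ) (B : ℝ)
    (h : ∑ d ∈ Icc 1 (6 * U), (d.divisors.card : ℝ) ^ 0 * Est d ≤ B) :
    ∑ p ∈ (Ioc U (2 * U)).filter (fun p => p.Prime ∧ ¬ p ∣ N), Est (3 * p) ≤ B := by
  refine le_trans ?_ h
  simp only [pow_zero, one_mul]
  rw [← Finset.sum_image (f := Est) (g := fun p => 3 * p)]
  · refine Finset.sum_le_sum_of_subset_of_nonneg ?_ (fun _ _ _ => hE _)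
    intro d hd
    rw [mem_image] at hd
    obtain ⟨p, hp, rfl⟩ := hd
    rw [mem_filter, mem_Ioc] at hp
    rw [mem_Icc]
    omega
  · intro x _ y _ hxy
    simp only at hxy
    omega

theorem e02_ev (ε : ℝ) (hε : 0 < ε) (P₀ U₀ : ℕ) : ∃ N₀ : ℕ, ∀ N : ℕ, N₀ ≤ N →
    4 ≤ N ∧ P₀ ≤ N / 4 ∧ 4 ≤ Real.log (Real.log N) ∧ 100 ≤ Real.log N ∧
    (U₀ : ℝ) ≤ Real.log N ∧
    48 ≤ (N : ℝ) ^ (ε / 2) ∧ 3 * (N : ℝ) ^ (1 - ε) * Real.log N ^ 2 ≤ N / (1000 * Real.log N) ∧
    2 * Real.log 8 ≤ Real.log N ∧ 20000 ≤ Real.log N ^ 2 := by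
  have hcast : Filter.Tendsto (fun N : ℕ => (N : ℝ)) Filter.atTop Filter.atTop :=
    tendsto_natCast_atTop_atTop
  have hlog : Filter.Tendsto (fun N : ℕ => Real.log N) Filter.atTop Filter.atTop :=
    Real.tendsto_log_atTop.comp hcast
  have hloglog : Filter.Tendsto (fun N : ℕ => Real.log (Real.log N)) Filter.atTop Filter.atTop :=
    Real.tendsto_log_atTop.comp hlog
  have hpow : Filter.Tendsto (fun N : ℕ => (N : ℝ) ^ (ε / 2)) Filter.atTop Filter.atTop :=
    (tendsto_rpow_atTop (by positivity)).comp hcast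
  have ho : ∀ᶠ x : ℝ in Filter.atTop, 3 * x ^ (1 - ε) * Real.log x ^ 2 ≤
      x / (1000 * Real.log x) := by
    have h1 := (isLittleO_log_rpow_rpow_atTop (3 : ℝ) hε).bound
      (show (0 : ℝ) < 1 / 3000 by norm_num)
    filter_upwards [h1, Filter.eventually_ge_atTop (3 : ℝ)] with x hx hx3
    have hx0 : 0 < x := by linarith
    have hl : 0 < Real.log x := Real.log_pos (by linarith)
    rw [Real.norm_of_nonneg (by positivity), Real.norm_of_nonneg (by positivity)] at hx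
    have h3 : Real.log x ^ (3 : ℝ) = Real.log x ^ 3 := by
      rw [← Real.rpow_natCast]
      norm_num
    rw [h3] at hx
    rw [le_div_iff₀ (by positivity)]
    have h4 : x ^ (1 - ε) * x ^ ε = x := by
      rw [← Real.rpow_add hx0]
      simp
    calc 3 * x ^ (1 - ε) * Real.log x ^ 2 * (1000 * Real.log x)
        = 3000 * x ^ (1 - ε) * Real.log x ^ 3 := by ring
      _ ≤ 3000 * x ^ (1 - ε) * (1 / 3000 * x ^ ε) := by gcongr
      _ = x ^ (1 - ε) * x ^ ε := by ring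
      _ = x := h4
  have hev : ∀ᶠ N : ℕ in Filter.atTop, 4 ≤ N ∧ P₀ ≤ N / 4 ∧ 4 ≤ Real.log (Real.log N) ∧
      100 ≤ Real.log N ∧ (U₀ : ℝ) ≤ Real.log N ∧
      48 ≤ (N : ℝ) ^ (ε / 2) ∧ 3 * (N : ℝ) ^ (1 - ε) * Real.log N ^ 2 ≤ N / (1000 * Real.log N) ∧
      2 * Real.log 8 ≤ Real.log N ∧ 20000 ≤ Real.log N ^ 2 := by
    filter_upwards [Filter.eventually_ge_atTop 4, Filter.eventually_ge_atTop (4 * P₀ + 4),
      hloglog.eventually_ge_atTop 4, hlog.eventually_ge_atTop 100,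
      hlog.eventually_ge_atTop (U₀ : ℝ), hpow.eventually_ge_atTop 48, hcast.eventually ho,
      hlog.eventually_ge_atTop (2 * Real.log 8), hlog.eventually_ge_atTop 200] with
      N a1 a2 a3 a4 a5 a6 a7 a8 a9
    exact ⟨a1, by omega, a3, a4, a5, a6, a7, a8, by nlinarith⟩
  exact Filter.eventually_atTop.mp hev

/-- Proof. `TT N U a = ∑_{p ∈ (U, 2U]} #{m : ..}`. Keep the `p ∤ N` (at most `log N/log U` primes `p > U`
divide `N`, and `log N ≤ U/log log N`, so at least `U/(4 log U)` primes remain), each has `N/(12p) ≥ N/(24U)`: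
main term `≥ N/(96 log U)`. `one_prime`, `bv 0 3 (ε/2)` for `P = N/2` and for `P = N/4` with `D = 6U`
(`6U ≤ (N/4)^(1/2-ε/2)`), the moduli `3p` are distinct: the error terms are
`≤ 2N/log³ N + 2U · 3 √N log² N ≤ N/(200 log N)`. -/
theorem TT_lower (ε : ℝ) (hε : 0 < ε) : ∃ c : ℝ, 0 < c ∧ ∃ N₀ : ℕ, ∀ N : ℕ, N₀ ≤ N → ∀ U a : ℕ,
    Real.log N * Real.log (Real.log N) ≤ U → (U : ℝ) ≤ (N : ℝ) ^ (1 / 2 - ε) → a = 1 ∨ a = 2 →
    c * (N : ℝ) / (Real.log N * Real.log U) ≤ (EN.TT N U a : ℝ) := by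
  obtain ⟨P₀, hbv⟩ := bv 0 3 (ε / 2) (by positivity)
  obtain ⟨N₁, hone⟩ := one_prime
  obtain ⟨U₀, hU₀2, hprim⟩ := e02_primes
  obtain ⟨N₂, hN₂⟩ := e02_ev ε hε P₀ U₀
  refine ⟨1 / 200, by norm_num, max N₁ N₂, fun N hN U a hU1 hU2 ha => ?_⟩
  have hNN₁ : N₁ ≤ N := (le_max_left _ _).trans hN
  obtain ⟨hN3, hP₀, hll, hl100, hlU₀, h48, herr3, hlog8, hl2⟩ := hN₂ N ((le_max_right _ _).trans hN)
  have hNpos : (0 : ℝ) < N := by exact_mod_cast (by omega : 0 < N)
  have hN1 : (1 : ℝ) ≤ N := by exact_mod_cast (by omega : 1 ≤ N)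
  obtain ⟨L, hL⟩ : ∃ L : ℝ, L = Real.log N := ⟨_, rfl⟩
  rw [← hL] at hU1 hll hl100 hlU₀ herr3 hlog8 hl2 ⊢
  have hL0 : 0 < L := by linarith
  have h4L : 4 * L ≤ U := by nlinarith
  have hU400 : (400 : ℝ) ≤ U := by linarith
  have hUpos : (0 : ℝ) < U := by linarith
  have hε2 : ε < 1 / 2 := by
    by_contra hcon
    push Not at hcon
    have h1 : (N : ℝ) ^ (1 / 2 - ε) ≤ 1 := Real.rpow_le_one_of_one_le_of_nonpos hN1 (by linarith)
    linarith
  have hUN : (U : ℝ) ≤ N := by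
    refine hU2.trans ?_
    calc (N : ℝ) ^ (1 / 2 - ε) ≤ (N : ℝ) ^ (1 : ℝ) :=
          Real.rpow_le_rpow_of_exponent_le hN1 (by linarith)
      _ = N := Real.rpow_one _
  have hlU : 0 < Real.log U := Real.log_pos (by linarith)
  have hlUN : Real.log U ≤ L := by rw [hL]; exact Real.log_le_log hUpos hUN
  have hUU₀ : U₀ ≤ U := by
    have : (U₀ : ℝ) ≤ U := by linarith
    exact_mod_cast this
  have hU1' : 1 ≤ U := by omega
  -- the lower bound for the parameters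
  have hP : ∀ P : ℕ, N / 4 ≤ P → P ≤ N → ((6 * U : ℕ) : ℝ) ≤ (P : ℝ) ^ (1 / 2 - ε / 2) ∧
      (P : ℝ) / Real.log P ^ 3 ≤ 8 * N / L ^ 3 := by
    intro P hP1 hP2
    have h1 : (N : ℝ) / 8 ≤ P := by
      have h2 : N ≤ 8 * P := by omega
      have h3 : (N : ℝ) ≤ 8 * P := by exact_mod_cast h2
      linarith
    have hPN : (P : ℝ) ≤ N := by exact_mod_cast hP2
    have hPpos : (0 : ℝ) < P := by linarith
    constructor
    · have h3 : ((N : ℝ) / 8) ^ (1 / 2 - ε / 2) ≤ (P : ℝ) ^ (1 / 2 - ε / 2) :=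
        Real.rpow_le_rpow (by positivity) h1 (by linarith)
      refine le_trans ?_ h3
      rw [Real.div_rpow hNpos.le (by norm_num), le_div_iff₀ (by positivity)]
      have h4 : (8 : ℝ) ^ (1 / 2 - ε / 2) ≤ 8 := by
        calc (8 : ℝ) ^ (1 / 2 - ε / 2) ≤ (8 : ℝ) ^ (1 : ℝ) :=
              Real.rpow_le_rpow_of_exponent_le (by norm_num) (by linarith)
          _ = 8 := Real.rpow_one _
      have h5 : (N : ℝ) ^ (1 / 2 - ε / 2) = (N : ℝ) ^ (1 / 2 - ε) * (N : ℝ) ^ (ε / 2) := by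
        rw [← Real.rpow_add hNpos]
        congr 1
        ring
      rw [h5]
      push_cast
      calc 6 * (U : ℝ) * 8 ^ (1 / 2 - ε / 2) ≤ 6 * (U : ℝ) * 8 := by gcongr
        _ = U * 48 := by ring
        _ ≤ (N : ℝ) ^ (1 / 2 - ε) * (N : ℝ) ^ (ε / 2) := by gcongr
    · have h6 : L / 2 ≤ Real.log P := by
        have h7 : Real.log ((N : ℝ) / 8) ≤ Real.log P := Real.log_le_log (by positivity) h1
        rw [Real.log_div hNpos.ne' (by norm_num), ← hL] at h7
        linarith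
      calc (P : ℝ) / Real.log P ^ 3 ≤ N / (L / 2) ^ 3 := by gcongr
        _ = 8 * N / L ^ 3 := by
          field_simp
          ring
  obtain ⟨hD1, hB1⟩ := hP (N / 2) (by omega) (by omega)
  obtain ⟨hD2, hB2⟩ := hP (N / 4) (by omega) (by omega)
  obtain ⟨E1, hE10, hE11, hE12⟩ := hbv (N / 2) (by omega) (6 * U) hD1
  obtain ⟨E2, hE20, hE21, hE22⟩ := hbv (N / 4) (by omega) (6 * U) hD2
  have hs1 := e02_err E1 hE10 U N _ hE12
  have hs2 := e02_err E2 hE20 U N _ hE22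
  set Pr := (Ioc U (2 * U)).filter (fun p => p.Prime ∧ ¬ p ∣ N) with hPr
  have hcard := hprim U N hUU₀ (by omega) (by rw [← hL]; exact h4L)
  rw [← hPr] at hcard
  -- every prime
  have hp : ∀ p ∈ Pr, (N : ℝ) / (24 * U) - E1 (3 * p) - E2 (3 * p) -
      3 * Real.sqrt N * L ^ 2 ≤
      L * (((Icc 3 (N / 2)).filter (fun m => m.Prime ∧ m % 3 = a ∧ p ∣ N - m)).card : ℝ) := by
    intro p hp
    rw [hPr, mem_filter, mem_Ioc] at hp
    obtain ⟨⟨hpU, hpU2⟩, hpp, hpN⟩ := hp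
    have hU400' : 400 ≤ U := by exact_mod_cast hU400
    obtain ⟨r, hr, hineq⟩ := hone N hNN₁ p a hpp (by omega) hpN ha
    have h1 := hE11 (3 * p) (by rw [mem_Icc]; omega) r hr
    have h2 := hE21 (3 * p) (by rw [mem_Icc]; omega) r hr
    have hp0 : (0 : ℝ) < p := by exact_mod_cast hpp.pos
    have h3 : (N : ℝ) / (24 * U) ≤ N / (12 * p) := by
      have : (p : ℝ) ≤ 2 * U := by exact_mod_cast hpU2
      apply div_le_div_of_nonneg_left hNpos.le (by positivity)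
      linarith
    rw [← hL] at hineq
    linarith
  have hsum := Finset.sum_le_sum hp
  rw [← Finset.mul_sum, Finset.sum_sub_distrib, Finset.sum_sub_distrib, Finset.sum_sub_distrib,
    Finset.sum_const, Finset.sum_const, nsmul_eq_mul, nsmul_eq_mul] at hsum
  have hTT : ∑ p ∈ Pr, (((Icc 3 (N / 2)).filter (fun m => m.Prime ∧ m % 3 = a ∧
      p ∣ N - m)).card : ℝ) ≤ (EN.TT N U a : ℝ) := by
    exact_mod_cast e02_TT N U a
  have hcard2 : (Pr.card : ℝ) ≤ U := by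
    have h1 : Pr.card ≤ U := by
      refine (Finset.card_filter_le _ _).trans ?_
      rw [Nat.card_Ioc]
      omega
    exact_mod_cast h1
  have hmain : (N : ℝ) / (96 * Real.log U) ≤ Pr.card * ((N : ℝ) / (24 * U)) := by
    calc (N : ℝ) / (96 * Real.log U) = (U : ℝ) / (4 * Real.log U) * (N / (24 * U)) := by
          field_simp
          ring
      _ ≤ _ := mul_le_mul_of_nonneg_right hcard (by positivity)
  have herr : (Pr.card : ℝ) * (3 * Real.sqrt N * L ^ 2) ≤ N / (1000 * L) := by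
    refine le_trans ?_ herr3
    have h1 : (Pr.card : ℝ) ≤ (N : ℝ) ^ (1 / 2 - ε) := hcard2.trans hU2
    have h2 : (N : ℝ) ^ (1 - ε) = (N : ℝ) ^ (1 / 2 - ε) * Real.sqrt N := by
      rw [Real.sqrt_eq_rpow, ← Real.rpow_add hNpos]
      congr 1
      ring
    rw [h2]
    calc (Pr.card : ℝ) * (3 * Real.sqrt N * L ^ 2) ≤
        (N : ℝ) ^ (1 / 2 - ε) * (3 * Real.sqrt N * L ^ 2) := by gcongr
      _ = _ := by ring
  have hbig : 8 * (N : ℝ) / L ^ 3 ≤ N / (2500 * L) := by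
    rw [div_le_div_iff₀ (by positivity) (by positivity)]
    have h1 : 20000 * (N * L) ≤ L ^ 2 * (N * L) := mul_le_mul_of_nonneg_right hl2 (by positivity)
    nlinarith
  have hLU : (N : ℝ) / (1000 * L) ≤ N / (1000 * Real.log U) := by gcongr
  have hLU2 : (N : ℝ) / (2500 * L) ≤ N / (2500 * Real.log U) := by gcongr
  have hfin : (N : ℝ) / (200 * Real.log U) ≤ L * (EN.TT N U a : ℝ) := by
    have h1 : L * ∑ p ∈ Pr, (((Icc 3 (N / 2)).filter (fun m => m.Prime ∧ m % 3 = a ∧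
      p ∣ N - m)).card : ℝ) ≤ L * (EN.TT N U a : ℝ) := mul_le_mul_of_nonneg_left hTT hL0.le
    have h2 : (N : ℝ) / (96 * Real.log U) - N / (1000 * Real.log U) -
        2 * (N / (2500 * Real.log U)) - N / (200 * Real.log U) =
        (N / Real.log U) * (1 / 96 - 1 / 1000 - 2 / 2500 - 1 / 200) := by
      field_simp
    have h3 : 0 ≤ (N / Real.log U) * (1 / 96 - 1 / 1000 - 2 / 2500 - 1 / 200) := by
      have : 0 ≤ (N : ℝ) / Real.log U := by positivity
      nlinarith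
    linarith
  rw [div_le_iff₀ (by positivity)] at hfin
  rw [div_le_iff₀ (by positivity)]
  linarith

end Pool.Agent.Lib.MP_d9bc60_nt.AP
end
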