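import Pool.Agent.Lib.MP_d9bc60_nt.EN.B4
import Pool.Agent.Lib.MP_d9bc60_nt.UV.PDefs
import Pool.Agent.Lib.MP_d9bc60_nt.AQ.QWin
import Pool.Agent.Lib.MP_d9bc60_nt.EN.F1

section
/-! Row E03 (about 250 lines, mostly copied): `EN.pair_clean`, `EN.second`, `EN.block` for `U` up to `√N/4`. -/

set_option autoImplicit false

namespace Pool.Agent.Lib.MP_d9bc60_nt.AP

open Finset Pool.Agent.Lib.MP_d9bc60_nt.UV

/-- Proof. As `EN.pair_clean` (file `EN/P2.lean`); the same `y = ⌊N^(1/32)⌋` works: `2 y² + y⁸ ≤ 3 N^(1/4)` and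
now `N/q ≥ √N`. -/
theorem pair_clean2 : ∃ C : ℝ, 0 < C ∧ ∃ N₀ : ℕ, ∀ N : ℕ, N₀ ≤ N → ∀ p q : ℕ, p.Prime → q.Prime →
    p < q → 2 * q ^ 2 ≤ N →
    (((Icc 1 N).filter fun b => q * (q + b) < N ∧ (N - p * (p + b)).Prime ∧
      (N - q * (q + b)).Prime).card : ℝ) ≤
      C * ((N : ℝ) / q) / (Real.log N) ^ 2 *
        ((Sieve.rphi (q - p)) ^ 4 + (Sieve.rphi (N + p * q)) ^ 4) := by
  classical
  obtain ⟨N₀, hN₀, hlog⟩ := Sieve.log_le_rpow
  refine ⟨32771, by norm_num, max N₀ 3, ?_⟩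
  intro N hN p q hp hq hpq hq4
  have hN2 : N₀ ≤ N := (le_max_left _ _).trans hN
  have hN3 : 3 ≤ N := (le_max_right _ _).trans hN
  have hNR : (3 : ℝ) ≤ N := by exact_mod_cast hN3
  have hNpos : (0 : ℝ) < N := by linarith only [hNR]
  have hL := hlog N hN2
  have hlogpos : 0 < Real.log N := Real.log_pos (by linarith only [hNR])
  have hq2 := hq.two_le
  have hq0 : 0 < q := hq.pos
  have hqR : (2 : ℝ) ≤ q := by exact_mod_cast hq2
  have hqq : q * q + 1 ≤ N := by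
    have h1 : q ^ 2 = q * q := by ring
    have h2 : 4 ≤ q * q := Nat.mul_le_mul hq2 hq2
    omega
  set X := (N - q * q - 1) / q with hX
  have hqX : q * q + q * X < N := by
    have := Nat.mul_div_le (N - q * q - 1) q
    rw [← hX] at this
    omega
  set y := ⌊(N : ℝ) ^ (1 / 32 : ℝ)⌋₊ with hy
  set v := (N : ℝ) ^ (1 / 32 : ℝ) with hv
  have h1 : (1 : ℝ) ≤ v := Real.one_le_rpow (by linarith only [hNR]) (by norm_num)
  have hy1 : 1 ≤ y := Nat.one_le_floor_iff _ |>.2 h1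
  have hyle : (y : ℝ) ≤ v := Nat.floor_le (by positivity)
  have hlty : v < (y : ℝ) + 1 := Nat.lt_floor_add_one _
  have hlogy : (1 / 32 : ℝ) * Real.log N ≤ Real.log ((y : ℝ) + 1) := by
    rw [← Real.log_rpow hNpos]
    exact Real.log_le_log (by positivity) hlty.le
  have hmain := EN.pair_forms N p q X y hp hq hpq hqX hy1
  -- the set
  have hset : (((Icc 1 N).filter fun b => q * (q + b) < N ∧ (N - p * (p + b)).Prime ∧
      (N - q * (q + b)).Prime).card : ℝ) ≤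
      (((Icc 1 X).filter fun b => (N - p * (p + b)).Prime ∧ (N - q * (q + b)).Prime).card : ℝ) := by
    have : ((Icc 1 N).filter fun b => q * (q + b) < N ∧ (N - p * (p + b)).Prime ∧
      (N - q * (q + b)).Prime) ⊆
      ((Icc 1 X).filter fun b => (N - p * (p + b)).Prime ∧ (N - q * (q + b)).Prime) := by
      intro b hb
      rw [Finset.mem_filter, Finset.mem_Icc] at hb ⊢
      refine ⟨⟨hb.1.1, ?_⟩, hb.2.2⟩
      rw [hX, Nat.le_div_iff_mul_le hq0]
      have h3 : q * (q + b) = q * q + b * q := by ring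
      have := hb.2.1
      omega
    exact_mod_cast Finset.card_le_card this
  -- the ratio
  set a := Sieve.rphi (q - p) with ha
  set b := Sieve.rphi (N + p * q) with hb
  have ha1 : 1 ≤ a := EN.p2_rphi_one_le _ (by omega)
  have hb1 : 1 ≤ b := EN.p2_rphi_one_le _ (by omega)
  have hR : Sieve.rphi (2 * p * q * (q - p) * (N + p * q)) ≤ 8 * a * b := by
    have hqp : 0 < q - p := by omega
    have hp0 := hp.pos
    have e1 := Sieve.rphi_mul_le (2 * p * q * (q - p)) (N + p * q) (by positivity) (by positivity)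
    have e2 := Sieve.rphi_mul_le (2 * p * q) (q - p) (by positivity) hqp
    have e3 := Sieve.rphi_mul_le (2 * p) q (by positivity) hq0
    have e4 := Sieve.rphi_mul_le 2 p (by norm_num) hp0
    have f1 := EN.p2_rphi_prime 2 Nat.prime_two
    have f2 := EN.p2_rphi_prime p hp
    have f3 := EN.p2_rphi_prime q hq
    have g1 := Sieve.rphi_nonneg 2
    have g2 := Sieve.rphi_nonneg p
    have g3 := Sieve.rphi_nonneg q
    have g4 := Sieve.rphi_nonneg (2 * p)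
    have g5 := Sieve.rphi_nonneg (2 * p * q)
    have k1 : Sieve.rphi (2 * p) ≤ 4 := by nlinarith only [e4, f2, f1, g2]
    have k2 : Sieve.rphi (2 * p * q) ≤ 8 := by nlinarith only [e3, k1, f3, g4]
    have k3 : Sieve.rphi (2 * p * q * (q - p)) ≤ 8 * a := by
      refine e2.trans ?_
      apply mul_le_mul_of_nonneg_right k2; linarith only [ha1]
    refine e1.trans ?_
    apply mul_le_mul_of_nonneg_right k3; linarith only [hb1]
  have hR0 := Sieve.rphi_nonneg (2 * p * q * (q - p) * (N + p * q))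
  have hR2 : (Sieve.rphi (2 * p * q * (q - p) * (N + p * q))) ^ 2 ≤ 32 * (a ^ 4 + b ^ 4) := by
    have h2 : (Sieve.rphi (2 * p * q * (q - p) * (N + p * q))) ^ 2 ≤ (8 * a * b) ^ 2 := by gcongr
    nlinarith only [sq_nonneg (a ^ 2 - b ^ 2), h2]
  have hab : 1 ≤ a ^ 4 + b ^ 4 := by
    have : 1 ≤ a ^ 4 := one_le_pow₀ ha1
    have : 0 ≤ b ^ 4 := by positivity
    linarith
  have hXle : (X : ℝ) ≤ (N : ℝ) / q := by
    rw [le_div_iff₀ (by linarith only [hqR])]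
    have : X * q ≤ N := by
      have := hqX
      nlinarith only [hqX]
    exact_mod_cast this
  have e1 : (X : ℝ) * (Sieve.rphi (2 * p * q * (q - p) * (N + p * q))) ^ 2 /
        (Real.log ((y : ℝ) + 1)) ^ 2 ≤
      32768 * ((N : ℝ) / q) / (Real.log N) ^ 2 * (a ^ 4 + b ^ 4) := by
    have a2 : ((1 / 32 : ℝ) * Real.log N) ^ 2 ≤ (Real.log ((y : ℝ) + 1)) ^ 2 := by gcongr
    calc (X : ℝ) * (Sieve.rphi (2 * p * q * (q - p) * (N + p * q))) ^ 2 /
        (Real.log ((y : ℝ) + 1)) ^ 2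
        ≤ ((N : ℝ) / q) * (32 * (a ^ 4 + b ^ 4)) / ((1 / 32 : ℝ) * Real.log N) ^ 2 := by gcongr
      _ = 32768 * ((N : ℝ) / q) / (Real.log N) ^ 2 * (a ^ 4 + b ^ 4) := by
          field_simp
          ring
  -- errors
  set w := (N : ℝ) ^ (1 / 8 : ℝ) with hw
  have hroot : w ^ 8 = (N : ℝ) := by
    rw [hw, ← Real.rpow_natCast, ← Real.rpow_mul hNpos.le]
    norm_num
  have hsm : v ^ 4 = w := by
    rw [hw, hv, ← Real.rpow_natCast, ← Real.rpow_mul hNpos.le]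
    norm_num
  have hw1 : 1 ≤ w := Real.one_le_rpow (by linarith only [hNR]) (by norm_num)
  have hqw : (q : ℝ) ≤ w ^ 4 := by
    have h2 : (q : ℝ) ^ 2 ≤ (w ^ 4) ^ 2 := by
      have : ((2 * q ^ 2 : ℕ) : ℝ) ≤ N := by exact_mod_cast hq4
      push_cast at this
      calc (q : ℝ) ^ 2 ≤ N := by nlinarith only [sq_nonneg (q : ℝ), hNR, this]
        _ = (w ^ 4) ^ 2 := by rw [← hroot]; ring
    exact le_of_pow_le_pow_left₀ (by norm_num) (by positivity) h2
  have e2 : w ^ 2 ≤ ((N : ℝ) / q) / (Real.log N) ^ 2 := by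
    rw [le_div_iff₀ (by positivity), le_div_iff₀ (by linarith only [hqR])]
    calc w ^ 2 * (Real.log N) ^ 2 * q ≤ w ^ 2 * w ^ 2 * w ^ 4 := by gcongr
      _ = w ^ 8 := by ring
      _ = N := hroot
  have e3 : (y : ℝ) ^ 2 ≤ w ^ 2 := by
    calc (y : ℝ) ^ 2 ≤ v ^ 2 := by gcongr
      _ ≤ v ^ 4 := pow_le_pow_right₀ h1 (by norm_num)
      _ = w ^ 1 := by rw [hsm]; ring
      _ ≤ w ^ 2 := pow_le_pow_right₀ hw1 (by norm_num)
  have e4 : (y : ℝ) ^ 8 ≤ w ^ 2 := by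
    calc (y : ℝ) ^ 8 ≤ v ^ 8 := by gcongr
      _ = (v ^ 4) ^ 2 := by ring
      _ = w ^ 2 := by rw [hsm]
  have e5 : ((N : ℝ) / q) / (Real.log N) ^ 2 ≤
      ((N : ℝ) / q) / (Real.log N) ^ 2 * (a ^ 4 + b ^ 4) := by
    have : 0 ≤ ((N : ℝ) / q) / (Real.log N) ^ 2 := by positivity
    nlinarith only [hab, e2]
  calc (((Icc 1 N).filter fun b => q * (q + b) < N ∧ (N - p * (p + b)).Prime ∧
      (N - q * (q + b)).Prime).card : ℝ) ≤ _ := hset
    _ ≤ _ := hmain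
    _ ≤ 32768 * ((N : ℝ) / q) / (Real.log N) ^ 2 * (a ^ 4 + b ^ 4) +
        3 * (((N : ℝ) / q) / (Real.log N) ^ 2 * (a ^ 4 + b ^ 4)) := by linarith only [e1, e2, e3, e4, e5]
    _ = _ := by ring

/-- Proof. As `EN.second` (file `EN/B2.lean`), with `pair_clean2`. -/
theorem second2 : ∃ C : ℝ, 0 < C ∧ ∃ N₀ : ℕ, ∀ N : ℕ, N₀ ≤ N → ∀ U : ℕ,
    Real.log N * Real.log (Real.log N) ≤ U → 16 * U ^ 2 ≤ N →
    ∑ b ∈ Icc 1 N, ((EN.rU N U b : ℝ)) ^ 2 ≤ C * (N : ℝ) * U / (Real.log N * Real.log U) ^ 2 := by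
  obtain ⟨C₁, hC₁, U₁, hU₁, hTA⟩ := EN.TA_le
  obtain ⟨U₂, hU₂, hcard⟩ := EN.card_primes_le
  obtain ⟨C₂, hC₂, N₂, hpair⟩ := pair_clean2
  obtain ⟨C₃, hC₃, Y₃, hform⟩ := EN.avg_form
  obtain ⟨Y₄, hY₄, havg⟩ := Sieve.avg
  have hKK : 0 < Sieve.KK := Real.exp_pos _
  set M : ℝ := max 3 (max (U₁ : ℝ) (max (U₂ : ℝ) (max (Y₃ : ℝ) (Y₄ : ℝ)))) with hM
  refine ⟨4 * C₁ + 80 * C₂ * (14 * Sieve.KK + C₃), by positivity, max N₂ ⌈Real.exp M⌉₊, ?_⟩
  intro N hN U hU hUN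
  have hN2 : N₂ ≤ N := (le_max_left _ _).trans hN
  have hNe : Real.exp M ≤ N := (Nat.le_ceil _).trans (by exact_mod_cast (le_max_right _ _).trans hN)
  have hN0 : (0 : ℝ) < N := (Real.exp_pos _).trans_le hNe
  have hLM : M ≤ Real.log N := by
    rw [← Real.log_exp M]
    exact Real.log_le_log (Real.exp_pos _) hNe
  have hM3 : (3 : ℝ) ≤ M := le_max_left _ _
  set L : ℝ := Real.log N with hL
  have hL3 : 3 ≤ L := hM3.trans hLM
  have hlogL : 1 ≤ Real.log L := by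
    rw [Real.le_log_iff_exp_le (by linarith only [hM3, hLM])]
    have := Real.exp_one_lt_d9
    linarith only [hM3, hLM, this]
  have hUL : L ≤ U := by nlinarith only [hU, hlogL, hM3, hLM]
  have hUM : M ≤ U := hLM.trans hUL
  have hU3 : (3 : ℝ) ≤ U := hM3.trans hUM
  have hU1' : U₁ ≤ U := by
    have : (U₁ : ℝ) ≤ U := le_trans (le_trans (le_max_left _ _) (le_max_right _ _)) hUM
    exact_mod_cast this
  have hU2' : U₂ ≤ U := by
    have : (U₂ : ℝ) ≤ U := le_trans (le_trans (le_trans (le_max_left _ _) (le_max_right _ _))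
      (le_max_right _ _)) hUM
    exact_mod_cast this
  have hY3' : Y₃ ≤ U := by
    have : (Y₃ : ℝ) ≤ U := le_trans (le_trans (le_trans (le_trans (le_max_left _ _)
      (le_max_right _ _)) (le_max_right _ _)) (le_max_right _ _)) hUM
    exact_mod_cast this
  have hY4' : Y₄ ≤ U := by
    have : (Y₄ : ℝ) ≤ U := le_trans (le_trans (le_trans (le_trans (le_max_right _ _)
      (le_max_right _ _)) (le_max_right _ _)) (le_max_right _ _)) hUM
    exact_mod_cast this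
  have hUpos : 0 < U := by
    have : (0 : ℝ) < U := by linarith only [hM3, hLM, hUL]
    exact_mod_cast this
  have hU2N : (2 * U) ^ 2 ≤ N := by
    have h1 : (2 * U) ^ 2 = 4 * U ^ 2 := by ring
    omega
  have hlogU : 1 ≤ Real.log U := by
    rw [Real.le_log_iff_exp_le (by linarith only [hM3, hLM, hUL])]
    have := Real.exp_one_lt_d9
    linarith only [hM3, hLM, hUL, this]
  have hlog2U : Real.log U ≤ Real.log ((2 * U : ℕ) : ℝ) := by
    apply Real.log_le_log (by linarith only [hM3, hLM, hUL])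
    push_cast
    linarith only [hM3, hLM, hUL]
  -- first moment
  have hfirst : ∑ b ∈ Icc 1 N, ((EN.b2_F N U b).card : ℝ) ≤
      4 * C₁ * (N : ℝ) * U / (L * Real.log U) ^ 2 := by
    have h1 : ∑ b ∈ Icc 1 N, ((EN.b2_F N U b).card : ℝ) ≤ (EN.TA N U : ℝ) := by
      exact_mod_cast EN.b2_first N U
    have h2 := hTA N U hU1' hU2N
    have h3 := EN.b2_log L U (by linarith only [hM3, hLM]) (by linarith only [hM3, hLM, hUL]) hU
    refine h1.trans (h2.trans ?_)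
    have hLU : 0 < L * Real.log U := by positivity
    rw [div_le_div_iff₀ hLU (by positivity)]
    have : 0 ≤ C₁ * (N : ℝ) * (L * Real.log U) := by positivity
    nlinarith only [h3, this]
  -- pairs
  set P := (Ioc U (2 * U)).filter Nat.Prime with hP
  have hpairs : ∑ b ∈ Icc 1 N,
      (((EN.b2_F N U b ×ˢ EN.b2_F N U b).filter fun x : ℕ × ℕ => x.1 < x.2).card : ℝ) ≤
      40 * C₂ * (14 * Sieve.KK + C₃) * (N : ℝ) * U / (L * Real.log U) ^ 2 := by
    have h1 : ∑ b ∈ Icc 1 N,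
        (((EN.b2_F N U b ×ˢ EN.b2_F N U b).filter fun x : ℕ × ℕ => x.1 < x.2).card : ℝ) ≤
        ∑ x ∈ (P ×ˢ P).filter (fun x : ℕ × ℕ => x.1 < x.2),
        (((Icc 1 N).filter fun b => x.2 * (x.2 + b) < N ∧ (N - x.1 * (x.1 + b)).Prime ∧
          (N - x.2 * (x.2 + b)).Prime).card : ℝ) := by
      exact_mod_cast EN.b2_pairs N U
    have h2 : ∀ x ∈ (P ×ˢ P).filter (fun x : ℕ × ℕ => x.1 < x.2),
        (((Icc 1 N).filter fun b => x.2 * (x.2 + b) < N ∧ (N - x.1 * (x.1 + b)).Prime ∧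
          (N - x.2 * (x.2 + b)).Prime).card : ℝ) ≤
        C₂ * ((N : ℝ) / U) / L ^ 2 *
          ((Sieve.rphi (x.2 - x.1)) ^ 4 + (Sieve.rphi (N + x.1 * x.2)) ^ 4) := by
      rintro ⟨p, q⟩ hx
      rw [Finset.mem_filter, Finset.mem_product, hP, Finset.mem_filter, Finset.mem_filter,
        Finset.mem_Ioc, Finset.mem_Ioc] at hx
      obtain ⟨⟨⟨⟨hp1, hp2⟩, hp⟩, ⟨⟨hq1, hq2⟩, hq⟩⟩, hpq⟩ := hx
      simp only at hp1 hp2 hp hq1 hq2 hq hpq ⊢
      have h3 := hpair N hN2 p q hp hq hpq (by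
        have h4 : q ^ 2 ≤ (2 * U) ^ 2 := Nat.pow_le_pow_left hq2 2
        have h5 : (2 * U) ^ 2 = 4 * U ^ 2 := by ring
        omega)
      refine h3.trans ?_
      have h4 : (0 : ℝ) ≤ (Sieve.rphi (q - p)) ^ 4 + (Sieve.rphi (N + p * q)) ^ 4 := by positivity
      apply mul_le_mul_of_nonneg_right _ h4
      apply div_le_div_of_nonneg_right _ (by positivity)
      apply mul_le_mul_of_nonneg_left _ hC₂.le
      apply div_le_div_of_nonneg_left hN0.le (by linarith only [hM3, hLM, hUL])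
      exact_mod_cast hq1.le
    refine h1.trans ((Finset.sum_le_sum h2).trans ?_)
    rw [← Finset.mul_sum]
    -- inner sums
    have h5 : ∀ p ∈ P, ∑ q ∈ P, (if p < q then
        ((Sieve.rphi (q - p)) ^ 4 + (Sieve.rphi (N + p * q)) ^ 4) else 0) ≤
        (14 * Sieve.KK + C₃) * ((2 * U : ℕ) : ℝ) / Real.log ((2 * U : ℕ) : ℝ) := by
      intro p hp
      have hp' := hp
      rw [hP, Finset.mem_filter, Finset.mem_Ioc] at hp'
      have hY : Y₃ ≤ 2 * U := by omega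
      have hY' : Y₄ ≤ 2 * U := by omega
      have ha := havg (2 * U) hY' (p : ℤ) (by
        rw [abs_of_nonneg (by positivity)]
        have := hp'.1.2
        push_cast
        omega)
      have hb := hform (2 * U) hY N p hp'.2 hp'.1.2 (by
        calc 2 * U * (2 * U) = (2 * U) ^ 2 := by ring
          _ ≤ N := hU2N) (by
        have h7 : (1 : ℝ) ≤ Real.log ((2 * U : ℕ) : ℝ) := hlogU.trans hlog2U
        push_cast at h7 ⊢
        nlinarith only [hM3, hLM, hUL, h7])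
      have h6 : ∑ q ∈ P, (if p < q then
          ((Sieve.rphi (q - p)) ^ 4 + (Sieve.rphi (N + p * q)) ^ 4) else 0) ≤
          ∑ p' ∈ (Finset.Icc 1 (2 * U)).filter (fun p' : ℕ => p'.Prime ∧ (p' : ℤ) ≠ (p : ℤ)),
            (Sieve.rphi ((p' : ℤ) - (p : ℤ)).natAbs) ^ 4 +
          ∑ q ∈ (Icc 1 (2 * U)).filter Nat.Prime, (Sieve.rphi (N + p * q)) ^ 4 := by
        rw [← Finset.sum_filter, Finset.sum_add_distrib]
        apply add_le_add
        · have h8 : ∑ q ∈ P.filter (fun q => p < q), (Sieve.rphi (q - p)) ^ 4 =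
              ∑ q ∈ P.filter (fun q => p < q), (Sieve.rphi ((q : ℤ) - (p : ℤ)).natAbs) ^ 4 := by
            refine Finset.sum_congr rfl fun q hq => ?_
            rw [Finset.mem_filter] at hq
            have : ((q : ℤ) - (p : ℤ)).natAbs = q - p := by omega
            rw [this]
          rw [h8]
          apply Finset.sum_le_sum_of_subset_of_nonneg
          · intro q hq
            rw [Finset.mem_filter, hP, Finset.mem_filter, Finset.mem_Ioc] at hq
            rw [Finset.mem_filter, Finset.mem_Icc]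
            refine ⟨⟨hq.1.2.pos, hq.1.1.2⟩, hq.1.2, ?_⟩
            have := hq.2
            omega
          · intro q _ _
            positivity
        · apply Finset.sum_le_sum_of_subset_of_nonneg
          · intro q hq
            rw [Finset.mem_filter, hP, Finset.mem_filter, Finset.mem_Ioc] at hq
            rw [Finset.mem_filter, Finset.mem_Icc]
            exact ⟨⟨hq.1.2.pos, hq.1.1.2⟩, hq.1.2⟩
          · intro q _ _
            positivity
      calc _ ≤ _ := h6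
        _ ≤ 14 * Sieve.KK * ((2 * U : ℕ) : ℝ) / Real.log ((2 * U : ℕ) : ℝ) +
            C₃ * ((2 * U : ℕ) : ℝ) / Real.log ((2 * U : ℕ) : ℝ) := add_le_add ha hb
        _ = _ := by ring
    have h9 : ∑ x ∈ (P ×ˢ P).filter (fun x : ℕ × ℕ => x.1 < x.2),
        ((Sieve.rphi (x.2 - x.1)) ^ 4 + (Sieve.rphi (N + x.1 * x.2)) ^ 4) ≤
        (20 * (U : ℝ) / Real.log U) * ((14 * Sieve.KK + C₃) * (2 * U) / Real.log U) := by
      rw [Finset.sum_filter, Finset.sum_product]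
      refine (Finset.sum_le_sum h5).trans ?_
      rw [Finset.sum_const, nsmul_eq_mul]
      have hc := hcard U hU2'
      rw [← hP] at hc
      apply mul_le_mul hc _ (by positivity) (by positivity)
      have h10 : (14 * Sieve.KK + C₃) * ((2 * U : ℕ) : ℝ) / Real.log ((2 * U : ℕ) : ℝ) ≤
          (14 * Sieve.KK + C₃) * ((2 * U : ℕ) : ℝ) / Real.log U :=
        div_le_div_of_nonneg_left (by positivity) (by linarith only [hlogU]) hlog2U
      refine h10.trans (le_of_eq ?_)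
      push_cast
      ring
    calc C₂ * ((N : ℝ) / U) / L ^ 2 * ∑ x ∈ (P ×ˢ P).filter (fun x : ℕ × ℕ => x.1 < x.2),
        ((Sieve.rphi (x.2 - x.1)) ^ 4 + (Sieve.rphi (N + x.1 * x.2)) ^ 4)
        ≤ C₂ * ((N : ℝ) / U) / L ^ 2 *
          ((20 * (U : ℝ) / Real.log U) * ((14 * Sieve.KK + C₃) * (2 * U) / Real.log U)) := by
          apply mul_le_mul_of_nonneg_left h9
          positivity
      _ = 40 * C₂ * (14 * Sieve.KK + C₃) * (N : ℝ) * U / (L * Real.log U) ^ 2 := by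
          have hU0 : (U : ℝ) ≠ 0 := by linarith only [hM3, hLM, hUL]
          have hlU0 : Real.log U ≠ 0 := by linarith only [hlogU]
          have hL0 : L ≠ 0 := by linarith only [hM3, hLM]
          field_simp
          ring
  -- conclusion
  have hsq : ∀ b ∈ Icc 1 N, ((EN.rU N U b : ℝ)) ^ 2 ≤ ((EN.b2_F N U b).card : ℝ) +
      2 * (((EN.b2_F N U b ×ˢ EN.b2_F N U b).filter fun x : ℕ × ℕ => x.1 < x.2).card : ℝ) := by
    intro b _
    rw [EN.b2_rU]
    exact_mod_cast EN.b2_sq (EN.b2_F N U b)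
  refine (Finset.sum_le_sum hsq).trans ?_
  rw [Finset.sum_add_distrib, ← Finset.mul_sum]
  calc _ ≤ 4 * C₁ * (N : ℝ) * U / (L * Real.log U) ^ 2 +
      2 * (40 * C₂ * (14 * Sieve.KK + C₃) * (N : ℝ) * U / (L * Real.log U) ^ 2) :=
        add_le_add hfirst (mul_le_mul_of_nonneg_left hpairs (by norm_num))
    _ = _ := by ring

/-- Proof. As `EN.block` (file `EN/B4.lean`), with `second2`; `U ≤ √N`, so `U ≤ (c/2) N/(log N log U)`. -/
theorem block2 (c : ℝ) (hc : 0 < c) : ∃ κ : ℝ, 0 < κ ∧ ∃ N₀ : ℕ, ∀ N : ℕ, N₀ ≤ N → ∀ U a : ℕ,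
    Real.log N * Real.log (Real.log N) ≤ U → 16 * U ^ 2 ≤ N → (a + 1) % 3 ≠ N % 3 →
    c * (N : ℝ) / (Real.log N * Real.log U) ≤ (EN.TT N U a : ℝ) →
    κ * (N : ℝ) / U ≤ (((Icc 1 N).filter (fun b => N ≤ 8 * U * b ∧ U * b ≤ N ∧ EN.adm N b ∧
      κ * (U : ℝ) / (Real.log U * Real.log N) ≤ (EN.rr N b : ℝ))).card : ℝ) := by
  obtain ⟨C, hC, N₁, hsec⟩ := second2
  set κ : ℝ := min (c / 4) (c ^ 2 / (16 * C)) with hκ
  have hκ0 : 0 < κ := lt_min (by positivity) (by positivity)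
  have hκ1 : κ ≤ c / 4 := min_le_left _ _
  have hκ2 : κ ≤ c ^ 2 / (16 * C) := min_le_right _ _
  set M : ℝ := max 3 (1 / c) with hM
  obtain ⟨N₂, hN₂, hlogw⟩ := Sieve.log_le_rpow
  refine ⟨κ, hκ0, max (max N₁ N₂) ⌈Real.exp M⌉₊, ?_⟩
  intro N hN U a hU hUN ha hTT
  have hN1 : N₁ ≤ N := ((le_max_left _ _).trans (le_max_left _ _)).trans hN
  have hN2 : N₂ ≤ N := ((le_max_right _ _).trans (le_max_left _ _)).trans hN
  have hNe : Real.exp M ≤ N := (Nat.le_ceil _).trans (by exact_mod_cast (le_max_right _ _).trans hN)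
  have hN0 : (0 : ℝ) < N := (Real.exp_pos _).trans_le hNe
  have hsec' := hsec N hN1 U hU hUN
  have hLM : M ≤ Real.log N := by
    rw [← Real.log_exp M]
    exact Real.log_le_log (Real.exp_pos _) hNe
  have hM3 : (3 : ℝ) ≤ M := le_max_left _ _
  set L : ℝ := Real.log N with hL
  have hL3 : 3 ≤ L := hM3.trans hLM
  have hlogL : 1 ≤ Real.log L := by
    rw [Real.le_log_iff_exp_le (by linarith only [hM3, hLM])]
    have := Real.exp_one_lt_d9
    linarith only [hM3, hLM, this]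
  have hUL : L ≤ U := by nlinarith only [hU, hlogL, hM3, hLM]
  have hUM : M ≤ U := hLM.trans hUL
  have hU3 : (3 : ℝ) ≤ U := hM3.trans hUM
  have hUc : 1 / c ≤ U := (le_max_right _ _).trans hUM
  have hU3' : 3 ≤ U := by exact_mod_cast hU3
  have hU0 : (0 : ℝ) < U := by linarith only [hM3, hLM, hUL]
  have hlogU : 1 ≤ Real.log U := by
    rw [Real.le_log_iff_exp_le (by linarith only [hM3, hLM, hUL])]
    have := Real.exp_one_lt_d9
    linarith only [hM3, hLM, hUL, this]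
  have hlog := EN.b4_log L U (by linarith only [hM3, hLM]) (by linarith only [hM3, hLM, hUL]) hU
  have hLU : 0 < L * Real.log U := by positivity
  have hN16 : 16 * U ^ 2 ≤ N := hUN
  have hNU : (16 : ℝ) * U ^ 2 ≤ N := by exact_mod_cast hUN
  obtain ⟨w, hw⟩ : ∃ w : ℝ, w = (N : ℝ) ^ (1 / 8 : ℝ) := ⟨_, rfl⟩
  have hroot : w ^ 8 = (N : ℝ) := by
    rw [hw, ← Real.rpow_natCast, ← Real.rpow_mul hN0.le]
    norm_num
  have hLw : L ≤ w := by
    rw [hw]
    exact hlogw N hN2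
  have hw0 : 0 < w := by linarith only [hM3, hLM, hLw]
  have hUw : (U : ℝ) ≤ w ^ 4 / 4 := by
    have h1 : (4 * (U : ℝ)) ^ 2 ≤ (w ^ 4) ^ 2 := by
      calc (4 * (U : ℝ)) ^ 2 = 16 * (U : ℝ) ^ 2 := by ring
        _ ≤ (N : ℝ) := hNU
        _ = (w ^ 4) ^ 2 := by rw [← hroot]; ring
    have h2 := le_of_pow_le_pow_left₀ (by norm_num) (by positivity) h1
    linarith only [h2]
  have hsum := EN.TT_le_sum N U a hU3' hN16 ha
  set 𝓑 := (Icc 1 N).filter (fun b => N ≤ 8 * U * b ∧ U * b ≤ N ∧ EN.adm N b) with h𝓑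
  -- the term `U` is negligible
  have hcU : 1 ≤ c * U := by
    rw [div_le_iff₀ hc] at hUc
    linarith only [hUc]
  have hUsmall : (U : ℝ) ≤ (c / 2) * (N : ℝ) / (L * Real.log U) := by
    rw [le_div_iff₀ hLU]
    have hlogUL : Real.log U ≤ L := by
      apply Real.log_le_log hU0
      have h1 : (U : ℝ) ≤ 16 * U ^ 2 := by nlinarith only [hM3, hLM, hUL]
      linarith only [hNU, h1]
    have h1 : L * Real.log U ≤ w * w := by
      apply mul_le_mul hLw (hlogUL.trans hLw) (by linarith only [hlogU]) hw0.le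
    have h2 : (U : ℝ) * (L * Real.log U) ≤ w ^ 4 / 4 * (w * w) := by
      apply mul_le_mul hUw h1 (by positivity) (by positivity)
    refine h2.trans ?_
    have h3 : 1 ≤ c * w := by
      have h4 : 1 / c ≤ w := ((le_max_right _ _).trans hLM).trans hLw
      rw [div_le_iff₀ hc] at h4
      linarith only [h4]
    have h5 : w ^ 4 / 4 * (w * w) = w ^ 6 / 4 := by ring
    have h6 : c / 2 * (N : ℝ) = w ^ 6 * (c * w * w / 2) := by rw [← hroot]; ring
    rw [h5, h6]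
    have h7 : (1 : ℝ) / 4 ≤ c * w * w / 2 := by nlinarith only [hM3, hLM, hLw, h3]
    have h8 : 0 < w ^ 6 := by positivity
    nlinarith only [hroot, h6, h7, hLU, h1]
  have hS : (c / 2) * (N : ℝ) / (L * Real.log U) ≤ ∑ b ∈ 𝓑, (EN.rU N U b : ℝ) := by
    have h1 : c * (N : ℝ) / (L * Real.log U) =
        (c / 2) * (N : ℝ) / (L * Real.log U) + (c / 2) * (N : ℝ) / (L * Real.log U) := by ring
    linarith only [hTT, hsum, hUsmall, h1]
  set t : ℝ := κ * (U : ℝ) / (Real.log U * L) with ht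
  have ht0 : 0 ≤ t := by positivity
  set G := 𝓑.filter (fun b => t ≤ (EN.rU N U b : ℝ)) with hG
  have hsplit : ∑ b ∈ 𝓑, (EN.rU N U b : ℝ) =
      ∑ b ∈ G, (EN.rU N U b : ℝ) + ∑ b ∈ 𝓑.filter (fun b => ¬ t ≤ (EN.rU N U b : ℝ)), (EN.rU N U b : ℝ) :=
    (Finset.sum_filter_add_sum_filter_not _ _ _).symm
  have hcardB : (𝓑.card : ℝ) ≤ (N : ℝ) / U := by
    have h1 : 𝓑 ⊆ Icc 1 (N / U) := by
      intro b hb
      rw [h𝓑, Finset.mem_filter, Finset.mem_Icc] at hb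
      rw [Finset.mem_Icc]
      refine ⟨hb.1.1, ?_⟩
      rw [Nat.le_div_iff_mul_le (by omega)]
      rw [mul_comm]
      exact hb.2.2.1
    have h2 := Finset.card_le_card h1
    rw [Nat.card_Icc, Nat.add_sub_cancel] at h2
    calc (𝓑.card : ℝ) ≤ ((N / U : ℕ) : ℝ) := by exact_mod_cast h2
      _ ≤ (N : ℝ) / U := Nat.cast_div_le
  have hsmall : ∑ b ∈ 𝓑.filter (fun b => ¬ t ≤ (EN.rU N U b : ℝ)), (EN.rU N U b : ℝ) ≤
      (c / 4) * (N : ℝ) / (L * Real.log U) := by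
    have h1 : ∑ b ∈ 𝓑.filter (fun b => ¬ t ≤ (EN.rU N U b : ℝ)), (EN.rU N U b : ℝ) ≤
        ∑ b ∈ 𝓑.filter (fun b => ¬ t ≤ (EN.rU N U b : ℝ)), t := by
      apply Finset.sum_le_sum
      intro b hb
      rw [Finset.mem_filter] at hb
      exact (not_le.1 hb.2).le
    rw [Finset.sum_const, nsmul_eq_mul] at h1
    have h2 : ((𝓑.filter (fun b => ¬ t ≤ (EN.rU N U b : ℝ))).card : ℝ) ≤ (N : ℝ) / U := by
      refine le_trans ?_ hcardB
      exact_mod_cast Finset.card_filter_le _ _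
    calc _ ≤ _ := h1
      _ ≤ (N : ℝ) / U * t := mul_le_mul_of_nonneg_right h2 ht0
      _ = κ * (N : ℝ) / (L * Real.log U) := by
          rw [ht]
          have : Real.log U ≠ 0 := by linarith only [hlogU]
          have : L ≠ 0 := by linarith only [hM3, hLM]
          field_simp
      _ ≤ (c / 4) * (N : ℝ) / (L * Real.log U) := by
          apply div_le_div_of_nonneg_right _ hLU.le
          exact mul_le_mul_of_nonneg_right hκ1 hN0.le
  have hGsum : (c / 4) * (N : ℝ) / (L * Real.log U) ≤ ∑ b ∈ G, (EN.rU N U b : ℝ) := by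
    have h1 : (c / 2) * (N : ℝ) / (L * Real.log U) =
        (c / 4) * (N : ℝ) / (L * Real.log U) + (c / 4) * (N : ℝ) / (L * Real.log U) := by ring
    linarith only [hS, hsplit, hsmall, h1]
  have hCS : (∑ b ∈ G, (EN.rU N U b : ℝ)) ^ 2 ≤ (G.card : ℝ) * ∑ b ∈ G, (EN.rU N U b : ℝ) ^ 2 :=
    sq_sum_le_card_mul_sum_sq
  have hGsub : G ⊆ Icc 1 N := by
    intro b hb
    rw [hG, Finset.mem_filter, h𝓑, Finset.mem_filter] at hb
    exact hb.1.1
  have hsq : ∑ b ∈ G, (EN.rU N U b : ℝ) ^ 2 ≤ C * (N : ℝ) * U / (L * Real.log U) ^ 2 :=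
    (Finset.sum_le_sum_of_subset_of_nonneg hGsub fun b _ _ => by positivity).trans hsec'
  have hmain : κ * (N : ℝ) / U ≤ (G.card : ℝ) := by
    have h1 : ((c / 4) * (N : ℝ) / (L * Real.log U)) ^ 2 ≤
        (G.card : ℝ) * (C * (N : ℝ) * U / (L * Real.log U) ^ 2) := by
      calc _ ≤ (∑ b ∈ G, (EN.rU N U b : ℝ)) ^ 2 := by
            apply pow_le_pow_left₀ (by positivity) hGsum
        _ ≤ _ := hCS
        _ ≤ _ := mul_le_mul_of_nonneg_left hsq (by positivity)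
    have h2 : ((c / 4) * (N : ℝ)) ^ 2 ≤ (G.card : ℝ) * (C * (N : ℝ) * U) := by
      rw [div_pow, mul_div_assoc', div_le_div_iff_of_pos_right (by positivity)] at h1
      exact h1
    have h3 : κ * (16 * C) ≤ c ^ 2 := by
      rw [le_div_iff₀ (by positivity)] at hκ2
      exact hκ2
    rw [div_le_iff₀ hU0]
    have h4 : (0 : ℝ) < 16 * C * N := by positivity
    refine le_of_mul_le_mul_left ?_ h4
    calc 16 * C * (N : ℝ) * (κ * N) = (κ * (16 * C)) * (N : ℝ) ^ 2 := by ring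
      _ ≤ c ^ 2 * (N : ℝ) ^ 2 := mul_le_mul_of_nonneg_right h3 (by positivity)
      _ = 16 * ((c / 4) * (N : ℝ)) ^ 2 := by ring
      _ ≤ 16 * ((G.card : ℝ) * (C * (N : ℝ) * U)) := mul_le_mul_of_nonneg_left h2 (by norm_num)
      _ = 16 * C * (N : ℝ) * ((G.card : ℝ) * U) := by ring
  refine hmain.trans ?_
  have hsub : G ⊆ (Icc 1 N).filter (fun b => N ≤ 8 * U * b ∧ U * b ≤ N ∧ EN.adm N b ∧
      κ * (U : ℝ) / (Real.log U * L) ≤ (EN.rr N b : ℝ)) := by
    intro b hb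
    rw [hG, Finset.mem_filter, h𝓑, Finset.mem_filter] at hb
    rw [Finset.mem_filter]
    refine ⟨hb.1.1, hb.1.2.1, hb.1.2.2.1, hb.1.2.2.2, hb.2.trans ?_⟩
    exact_mod_cast EN.rU_le_rr N U b
  exact_mod_cast Finset.card_le_card hsub

end Pool.Agent.Lib.MP_d9bc60_nt.AP
end

section
/-! Row E04 (about 120 lines): every `n`, a positive proportion of the `b` in every window. -/

set_option autoImplicit false

namespace Pool.Agent.Lib.MP_d9bc60_nt.AP

open Finset Pool.Agent.Lib.MP_d9bc60_nt.UV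

/-- the conditions for large `N` -/
theorem e04_event (ε : ℝ) (hε : 0 < ε) : ∃ M : ℝ, 100 ≤ M ∧ ∀ N : ℝ, M ≤ N →
    16 * N ^ (1 - 2 * ε) ≤ N := by
  refine ⟨max 100 (16 ^ (1 / (2 * ε))), le_max_left _ _, fun N hN => ?_⟩
  have h1 : (100 : ℝ) ≤ N := (le_max_left _ _).trans hN
  have h2 : (16 : ℝ) ^ (1 / (2 * ε)) ≤ N := (le_max_right _ _).trans hN
  have hN0 : (0 : ℝ) < N := by linarith only [h1]
  have h3 : (16 : ℝ) ≤ N ^ (2 * ε) := by
    calc (16 : ℝ) = ((16 : ℝ) ^ (1 / (2 * ε))) ^ (2 * ε) := by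
          rw [← Real.rpow_mul (by norm_num), one_div, inv_mul_cancel₀ (by positivity), Real.rpow_one]
      _ ≤ N ^ (2 * ε) := Real.rpow_le_rpow (by positivity) h2 (by positivity)
  calc 16 * N ^ (1 - 2 * ε) ≤ N ^ (2 * ε) * N ^ (1 - 2 * ε) := by
        apply mul_le_mul_of_nonneg_right h3 (by positivity)
    _ = N := by
        rw [← Real.rpow_add hN0, show 2 * ε + (1 - 2 * ε) = 1 by ring, Real.rpow_one]

open Classical in
/-- Proof. `N = (n - c).toNat`; `a = 2` if `N % 3 = 2`, else `a = 1`, so `(a+1) % 3 ≠ N % 3`; `TT_lower`,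
`block2`; `U ≤ N/b ≤ 8U`, so `(N/b)/(log(N/b)) ≤ 8U/log U`. Translation as in `EN.every_n` (file
`EN/F1.lean`): `EN.f1_ncard`, `Odd (b + c)` iff `b % 2 = N % 2`. -/
theorem every_window (ε : ℝ) (hε : 0 < ε) : ∃ κ : ℝ, 0 < κ ∧ ∃ N₀ : ℝ, ∀ n c : ℤ, Odd n →
    N₀ ≤ (n : ℝ) - c → ∀ U : ℕ,
    Real.log ((n : ℝ) - c) * Real.log (Real.log ((n : ℝ) - c)) ≤ U →
    (U : ℝ) ≤ ((n : ℝ) - c) ^ (1 / 2 - ε) →
    κ * (((n : ℝ) - c) / U) ≤ (((Icc 1 ⌊((n : ℝ) - c) / U⌋₊).filter (fun b : ℕ =>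
      ((n : ℝ) - c) / (8 * U) ≤ b ∧ Odd ((b : ℤ) + c) ∧ ¬ (3 : ℤ) ∣ b ∧
      (¬ ∃ x : ℤ, x ^ 2 + b * x + c = n) ∧
      κ * (((n : ℝ) - c) / b) / (Real.log (((n : ℝ) - c) / b) * Real.log ((n : ℝ) - c)) ≤
        (({x : ℕ × ℕ | x.1.Prime ∧ x.2.Prime ∧
          n = ((x.1 : ℤ) ^ 2 + b * (x.1 : ℤ) + c) + (x.2 : ℤ)}.ncard : ℕ) : ℝ))).card : ℝ) := by
  obtain ⟨c₀, hc₀, N₁, hTT⟩ := TT_lower ε hε
  obtain ⟨κ₀, hκ₀, N₂, hbl⟩ := block2 c₀ hc₀
  obtain ⟨M, hM, hev⟩ := e04_event ε hε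
  refine ⟨κ₀ / 8, by positivity, max (max (N₁ : ℝ) N₂) M, fun n c hn hN₀ U hU1 hU2 => ?_⟩
  have hNa : (N₁ : ℝ) ≤ (n : ℝ) - c := le_trans (le_trans (le_max_left _ _) (le_max_left _ _)) hN₀
  have hNb : (N₂ : ℝ) ≤ (n : ℝ) - c := le_trans (le_trans (le_max_right _ _) (le_max_left _ _)) hN₀
  have hNc : M ≤ (n : ℝ) - c := le_trans (le_max_right _ _) hN₀
  have hN100 : (100 : ℝ) ≤ (n : ℝ) - c := hM.trans hNc
  have hnc : 0 ≤ n - c := by
    have : (0 : ℝ) ≤ ((n - c : ℤ) : ℝ) := by push_cast; linarith only [hM, hNc]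
    exact_mod_cast this
  obtain ⟨N, hN⟩ := Int.eq_ofNat_of_zero_le hnc
  have hNr : (n : ℝ) - c = (N : ℝ) := by
    have : ((n - c : ℤ) : ℝ) = ((N : ℤ) : ℝ) := by rw [hN]
    push_cast at this
    exact this
  rw [hNr] at hNa hNb hNc hN100 hU1 hU2 ⊢
  have hN1 : N₁ ≤ N := by exact_mod_cast hNa
  have hN2 : N₂ ≤ N := by exact_mod_cast hNb
  have hN0 : (0 : ℝ) < N := by linarith only [hN100]
  have h100 : 100 ≤ N := by exact_mod_cast hN100
  -- the residue class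
  obtain ⟨a, ha12, ha⟩ : ∃ a : ℕ, (a = 1 ∨ a = 2) ∧ (a + 1) % 3 ≠ N % 3 := by
    by_cases h : N % 3 = 2
    · exact ⟨2, Or.inr rfl, by omega⟩
    · exact ⟨1, Or.inl rfl, by omega⟩
  have hl4 : 4 ≤ Real.log N := by
    rw [Real.le_log_iff_exp_le hN0]
    have h1 := Real.exp_one_lt_d9
    have h2 : Real.exp 4 = Real.exp 1 ^ 4 := by
      rw [← Real.exp_nat_mul]; norm_num
    rw [h2]
    have h3 : Real.exp 1 ^ 4 ≤ (2.7182818286 : ℝ) ^ 4 :=
      pow_le_pow_left₀ (Real.exp_pos 1).le h1.le 4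
    have h4 : (2.7182818286 : ℝ) ^ 4 ≤ 100 := by norm_num
    linarith only [hN100, h3]
  have hll : 1 ≤ Real.log (Real.log N) := by
    rw [Real.le_log_iff_exp_le (by linarith only [hl4])]
    have h1 := Real.exp_one_lt_d9
    linarith only [hl4, h1]
  have hU4 : (4 : ℝ) ≤ U := by nlinarith only [hU1, hl4, hll]
  have hU0 : (0 : ℝ) < U := by linarith only [hU4]
  have hU4' : 4 ≤ U := by exact_mod_cast hU4
  have h16 : 16 * U ^ 2 ≤ N := by
    have h1 : (U : ℝ) ^ 2 ≤ (N : ℝ) ^ (1 - 2 * ε) := by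
      calc (U : ℝ) ^ 2 ≤ ((N : ℝ) ^ (1 / 2 - ε)) ^ 2 := pow_le_pow_left₀ hU0.le hU2 2
        _ = (N : ℝ) ^ (1 - 2 * ε) := by
            rw [← Real.rpow_natCast, ← Real.rpow_mul hN0.le]
            congr 1
            push_cast
            ring
    have h2 := hev N hNc
    have h3 : (16 : ℝ) * (U : ℝ) ^ 2 ≤ N := by linarith only [h1, h2]
    exact_mod_cast h3
  have h1 := hTT N hN1 U a hU1 hU2 ha12
  have h2 := hbl N hN2 U a hU1 h16 ha h1
  have h3 : κ₀ / 8 * ((N : ℝ) / U) ≤ κ₀ * (N : ℝ) / U := by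
    rw [mul_div_assoc]
    apply mul_le_mul_of_nonneg_right (by linarith only [hκ₀]) (by positivity)
  refine (h3.trans h2).trans ?_
  have h4 : (Icc 1 N).filter (fun b => N ≤ 8 * U * b ∧ U * b ≤ N ∧ EN.adm N b ∧
      κ₀ * (U : ℝ) / (Real.log U * Real.log N) ≤ (EN.rr N b : ℝ)) ⊆
    (Icc 1 ⌊(N : ℝ) / U⌋₊).filter (fun b : ℕ =>
      (N : ℝ) / (8 * U) ≤ b ∧ Odd ((b : ℤ) + c) ∧ ¬ (3 : ℤ) ∣ b ∧
      (¬ ∃ x : ℤ, x ^ 2 + b * x + c = n) ∧
      κ₀ / 8 * ((N : ℝ) / b) / (Real.log ((N : ℝ) / b) * Real.log N) ≤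
        (({x : ℕ × ℕ | x.1.Prime ∧ x.2.Prime ∧
          n = ((x.1 : ℤ) ^ 2 + b * (x.1 : ℤ) + c) + (x.2 : ℤ)}.ncard : ℕ) : ℝ)) := by
    intro b hb
    rw [mem_filter, mem_Icc] at hb ⊢
    obtain ⟨⟨hb1, hb2⟩, hb3, hb4, ⟨ha1, ha2, ha3⟩, hb5⟩ := hb
    have hb3' : (N : ℝ) ≤ 8 * U * b := by exact_mod_cast hb3
    have hb4' : (U : ℝ) * b ≤ N := by exact_mod_cast hb4
    refine ⟨⟨hb1, ?_⟩, ?_, ?_, ?_, ?_, ?_⟩
    · apply Nat.le_floor
      rw [le_div_iff₀ hU0]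
      linarith only [hb4']
    · rw [div_le_iff₀ (by positivity)]
      linarith only [hb3']
    · rw [Int.odd_iff] at hn ⊢
      omega
    · exact_mod_cast ha2
    · rintro ⟨x, hx⟩
      exact ha3 ⟨x, by rw [← hN]; linarith only [hx]⟩
    · rw [EN.f1_ncard n c N b hN]
      exact EN.c3_cond (κ₀ / 8) κ₀ _ (by positivity) le_rfl N U b (by omega) (by omega) hb3 hb4
        (by omega) hb5
  exact_mod_cast Finset.card_le_card h4

end Pool.Agent.Lib.MP_d9bc60_nt.AP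
end
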