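import Pool.Agent.Lib.MP_d9bc60_nt.AQ.QDefs
import Pool.Agent.Lib.MP_d9bc60_nt.AQ.QLS

section
/-! Row B14 (about 110 lines): the `n` not coprime to the modulus; sums of `1/φ`. -/

set_option autoImplicit false

namespace Pool.Agent.Lib.MP_d9bc60_nt.AP

open Finset Pool.Agent.Lib.MP_d9bc60_nt.UV

theorem b14_omega (d : ℕ) (hd : 1 ≤ d) : (d.primeFactors.card : ℝ) ≤ 2 * Real.log d := by
  have h1 : 2 ^ d.primeFactors.card ≤ d := by
    calc 2 ^ d.primeFactors.card = ∏ _p ∈ d.primeFactors, 2 := by rw [Finset.prod_const]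
      _ ≤ ∏ p ∈ d.primeFactors, p :=
          Finset.prod_le_prod' fun p hp => (Nat.prime_of_mem_primeFactors hp).two_le
      _ ≤ d := Nat.le_of_dvd hd (Nat.prod_primeFactors_dvd d)
  have h2 : (d.primeFactors.card : ℝ) * Real.log 2 ≤ Real.log d := by
    rw [← Real.log_pow]
    exact Real.log_le_log (by positivity) (by exact_mod_cast h1)
  have h3 : (1 : ℝ) / 2 ≤ Real.log 2 := by
    have := Real.log_two_gt_d9
    linarith
  have h4 : (0 : ℝ) ≤ d.primeFactors.card := Nat.cast_nonneg _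
  nlinarith

theorem b14_psi (P d : ℕ) (hP : 1 ≤ P) (hd : 1 ≤ d) :
    ∑ n ∈ (Icc 1 P).filter (fun n => ¬ n.Coprime d), vm n ≤
      d.primeFactors.card * Real.log P := by
  classical
  set S := ((Icc 1 P).filter (fun n => ¬ n.Coprime d)).filter IsPrimePow with hS
  have h1 : ∑ n ∈ (Icc 1 P).filter (fun n => ¬ n.Coprime d), vm n =
      ∑ n ∈ S, Real.log (n.minFac) := by
    rw [hS]
    conv_rhs => rw [sum_filter]
    refine sum_congr rfl fun n _ => ?_
    unfold vm
    rw [ArithmeticFunction.vonMangoldt_apply]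
  have hmem : ∀ n ∈ S, ∃ p k : ℕ, p.Prime ∧ 1 ≤ k ∧ p ∣ d ∧ p ^ k = n ∧ n.minFac = p ∧ n ≤ P := by
    intro n hn
    rw [hS, mem_filter, mem_filter, mem_Icc] at hn
    obtain ⟨⟨⟨hn1, hn2⟩, hn3⟩, hn4⟩ := hn
    obtain ⟨p, k, hp, hk, rfl⟩ := hn4
    have hp' : p.Prime := Nat.prime_iff.mpr hp
    refine ⟨p, k, hp', hk, ?_, rfl, hp'.pow_minFac (by omega), hn2⟩
    by_contra hnd
    exact hn3 (Nat.Coprime.pow_left k ((Nat.Prime.coprime_iff_not_dvd hp').mpr hnd))
  have hmap : ∀ n ∈ S, n.minFac ∈ d.primeFactors := by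
    intro n hn
    obtain ⟨p, k, hp, hk, hpd, h2, h3, h4⟩ := hmem n hn
    rw [h3, Nat.mem_primeFactors]
    exact ⟨hp, hpd, by omega⟩
  rw [h1, ← Finset.sum_fiberwise_of_maps_to hmap]
  calc ∑ p ∈ d.primeFactors, ∑ n ∈ S with n.minFac = p, Real.log (n.minFac)
      ≤ ∑ _p ∈ d.primeFactors, Real.log P := by
        refine Finset.sum_le_sum fun p hp => ?_
        have hpp := Nat.prime_of_mem_primeFactors hp
        have h5 : ∑ n ∈ S with n.minFac = p, Real.log (n.minFac) =
            ((S.filter (fun n => n.minFac = p)).card : ℝ) * Real.log p := by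
          rw [← nsmul_eq_mul, ← Finset.sum_const]
          refine Finset.sum_congr rfl fun n hn => ?_
          rw [(Finset.mem_filter.mp hn).2]
        have h6 : (S.filter (fun n => n.minFac = p)).card ≤ Nat.log p P := by
          have h7 : S.filter (fun n => n.minFac = p) ⊆
              (Icc 1 (Nat.log p P)).image (fun k => p ^ k) := by
            intro n hn
            rw [Finset.mem_filter] at hn
            obtain ⟨p', k, hp', hk, hpd, h2, h3, h4⟩ := hmem n hn.1
            have h8 : p' = p := h3.symm.trans hn.2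
            subst h8
            rw [Finset.mem_image]
            refine ⟨k, ?_, h2⟩
            rw [Finset.mem_Icc]
            exact ⟨hk, Nat.le_log_of_pow_le hp'.one_lt (h2.trans_le h4)⟩
          refine (Finset.card_le_card h7).trans (Finset.card_image_le.trans ?_)
          rw [Nat.card_Icc, Nat.add_sub_cancel]
        have hlogp : 0 ≤ Real.log p := Real.log_natCast_nonneg p
        rw [h5]
        calc ((S.filter (fun n => n.minFac = p)).card : ℝ) * Real.log p
            ≤ (Nat.log p P : ℝ) * Real.log p := by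
              refine mul_le_mul_of_nonneg_right ?_ hlogp
              exact_mod_cast h6
          _ = Real.log ((p : ℝ) ^ (Nat.log p P)) := by rw [Real.log_pow]
          _ ≤ Real.log P := by
              refine Real.log_le_log (pow_pos (by exact_mod_cast hpp.pos) _) ?_
              exact_mod_cast Nat.pow_log_le_self p (by omega)
    _ = d.primeFactors.card * Real.log P := by rw [Finset.sum_const, nsmul_eq_mul]

theorem b14_kf (P n : ℕ) (hP : 1 ≤ P) (hn : 1 ≤ n) : kf P n ≤ Real.log P := by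
  have hP1 : (1 : ℝ) ≤ P := by exact_mod_cast hP
  have hn1 : (1 : ℝ) ≤ n := by exact_mod_cast hn
  unfold kf
  refine max_le (Real.log_nonneg hP1) ?_
  refine Real.log_le_log (by positivity) ?_
  exact div_le_self (by linarith) hn1

/-- Proof. `Λ(n) ≠ 0` and `(n,d) > 1`: `n = p^k`, `p ∣ d`. `∑_{k : p^k ≤ P} log p ≤ log P`, `kf ≤ log P`, and
`ω(d) ≤ log d/log 2 ≤ 2 log d`. -/
theorem sum_noncoprime (P d : ℕ) (hP : 3 ≤ P) (hd : 1 ≤ d) :
    ∑ n ∈ (Icc 1 P).filter (fun n => ¬ n.Coprime d), vm n * kf P n ≤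
      2 * Real.log P ^ 2 * Real.log d := by
  have hL : 0 ≤ Real.log P := Real.log_natCast_nonneg P
  calc ∑ n ∈ (Icc 1 P).filter (fun n => ¬ n.Coprime d), vm n * kf P n
      ≤ ∑ n ∈ (Icc 1 P).filter (fun n => ¬ n.Coprime d), vm n * Real.log P := by
        refine Finset.sum_le_sum fun n hn => ?_
        rw [mem_filter, mem_Icc] at hn
        refine mul_le_mul_of_nonneg_left (b14_kf P n (by omega) hn.1.1) ?_
        exact ArithmeticFunction.vonMangoldt_nonneg
    _ = (∑ n ∈ (Icc 1 P).filter (fun n => ¬ n.Coprime d), vm n) * Real.log P := by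
        rw [Finset.sum_mul]
    _ ≤ ((2 * Real.log d) * Real.log P) * Real.log P := by
        refine mul_le_mul_of_nonneg_right ?_ hL
        refine (b14_psi P d (by omega) hd).trans ?_
        exact mul_le_mul_of_nonneg_right (b14_omega d hd) hL
    _ = 2 * Real.log P ^ 2 * Real.log d := by ring

/-- Proof. `d = qe`, `φ(qe) ≥ φ(q)φ(e)`; `1/φ(e) ≤ τ(e)/e` (`φ(e)τ(e) ≥ e`, multiplicative), `sum_tau_div_le`. -/
theorem sum_inv_totient (D q : ℕ) (hq : 1 ≤ q) :
    ∑ d ∈ (Icc 1 D).filter (fun d => q ∣ d), 1 / (d.totient : ℝ) ≤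
      (1 / (q.totient : ℝ)) * (1 + Real.log D) ^ 2 := by
  classical
  have hq0 : (0 : ℝ) < q.totient := by exact_mod_cast Nat.totient_pos.2 hq
  have h1 : (Icc 1 D).filter (fun d => q ∣ d) ⊆ (Icc 1 D).image (fun e => q * e) := by
    intro d hd
    rw [mem_filter, mem_Icc] at hd
    obtain ⟨⟨h1, h2⟩, e, rfl⟩ := hd
    rw [mem_image]
    refine ⟨e, ?_, rfl⟩
    rw [mem_Icc]
    have h3 : 0 < e := Nat.pos_of_ne_zero fun h => by simp [h] at h1
    exact ⟨h3, (Nat.le_mul_of_pos_left e hq).trans h2⟩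
  calc ∑ d ∈ (Icc 1 D).filter (fun d => q ∣ d), 1 / (d.totient : ℝ)
      ≤ ∑ d ∈ (Icc 1 D).image (fun e => q * e), 1 / (d.totient : ℝ) :=
        Finset.sum_le_sum_of_subset_of_nonneg h1 fun d _ _ => by positivity
    _ = ∑ e ∈ Icc 1 D, 1 / ((q * e).totient : ℝ) := by
        rw [Finset.sum_image]
        intro x _ y _ hxy
        exact Nat.eq_of_mul_eq_mul_left hq hxy
    _ ≤ ∑ e ∈ Icc 1 D, (1 / (q.totient : ℝ)) * ((e.divisors.card : ℝ) / e) := by
        refine Finset.sum_le_sum fun e he => ?_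
        rw [mem_Icc] at he
        have he0 : (0 : ℝ) < e.totient := by exact_mod_cast Nat.totient_pos.2 he.1
        have h2 : (q.totient : ℝ) * e.totient ≤ ((q * e).totient : ℝ) := by
          exact_mod_cast Nat.totient_super_multiplicative q e
        calc 1 / ((q * e).totient : ℝ) ≤ 1 / ((q.totient : ℝ) * e.totient) :=
              one_div_le_one_div_of_le (by positivity) h2
          _ = (1 / (q.totient : ℝ)) * (1 / (e.totient : ℝ)) := by rw [one_div_mul_one_div]
          _ ≤ _ := mul_le_mul_of_nonneg_left (M2VmQ_tot e he.1) (by positivity)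
    _ = (1 / (q.totient : ℝ)) * ∑ e ∈ Icc 1 D, (e.divisors.card : ℝ) / e := by
        rw [Finset.mul_sum]
    _ ≤ _ := mul_le_mul_of_nonneg_left (sum_tau_div_le D) (by positivity)

end Pool.Agent.Lib.MP_d9bc60_nt.AP
end

section
/-! Row B15 (about 130 lines): induced characters. -/

set_option autoImplicit false

namespace Pool.Agent.Lib.MP_d9bc60_nt.AP

open Finset Pool.Agent.Lib.MP_d9bc60_nt.UV

theorem b15_kf_nonneg (P n : ℕ) : 0 ≤ kf P n := le_max_left _ _

theorem b15_vm_nonneg (n : ℕ) : 0 ≤ vm n := ArithmeticFunction.vonMangoldt_nonneg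

/-- Proof. `χ(n) = χ*(n)` for `(n,d) = 1` and `χ(n) = 0` otherwise (`DirichletCharacter.factorsThrough`,
`changeLevel`), so the sums differ by at most `sum_noncoprime`. -/
theorem S1_induced (P d : ℕ) [NeZero d] (hP : 3 ≤ P) (χ : DirichletCharacter ℂ d) :
    S1 P χ ≤ S1 P χ.primitiveCharacter + 2 * Real.log P ^ 2 * Real.log d := by
  classical
  have hd : 1 ≤ d := Nat.one_le_iff_ne_zero.mpr (NeZero.ne d)
  refine le_trans ?_ (add_le_add_right (sum_noncoprime P d hP hd) _)
  unfold S1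
  have hsplit : ∑ n ∈ Icc 1 P, χ (n : ZMod d) * (vm n : ℂ) * (kf P n : ℂ) =
      ∑ n ∈ Icc 1 P, χ.primitiveCharacter (n : ZMod χ.conductor) * (vm n : ℂ) * (kf P n : ℂ) -
      ∑ n ∈ (Icc 1 P).filter (fun n => ¬ n.Coprime d),
        χ.primitiveCharacter (n : ZMod χ.conductor) * (vm n : ℂ) * (kf P n : ℂ) := by
    rw [← sum_filter_add_sum_filter_not (Icc 1 P) (fun n : ℕ => n.Coprime d)
      (fun n => χ.primitiveCharacter (n : ZMod χ.conductor) * (vm n : ℂ) * (kf P n : ℂ)),
      add_sub_cancel_right, sum_filter]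
    refine sum_congr rfl fun n _ => ?_
    by_cases h : n.Coprime d
    · rw [if_pos h]
      have h2 : IsCoprime (n : ℤ) (d : ℤ) := Nat.isCoprime_iff_coprime.mpr h
      have h3 := χ.primitiveCharacter_apply_of_isCoprime h2
      rw [Int.cast_natCast, Int.cast_natCast] at h3
      rw [h3]
    · rw [if_neg h, MulChar.map_nonunit _ (fun h' => h ((ZMod.isUnit_iff_coprime n d).mp h'))]
      simp
  rw [hsplit]
  refine (norm_sub_le _ _).trans (add_le_add le_rfl ?_)
  refine (norm_sum_le _ _).trans (sum_le_sum fun n _ => ?_)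
  rw [norm_mul, norm_mul, Complex.norm_real, Complex.norm_real, Real.norm_of_nonneg
    (b15_vm_nonneg n), Real.norm_of_nonneg (b15_kf_nonneg P n)]
  have h1 : ‖χ.primitiveCharacter (n : ZMod χ.conductor)‖ ≤ 1 :=
    DirichletCharacter.norm_le_one _ _
  have h2 := mul_le_mul_of_nonneg_right h1 (mul_nonneg (b15_vm_nonneg n) (b15_kf_nonneg P n))
  linarith

theorem b15_prim_apply {q : ℕ} (ψ : DirichletCharacter ℂ q) (h : ψ.IsPrimitive) (a : ℤ) :
    ψ.primitiveCharacter a = ψ a := by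
  by_cases ha : IsCoprime a q
  · exact ψ.primitiveCharacter_apply_of_isCoprime ha
  · have h1 : ψ (a : ZMod q) = 0 := (DirichletCharacter.apply_eq_zero_iff ..).mpr ha
    have h2 : ψ.primitiveCharacter (a : ZMod ψ.conductor) = 0 := by
      refine (DirichletCharacter.apply_eq_zero_iff ..).mpr ?_
      rw [DirichletCharacter.isPrimitive_def] at h
      rwa [h]
    rw [h1, h2]

theorem b15_S1 (P : ℕ) {q d : ℕ} [NeZero d] (hq : q ∣ d) (ψ : DirichletCharacter ℂ q)
    (h : ψ.IsPrimitive) :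
    S1 P (DirichletCharacter.changeLevel hq ψ).primitiveCharacter = S1 P ψ := by
  unfold S1
  congr 1
  refine sum_congr rfl fun n _ => ?_
  have h1 := DirichletCharacter.primitiveCharacter_changeLevel_apply hq ψ (n : ℤ)
  rw [b15_prim_apply ψ h] at h1
  rw [Int.cast_natCast, Int.cast_natCast] at h1
  rw [h1]

open Classical in
/-- Proof. `χ ↦ (conductor, primitive character)` is injective (`χ` is `changeLevel` of its primitive
character), the conductor divides `d` and is `> 1` for `χ ≠ 1`. Work with the sigma type over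
`d.divisors.filter (1 < ·)`. -/
theorem sum_induced (P d : ℕ) [NeZero d] :
    ∑ χ ∈ (Finset.univ : Finset (DirichletCharacter ℂ d)).filter (fun χ => χ ≠ 1),
      S1 P χ.primitiveCharacter ≤
    ∑ q ∈ d.divisors.filter (fun q => 1 < q), prim q (fun χ => S1 P χ) := by
  have hmaps : ∀ χ ∈ (Finset.univ : Finset (DirichletCharacter ℂ d)).filter (fun χ => χ ≠ 1),
      χ.conductor ∈ d.divisors.filter (fun q => 1 < q) := by
    intro χ hχ
    rw [mem_filter] at hχ
    rw [mem_filter, Nat.mem_divisors]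
    refine ⟨⟨χ.conductor_dvd_level, NeZero.ne d⟩, ?_⟩
    have h0 := DirichletCharacter.conductor_ne_zero χ
    have h1 : χ.conductor ≠ 1 := fun h => hχ.2 (DirichletCharacter.eq_one_iff_conductor_eq_one.mpr h)
    omega
  rw [← sum_fiberwise_of_maps_to hmaps]
  refine sum_le_sum fun q hq => ?_
  rw [mem_filter, Nat.mem_divisors] at hq
  obtain ⟨⟨hqd, -⟩, hq1⟩ := hq
  haveI : NeZero q := ⟨by omega⟩
  rw [prim_eq]
  have hinj := DirichletCharacter.changeLevel_injective (R := ℂ) hqd
  have h1 : ∑ ψ ∈ (Finset.univ : Finset (DirichletCharacter ℂ q)).filter (fun χ => χ.IsPrimitive),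
      S1 P ψ = ∑ χ ∈ ((Finset.univ : Finset (DirichletCharacter ℂ q)).filter
        (fun χ => χ.IsPrimitive)).image (DirichletCharacter.changeLevel hqd),
          S1 P χ.primitiveCharacter := by
    rw [sum_image (fun x _ y _ hxy => hinj hxy)]
    refine sum_congr rfl fun ψ hψ => ?_
    rw [mem_filter] at hψ
    exact (b15_S1 P hqd ψ hψ.2).symm
  rw [h1]
  refine sum_le_sum_of_subset_of_nonneg ?_ (fun χ _ _ => norm_nonneg _)
  intro χ hχ
  rw [mem_filter, mem_filter] at hχ
  obtain ⟨⟨-, -⟩, rfl⟩ := hχ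
  rw [mem_image]
  refine ⟨χ.primitiveCharacter, ?_, DirichletCharacter.changeLevel_primitiveCharacter χ⟩
  rw [mem_filter]
  exact ⟨mem_univ _, DirichletCharacter.primitiveCharacter_isPrimitive χ⟩

end Pool.Agent.Lib.MP_d9bc60_nt.AP
end

section
/-! Row B16 (about 130 lines): the error term in terms of primitive characters. -/

set_option autoImplicit false

namespace Pool.Agent.Lib.MP_d9bc60_nt.AP

open Finset Pool.Agent.Lib.MP_d9bc60_nt.UV

theorem b16_kf_nonneg (P n : ℕ) : 0 ≤ kf P n := le_max_left _ _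

theorem b16_vm_nonneg (n : ℕ) : 0 ≤ vm n := ArithmeticFunction.vonMangoldt_nonneg

/-- orthogonality of characters -/
theorem b16_orth (q : ℕ) [NeZero q] (a P : ℕ) (ha : a.Coprime q) :
    (q.totient : ℂ) * ((∑ n ∈ (Icc 1 P).filter (fun n => n % q = a % q), vm n * kf P n : ℝ) : ℂ) =
      ∑ χ : DirichletCharacter ℂ q, χ ((a : ZMod q)⁻¹) *
        ∑ n ∈ Icc 1 P, χ (n : ZMod q) * (vm n : ℂ) * (kf P n : ℂ) := by
  classical
  have hu : IsUnit (a : ZMod q) := (ZMod.isUnit_iff_coprime a q).mpr ha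
  have h1 : ∑ χ : DirichletCharacter ℂ q, χ ((a : ZMod q)⁻¹) *
        ∑ n ∈ Icc 1 P, χ (n : ZMod q) * (vm n : ℂ) * (kf P n : ℂ) =
      ∑ n ∈ Icc 1 P, (∑ χ : DirichletCharacter ℂ q, χ ((a : ZMod q)⁻¹) * χ (n : ZMod q)) *
        ((vm n : ℂ) * (kf P n : ℂ)) := by
    simp_rw [mul_sum, sum_mul]
    rw [sum_comm]
    refine sum_congr rfl fun n _ => sum_congr rfl fun χ _ => ?_
    ring
  rw [h1]
  simp_rw [DirichletCharacter.sum_char_inv_mul_char_eq ℂ hu]
  rw [sum_filter, Complex.ofReal_sum, mul_sum]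
  refine sum_congr rfl fun n _ => ?_
  have h2 : ((a : ZMod q) = (n : ZMod q)) ↔ n % q = a % q := by
    rw [ZMod.natCast_eq_natCast_iff']
    exact eq_comm
  by_cases h3 : n % q = a % q
  · rw [if_pos h3, if_pos (h2.mpr h3)]
    push_cast
    ring
  · rw [if_neg h3, if_neg (fun h => h3 (h2.mp h))]
    simp

/-- Proof. Orthogonality (`DirichletCharacter.sum_char_inv_mul_char_eq`): the sum over `n ≡ a (d)` is
`φ(d)⁻¹ ∑_χ χ(a)⁻¹ ∑_n χ(n) Λ(n) kf P n`. The principal character gives `∑ Λ kf` minus the terms of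
`sum_noncoprime`; the others: `S1_induced`, `sum_induced`; there are `φ(d)` characters. See also the proof of
`sw` at the end of `UV.PSW`. -/
theorem EE_le (P d a : ℕ) (hP : 3 ≤ P) (hd : 1 ≤ d) (ha : a.Coprime d) :
    |EE P d a| ≤ (1 / (d.totient : ℝ)) * ∑ q ∈ d.divisors.filter (fun q => 1 < q),
        prim q (fun χ => S1 P χ)
      + |∑ n ∈ Icc 1 P, vm n * kf P n - P| / d.totient + 4 * Real.log P ^ 2 * Real.log d := by
  classical
  haveI : NeZero d := ⟨by omega⟩
  have hu : IsUnit (a : ZMod d) := (ZMod.isUnit_iff_coprime a d).mpr ha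
  have hφ : 0 < d.totient := Nat.totient_pos.mpr (by omega)
  have hφ1 : (1 : ℝ) ≤ d.totient := by exact_mod_cast hφ
  have hφ0 : (0 : ℝ) < d.totient := by linarith
  set S : ℝ := ∑ n ∈ (Icc 1 P).filter (fun n => n % d = a % d), vm n * kf P n with hS
  set F : ℝ := 2 * Real.log P ^ 2 * Real.log d with hF
  have hlogd : 0 ≤ Real.log d := Real.log_nonneg (by exact_mod_cast hd)
  have hF0 : 0 ≤ F := by positivity
  have horth := b16_orth d a P ha
  rw [← hS] at horth
  have hinv : IsUnit ((a : ZMod d)⁻¹) := by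
    rw [← ZMod.coe_unitOfCoprime a ha, ZMod.inv_coe_unit]
    exact Units.isUnit _
  have hone : (1 : DirichletCharacter ℂ d) ((a : ZMod d)⁻¹) = 1 := MulChar.one_apply hinv
  have hprin : ∑ n ∈ Icc 1 P, (1 : DirichletCharacter ℂ d) (n : ZMod d) * (vm n : ℂ) * (kf P n : ℂ) =
      ((∑ n ∈ Icc 1 P, vm n * kf P n -
        ∑ n ∈ (Icc 1 P).filter (fun n : ℕ => ¬ n.Coprime d), vm n * kf P n : ℝ) : ℂ) := by
    have h2 : ∑ n ∈ Icc 1 P, vm n * kf P n =
        ∑ n ∈ (Icc 1 P).filter (fun n : ℕ => n.Coprime d), vm n * kf P n +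
        ∑ n ∈ (Icc 1 P).filter (fun n : ℕ => ¬ n.Coprime d), vm n * kf P n :=
      (sum_filter_add_sum_filter_not _ _ _).symm
    rw [h2, add_sub_cancel_right, sum_filter, Complex.ofReal_sum]
    refine sum_congr rfl fun n _ => ?_
    by_cases h3 : n.Coprime d
    · rw [if_pos h3, MulChar.one_apply ((ZMod.isUnit_iff_coprime n d).mpr h3), one_mul]
      push_cast
      ring
    · rw [if_neg h3, MulChar.map_nonunit _ (fun h => h3 ((ZMod.isUnit_iff_coprime n d).mp h))]
      simp
  have hcard : (Finset.univ : Finset (DirichletCharacter ℂ d)).card = d.totient := by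
    rw [Finset.card_univ, ← Nat.card_eq_fintype_card]
    exact DirichletCharacter.card_eq_totient_of_hasEnoughRootsOfUnity ℂ d
  have hsplit := Finset.add_sum_erase (Finset.univ : Finset (DirichletCharacter ℂ d))
    (fun χ => χ ((a : ZMod d)⁻¹) * ∑ n ∈ Icc 1 P, χ (n : ZMod d) * (vm n : ℂ) * (kf P n : ℂ))
    (Finset.mem_univ 1)
  have herase : (Finset.univ : Finset (DirichletCharacter ℂ d)).erase 1 =
      (Finset.univ : Finset (DirichletCharacter ℂ d)).filter (fun χ => χ ≠ 1) := by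
    ext χ
    rw [mem_erase, mem_filter]
    tauto
  have hnorm : ‖∑ χ ∈ (Finset.univ : Finset (DirichletCharacter ℂ d)).erase 1,
      χ ((a : ZMod d)⁻¹) * ∑ n ∈ Icc 1 P, χ (n : ZMod d) * (vm n : ℂ) * (kf P n : ℂ)‖ ≤
      ∑ q ∈ d.divisors.filter (fun q => 1 < q), prim q (fun χ => S1 P χ) +
        ((d.totient : ℝ) - 1) * F := by
    refine (norm_sum_le _ _).trans ?_
    have h4 : ∀ χ ∈ (Finset.univ : Finset (DirichletCharacter ℂ d)).erase 1,
        ‖χ ((a : ZMod d)⁻¹) * ∑ n ∈ Icc 1 P, χ (n : ZMod d) * (vm n : ℂ) * (kf P n : ℂ)‖ ≤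
          S1 P χ.primitiveCharacter + F := by
      intro χ _
      rw [norm_mul]
      have h5 : ‖χ ((a : ZMod d)⁻¹)‖ ≤ 1 := DirichletCharacter.norm_le_one χ _
      calc _ ≤ 1 * S1 P χ := mul_le_mul_of_nonneg_right h5 (norm_nonneg _)
        _ ≤ S1 P χ.primitiveCharacter + F := by
          rw [one_mul]
          exact S1_induced P d hP χ
    refine (sum_le_sum h4).trans ?_
    rw [sum_add_distrib, sum_const, nsmul_eq_mul, Finset.card_erase_of_mem (Finset.mem_univ _),
      hcard, Nat.cast_sub hφ, Nat.cast_one, herase]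
    exact add_le_add (sum_induced P d) le_rfl
  set R : ℝ := ∑ q ∈ d.divisors.filter (fun q => 1 < q), prim q (fun χ => S1 P χ) with hR
  set E : ℝ := |∑ n ∈ Icc 1 P, vm n * kf P n - P| with hE
  have hmain : ‖(((d.totient : ℝ) * S - P : ℝ) : ℂ)‖ ≤ E + F + (R + ((d.totient : ℝ) - 1) * F) := by
    have h7 : (((d.totient : ℝ) * S - P : ℝ) : ℂ) =
        (((∑ n ∈ Icc 1 P, vm n * kf P n - P) -
          ∑ n ∈ (Icc 1 P).filter (fun n : ℕ => ¬ n.Coprime d), vm n * kf P n : ℝ) : ℂ) +
        ∑ χ ∈ (Finset.univ : Finset (DirichletCharacter ℂ d)).erase 1,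
          χ ((a : ZMod d)⁻¹) * ∑ n ∈ Icc 1 P, χ (n : ZMod d) * (vm n : ℂ) * (kf P n : ℂ) := by
      have h8 : (((d.totient : ℝ) * S - P : ℝ) : ℂ) = (d.totient : ℂ) * (S : ℂ) - P := by
        push_cast
        ring
      rw [h8, horth, ← hsplit]
      rw [hone, hprin]
      push_cast
      ring
    rw [h7]
    refine (norm_add_le _ _).trans (add_le_add ?_ hnorm)
    rw [Complex.norm_real, Real.norm_eq_abs]
    refine (abs_sub _ _).trans (add_le_add le_rfl ?_)
    rw [abs_of_nonneg (sum_nonneg fun n _ => mul_nonneg (b16_vm_nonneg n) (b16_kf_nonneg P n))]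
    exact sum_noncoprime P d hP hd
  rw [Complex.norm_real, Real.norm_eq_abs] at hmain
  have hEE : EE P d a = ((d.totient : ℝ) * S - P) / d.totient := by
    unfold EE
    rw [← hS]
    field_simp
  rw [hEE, abs_div, abs_of_pos hφ0, div_le_iff₀ hφ0]
  refine hmain.trans ?_
  have h9 : (1 / (d.totient : ℝ) * R + E / d.totient + 4 * Real.log P ^ 2 * Real.log d) * d.totient
      = R + E + (2 * F) * d.totient := by
    rw [hF]
    field_simp
    ring
  rw [h9]
  nlinarith [mul_nonneg hF0 hφ0.le]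

end Pool.Agent.Lib.MP_d9bc60_nt.AP
end
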