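import Pool.Agent.Lib.MP_d9bc60_nt.AQ.QDefs
import Pool.Agent.Lib.MP_d9bc60_nt.UV.PTauber

section
/-! Row B04 (about 150 lines): `log⁺(P/n)` as an integral of characters `n ↦ n^{-s}`. -/

set_option autoImplicit false

namespace Pool.Agent.Lib.MP_d9bc60_nt.AP

open Finset Pool.Agent.Lib.MP_d9bc60_nt.UV

section b04

open MeasureTheory Filter Topology Complex FourierTransform

/-- the kernel on the positive side -/
private noncomputable def b04_k (σ : ℝ) (u : ℝ) : ℂ := ((max 0 u * Real.exp (-σ * u) : ℝ) : ℂ)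

private lemma b04_cont (σ : ℝ) : Continuous (b04_k σ) := by
  unfold b04_k
  fun_prop

private lemma b04_int (σ : ℝ) (hσ : 0 < σ) : Integrable (b04_k σ) := by
  have h1 : IntegrableOn (fun x : ℝ => x ^ (1 : ℝ) * Real.exp (-σ * x ^ (1 : ℝ))) (Set.Ioi 0) :=
    integrableOn_rpow_mul_exp_neg_mul_rpow (by norm_num) (by norm_num) hσ
  have h2 : Integrable ((Set.Ioi (0 : ℝ)).indicator
      (fun x : ℝ => x ^ (1 : ℝ) * Real.exp (-σ * x ^ (1 : ℝ)))) :=
    (integrable_indicator_iff measurableSet_Ioi).mpr h1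
  have h3 : Integrable (fun u : ℝ => max 0 u * Real.exp (-σ * u)) := by
   refine h2.congr (Eventually.of_forall fun x => ?_)
   simp only [Real.rpow_one]
   by_cases hx : 0 < x
   · rw [Set.indicator_of_mem (Set.mem_Ioi.mpr hx), max_eq_right hx.le]
   · rw [Set.indicator_of_notMem (by simpa using hx), max_eq_left (not_lt.mp hx), zero_mul]
  exact h3.ofReal

private lemma b04_decay (σ : ℝ) (hσ : 0 < σ) :
    Tendsto (fun u : ℝ => u * Real.exp (-σ * u)) atTop (𝓝 0) := by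
  have h := tendsto_rpow_mul_exp_neg_mul_atTop_nhds_zero 1 σ hσ
  simpa using h

private lemma b04_decay0 (σ : ℝ) (hσ : 0 < σ) :
    Tendsto (fun u : ℝ => Real.exp (-σ * u)) atTop (𝓝 0) := by
  have h := tendsto_rpow_mul_exp_neg_mul_atTop_nhds_zero 0 σ hσ
  simpa using h

private lemma b04_laplace (s : ℂ) (hs : 0 < s.re) :
    ∫ u in Set.Ioi (0 : ℝ), (u : ℂ) * cexp (-s * u) = 1 / s ^ 2 := by
  have hs0 : s ≠ 0 := by
    rintro rfl
    simp at hs
  have hn : ∀ u : ℝ, ‖cexp (-s * u)‖ = Real.exp (-s.re * u) := by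
    intro u
    rw [Complex.norm_exp]
    congr 1
    simp
  have hint : IntegrableOn (fun u : ℝ => (u : ℂ) * cexp (-s * u)) (Set.Ioi 0) := by
    have h1 : IntegrableOn (fun x : ℝ => x ^ (1 : ℝ) * Real.exp (-s.re * x ^ (1 : ℝ)))
        (Set.Ioi 0) := integrableOn_rpow_mul_exp_neg_mul_rpow (by norm_num) (by norm_num) hs
    refine Integrable.mono' h1 (by fun_prop) ?_
    refine (ae_restrict_iff' measurableSet_Ioi).mpr (Eventually.of_forall fun u hu => ?_)
    rw [norm_mul, hn, Real.rpow_one, Complex.norm_real, Real.norm_of_nonneg (le_of_lt hu)]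
  have hd : ∀ u ∈ Set.Ici (0 : ℝ), HasDerivAt
      (fun u : ℝ => -((u : ℂ) / s + 1 / s ^ 2) * cexp (-s * u)) ((u : ℂ) * cexp (-s * u)) u := by
    intro u _
    have h1 : HasDerivAt (fun u : ℝ => (u : ℂ)) 1 u := Complex.ofRealCLM.hasDerivAt
    have h2 : HasDerivAt (fun u : ℝ => cexp (-s * u)) (cexp (-s * u) * (-s * 1)) u :=
      (h1.const_mul (-s)).cexp
    have h3 : HasDerivAt (fun u : ℝ => -((u : ℂ) / s + 1 / s ^ 2)) (-(1 / s)) u :=
      ((h1.div_const s).add_const _).neg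
    have h4 := h3.mul h2
    refine h4.congr_deriv ?_
    field_simp
    ring
  have hlim : Tendsto (fun u : ℝ => -((u : ℂ) / s + 1 / s ^ 2) * cexp (-s * u)) atTop (𝓝 0) := by
    have h1 := (b04_decay s.re hs).const_mul (1 / ‖s‖)
    have h2 := (b04_decay0 s.re hs).const_mul (1 / ‖s‖ ^ 2)
    have h3 := h1.add h2
    rw [mul_zero, mul_zero, add_zero] at h3
    refine squeeze_zero_norm' ?_ h3
    filter_upwards [eventually_ge_atTop (0 : ℝ)] with u hu
    rw [norm_mul, norm_neg, hn]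
    have h4 : ‖(u : ℂ) / s + 1 / s ^ 2‖ ≤ u / ‖s‖ + 1 / ‖s‖ ^ 2 := by
      refine (norm_add_le _ _).trans (le_of_eq ?_)
      rw [norm_div, norm_div, norm_pow, norm_one, Complex.norm_real, Real.norm_of_nonneg hu]
    calc _ ≤ (u / ‖s‖ + 1 / ‖s‖ ^ 2) * Real.exp (-s.re * u) :=
          mul_le_mul_of_nonneg_right h4 (Real.exp_pos _).le
      _ = _ := by ring
  rw [integral_Ioi_of_hasDerivAt_of_tendsto' hd hint hlim]
  simp

private lemma b04_fourier (σ : ℝ) (hσ : 0 < σ) (ξ : ℝ) :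
    𝓕 (b04_k σ) ξ = 1 / ((σ : ℂ) + (2 * Real.pi * ξ : ℝ) * I) ^ 2 := by
  rw [Real.fourier_real_eq_integral_exp_smul, ← b04_laplace _ (by simpa using hσ),
    ← integral_indicator measurableSet_Ioi]
  refine integral_congr_ae (Eventually.of_forall fun u => ?_)
  simp only [smul_eq_mul]
  by_cases hu : 0 < u
  · rw [Set.indicator_of_mem (Set.mem_Ioi.mpr hu)]
    unfold b04_k
    rw [max_eq_right hu.le]
    push_cast
    rw [mul_left_comm, ← Complex.exp_add]
    congr 2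
    ring
  · rw [Set.indicator_of_notMem (by simpa using hu)]
    unfold b04_k
    rw [max_eq_left (not_lt.mp hu), zero_mul]
    simp

private lemma b04_norm_sq (σ ξ : ℝ) :
    ‖(σ : ℂ) + (2 * Real.pi * ξ : ℝ) * I‖ ^ 2 = σ ^ 2 + (2 * Real.pi * ξ) ^ 2 := by
  rw [← Complex.normSq_eq_norm_sq, Complex.normSq_add_mul_I]

private lemma b04_scale (σ ξ : ℝ) (hσ : 0 < σ) :
    1 / (σ ^ 2 + (2 * Real.pi * ξ) ^ 2) = (σ ^ 2)⁻¹ * (1 + (2 * Real.pi / σ * ξ) ^ 2)⁻¹ := by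
  rw [← mul_inv, one_div]
  congr 1
  field_simp

private lemma b04_dom_int (σ : ℝ) (hσ : 0 < σ) :
    Integrable (fun ξ : ℝ => 1 / (σ ^ 2 + (2 * Real.pi * ξ) ^ 2)) := by
  have h1 : Integrable (fun ξ : ℝ => (1 + (2 * Real.pi / σ * ξ) ^ 2)⁻¹) :=
    integrable_inv_one_add_sq.comp_mul_left' (by positivity : (2 * Real.pi / σ : ℝ) ≠ 0)
  refine (h1.const_mul ((σ ^ 2)⁻¹)).congr (Eventually.of_forall fun ξ => ?_)
  exact (b04_scale σ ξ hσ).symm

private lemma b04_dom_val (σ : ℝ) (hσ : 0 < σ) :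
    ∫ ξ : ℝ, 1 / (σ ^ 2 + (2 * Real.pi * ξ) ^ 2) = 1 / (2 * σ) := by
  have h1 : ∫ ξ : ℝ, 1 / (σ ^ 2 + (2 * Real.pi * ξ) ^ 2) =
      ∫ ξ : ℝ, (σ ^ 2)⁻¹ * (1 + (2 * Real.pi / σ * ξ) ^ 2)⁻¹ :=
    integral_congr_ae (Eventually.of_forall fun ξ => b04_scale σ ξ hσ)
  rw [h1, integral_const_mul,
    Measure.integral_comp_mul_left (fun x : ℝ => (1 + x ^ 2)⁻¹) (2 * Real.pi / σ),
    integral_univ_inv_one_add_sq, abs_of_pos (by positivity), smul_eq_mul]
  have := Real.pi_pos.ne'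
  field_simp

private lemma b04_aesm (σ : ℝ) (hσ : 0 < σ) :
    Continuous (fun ξ : ℝ => 1 / ((σ : ℂ) + (2 * Real.pi * ξ : ℝ) * I) ^ 2) := by
  refine continuous_const.div (by fun_prop) fun ξ => ?_
  intro h
  have h2 := b04_norm_sq σ ξ
  rw [pow_eq_zero_iff (by norm_num)] at h
  rw [h, norm_zero] at h2
  have : 0 < σ ^ 2 + (2 * Real.pi * ξ) ^ 2 := by positivity
  nlinarith

private lemma b04_fint (σ : ℝ) (hσ : 0 < σ) :
    Integrable (fun ξ : ℝ => 1 / ((σ : ℂ) + (2 * Real.pi * ξ : ℝ) * I) ^ 2) := by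
  refine (b04_dom_int σ hσ).mono' (b04_aesm σ hσ).aestronglyMeasurable
    (Eventually.of_forall fun ξ => le_of_eq ?_)
  rw [norm_div, norm_one, norm_pow, b04_norm_sq]

private lemma b04_inv (σ : ℝ) (hσ : 0 < σ) (u : ℝ) :
    b04_k σ u = ∫ ξ : ℝ, cexp (((2 * Real.pi * (ξ * u) : ℝ) : ℂ) * I) *
      (1 / ((σ : ℂ) + (2 * Real.pi * ξ : ℝ) * I) ^ 2) := by
  have hf : 𝓕 (b04_k σ) = fun ξ : ℝ => 1 / ((σ : ℂ) + (2 * Real.pi * ξ : ℝ) * I) ^ 2 :=
    funext fun ξ => b04_fourier σ hσ ξ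
  have h := (b04_cont σ).fourierInv_fourier_eq (b04_int σ hσ) (by rw [hf]; exact b04_fint σ hσ)
  have h2 := congrFun h u
  rw [← h2, Real.fourierInv_eq', hf]
  refine integral_congr_ae (Eventually.of_forall fun ξ => ?_)
  simp only [smul_eq_mul]
  rw [real_inner_eq_re_inner, RCLike.inner_apply]
  simp [mul_comm]

end b04

/-- Proof. `σ = 1/log P`, `τ ξ n = n^{-σ-2πiξ}` for `n ≥ 1`, `0` for `n = 0`, `h ξ = P^{σ+2πiξ}/(σ+2πiξ)²`.
`‖h ξ‖ = e/(σ²+4π²ξ²)`, `∫ dξ/(σ²+4π²ξ²) = 1/(2σ)`. Fourier inversion for `g(y) = max(0,y) e^{-σy}`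
(continuous, integrable, transform `1/(σ+2πiξ)²` integrable): `g(y) = ∫ e^{2πiξy}/(σ+2πiξ)² dξ`, at
`y = log(P/n)`. The first part of `UV.PTauber` (`riesz_fourier` and the lemmas before it) contains this
identity or a close variant (for `max(0,-v) e^{σv}`). -/
theorem kf_int (P : ℕ) (hP : 3 ≤ P) : ∃ (h : ℝ → ℂ) (τ : ℝ → ℕ → ℂ), MeasureTheory.Integrable h ∧
    (∫ ξ, ‖h ξ‖) ≤ 2 * Real.log P ∧ (∀ ξ n, ‖τ ξ n‖ ≤ 1) ∧
    (∀ ξ m k, 1 ≤ m → 1 ≤ k → τ ξ (m * k) = τ ξ m * τ ξ k) ∧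
    (∀ n, Continuous (fun ξ => τ ξ n)) ∧ ∀ n : ℕ, 1 ≤ n → (kf P n : ℂ) = ∫ ξ, h ξ * τ ξ n := by
  have hPR : (3 : ℝ) ≤ P := by exact_mod_cast hP
  have hP0 : (0 : ℝ) < P := by linarith
  have hlog : 0 < Real.log P := Real.log_pos (by linarith)
  set σ : ℝ := 1 / Real.log P with hσ
  have hσ0 : 0 < σ := by positivity
  have hσl : σ * Real.log P = 1 := by
    rw [hσ]; field_simp
  set D : ℝ → ℂ := fun ξ => (σ : ℂ) + (2 * Real.pi * ξ : ℝ) * Complex.I with hD
  have hDre : ∀ ξ, (D ξ).re = σ := by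
    intro ξ
    simp [hD]
  have hnorm : ∀ ξ, ‖Complex.exp (D ξ * (Real.log P : ℂ)) * (1 / D ξ ^ 2)‖ =
      Real.exp 1 * (1 / (σ ^ 2 + (2 * Real.pi * ξ) ^ 2)) := by
    intro ξ
    rw [norm_mul, Complex.norm_exp, norm_div, norm_one, norm_pow, b04_norm_sq,
      Complex.re_mul_ofReal, hDre, hσl]
  refine ⟨fun ξ => Complex.exp (D ξ * (Real.log P : ℂ)) * (1 / D ξ ^ 2),
    fun ξ n => if n = 0 then 0 else Complex.exp (-(D ξ * (Real.log n : ℂ))), ?_, ?_, ?_, ?_, ?_, ?_⟩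
  · refine ((b04_dom_int σ hσ0).const_mul (Real.exp 1)).mono' ?_
      (Filter.Eventually.of_forall fun ξ => (hnorm ξ).le)
    refine Continuous.aestronglyMeasurable ?_
    refine Continuous.mul ?_ (b04_aesm σ hσ0)
    fun_prop
  · have h1 : (∫ ξ, ‖Complex.exp (D ξ * (Real.log P : ℂ)) * (1 / D ξ ^ 2)‖) =
        Real.exp 1 * (1 / (2 * σ)) := by
      rw [← b04_dom_val σ hσ0, ← MeasureTheory.integral_const_mul]
      exact MeasureTheory.integral_congr_ae (Filter.Eventually.of_forall fun ξ => hnorm ξ)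
    refine h1.le.trans ?_
    have h2 : 1 / (2 * σ) = Real.log P / 2 := by
      rw [hσ]; field_simp
    rw [h2]
    have h3 := Real.exp_one_lt_d9
    nlinarith
  · intro ξ n
    by_cases hn : n = 0
    · simp [hn]
    · simp only [hn, if_false]
      rw [Complex.norm_exp]
      have h1 : (-(D ξ * (Real.log n : ℂ))).re = -(σ * Real.log n) := by
        rw [Complex.neg_re, Complex.re_mul_ofReal, hDre]
      rw [h1]
      have h2 : 0 ≤ Real.log n := Real.log_natCast_nonneg n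
      exact Real.exp_le_one_iff.mpr (by nlinarith [mul_nonneg hσ0.le h2])
  · intro ξ m k hm hk
    have hm0 : m ≠ 0 := by omega
    have hk0 : k ≠ 0 := by omega
    have hmk : m * k ≠ 0 := mul_ne_zero hm0 hk0
    simp only [hm0, hk0, hmk, if_false]
    rw [← Complex.exp_add]
    congr 1
    have h1 : Real.log ((m * k : ℕ) : ℝ) = Real.log m + Real.log k := by
      push_cast
      exact Real.log_mul (by exact_mod_cast hm0) (by exact_mod_cast hk0)
    rw [h1]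
    push_cast
    ring
  · intro n
    by_cases hn : n = 0
    · simp only [hn, if_true]; exact continuous_const
    · simp only [hn, if_false]
      fun_prop
  · intro n hn
    have hn0 : n ≠ 0 := by omega
    have hnR : (0 : ℝ) < n := by exact_mod_cast hn
    have hk := b04_inv σ hσ0 (Real.log (P / n))
    have h1 : (kf P n : ℂ) = Complex.exp ((σ * Real.log (P / n) : ℝ) : ℂ) *
        b04_k σ (Real.log (P / n)) := by
      unfold b04_k kf
      rw [← Complex.ofReal_exp, ← Complex.ofReal_mul]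
      congr 1
      rw [mul_left_comm, ← Real.exp_add]
      simp
    rw [h1, hk, ← MeasureTheory.integral_const_mul]
    refine MeasureTheory.integral_congr_ae (Filter.Eventually.of_forall fun ξ => ?_)
    simp only [hn0, if_false]
    have h2 : Complex.exp ((σ * Real.log (P / n) : ℝ) : ℂ) *
        Complex.exp (((2 * Real.pi * (ξ * Real.log (P / n)) : ℝ) : ℂ) * Complex.I) =
        Complex.exp (D ξ * (Real.log P : ℂ)) * Complex.exp (-(D ξ * (Real.log n : ℂ))) := by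
      rw [← Complex.exp_add, ← Complex.exp_add, Real.log_div hP0.ne' hnR.ne']
      congr 1
      simp only [hD]
      push_cast
      ring
    rw [← mul_assoc, h2]
    ring

end Pool.Agent.Lib.MP_d9bc60_nt.AP
end

section
/-! Row B05 (about 110 lines): separation of variables. -/

set_option autoImplicit false

namespace Pool.Agent.Lib.MP_d9bc60_nt.AP

open Finset Pool.Agent.Lib.MP_d9bc60_nt.UV

private lemma b05_cont (τ : ℝ → ℕ → ℂ) (hc : ∀ n, Continuous (fun ξ => τ ξ n)) (S : Finset ℕ) (f : ℕ → ℂ) :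
    Continuous (fun ξ => ∑ m ∈ S, f m * τ ξ m) :=
  continuous_finsetSum _ fun m _ => continuous_const.mul (hc m)

private lemma b05_bdd (τ : ℝ → ℕ → ℂ) (hτ : ∀ ξ n, ‖τ ξ n‖ ≤ 1) (S : Finset ℕ) (f : ℕ → ℂ) (ξ : ℝ) :
    ‖∑ m ∈ S, f m * τ ξ m‖ ≤ ∑ m ∈ S, ‖f m‖ := by
  refine (norm_sum_le _ _).trans (Finset.sum_le_sum fun m _ => ?_)
  rw [norm_mul]
  exact mul_le_of_le_one_right (norm_nonneg _) (hτ ξ m)

private lemma b05_int (h : ℝ → ℂ) (hh : MeasureTheory.Integrable h) (F : ℝ → ℂ) (hF : Continuous F) (C : ℝ)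
    (hC : ∀ ξ, ‖F ξ‖ ≤ C) : MeasureTheory.Integrable (fun ξ => h ξ * F ξ) := by
  refine MeasureTheory.Integrable.mono' (hh.norm.mul_const C)
    (hh.aestronglyMeasurable.mul hF.aestronglyMeasurable) ?_
  refine Filter.Eventually.of_forall fun ξ => ?_
  rw [norm_mul]
  exact mul_le_mul_of_nonneg_left (hC ξ) (norm_nonneg _)

/-- Proof. `kf_int` with `n = mk`, exchange of the finite sums and the integral (all integrands are
integrable: `h` times bounded continuous): the left side is at most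
`∫ ‖h ξ‖ ∑_i w_i ‖∑_m f_i(m) τ_ξ(m)‖ ‖∑_k g_i(k) τ_ξ(k)‖ dξ ≤ 2 log P · E`. -/
theorem sep {ι : Type*} (P : ℕ) (hP : 3 ≤ P) (I : Finset ι) (w : ι → ℝ) (hw : ∀ i ∈ I, 0 ≤ w i)
    (f g : ι → ℕ → ℂ) (S T : Finset ℕ) (hS : ∀ m ∈ S, 1 ≤ m) (hT : ∀ k ∈ T, 1 ≤ k) (E : ℝ)
    (hE : ∀ τ : ℕ → ℂ, (∀ n, ‖τ n‖ ≤ 1) →
      ∑ i ∈ I, w i * (‖∑ m ∈ S, f i m * τ m‖ * ‖∑ k ∈ T, g i k * τ k‖) ≤ E) :
    ∑ i ∈ I, w i * ‖∑ m ∈ S, ∑ k ∈ T, f i m * g i k * (kf P (m * k) : ℂ)‖ ≤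
      2 * Real.log P * E := by
  obtain ⟨h, τ, hint, hnorm, hτ, hmul, hcont, heq⟩ := kf_int P hP
  have hE0 : 0 ≤ E := by
    refine le_trans ?_ (hE 0 (by simp))
    exact Finset.sum_nonneg fun i hi => mul_nonneg (hw i hi) (by positivity)
  -- the exchange for one `i`
  have hone : ∀ i ∈ I, ∑ m ∈ S, ∑ k ∈ T, f i m * g i k * (kf P (m * k) : ℂ) =
      ∫ ξ, h ξ * ((∑ m ∈ S, f i m * τ ξ m) * (∑ k ∈ T, g i k * τ ξ k)) := by
    intro i _
    have h1 : ∀ m ∈ S, ∀ k ∈ T, f i m * g i k * (kf P (m * k) : ℂ) =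
        ∫ ξ, h ξ * ((f i m * τ ξ m) * (g i k * τ ξ k)) := by
      intro m hm k hk
      have hmk : 1 ≤ m * k := Nat.mul_pos (hS m hm) (hT k hk)
      rw [heq (m * k) hmk, ← MeasureTheory.integral_const_mul]
      refine MeasureTheory.integral_congr_ae (Filter.Eventually.of_forall fun ξ => ?_)
      dsimp only
      rw [hmul ξ m k (hS m hm) (hT k hk)]
      ring
    have hI : ∀ m ∈ S, ∀ k ∈ T, MeasureTheory.Integrable
        (fun ξ => h ξ * ((f i m * τ ξ m) * (g i k * τ ξ k))) := by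
      intro m _ k _
      refine b05_int h hint _ ((continuous_const.mul (hcont m)).mul (continuous_const.mul (hcont k)))
        (‖f i m‖ * ‖g i k‖) fun ξ => ?_
      rw [norm_mul, norm_mul, norm_mul]
      refine mul_le_mul ?_ ?_ (by positivity) (by positivity)
      · exact mul_le_of_le_one_right (norm_nonneg _) (hτ ξ m)
      · exact mul_le_of_le_one_right (norm_nonneg _) (hτ ξ k)
    rw [Finset.sum_congr rfl fun m hm => Finset.sum_congr rfl fun k hk => h1 m hm k hk]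
    rw [Finset.sum_congr rfl fun m hm =>
      (MeasureTheory.integral_finset_sum T fun k hk => hI m hm k hk).symm]
    rw [← MeasureTheory.integral_finset_sum S fun m hm =>
      MeasureTheory.integrable_finset_sum T fun k hk => hI m hm k hk]
    refine MeasureTheory.integral_congr_ae (Filter.Eventually.of_forall fun ξ => ?_)
    dsimp only
    rw [Finset.sum_mul_sum, Finset.mul_sum]
    refine Finset.sum_congr rfl fun m _ => ?_
    rw [Finset.mul_sum]
  have hFc : ∀ i, Continuous (fun ξ => (∑ m ∈ S, f i m * τ ξ m) * (∑ k ∈ T, g i k * τ ξ k)) :=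
    fun i => (b05_cont τ hcont S (f i)).mul (b05_cont τ hcont T (g i))
  have hFb : ∀ i ξ, ‖(∑ m ∈ S, f i m * τ ξ m) * (∑ k ∈ T, g i k * τ ξ k)‖ ≤
      (∑ m ∈ S, ‖f i m‖) * (∑ k ∈ T, ‖g i k‖) := by
    intro i ξ
    rw [norm_mul]
    exact mul_le_mul (b05_bdd τ hτ S (f i) ξ) (b05_bdd τ hτ T (g i) ξ) (norm_nonneg _)
      (Finset.sum_nonneg fun _ _ => norm_nonneg _)
  have hFI : ∀ i, MeasureTheory.Integrable (fun ξ => w i * ‖h ξ * ((∑ m ∈ S, f i m * τ ξ m) *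
      (∑ k ∈ T, g i k * τ ξ k))‖) := fun i =>
    ((b05_int h hint _ (hFc i) _ (hFb i)).norm).const_mul (w i)
  calc ∑ i ∈ I, w i * ‖∑ m ∈ S, ∑ k ∈ T, f i m * g i k * (kf P (m * k) : ℂ)‖
      ≤ ∑ i ∈ I, ∫ ξ, w i * ‖h ξ * ((∑ m ∈ S, f i m * τ ξ m) * (∑ k ∈ T, g i k * τ ξ k))‖ := by
        refine Finset.sum_le_sum fun i hi => ?_
        rw [hone i hi, MeasureTheory.integral_const_mul]
        exact mul_le_mul_of_nonneg_left (MeasureTheory.norm_integral_le_integral_norm _) (hw i hi)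
    _ = ∫ ξ, ∑ i ∈ I, w i * ‖h ξ * ((∑ m ∈ S, f i m * τ ξ m) * (∑ k ∈ T, g i k * τ ξ k))‖ := by
        rw [MeasureTheory.integral_finset_sum I fun i _ => hFI i]
    _ ≤ ∫ ξ, ‖h ξ‖ * E := by
        refine MeasureTheory.integral_mono (MeasureTheory.integrable_finset_sum I fun i _ => hFI i)
          (hint.norm.mul_const E) fun ξ => ?_
        dsimp only
        refine le_trans (le_of_eq ?_) (mul_le_mul_of_nonneg_left (hE (τ ξ) (hτ ξ)) (norm_nonneg _))
        rw [Finset.mul_sum]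
        refine Finset.sum_congr rfl fun i _ => ?_
        rw [norm_mul, norm_mul]
        ring
    _ = (∫ ξ, ‖h ξ‖) * E := MeasureTheory.integral_mul_const _ _
    _ ≤ 2 * Real.log P * E := mul_le_mul_of_nonneg_right hnorm hE0

end Pool.Agent.Lib.MP_d9bc60_nt.AP
end
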